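import Mathlib

set_option autoImplicit false

/-! Rado's theorem for a monotone submodular set function. -/

namespace Pool.Agent.H46.Faith

theorem rado_aux {ι Ω : Type*} [DecidableEq ι] [Fintype ι] [DecidableEq Ω]
    (f : Finset Ω → ℕ) (h0 : f ∅ = 0) (hmono : ∀ Y Z : Finset Ω, Y ⊆ Z → f Y ≤ f Z)
    (hsub : ∀ Y Z : Finset Ω, f (Y ∪ Z) + f (Y ∩ Z) ≤ f Y + f Z) :
    ∀ (n : ℕ) (A : ι → Finset Ω), ∑ i, (A i).card ≤ n →
      (∀ J : Finset ι, J.card ≤ f (J.biUnion A)) →
      ∃ x : ι → Ω, (∀ i, x i ∈ A i) ∧ ∀ J : Finset ι, J.card ≤ f (J.image x) := by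
  intro n
  induction n with
  | zero =>
    intro A hA h
    have hcard : ∀ i, (A i).card = 0 := by
      intro i
      have := Finset.single_le_sum (f := fun i => (A i).card) (fun i _ => Nat.zero_le _)
        (Finset.mem_univ i)
      omega
    have hemp : IsEmpty ι := by
      refine ⟨fun i => ?_⟩
      have h1 := h {i}
      rw [Finset.singleton_biUnion, Finset.card_eq_zero.mp (hcard i), h0] at h1
      simp at h1
    exact ⟨fun i => (hemp.false i).elim, fun i => (hemp.false i).elim, fun J => by
      have : J = ∅ := Finset.eq_empty_of_isEmpty J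
      simp [this]⟩
  | succ n ih =>
    intro A hA h
    by_cases hbig : ∃ i, 2 ≤ (A i).card
    · obtain ⟨i, hi⟩ := hbig
      obtain ⟨y, hy, z, hz, hyz⟩ := Finset.one_lt_card.mp hi
      have key : ∀ u ∈ A i, (∀ J : Finset ι, J.card ≤ f (J.biUnion (Function.update A i ((A i).erase u)))) →
          ∃ x : ι → Ω, (∀ i, x i ∈ A i) ∧ ∀ J : Finset ι, J.card ≤ f (J.image x) := by
        intro u hu hJ
        obtain ⟨x, hx, hx2⟩ := ih (Function.update A i ((A i).erase u)) (by
          have h1 : ∑ j, (Function.update A i ((A i).erase u) j).card < ∑ j, (A j).card := by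
            refine Finset.sum_lt_sum ?_ ⟨i, Finset.mem_univ _, ?_⟩
            · intro j _
              by_cases hj : j = i
              · subst hj; simp only [Function.update_self]
                exact Finset.card_le_card (Finset.erase_subset _ _)
              · simp [Function.update_of_ne hj]
            · simp only [Function.update_self]
              exact Finset.card_erase_lt_of_mem hu
          omega) hJ
        refine ⟨x, fun j => ?_, hx2⟩
        have := hx j
        by_cases hj : j = i
        · subst hj; simp only [Function.update_self] at this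
          exact Finset.mem_of_mem_erase this
        · rwa [Function.update_of_ne hj] at this
      by_contra hcon
      have hy' : ¬ ∀ J : Finset ι, J.card ≤ f (J.biUnion (Function.update A i ((A i).erase y))) :=
        fun hh => hcon (key y hy hh)
      have hz' : ¬ ∀ J : Finset ι, J.card ≤ f (J.biUnion (Function.update A i ((A i).erase z))) :=
        fun hh => hcon (key z hz hh)
      push Not at hy' hz'
      obtain ⟨J, hJ⟩ := hy'
      obtain ⟨J', hJ'⟩ := hz'
      have struct : ∀ (u : Ω) (J : Finset ι),
          f (J.biUnion (Function.update A i ((A i).erase u))) < J.card →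
          i ∈ J ∧ J.biUnion (Function.update A i ((A i).erase u)) =
            (A i).erase u ∪ (J.erase i).biUnion A := by
        intro u J hJ
        have hiJ : i ∈ J := by
          by_contra hiJ
          have : J.biUnion (Function.update A i ((A i).erase u)) = J.biUnion A := by
            refine Finset.biUnion_congr rfl ?_
            intro j hj
            rw [Function.update_of_ne]
            rintro rfl; exact hiJ hj
          rw [this] at hJ
          have := h J
          omega
        refine ⟨hiJ, ?_⟩
        conv_lhs => rw [← Finset.insert_erase hiJ]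
        rw [Finset.biUnion_insert]
        congr 1
        · simp
        · refine Finset.biUnion_congr rfl ?_
          intro j hj
          rw [Function.update_of_ne (Finset.ne_of_mem_erase hj)]
      obtain ⟨hiJ, hJeq⟩ := struct y J hJ
      obtain ⟨hiJ', hJeq'⟩ := struct z J' hJ'
      rw [hJeq] at hJ
      rw [hJeq'] at hJ'
      have e1 := Finset.card_erase_add_one hiJ
      have e2 := Finset.card_erase_add_one hiJ'
      have hs := hsub ((A i).erase y ∪ (J.erase i).biUnion A) ((A i).erase z ∪ (J'.erase i).biUnion A)
      have hU : (insert i (J.erase i ∪ J'.erase i)).biUnion A ⊆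
          ((A i).erase y ∪ (J.erase i).biUnion A) ∪ ((A i).erase z ∪ (J'.erase i).biUnion A) := by
        intro w hw
        simp only [Finset.mem_biUnion, Finset.mem_insert, Finset.mem_union] at hw ⊢
        obtain ⟨j, hj | hj | hj, hwj⟩ := hw
        · subst hj
          by_cases hwy : w = y
          · right; left
            rw [hwy] at hwj ⊢
            exact Finset.mem_erase.mpr ⟨hyz, hwj⟩
          · left; left
            exact Finset.mem_erase.mpr ⟨hwy, hwj⟩
        · left; right; exact ⟨j, hj, hwj⟩
        · right; right; exact ⟨j, hj, hwj⟩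
      have hI : (J.erase i ∩ J'.erase i).biUnion A ⊆
          ((A i).erase y ∪ (J.erase i).biUnion A) ∩ ((A i).erase z ∪ (J'.erase i).biUnion A) := by
        intro w hw
        simp only [Finset.mem_biUnion, Finset.mem_inter, Finset.mem_union] at hw ⊢
        obtain ⟨j, ⟨hj1, hj2⟩, hwj⟩ := hw
        exact ⟨Or.inr ⟨j, hj1, hwj⟩, Or.inr ⟨j, hj2, hwj⟩⟩
      have h1 := (h (insert i (J.erase i ∪ J'.erase i))).trans (hmono _ _ hU)
      have h2 := (h (J.erase i ∩ J'.erase i)).trans (hmono _ _ hI)
      rw [Finset.card_insert_of_notMem (by simp)] at h1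
      have h3 := Finset.card_union_add_card_inter (J.erase i) (J'.erase i)
      omega
    · push Not at hbig
      have hne : ∀ i, (A i).Nonempty := by
        intro i
        by_contra hcon
        rw [Finset.not_nonempty_iff_eq_empty] at hcon
        have h1 := h {i}
        rw [Finset.singleton_biUnion, hcon, h0] at h1
        simp at h1
      choose x hx using hne
      refine ⟨x, hx, fun J => (h J).trans ?_⟩
      refine hmono _ _ ?_
      intro w hw
      simp only [Finset.mem_biUnion] at hw
      obtain ⟨j, hj, hwj⟩ := hw
      have : w = x j := by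
        have hc := hbig j
        have hc' : (A j).card ≤ 1 := by omega
        exact Finset.card_le_one.mp hc' w hwj (x j) (hx j)
      rw [this]
      exact Finset.mem_image_of_mem _ hj

/-- Rado's theorem (submodular form). -/
theorem rado {ι Ω : Type*} [DecidableEq ι] [Fintype ι] [DecidableEq Ω]
    (f : Finset Ω → ℕ) (h0 : f ∅ = 0) (hmono : ∀ Y Z : Finset Ω, Y ⊆ Z → f Y ≤ f Z)
    (hsub : ∀ Y Z : Finset Ω, f (Y ∪ Z) + f (Y ∩ Z) ≤ f Y + f Z)
    (A : ι → Finset Ω) (h : ∀ J : Finset ι, J.card ≤ f (J.biUnion A)) :
    ∃ x : ι → Ω, (∀ i, x i ∈ A i) ∧ ∀ J : Finset ι, J.card ≤ f (J.image x) :=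
  rado_aux f h0 hmono hsub _ A le_rfl h

end Pool.Agent.H46.Faith
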