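import Mathlib

set_option autoImplicit false

/-! Boundary vectors over F_2, rank of an edge set, and a bound for the difference of ranks. -/

namespace Pool.Agent.H46.Faith

open Module

set_option linter.unusedSectionVars false

variable {V E : Type} [Fintype V] [DecidableEq V] [Fintype E] [DecidableEq E]

/-- boundary of an edge -/
def bd (s t : E → V) (e : E) : V → ZMod 2 := Pi.single (s e) 1 + Pi.single (t e) 1

/-- span of the boundaries of a set of edges -/
def sp (s t : E → V) (Y : Finset E) : Submodule (ZMod 2) (V → ZMod 2) :=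
  Submodule.span (ZMod 2) (bd s t '' (Y : Set E))

/-- functions constant along the edges of `Y` -/
def zz (s t : E → V) (Y : Finset E) : Submodule (ZMod 2) (V → ZMod 2) where
  carrier := {f | ∀ e ∈ Y, f (s e) = f (t e)}
  add_mem' := by
    intro a b ha hb e he
    simp only [Pi.add_apply]
    rw [ha e he, hb e he]
  zero_mem' := by intro e _; rfl
  smul_mem' := by
    intro c f hf e he
    simp only [Pi.smul_apply]
    rw [hf e he]

lemma mem_zz {s t : E → V} {Y : Finset E} {f : V → ZMod 2} :
    f ∈ zz s t Y ↔ ∀ e ∈ Y, f (s e) = f (t e) := Iff.rfl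

lemma zz_anti {s t : E → V} {Y Y' : Finset E} (h : Y ⊆ Y') : zz s t Y' ≤ zz s t Y := by
  intro f hf e he
  exact hf e (h he)

lemma sp_mono {s t : E → V} {Y Y' : Finset E} (h : Y ⊆ Y') : sp s t Y ≤ sp s t Y' :=
  Submodule.span_mono (Set.image_mono (by exact_mod_cast h))

lemma finrank_sp_add_finrank_zz (s t : E → V) (Y : Finset E) :
    finrank (ZMod 2) (sp s t Y) + finrank (ZMod 2) (zz s t Y) = Fintype.card V := by
  classical
  let M : Matrix Y V (ZMod 2) := fun e => bd s t e.1
  have h1 : M.rank = finrank (ZMod 2) (sp s t Y) := by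
    rw [Matrix.rank_eq_finrank_span_row]
    have : Set.range M.row = bd s t '' (Y : Set E) := by
      ext x
      constructor
      · rintro ⟨e, rfl⟩
        exact ⟨e.1, e.2, rfl⟩
      · rintro ⟨e, he, rfl⟩
        exact ⟨⟨e, he⟩, rfl⟩
    rw [this]
    rfl
  have h2 : LinearMap.ker M.mulVecLin = zz s t Y := by
    ext f
    rw [LinearMap.mem_ker, mem_zz]
    have hval : ∀ e : Y, M.mulVecLin f e = f (s e.1) + f (t e.1) := by
      intro e
      rw [Matrix.mulVecLin_apply]
      change ∑ v, bd s t e.1 v * f v = _
      simp only [bd, Pi.add_apply, add_mul, Finset.sum_add_distrib, Pi.single_apply, ite_mul,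
        one_mul, zero_mul, Finset.sum_ite_eq', Finset.mem_univ, if_true]
    constructor
    · intro h e he
      have := congrFun h ⟨e, he⟩
      rw [hval] at this
      have h3 : f (s e) = - f (t e) := eq_neg_of_add_eq_zero_left this
      rw [h3, ZMod.neg_eq_self_mod_two]
    · intro h
      funext e
      rw [hval, h e.1 e.2]
      exact CharTwo.add_self_eq_zero _
  have h3 := LinearMap.finrank_range_add_finrank_ker M.mulVecLin
  rw [h2] at h3
  rw [← h1]
  rw [Module.finrank_fintype_fun_eq_card] at h3
  exact h3

/-- Two vertices not separated by any function constant along `Y`. -/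
def same (s t : E → V) (Y : Finset E) (u v : V) : Prop := ∀ f ∈ zz s t Y, f u = f v

lemma same_of_mem {s t : E → V} {Y : Finset E} {e : E} (he : e ∈ Y) : same s t Y (s e) (t e) :=
  fun _ hf => hf e he

def sameSetoid (s t : E → V) (Y : Finset E) : Setoid V where
  r := same s t Y
  iseqv := ⟨fun _ _ _ => rfl, fun h f hf => (h f hf).symm,
    fun h h' f hf => (h f hf).trans (h' f hf)⟩

open Classical in
lemma rank_diff (s t : E → V) (Y E' : Finset E) (x : E → ℚ)
    (hx0 : ∀ e, 0 ≤ x e)
    (hx : ∀ X : Finset V, (∃ e ∈ E', ¬ (s e ∈ X ↔ t e ∈ X)) →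
      2 ≤ ∑ e ∈ E'.filter (fun e => ¬ (s e ∈ X ↔ t e ∈ X)), x e) :
    (finrank (ZMod 2) (sp s t E') : ℚ) - finrank (ZMod 2) (sp s t Y) ≤
      ∑ e ∈ E'.filter (fun e => ¬ same s t Y (s e) (t e)), x e := by
  classical
  have hE := finrank_sp_add_finrank_zz s t E'
  have hY := finrank_sp_add_finrank_zz s t Y
  let Q := Quotient (sameSetoid s t Y)
  let cl : V → Q := Quotient.mk (sameSetoid s t Y)
  have hcl : ∀ u v, cl u = cl v ↔ same s t Y u v := by
    intro u v
    exact Quotient.eq (r := sameSetoid s t Y)
  let ind : Q → (V → ZMod 2) := fun q v => if cl v = q then 1 else 0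
  let P : Finset Q := Finset.univ.filter (fun q => ind q ∉ zz s t E')
  have hind : ∀ q, ind q ∈ zz s t Y := by
    intro q e he
    have : cl (s e) = cl (t e) := (hcl _ _).2 (same_of_mem he)
    simp only [ind, this]
  -- zz Y is spanned by zz E' and the indicators of the classes in P
  have hle : zz s t Y ≤ zz s t E' ⊔ Submodule.span (ZMod 2) ((P.image ind : Finset _) : Set (V → ZMod 2)) := by
    intro f hf
    have hf' : f = ∑ q : Q, (Quotient.lift f (fun u v h => (show same s t Y u v from h) f hf) q) • ind q := by
      funext v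
      rw [Finset.sum_apply]
      rw [Finset.sum_eq_single (cl v)]
      · simp [ind, cl]
      · intro q _ hq
        simp only [Pi.smul_apply, smul_eq_mul, ind]
        rw [if_neg (fun h => hq h.symm), mul_zero]
      · intro h; exact absurd (Finset.mem_univ _) h
    rw [hf']
    refine Submodule.sum_mem _ ?_
    intro q _
    refine Submodule.smul_mem _ _ ?_
    by_cases hq : ind q ∈ zz s t E'
    · exact (le_sup_left : zz s t E' ≤ _) hq
    · refine (le_sup_right : Submodule.span (ZMod 2) _ ≤ _) ?_
      refine Submodule.subset_span ?_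
      simp only [Finset.coe_image, Set.mem_image, Finset.mem_coe]
      exact ⟨q, Finset.mem_filter.2 ⟨Finset.mem_univ _, hq⟩, rfl⟩
  have hfin : finrank (ZMod 2) (zz s t Y) ≤ finrank (ZMod 2) (zz s t E') + P.card := by
    refine (Submodule.finrank_mono hle).trans ?_
    refine (Submodule.finrank_add_le_finrank_add_finrank _ _).trans ?_
    refine Nat.add_le_add_left ?_ _
    refine (finrank_span_finset_le_card _).trans ?_
    exact Finset.card_image_le
  -- double counting
  have hcut : ∀ q ∈ P, (2 : ℚ) ≤ ∑ e ∈ E'.filter (fun e => ¬ (cl (s e) = q ↔ cl (t e) = q)), x e := by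
    intro q hq
    have hq2 : ind q ∉ zz s t E' := (Finset.mem_filter.1 hq).2
    rw [mem_zz] at hq2
    push Not at hq2
    obtain ⟨e, he, hne⟩ := hq2
    have := hx (Finset.univ.filter (fun v => cl v = q)) ⟨e, he, by
      simp only [Finset.mem_filter, Finset.mem_univ, true_and]
      intro hiff
      apply hne
      simp only [ind]
      by_cases h1 : cl (s e) = q
      · rw [if_pos h1, if_pos (hiff.1 h1)]
      · rw [if_neg h1, if_neg (fun h => h1 (hiff.2 h))]⟩
    simpa only [Finset.mem_filter, Finset.mem_univ, true_and] using this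
  have hsum : (2 : ℚ) * P.card ≤ 2 * ∑ e ∈ E'.filter (fun e => ¬ same s t Y (s e) (t e)), x e := by
    calc (2 : ℚ) * P.card = ∑ q ∈ P, (2 : ℚ) := by
          rw [Finset.sum_const, nsmul_eq_mul, mul_comm]
      _ ≤ ∑ q ∈ P, ∑ e ∈ E'.filter (fun e => ¬ (cl (s e) = q ↔ cl (t e) = q)), x e :=
          Finset.sum_le_sum hcut
      _ ≤ ∑ q : Q, ∑ e ∈ E'.filter (fun e => ¬ (cl (s e) = q ↔ cl (t e) = q)), x e := by
          refine Finset.sum_le_sum_of_subset_of_nonneg (Finset.subset_univ _) ?_
          intro q _ _
          exact Finset.sum_nonneg (fun e _ => hx0 e)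
      _ = ∑ q : Q, ∑ e ∈ E', if ¬ (cl (s e) = q ↔ cl (t e) = q) then x e else 0 := by
          refine Finset.sum_congr rfl (fun q _ => ?_)
          rw [Finset.sum_filter]
      _ = ∑ e ∈ E', ∑ q : Q, if ¬ (cl (s e) = q ↔ cl (t e) = q) then x e else 0 :=
          Finset.sum_comm
      _ ≤ ∑ e ∈ E', if ¬ same s t Y (s e) (t e) then 2 * x e else 0 := by
          refine Finset.sum_le_sum (fun e _ => ?_)
          by_cases hsame : same s t Y (s e) (t e)
          · rw [if_neg (not_not.2 hsame)]
            have : cl (s e) = cl (t e) := (hcl _ _).2 hsame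
            refine le_of_eq (Finset.sum_eq_zero (fun q _ => ?_))
            rw [this]; simp
          · rw [if_pos hsame]
            rw [← Finset.sum_filter]
            have hsub : (Finset.univ.filter (fun q : Q => ¬ (cl (s e) = q ↔ cl (t e) = q))) ⊆
                {cl (s e), cl (t e)} := by
              intro q hq
              simp only [Finset.mem_filter, Finset.mem_univ, true_and] at hq
              simp only [Finset.mem_insert, Finset.mem_singleton]
              by_contra hcon
              push Not at hcon
              exact hq ⟨fun h => absurd h.symm hcon.1, fun h => absurd h.symm hcon.2⟩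
            refine (Finset.sum_le_sum_of_subset_of_nonneg hsub (fun _ _ _ => hx0 e)).trans ?_
            rw [Finset.sum_const, nsmul_eq_mul]
            refine mul_le_mul_of_nonneg_right ?_ (hx0 e)
            exact_mod_cast Finset.card_le_two
      _ = 2 * ∑ e ∈ E'.filter (fun e => ¬ same s t Y (s e) (t e)), x e := by
          rw [Finset.mul_sum, Finset.sum_filter]
  have hfin' : (finrank (ZMod 2) (zz s t Y) : ℚ) ≤ finrank (ZMod 2) (zz s t E') + P.card := by
    exact_mod_cast hfin
  have hE' : (finrank (ZMod 2) (sp s t E') : ℚ) + finrank (ZMod 2) (zz s t E') = Fintype.card V := by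
    exact_mod_cast hE
  have hY' : (finrank (ZMod 2) (sp s t Y) : ℚ) + finrank (ZMod 2) (zz s t Y) = Fintype.card V := by
    exact_mod_cast hY
  linarith

end Pool.Agent.H46.Faith
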