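import Mathlib
import Pool.Agent.H46.Faith.Rado
import Pool.Agent.H46.Faith.Rank

set_option autoImplicit false

/-! Packing forests into a graph when the ground set depends on the forest. -/

namespace Pool.Agent.H46.Faith

open Module

set_option linter.unusedSectionVars false

variable {V E : Type} [Fintype V] [DecidableEq V] [Fintype E] [DecidableEq E]

lemma sp_union (s t : E → V) (Y Z : Finset E) : sp s t (Y ∪ Z) = sp s t Y ⊔ sp s t Z := by
  unfold sp
  rw [Finset.coe_union, Set.image_union, Submodule.span_union]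

lemma rank_submod (s t : E → V) (Y Z U I : Finset E) (hU : U ⊆ Y ∪ Z) (hI : I ⊆ Y ∩ Z) :
    finrank (ZMod 2) (sp s t U) + finrank (ZMod 2) (sp s t I) ≤
      finrank (ZMod 2) (sp s t Y) + finrank (ZMod 2) (sp s t Z) := by
  have h1 := Submodule.finrank_sup_add_finrank_inf_eq (sp s t Y) (sp s t Z)
  have h2 : finrank (ZMod 2) (sp s t U) ≤ finrank (ZMod 2) ((sp s t Y ⊔ sp s t Z : Submodule _ _)) := by
    refine Submodule.finrank_mono ?_
    rw [← sp_union]
    exact sp_mono hU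
  have h3 : finrank (ZMod 2) (sp s t I) ≤ finrank (ZMod 2) ((sp s t Y ⊓ sp s t Z : Submodule _ _)) := by
    refine Submodule.finrank_mono (le_inf ?_ ?_)
    · exact sp_mono (hI.trans Finset.inter_subset_left)
    · exact sp_mono (hI.trans Finset.inter_subset_right)
  omega

/-- copies of edges -/
abbrev Cp (m : E → ℕ) := (e : E) × Fin (m e)

/-- the edges at level `q` of a set of placed copies -/
def lev (m : E → ℕ) (q : ℕ) (Y : Finset ((ℕ × Cp m) ⊕ ℕ)) : Finset E :=
  Finset.univ.filter (fun e => ∃ a : Fin (m e), Sum.inl (q, ⟨e, a⟩) ∈ Y)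

lemma lev_mono {m : E → ℕ} {q : ℕ} {Y Z : Finset ((ℕ × Cp m) ⊕ ℕ)} (h : Y ⊆ Z) :
    lev m q Y ⊆ lev m q Z := by
  intro e he
  simp only [lev, Finset.mem_filter, Finset.mem_univ, true_and] at he ⊢
  obtain ⟨a, ha⟩ := he
  exact ⟨a, h ha⟩

/-- the rank function -/
noncomputable def rk (s t : E → V) (m : E → ℕ) (N : ℕ) (Y : Finset ((ℕ × Cp m) ⊕ ℕ)) : ℕ :=
  ∑ q ∈ Finset.Icc 1 N, finrank (ZMod 2) (sp s t (lev m q Y)) +
    (Y.filter (fun y => y.isRight = true)).card

lemma rk_empty (s t : E → V) (m : E → ℕ) (N : ℕ) : rk s t m N ∅ = 0 := by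
  unfold rk
  simp only [Finset.filter_empty, Finset.card_empty, add_zero]
  refine Finset.sum_eq_zero (fun q _ => ?_)
  have : lev m q ∅ = ∅ := by
    unfold lev
    simp
  rw [this]
  unfold sp
  simp

lemma rk_mono (s t : E → V) (m : E → ℕ) (N : ℕ) (Y Z : Finset ((ℕ × Cp m) ⊕ ℕ)) (h : Y ⊆ Z) :
    rk s t m N Y ≤ rk s t m N Z := by
  unfold rk
  refine Nat.add_le_add (Finset.sum_le_sum (fun q _ => ?_)) ?_
  · exact Submodule.finrank_mono (sp_mono (lev_mono h))
  · exact Finset.card_le_card (Finset.filter_subset_filter _ h)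

lemma rk_submod (s t : E → V) (m : E → ℕ) (N : ℕ) (Y Z : Finset ((ℕ × Cp m) ⊕ ℕ)) :
    rk s t m N (Y ∪ Z) + rk s t m N (Y ∩ Z) ≤ rk s t m N Y + rk s t m N Z := by
  unfold rk
  have h1 : ∑ q ∈ Finset.Icc 1 N, finrank (ZMod 2) (sp s t (lev m q (Y ∪ Z))) +
      ∑ q ∈ Finset.Icc 1 N, finrank (ZMod 2) (sp s t (lev m q (Y ∩ Z))) ≤
      ∑ q ∈ Finset.Icc 1 N, finrank (ZMod 2) (sp s t (lev m q Y)) +
      ∑ q ∈ Finset.Icc 1 N, finrank (ZMod 2) (sp s t (lev m q Z)) := by
    rw [← Finset.sum_add_distrib, ← Finset.sum_add_distrib]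
    refine Finset.sum_le_sum (fun q _ => ?_)
    refine rank_submod s t _ _ _ _ ?_ ?_
    · intro e he
      simp only [lev, Finset.mem_filter, Finset.mem_univ, true_and, Finset.mem_union] at he ⊢
      obtain ⟨a, ha | ha⟩ := he
      · exact Or.inl ⟨a, ha⟩
      · exact Or.inr ⟨a, ha⟩
    · intro e he
      simp only [lev, Finset.mem_filter, Finset.mem_univ, true_and, Finset.mem_inter] at he ⊢
      obtain ⟨a, ha, ha'⟩ := he
      exact ⟨⟨a, ha⟩, ⟨a, ha'⟩⟩
  have h2 : ((Y ∪ Z).filter (fun y => y.isRight = true)).card +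
      ((Y ∩ Z).filter (fun y => y.isRight = true)).card =
      (Y.filter (fun y => y.isRight = true)).card + (Z.filter (fun y => y.isRight = true)).card := by
    rw [Finset.filter_union, Finset.filter_inter_distrib]
    exact Finset.card_union_add_card_inter _ _
  omega

/-- The positions available to a copy. -/
def av (κ m : E → ℕ) (N d : ℕ) (c : Cp m) : Finset ((ℕ × Cp m) ⊕ ℕ) :=
  ((Finset.Icc 1 N).filter (fun q => 2 * c.2.1 + 1 ≤ q ∧ q < κ c.1)).image
    (fun q => Sum.inl (q, c)) ∪ (Finset.range d).image Sum.inr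

lemma mem_av {κ m : E → ℕ} {N d : ℕ} {c : Cp m} {y : (ℕ × Cp m) ⊕ ℕ} :
    y ∈ av κ m N d c ↔
      (∃ q, 1 ≤ q ∧ q ≤ N ∧ 2 * c.2.1 + 1 ≤ q ∧ q < κ c.1 ∧ y = Sum.inl (q, c)) ∨
      (∃ i, i < d ∧ y = Sum.inr i) := by
  unfold av
  simp only [Finset.mem_union, Finset.mem_image, Finset.mem_filter, Finset.mem_Icc, Finset.mem_range]
  constructor
  · rintro (⟨q, ⟨⟨h1, h2⟩, h3, h4⟩, rfl⟩ | ⟨i, hi, rfl⟩)
    · exact Or.inl ⟨q, h1, h2, h3, h4, rfl⟩
    · exact Or.inr ⟨i, hi, rfl⟩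
  · rintro (⟨q, h1, h2, h3, h4, rfl⟩ | ⟨i, hi, rfl⟩)
    · exact Or.inl ⟨q, ⟨⟨h1, h2⟩, h3, h4⟩, rfl⟩
    · exact Or.inr ⟨i, hi, rfl⟩

lemma mem_lev_biUnion {κ m : E → ℕ} {N d q : ℕ} (hq1 : 1 ≤ q) (hqN : q ≤ N)
    {J : Finset (Cp m)} {e : E} :
    e ∈ lev m q (J.biUnion (av κ m N d)) ↔
      ∃ a : Fin (m e), (⟨e, a⟩ : Cp m) ∈ J ∧ 2 * a.1 + 1 ≤ q ∧ q < κ e := by
  simp only [lev, Finset.mem_filter, Finset.mem_univ, true_and, Finset.mem_biUnion, mem_av]
  constructor
  · rintro ⟨a, c, hc, ⟨q', h1, h2, h3, h4, h5⟩ | ⟨i, hi, h5⟩⟩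
    · rw [Sum.inl.injEq, Prod.mk.injEq] at h5
      obtain ⟨rfl, rfl⟩ := h5
      exact ⟨a, hc, h3, h4⟩
    · exact absurd h5 (by simp)
  · rintro ⟨a, hJ, h1, h2⟩
    exact ⟨a, ⟨e, a⟩, hJ, Or.inl ⟨q, hq1, hqN, h1, h2, rfl⟩⟩

/-- edges allowed at level `q` -/
def lvl (κ : E → ℕ) (q : ℕ) : Finset E := Finset.univ.filter (fun e => q < κ e)

lemma mem_lvl {κ : E → ℕ} {q : ℕ} {e : E} : e ∈ lvl κ q ↔ q < κ e := by
  simp [lvl]

open Classical in
lemma main_ineq (s t : E → V) (κ m : E → ℕ) (x : E → ℚ) (N d : ℕ)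
    (hx0 : ∀ e, 0 ≤ x e) (hxm : ∀ e q, q < κ e → x e * q ≤ m e) (hx2 : ∀ e, x e ≤ 1 / 2)
    (hcut : ∀ q, 1 ≤ q → ∀ X : Finset V, (∃ e ∈ lvl κ q, ¬ (s e ∈ X ↔ t e ∈ X)) →
      2 ≤ ∑ e ∈ (lvl κ q).filter (fun e => ¬ (s e ∈ X ↔ t e ∈ X)), x e)
    (J : Finset (Cp m)) :
    ∑ q ∈ Finset.Icc 1 N, finrank (ZMod 2) (sp s t (lvl κ q)) ≤
      ∑ q ∈ Finset.Icc 1 N, finrank (ZMod 2) (sp s t (lev m q (J.biUnion (av κ m N d)))) +
        Jᶜ.card := by
  set Jq : ℕ → Finset E := fun q => lev m q (J.biUnion (av κ m N d)) with hJq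
  have h1 : ∀ q ∈ Finset.Icc 1 N, (finrank (ZMod 2) (sp s t (lvl κ q)) : ℚ) -
      finrank (ZMod 2) (sp s t (Jq q)) ≤
      ∑ e : E, if q < κ e ∧ ¬ same s t (Jq q) (s e) (t e) then x e else 0 := by
    intro q hq
    rw [Finset.mem_Icc] at hq
    refine (rank_diff s t (Jq q) (lvl κ q) x hx0 (hcut q hq.1)).trans (le_of_eq ?_)
    rw [Finset.sum_filter, lvl, Finset.sum_filter]
    refine Finset.sum_congr rfl (fun e _ => ?_)
    by_cases h1 : q < κ e <;> by_cases h2 : same s t (Jq q) (s e) (t e) <;> simp [h1, h2]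
  have h2 : ∀ e : E, (∑ q ∈ Finset.Icc 1 N, if q < κ e ∧ ¬ same s t (Jq q) (s e) (t e) then x e else 0)
      ≤ ((Finset.univ.filter (fun a : Fin (m e) => (⟨e, a⟩ : Cp m) ∉ J)).card : ℚ) := by
    intro e
    rw [← Finset.sum_filter, Finset.sum_const, nsmul_eq_mul]
    set Q := (Finset.Icc 1 N).filter (fun q => q < κ e ∧ ¬ same s t (Jq q) (s e) (t e)) with hQ
    rcases Q.eq_empty_or_nonempty with hemp | hne
    · rw [hemp]; simp
    · set q0 := Q.max' hne with hq0
      have hq0Q : q0 ∈ Q := Finset.max'_mem _ _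
      have hmem := hq0Q
      rw [hQ, Finset.mem_filter, Finset.mem_Icc] at hmem
      obtain ⟨⟨h11, h1N⟩, hκ, hns⟩ := hmem
      have hcard : Q.card ≤ q0 := by
        have : Q ⊆ Finset.Icc 1 q0 := by
          intro q hq
          rw [Finset.mem_Icc]
          refine ⟨?_, Finset.le_max' _ _ hq⟩
          rw [hQ, Finset.mem_filter, Finset.mem_Icc] at hq
          exact hq.1.1
        have := Finset.card_le_card this
        rwa [Nat.card_Icc, Nat.add_sub_cancel] at this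
      have hnotin : ∀ a : Fin (m e), 2 * a.1 + 1 ≤ q0 → (⟨e, a⟩ : Cp m) ∉ J := by
        intro a ha haJ
        apply hns
        apply same_of_mem
        rw [hJq]
        exact (mem_lev_biUnion h11 h1N).2 ⟨a, haJ, ha, hκ⟩
      have hk : min (m e) ((q0 + 1) / 2) ≤
          (Finset.univ.filter (fun a : Fin (m e) => (⟨e, a⟩ : Cp m) ∉ J)).card := by
        have hc : (Finset.univ : Finset (Fin (min (m e) ((q0 + 1) / 2)))).card ≤
            (Finset.univ.filter (fun a : Fin (m e) => (⟨e, a⟩ : Cp m) ∉ J)).card := by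
          refine Finset.card_le_card_of_injOn
            (fun i => (⟨i.1, lt_of_lt_of_le i.2 (min_le_left _ _)⟩ : Fin (m e))) ?_ ?_
          · intro i _
            simp only [Finset.coe_filter, Set.mem_ofPred_eq, Finset.mem_univ, true_and]
            apply hnotin
            have := lt_of_lt_of_le i.2 (min_le_right _ _)
            simp only
            omega
          · intro i _ j _ hij
            simp only [Fin.mk.injEq] at hij
            exact Fin.ext hij
        simpa using hc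
      have hx' : x e * q0 ≤ min (m e) ((q0 + 1) / 2) := by
        push_cast
        rw [le_min_iff]
        refine ⟨hxm e q0 hκ, ?_⟩
        have h3 : x e * q0 ≤ 1 / 2 * q0 := mul_le_mul_of_nonneg_right (hx2 e) (Nat.cast_nonneg _)
        have h4 : (q0 : ℚ) ≤ 2 * (((q0 + 1) / 2 : ℕ) : ℚ) := by
          have : q0 ≤ 2 * ((q0 + 1) / 2) := by omega
          exact_mod_cast this
        linarith
      calc (Q.card : ℚ) * x e ≤ (q0 : ℚ) * x e := by
            refine mul_le_mul_of_nonneg_right ?_ (hx0 e)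
            exact_mod_cast hcard
        _ = x e * q0 := mul_comm _ _
        _ ≤ ((min (m e) ((q0 + 1) / 2) : ℕ) : ℚ) := by exact_mod_cast hx'
        _ ≤ _ := by exact_mod_cast hk
  have h3 : (∑ e : E, ((Finset.univ.filter (fun a : Fin (m e) => (⟨e, a⟩ : Cp m) ∉ J)).card)) =
      Jᶜ.card := by
    have : Jᶜ = Finset.univ.sigma
        (fun e => Finset.univ.filter (fun a : Fin (m e) => (⟨e, a⟩ : Cp m) ∉ J)) := by
      ext c
      simp only [Finset.mem_compl, Finset.mem_sigma, Finset.mem_univ, true_and, Finset.mem_filter]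
    rw [this, Finset.card_sigma]
  have h4 : (∑ q ∈ Finset.Icc 1 N, (finrank (ZMod 2) (sp s t (lvl κ q)) : ℚ)) -
      ∑ q ∈ Finset.Icc 1 N, (finrank (ZMod 2) (sp s t (Jq q)) : ℚ) ≤ Jᶜ.card := by
    rw [← Finset.sum_sub_distrib]
    refine (Finset.sum_le_sum h1).trans ?_
    rw [Finset.sum_comm]
    refine (Finset.sum_le_sum (fun e _ => h2 e)).trans ?_
    rw [← h3]
    push_cast
    exact le_rfl
  have h5 : ((∑ q ∈ Finset.Icc 1 N, finrank (ZMod 2) (sp s t (lvl κ q)) : ℕ) : ℚ) ≤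
      ((∑ q ∈ Finset.Icc 1 N, finrank (ZMod 2) (sp s t (Jq q)) + Jᶜ.card : ℕ) : ℚ) := by
    push_cast
    linarith
  exact_mod_cast h5

open Classical in
/-- Existence of the forests. -/
theorem pack (s t : E → V) (κ m : E → ℕ) (x : E → ℚ)
    (hx0 : ∀ e, 0 ≤ x e) (hxm : ∀ e q, q < κ e → x e * q ≤ m e) (hx2 : ∀ e, x e ≤ 1 / 2)
    (hcut : ∀ q, 1 ≤ q → ∀ X : Finset V, (∃ e ∈ lvl κ q, ¬ (s e ∈ X ↔ t e ∈ X)) →
      2 ≤ ∑ e ∈ (lvl κ q).filter (fun e => ¬ (s e ∈ X ↔ t e ∈ X)), x e) :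
    ∃ B : ℕ → Finset E, (∀ q, B q ⊆ lvl κ q) ∧ (∀ q, 1 ≤ q → sp s t (B q) = sp s t (lvl κ q)) ∧
      ∀ e q, 2 * ((Finset.Icc 1 q).filter (fun q' => e ∈ B q')).card ≤ q + 1 ∧
        ((Finset.Icc 1 q).filter (fun q' => e ∈ B q')).card ≤ m e := by
  classical
  obtain ⟨N, hN⟩ : ∃ N, ∀ e, κ e ≤ N :=
    ⟨∑ e, κ e, fun e => Finset.single_le_sum (fun _ _ => Nat.zero_le _) (Finset.mem_univ e)⟩
  set R := ∑ q ∈ Finset.Icc 1 N, finrank (ZMod 2) (sp s t (lvl κ q)) with hR
  set d := Fintype.card (Cp m) - R with hd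
  have hRle : R ≤ Fintype.card (Cp m) := by
    have := main_ineq s t κ m x N d hx0 hxm hx2 hcut ∅
    have h1 : finrank (ZMod 2) (sp s t (∅ : Finset E)) = 0 := by
      unfold sp; simp
    have h0 : ∑ q ∈ Finset.Icc 1 N, finrank (ZMod 2)
        (sp s t (lev m q ((∅ : Finset (Cp m)).biUnion (av κ m N d)))) = 0 := by
      refine Finset.sum_eq_zero (fun q _ => ?_)
      have h2 : lev m q ((∅ : Finset (Cp m)).biUnion (av κ m N d)) = ∅ := by
        rw [Finset.biUnion_empty]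
        unfold lev
        simp
      rw [h2]
      exact h1
    rw [h0, zero_add, Finset.compl_empty, Finset.card_univ] at this
    exact this
  obtain ⟨f, hf, hfJ⟩ := rado (rk s t m N) (rk_empty s t m N) (rk_mono s t m N)
    (rk_submod s t m N) (av κ m N d) (by
      intro J
      rcases J.eq_empty_or_nonempty with hJ | ⟨c, hc⟩
      · rw [hJ]; simp
      · have h1 := main_ineq s t κ m x N d hx0 hxm hx2 hcut J
        unfold rk
        have h2 : (Finset.range d).image (Sum.inr : ℕ → (ℕ × Cp m) ⊕ ℕ) ⊆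
            (J.biUnion (av κ m N d)).filter (fun y => y.isRight = true) := by
          intro y hy
          rw [Finset.mem_image] at hy
          obtain ⟨i, hi, rfl⟩ := hy
          rw [Finset.mem_filter]
          refine ⟨Finset.mem_biUnion.2 ⟨c, hc, mem_av.2 (Or.inr ⟨i, Finset.mem_range.1 hi, rfl⟩)⟩, rfl⟩
        have h3 := Finset.card_le_card h2
        rw [Finset.card_image_of_injective _ Sum.inr_injective, Finset.card_range] at h3
        have h4 : J.card + Jᶜ.card = Fintype.card (Cp m) := Finset.card_add_card_compl J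
        omega)
  have hfull := hfJ Finset.univ
  set B : ℕ → Finset E := fun q => lev m q (Finset.univ.image f) with hB
  have hfc : ∀ c, (∃ q, 1 ≤ q ∧ q ≤ N ∧ 2 * c.2.1 + 1 ≤ q ∧ q < κ c.1 ∧ f c = Sum.inl (q, c)) ∨
      (∃ i, i < d ∧ f c = Sum.inr i) := fun c => mem_av.1 (hf c)
  have hBmem : ∀ q e, e ∈ B q ↔ ∃ a : Fin (m e), f ⟨e, a⟩ = Sum.inl (q, ⟨e, a⟩) := by
    intro q e
    simp only [hB, lev, Finset.mem_filter, Finset.mem_univ, true_and, Finset.mem_image]
    constructor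
    · rintro ⟨a, c, hc⟩
      rcases hfc c with ⟨q', h1, h2, h3, h4, h5⟩ | ⟨i, hi, h5⟩
      · rw [h5, Sum.inl.injEq, Prod.mk.injEq] at hc
        obtain ⟨rfl, rfl⟩ := hc
        exact ⟨a, h5⟩
      · rw [h5] at hc
        exact absurd hc (by simp)
    · rintro ⟨a, ha⟩
      exact ⟨a, ⟨e, a⟩, ha⟩
  have hBinfo : ∀ q e, ∀ a : Fin (m e), f ⟨e, a⟩ = Sum.inl (q, ⟨e, a⟩) →
      1 ≤ q ∧ q ≤ N ∧ 2 * a.1 + 1 ≤ q ∧ q < κ e := by
    intro q e a ha
    rcases hfc ⟨e, a⟩ with ⟨q', h1, h2, h3, h4, h5⟩ | ⟨i, hi, h5⟩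
    · rw [h5, Sum.inl.injEq, Prod.mk.injEq] at ha
      obtain ⟨rfl, -⟩ := ha
      exact ⟨h1, h2, h3, h4⟩
    · rw [h5] at ha
      exact absurd ha (by simp)
  have hBsub : ∀ q, B q ⊆ lvl κ q := by
    intro q e he
    obtain ⟨a, ha⟩ := (hBmem q e).1 he
    exact mem_lvl.2 (hBinfo q e a ha).2.2.2
  refine ⟨B, hBsub, ?_, ?_⟩
  · -- ranks
    have hright : ((Finset.univ.image f).filter (fun y => y.isRight = true)).card ≤ d := by
      have h1 : (Finset.univ.image f).filter (fun y => y.isRight = true) ⊆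
          (Finset.range d).image Sum.inr := by
        intro y hy
        rw [Finset.mem_filter, Finset.mem_image] at hy
        obtain ⟨⟨c, _, rfl⟩, hr⟩ := hy
        rcases hfc c with ⟨q', h1, h2, h3, h4, h5⟩ | ⟨i, hi, h5⟩
        · rw [h5] at hr; simp at hr
        · rw [h5]
          exact Finset.mem_image_of_mem _ (Finset.mem_range.2 hi)
      have h2 := Finset.card_le_card h1
      rwa [Finset.card_image_of_injective _ Sum.inr_injective, Finset.card_range] at h2
    unfold rk at hfull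
    rw [Finset.card_univ] at hfull
    have hsumle : R ≤ ∑ q ∈ Finset.Icc 1 N, finrank (ZMod 2) (sp s t (B q)) := by
      have : Fintype.card (Cp m) ≤ ∑ q ∈ Finset.Icc 1 N, finrank (ZMod 2) (sp s t (B q)) + d :=
        hfull.trans (Nat.add_le_add_left hright _)
      omega
    have hle : ∀ q ∈ Finset.Icc 1 N, finrank (ZMod 2) (sp s t (B q)) ≤
        finrank (ZMod 2) (sp s t (lvl κ q)) :=
      fun q _ => Submodule.finrank_mono (sp_mono (hBsub q))
    have heq : ∑ q ∈ Finset.Icc 1 N, finrank (ZMod 2) (sp s t (B q)) =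
        ∑ q ∈ Finset.Icc 1 N, finrank (ZMod 2) (sp s t (lvl κ q)) :=
      le_antisymm (Finset.sum_le_sum hle) hsumle
    have heq' := (Finset.sum_eq_sum_iff_of_le hle).1 heq
    intro q hq
    by_cases hqN : q ≤ N
    · exact Submodule.eq_of_le_of_finrank_eq (sp_mono (hBsub q))
        (heq' q (Finset.mem_Icc.2 ⟨hq, hqN⟩))
    · have h1 : lvl κ q = ∅ := by
        rw [Finset.eq_empty_iff_forall_notMem]
        intro e he
        rw [mem_lvl] at he
        have := hN e
        omega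
      have h2 : B q = ∅ := Finset.subset_empty.1 (h1 ▸ hBsub q)
      rw [h1, h2]
  · intro e q
    have h1 : (Finset.Icc 1 q).filter (fun q' => e ∈ B q') ⊆
        (Finset.univ.filter (fun a : Fin (m e) => 2 * a.1 + 1 ≤ q)).image
          (fun a => Sum.elim (fun p => p.1) (fun _ => 0) (f ⟨e, a⟩)) := by
      intro q' hq'
      rw [Finset.mem_filter, Finset.mem_Icc] at hq'
      obtain ⟨⟨h1, h2⟩, h3⟩ := hq'
      obtain ⟨a, ha⟩ := (hBmem q' e).1 h3
      rw [Finset.mem_image]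
      refine ⟨a, ?_, ?_⟩
      · rw [Finset.mem_filter]
        have := (hBinfo q' e a ha).2.2.1
        exact ⟨Finset.mem_univ _, by omega⟩
      · rw [ha]; rfl
    have h2 := (Finset.card_le_card h1).trans Finset.card_image_le
    refine ⟨?_, ?_⟩
    · have h3 : (Finset.univ.filter (fun a : Fin (m e) => 2 * a.1 + 1 ≤ q)).card ≤
          (Finset.range ((q + 1) / 2)).card := by
        refine Finset.card_le_card_of_injOn (fun a => a.1) ?_ ?_
        · intro a ha
          simp only [Finset.coe_filter, Finset.mem_univ, true_and, Set.mem_ofPred_eq] at ha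
          simp only [Finset.coe_range, Set.mem_Iio]
          omega
        · intro a _ b _ hab
          exact Fin.ext hab
      rw [Finset.card_range] at h3
      omega
    · have h3 : (Finset.univ.filter (fun a : Fin (m e) => 2 * a.1 + 1 ≤ q)).card ≤ m e := by
        refine (Finset.card_filter_le _ _).trans ?_
        rw [Finset.card_univ, Fintype.card_fin]
      omega

end Pool.Agent.H46.Faith
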