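import Mathlib
import Pool.Agent.H46.Faith.Pack

set_option autoImplicit false

/-! Choosing the even subgraphs one after the other. -/

namespace Pool.Agent.H46.Faith

open Module

set_option linter.unusedSectionVars false

variable {V E : Type} [Fintype V] [DecidableEq V] [Fintype E] [DecidableEq E]

lemma exists_subset_sum (s t : E → V) (B : Finset E) (y : V → ZMod 2) (hy : y ∈ sp s t B) :
    ∃ T ⊆ B, ∑ e ∈ T, bd s t e = y := by
  unfold sp at hy
  rw [Submodule.mem_span_image_finset_iff_exists_fun'] at hy
  obtain ⟨c, hc⟩ := hy
  refine ⟨B.filter (fun e => c e = 1), Finset.filter_subset _ _, ?_⟩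
  rw [← hc, Finset.sum_filter]
  refine Finset.sum_congr rfl (fun e _ => ?_)
  have h2 : ∀ z : ZMod 2, z = 0 ∨ z = 1 := by decide
  rcases h2 (c e) with h | h
  · rw [h]; simp
  · rw [h]; simp

/-- number of forests with index at most `q` containing `e` -/
def use (B : ℕ → Finset E) (q : ℕ) (e : E) : ℕ :=
  ((Finset.Icc 1 q).filter (fun q' => e ∈ B q')).card

lemma use_zero (B : ℕ → Finset E) (e : E) : use B 0 e = 0 := by
  simp [use]

lemma use_succ (B : ℕ → Finset E) (q : ℕ) (e : E) :
    use B (q + 1) e = use B q e + if e ∈ B (q + 1) then 1 else 0 := by
  unfold use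
  have h : Finset.Icc 1 (q + 1) = insert (q + 1) (Finset.Icc 1 q) := by
    ext i
    simp only [Finset.mem_insert, Finset.mem_Icc]
    omega
  rw [h, Finset.filter_insert]
  split_ifs with h1
  · rw [Finset.card_insert_of_notMem (by simp)]
  · simp

theorem game (s t : E → V) (κ : E → ℕ) (B : ℕ → Finset E) (β : ℕ → V → ZMod 2)
    (hBsub : ∀ q, B q ⊆ lvl κ q) (hBsp : ∀ q, 1 ≤ q → sp s t (B q) = sp s t (lvl κ q))
    (hB2 : ∀ e q, 2 * use B q e ≤ q + 1)
    (hβ : ∀ j, 1 ≤ j → β (j + 1) ∈ sp s t (lvl κ j)) :
    ∀ (j : ℕ) (r : E → ℕ), (∀ e, use B (j - 1) e ≤ r e) →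
      (∀ e, r e + use B (j - 1) e ≤ min j (κ e)) →
      (∑ e, (r e : ZMod 2) • bd s t e = ∑ i ∈ Finset.Icc 1 j, β i) →
      ∃ H : ℕ → Finset E, (∀ i, 1 ≤ i → i ≤ j → ∑ e ∈ H i, bd s t e = β i) ∧
        ∀ e, use H j e = r e := by
  intro j
  induction j with
  | zero =>
    intro r h1 h2 h3
    refine ⟨fun _ => ∅, fun i hi hi' => by omega, fun e => ?_⟩
    have := h2 e
    rw [use_zero]
    omega
  | succ j ih =>
    intro r h1 h2 h3
    simp only [Nat.add_sub_cancel] at h1 h2
    -- the new even subgraph
    have key : ∃ Hn : Finset E, ∑ e ∈ Hn, bd s t e = β (j + 1) ∧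
        (∀ e ∈ Hn, 1 ≤ r e) ∧
        (∀ e, use B (j - 1) e ≤ r e - (if e ∈ Hn then 1 else 0)) ∧
        (∀ e, r e - (if e ∈ Hn then 1 else 0) + use B (j - 1) e ≤ min j (κ e)) := by
      rcases Nat.eq_zero_or_pos j with hj0 | hjpos
      · subst hj0
        have hr : ∀ e, r e = 0 ∨ r e = 1 := by
          intro e
          have := h2 e
          rw [use_zero] at this
          omega
        refine ⟨Finset.univ.filter (fun e => r e = 1), ?_, ?_, ?_, ?_⟩
        · rw [zero_add, Finset.Icc_self, Finset.sum_singleton] at h3
          rw [zero_add, ← h3, Finset.sum_filter]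
          refine Finset.sum_congr rfl (fun e _ => ?_)
          rcases hr e with h | h
          · rw [h]; simp
          · rw [h]; simp
        · intro e he
          have := (Finset.mem_filter.1 he).2
          omega
        · intro e
          simp [use_zero]
        · intro e
          simp only [Finset.mem_filter, Finset.mem_univ, true_and, Nat.zero_sub, use_zero, add_zero]
          rcases hr e with h | h
          · rw [h]; simp
          · rw [h]; simp
      · obtain ⟨q, rfl⟩ : ∃ q, j = q + 1 := ⟨j - 1, by omega⟩
        simp only [Nat.add_sub_cancel]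
        set H0 : Finset E := Finset.univ.filter
          (fun e => q + 1 < κ e ∧ e ∉ B (q + 1) ∧ r e + use B (q + 1) e = q + 2) with hH0
        have hH0sub : H0 ⊆ lvl κ (q + 1) := by
          intro e he
          rw [hH0, Finset.mem_filter] at he
          exact mem_lvl.2 he.2.1
        have hmem : β (q + 1 + 1) - ∑ e ∈ H0, bd s t e ∈ sp s t (B (q + 1)) := by
          rw [hBsp (q + 1) (by omega)]
          refine Submodule.sub_mem _ (hβ (q + 1) (by omega)) ?_
          refine Submodule.sum_mem _ (fun e he => ?_)
          exact Submodule.subset_span ⟨e, by exact_mod_cast hH0sub he, rfl⟩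
        obtain ⟨T, hTB, hT⟩ := exists_subset_sum s t _ _ hmem
        have hdisj : Disjoint H0 T := by
          rw [Finset.disjoint_left]
          intro e he heT
          rw [hH0, Finset.mem_filter] at he
          exact he.2.2.1 (hTB heT)
        have huse : ∀ e, use B (q + 1) e = use B q e + if e ∈ B (q + 1) then 1 else 0 :=
          fun e => use_succ B q e
        have hTκ : ∀ e ∈ B (q + 1), q + 1 < κ e := fun e he => mem_lvl.1 (hBsub _ he)
        refine ⟨H0 ∪ T, ?_, ?_, ?_, ?_⟩
        · rw [Finset.sum_union hdisj, hT]
          abel
        · intro e he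
          rw [Finset.mem_union] at he
          have a1 := h1 e
          have a2 := hB2 e q
          have a3 := huse e
          rcases he with he | he
          · rw [hH0, Finset.mem_filter] at he
            rw [if_neg he.2.2.1] at a3
            have := he.2.2.2
            omega
          · rw [if_pos (hTB he)] at a3
            omega
        · intro e
          have a1 := h1 e
          have a2 := hB2 e q
          have a3 := huse e
          have a4 := h2 e
          by_cases hB : e ∈ B (q + 1)
          · rw [if_pos hB] at a3
            split_ifs <;> omega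
          · rw [if_neg hB] at a3
            by_cases hin : e ∈ H0 ∪ T
            · rw [if_pos hin]
              rw [Finset.mem_union] at hin
              rcases hin with hin | hin
              · rw [hH0, Finset.mem_filter] at hin
                have := hin.2.2.2
                omega
              · exact absurd (hTB hin) hB
            · rw [if_neg hin]
              omega
        · intro e
          have a1 := h1 e
          have a2 := hB2 e q
          have a3 := huse e
          have a4 := h2 e
          rw [le_min_iff] at a4 ⊢
          by_cases hB : e ∈ B (q + 1)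
          · have := hTκ e hB
            rw [if_pos hB] at a3
            split_ifs <;> omega
          · rw [if_neg hB] at a3
            by_cases hκ : q + 1 < κ e
            · by_cases hr : r e + use B (q + 1) e = q + 2
              · have hin : e ∈ H0 ∪ T := by
                  rw [Finset.mem_union, hH0, Finset.mem_filter]
                  exact Or.inl ⟨Finset.mem_univ _, hκ, hB, hr⟩
                rw [if_pos hin]
                omega
              · split_ifs <;> omega
            · have hin : e ∉ H0 ∪ T := by
                rw [Finset.mem_union, hH0, Finset.mem_filter]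
                rintro (h | h)
                · exact hκ h.2.1
                · exact hB (hTB h)
              rw [if_neg hin]
              omega
    obtain ⟨Hn, hn1, hn2, hn3, hn4⟩ := key
    obtain ⟨H, hH1, hH2⟩ := ih (fun e => r e - (if e ∈ Hn then 1 else 0)) hn3 hn4 (by
      have hIcc : Finset.Icc 1 (j + 1) = insert (j + 1) (Finset.Icc 1 j) := by
        ext i
        simp only [Finset.mem_insert, Finset.mem_Icc]
        omega
      rw [hIcc, Finset.sum_insert (by simp)] at h3
      have h4 : ∑ e, (r e : ZMod 2) • bd s t e =
          ∑ e, ((r e - (if e ∈ Hn then 1 else 0) : ℕ) : ZMod 2) • bd s t e + ∑ e ∈ Hn, bd s t e := by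
        have h5 : ∑ e ∈ Hn, bd s t e = ∑ e, if e ∈ Hn then bd s t e else 0 := by
          rw [← Finset.sum_filter]
          refine Finset.sum_congr ?_ (fun _ _ => rfl)
          ext e; simp
        rw [h5, ← Finset.sum_add_distrib]
        refine Finset.sum_congr rfl (fun e _ => ?_)
        by_cases he : e ∈ Hn
        · rw [if_pos he, if_pos he]
          have := hn2 e he
          rw [Nat.cast_sub this, sub_smul, Nat.cast_one, one_smul, sub_add_cancel]
        · rw [if_neg he, if_neg he, Nat.sub_zero, add_zero]
      rw [h4, hn1] at h3
      have := add_right_cancel (h3.trans (add_comm _ _))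
      exact this)
    refine ⟨fun i => if i = j + 1 then Hn else H i, ?_, ?_⟩
    · intro i hi hij
      by_cases hi' : i = j + 1
      · subst hi'
        simp only [if_true]
        exact hn1
      · simp only [if_neg hi']
        exact hH1 i hi (by omega)
    · intro e
      rw [use_succ]
      have h5 : use (fun i => if i = j + 1 then Hn else H i) j e = use H j e := by
        unfold use
        congr 1
        refine Finset.filter_congr (fun i hi => ?_)
        rw [Finset.mem_Icc] at hi
        have : ¬ i = j + 1 := by omega
        simp only [if_neg this]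
      rw [h5, hH2 e]
      simp only [if_true]
      by_cases he : e ∈ Hn
      · have := hn2 e he
        rw [if_pos he]
        omega
      · rw [if_neg he]
        omega

end Pool.Agent.H46.Faith
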