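import Mathlib
import Pool.Agent.H46.Faith.Game

set_option autoImplicit false

/-! Choosing the even subgraphs one after the other; arbitrary palettes. -/

namespace Pool.Agent.H46.Faith

open Module

set_option linter.unusedSectionVars false

variable {V E : Type} [Fintype V] [DecidableEq V] [Fintype E] [DecidableEq E]

/-- `use Al j e` is the number of colours at most `j` available to `e`, `use B j e` the number of
colours at most `j` for which `e` may be used for corrections. -/
theorem game2 (s t : E → V) (N : ℕ) (Al B : ℕ → Finset E) (β : ℕ → V → ZMod 2)
    (hBA : ∀ j, B j ⊆ Al j) (hB1 : B 1 = ∅)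
    (hsp : ∀ j, 2 ≤ j → j ≤ N → sp s t (Al j) ≤ sp s t (B j))
    (hdens : ∀ e j, j ≤ N → 2 * use B j e ≤ use Al j e)
    (hβ : ∀ j, 2 ≤ j → j ≤ N → β j ∈ sp s t (Al j)) :
    ∀ (j : ℕ) (r : E → ℕ), j ≤ N → (∀ e, use B j e ≤ r e) →
      (∀ e, r e + use B j e ≤ use Al j e) →
      (∑ e, (r e : ZMod 2) • bd s t e = ∑ i ∈ Finset.Icc 1 j, β i) →
      ∃ H : ℕ → Finset E, (∀ i, 1 ≤ i → i ≤ j → ∑ e ∈ H i, bd s t e = β i) ∧
        ∀ e, use H j e = r e := by
  intro j
  induction j with
  | zero =>
    intro r _ h1 h2 h3
    refine ⟨fun _ => ∅, fun i hi hi' => by omega, fun e => ?_⟩
    have := h2 e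
    rw [use_zero, use_zero] at this
    rw [use_zero]
    omega
  | succ j ih =>
    intro r hjN h1 h2 h3
    have huse : ∀ e, use B (j + 1) e = use B j e + if e ∈ B (j + 1) then 1 else 0 :=
      fun e => use_succ B j e
    have huseA : ∀ e, use Al (j + 1) e = use Al j e + if e ∈ Al (j + 1) then 1 else 0 :=
      fun e => use_succ Al j e
    -- the new even subgraph
    have key : ∃ Hn : Finset E, ∑ e ∈ Hn, bd s t e = β (j + 1) ∧
        (∀ e ∈ Hn, 1 ≤ r e) ∧
        (∀ e, use B j e ≤ r e - (if e ∈ Hn then 1 else 0)) ∧
        (∀ e, r e - (if e ∈ Hn then 1 else 0) + use B j e ≤ use Al j e) := by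
      rcases Nat.eq_zero_or_pos j with hj0 | hjpos
      · subst hj0
        have hr : ∀ e, r e = 0 ∨ r e = 1 := by
          intro e
          have a1 := h2 e
          have a2 := huseA e
          rw [use_zero] at a2
          split_ifs at a2 <;> omega
        refine ⟨Finset.univ.filter (fun e => r e = 1), ?_, ?_, ?_, ?_⟩
        · rw [zero_add, Finset.Icc_self, Finset.sum_singleton] at h3
          rw [zero_add, ← h3, Finset.sum_filter]
          refine Finset.sum_congr rfl (fun e _ => ?_)
          rcases hr e with h | h
          · rw [h]; simp
          · rw [h]; simp
        · intro e he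
          have := (Finset.mem_filter.1 he).2
          omega
        · intro e
          simp [use_zero]
        · intro e
          simp only [Finset.mem_filter, Finset.mem_univ, true_and, use_zero, add_zero]
          rcases hr e with h | h
          · rw [h]; simp
          · rw [h]; simp
      · set H0 : Finset E := (Al (j + 1)).filter
          (fun e => e ∉ B (j + 1) ∧ r e + use B (j + 1) e = use Al (j + 1) e) with hH0
        have hmem : β (j + 1) - ∑ e ∈ H0, bd s t e ∈ sp s t (B (j + 1)) := by
          refine hsp (j + 1) (by omega) hjN ?_
          refine Submodule.sub_mem _ (hβ (j + 1) (by omega) hjN) ?_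
          refine Submodule.sum_mem _ (fun e he => ?_)
          exact Submodule.subset_span ⟨e, by exact_mod_cast (Finset.mem_filter.1 he).1, rfl⟩
        obtain ⟨T, hTB, hT⟩ := exists_subset_sum s t _ _ hmem
        have hdisj : Disjoint H0 T := by
          rw [Finset.disjoint_left]
          intro e he heT
          rw [hH0, Finset.mem_filter] at he
          exact he.2.1 (hTB heT)
        refine ⟨H0 ∪ T, ?_, ?_, ?_, ?_⟩
        · rw [Finset.sum_union hdisj, hT]
          abel
        · intro e he
          rw [Finset.mem_union] at he
          have a1 := h1 e
          have a2 := hdens e j (by omega)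
          have a3 := huse e
          have a4 := huseA e
          rcases he with he | he
          · rw [hH0, Finset.mem_filter] at he
            rw [if_neg he.2.1] at a3
            rw [if_pos he.1] at a4
            have := he.2.2
            omega
          · rw [if_pos (hTB he)] at a3
            omega
        · intro e
          have a1 := h1 e
          have a2 := hdens e j (by omega)
          have a3 := huse e
          have a4 := h2 e
          have a5 := huseA e
          by_cases hB : e ∈ B (j + 1)
          · rw [if_pos hB] at a3
            split_ifs <;> omega
          · rw [if_neg hB] at a3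
            by_cases hin : e ∈ H0 ∪ T
            · rw [if_pos hin]
              rw [Finset.mem_union] at hin
              rcases hin with hin | hin
              · rw [hH0, Finset.mem_filter] at hin
                rw [if_pos hin.1] at a5
                have := hin.2.2
                omega
              · exact absurd (hTB hin) hB
            · rw [if_neg hin]
              omega
        · intro e
          have a1 := h1 e
          have a2 := hdens e j (by omega)
          have a3 := huse e
          have a4 := h2 e
          have a5 := huseA e
          by_cases hB : e ∈ B (j + 1)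
          · rw [if_pos hB] at a3
            rw [if_pos (hBA _ hB)] at a5
            split_ifs <;> omega
          · rw [if_neg hB] at a3
            by_cases hA : e ∈ Al (j + 1)
            · rw [if_pos hA] at a5
              by_cases hr : r e + use B (j + 1) e = use Al (j + 1) e
              · have hin : e ∈ H0 ∪ T := by
                  rw [Finset.mem_union, hH0, Finset.mem_filter]
                  exact Or.inl ⟨hA, hB, hr⟩
                rw [if_pos hin]
                omega
              · split_ifs <;> omega
            · rw [if_neg hA] at a5
              have hin : e ∉ H0 ∪ T := by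
                rw [Finset.mem_union, hH0, Finset.mem_filter]
                rintro (h | h)
                · exact hA h.1
                · exact hB (hTB h)
              rw [if_neg hin]
              omega
    obtain ⟨Hn, hn1, hn2, hn3, hn4⟩ := key
    obtain ⟨H, hH1, hH2⟩ := ih (fun e => r e - (if e ∈ Hn then 1 else 0)) (by omega) hn3 hn4 (by
      have hIcc : Finset.Icc 1 (j + 1) = insert (j + 1) (Finset.Icc 1 j) := by
        ext i
        simp only [Finset.mem_insert, Finset.mem_Icc]
        omega
      rw [hIcc, Finset.sum_insert (by simp)] at h3
      have h4 : ∑ e, (r e : ZMod 2) • bd s t e =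
          ∑ e, ((r e - (if e ∈ Hn then 1 else 0) : ℕ) : ZMod 2) • bd s t e + ∑ e ∈ Hn, bd s t e := by
        have h5 : ∑ e ∈ Hn, bd s t e = ∑ e, if e ∈ Hn then bd s t e else 0 := by
          rw [← Finset.sum_filter]
          refine Finset.sum_congr ?_ (fun _ _ => rfl)
          ext e; simp
        rw [h5, ← Finset.sum_add_distrib]
        refine Finset.sum_congr rfl (fun e _ => ?_)
        by_cases he : e ∈ Hn
        · rw [if_pos he, if_pos he]
          have := hn2 e he
          rw [Nat.cast_sub this, sub_smul, Nat.cast_one, one_smul, sub_add_cancel]
        · rw [if_neg he, if_neg he, Nat.sub_zero, add_zero]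
      rw [h4, hn1] at h3
      have := add_right_cancel (h3.trans (add_comm _ _))
      exact this)
    refine ⟨fun i => if i = j + 1 then Hn else H i, ?_, ?_⟩
    · intro i hi hij
      by_cases hi' : i = j + 1
      · subst hi'
        simp only [if_true]
        exact hn1
      · simp only [if_neg hi']
        exact hH1 i hi (by omega)
    · intro e
      rw [use_succ]
      have h5 : use (fun i => if i = j + 1 then Hn else H i) j e = use H j e := by
        unfold use
        congr 1
        refine Finset.filter_congr (fun i hi => ?_)
        rw [Finset.mem_Icc] at hi
        have : ¬ i = j + 1 := by omega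
        simp only [if_neg this]
      rw [h5, hH2 e]
      simp only [if_true]
      by_cases he : e ∈ Hn
      · have := hn2 e he
        rw [if_pos he]
        omega
      · rw [if_neg he]
        omega

end Pool.Agent.H46.Faith
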