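import Mathlib
import Pool.Agent.H46.Faith.Game

set_option autoImplicit false

/-! The main theorem on faithful covers, in internal form. -/

namespace Pool.Agent.H46.Faith

open Module

set_option linter.unusedSectionVars false

variable {V E : Type} [Fintype V] [DecidableEq V] [Fintype E] [DecidableEq E]

lemma bd_sum_apply (s t : E → V) (S : Finset E) (v : V) :
    (∑ e ∈ S, bd s t e) v =
      (((S.filter (fun e => s e = v)).card + (S.filter (fun e => t e = v)).card : ℕ) : ZMod 2) := by
  rw [Finset.sum_apply]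
  simp only [bd, Pi.add_apply, Pi.single_apply, Finset.sum_add_distrib]
  push_cast
  rw [Finset.card_filter, Finset.card_filter]
  push_cast
  congr 1
  · refine Finset.sum_congr rfl (fun e _ => ?_)
    by_cases h : s e = v
    · rw [if_pos h, if_pos h.symm]
    · rw [if_neg h, if_neg (fun h' => h h'.symm)]
  · refine Finset.sum_congr rfl (fun e _ => ?_)
    by_cases h : t e = v
    · rw [if_pos h, if_pos h.symm]
    · rw [if_neg h, if_neg (fun h' => h h'.symm)]

/-- From even cuts to a vanishing boundary. -/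
lemma bd_weight_zero (s t : E → V) (w : E → ℕ)
    (h : ∀ X : Finset V, Even (∑ e ∈ Finset.univ.filter
      (fun e => decide (s e ∈ X) ≠ decide (t e ∈ X)), w e)) :
    ∑ e, (w e : ZMod 2) • bd s t e = 0 := by
  funext v
  have h1 := h {v}
  rw [← ZMod.natCast_eq_zero_iff_even] at h1
  rw [Finset.sum_apply, Pi.zero_apply, ← h1, Finset.sum_filter]
  push_cast
  refine Finset.sum_congr rfl (fun e _ => ?_)
  simp only [bd, Pi.smul_apply, Pi.add_apply, Pi.single_apply, smul_eq_mul, Finset.mem_singleton]
  by_cases h2 : s e = v <;> by_cases h3 : t e = v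
  · rw [if_pos h2.symm, if_pos h3.symm]
    simp only [h2, h3, ne_eq, not_true_eq_false, if_false]
    rw [show (1 : ZMod 2) + 1 = 0 from rfl, mul_zero]
  · rw [if_pos h2.symm, if_neg (fun h' => h3 h'.symm)]
    simp [h2, h3]
  · rw [if_neg (fun h' => h2 h'.symm), if_pos h3.symm]
    simp [h2, h3]
  · rw [if_neg (fun h' => h2 h'.symm), if_neg (fun h' => h3 h'.symm)]
    simp [h2, h3]

/-- Twice the usable amount of an edge. -/
def amt (w κ : ℕ) : ℕ := min (2 * w) (min (2 * (κ - w)) (κ - 1))

open Classical in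
theorem main (s t : E → V) (w κ : E → ℕ) (N : ℕ)
    (hwκ : ∀ e, w e ≤ κ e) (hκN : ∀ e, κ e ≤ N)
    (heven : ∀ X : Finset V, Even (∑ e ∈ Finset.univ.filter
      (fun e => decide (s e ∈ X) ≠ decide (t e ∈ X)), w e))
    (hcut : ∀ X : Finset V, ∀ f ∈ Finset.univ.filter
      (fun e => decide (s e ∈ X) ≠ decide (t e ∈ X)),
      (∀ e ∈ Finset.univ.filter (fun e => decide (s e ∈ X) ≠ decide (t e ∈ X)), κ e ≤ κ f) →
      4 * (κ f - 1) ≤ ∑ e ∈ (Finset.univ.filter
        (fun e => decide (s e ∈ X) ≠ decide (t e ∈ X))).filter (fun e => κ e = κ f),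
          amt (w e) (κ e)) :
    ∃ H : ℕ → Finset E, (∀ i, 1 ≤ i → i ≤ N → ∑ e ∈ H i, bd s t e = 0) ∧
      ∀ e, use H N e = w e := by
  classical
  set m : E → ℕ := fun e => min (w e) (κ e - w e) with hm
  set x : E → ℚ := fun e => (amt (w e) (κ e) : ℚ) / (2 * (κ e - 1)) with hx
  have hpos : ∀ e, 2 ≤ κ e → (0 : ℚ) < 2 * (κ e - 1) := by
    intro e he
    have : (2 : ℚ) ≤ κ e := by exact_mod_cast he
    linarith
  have hsmall : ∀ e, κ e ≤ 1 → x e = 0 := by
    intro e he
    simp only [hx]
    have : amt (w e) (κ e) = 0 := by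
      unfold amt
      omega
    rw [this]; simp
  have hx0 : ∀ e, 0 ≤ x e := by
    intro e
    rcases Nat.lt_or_ge (κ e) 2 with h | h
    · rw [hsmall e (by omega)]
    · simp only [hx]
      exact div_nonneg (Nat.cast_nonneg _) (hpos e h).le
  have hxm : ∀ e q, q < κ e → x e * q ≤ m e := by
    intro e q hq
    rcases Nat.lt_or_ge (κ e) 2 with h | h
    · rw [hsmall e (by omega), zero_mul]; exact Nat.cast_nonneg _
    · simp only [hx]
      rw [div_mul_eq_mul_div, div_le_iff₀ (hpos e h)]
      have h1 : (amt (w e) (κ e) : ℚ) ≤ 2 * m e := by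
        have : amt (w e) (κ e) ≤ 2 * m e := by
          simp only [amt, hm]
          omega
        exact_mod_cast this
      have h2 : (q : ℚ) ≤ κ e - 1 := by
        have : q + 1 ≤ κ e := hq
        have : ((q + 1 : ℕ) : ℚ) ≤ κ e := by exact_mod_cast this
        push_cast at this
        linarith
      have h3 : (0 : ℚ) ≤ m e := Nat.cast_nonneg _
      have h4 : (0 : ℚ) ≤ q := Nat.cast_nonneg _
      calc (amt (w e) (κ e) : ℚ) * q ≤ 2 * m e * (κ e - 1) := by
            refine mul_le_mul h1 h2 h4 (by positivity)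
        _ = m e * (2 * (κ e - 1)) := by ring
  have hx2 : ∀ e, x e ≤ 1 / 2 := by
    intro e
    rcases Nat.lt_or_ge (κ e) 2 with h | h
    · rw [hsmall e (by omega)]; norm_num
    · simp only [hx]
      rw [div_le_iff₀ (hpos e h)]
      have h1 : amt (w e) (κ e) + 1 ≤ κ e := by
        simp only [amt]
        omega
      have h2 : ((amt (w e) (κ e) + 1 : ℕ) : ℚ) ≤ κ e := by exact_mod_cast h1
      push_cast at h2
      linarith
  have hcut' : ∀ q, 1 ≤ q → ∀ X : Finset V, (∃ e ∈ lvl κ q, ¬ (s e ∈ X ↔ t e ∈ X)) →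
      2 ≤ ∑ e ∈ (lvl κ q).filter (fun e => ¬ (s e ∈ X ↔ t e ∈ X)), x e := by
    intro q hq X hex
    have hiff : ∀ e, (decide (s e ∈ X) ≠ decide (t e ∈ X)) ↔ ¬ (s e ∈ X ↔ t e ∈ X) := by
      intro e
      rw [ne_eq, decide_eq_decide]
    set C := Finset.univ.filter (fun e => decide (s e ∈ X) ≠ decide (t e ∈ X)) with hC
    have hCmem : ∀ e, e ∈ C ↔ ¬ (s e ∈ X ↔ t e ∈ X) := by
      intro e
      rw [hC, Finset.mem_filter]
      simp only [Finset.mem_univ, true_and]
      exact hiff e
    obtain ⟨e0, he0, he0'⟩ := hex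
    have hne : C.Nonempty := ⟨e0, (hCmem e0).2 he0'⟩
    obtain ⟨f, hf, hfmax⟩ := Finset.exists_max_image C κ hne
    have h1 := hcut X f hf hfmax
    have hfq : q < κ f := lt_of_lt_of_le (mem_lvl.1 he0) (hfmax e0 ((hCmem e0).2 he0'))
    have hκf : 2 ≤ κ f := by omega
    have h2 : (2 : ℚ) ≤ ∑ e ∈ C.filter (fun e => κ e = κ f), x e := by
      have h3 : ∑ e ∈ C.filter (fun e => κ e = κ f), x e =
          (∑ e ∈ C.filter (fun e => κ e = κ f), (amt (w e) (κ e) : ℚ)) / (2 * (κ f - 1)) := by
        rw [Finset.sum_div]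
        refine Finset.sum_congr rfl (fun e he => ?_)
        rw [Finset.mem_filter] at he
        simp only [hx]
        rw [he.2]
      rw [h3, le_div_iff₀ (hpos f hκf)]
      have h4 : ((4 * (κ f - 1) : ℕ) : ℚ) ≤
          ((∑ e ∈ C.filter (fun e => κ e = κ f), amt (w e) (κ e) : ℕ) : ℚ) := by
        exact_mod_cast h1
      push_cast at h4
      rw [Nat.cast_sub (by omega)] at h4
      push_cast at h4
      linarith
    refine h2.trans ?_
    refine Finset.sum_le_sum_of_subset_of_nonneg ?_ (fun e _ _ => hx0 e)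
    intro e he
    rw [Finset.mem_filter] at he
    rw [Finset.mem_filter, mem_lvl]
    refine ⟨by omega, (hCmem e).1 he.1⟩
  obtain ⟨B, hB1, hB2, hB3⟩ := pack s t κ m x hx0 hxm hx2 hcut'
  have huse2 : ∀ e q, 2 * use B q e ≤ q + 1 := fun e q => (hB3 e q).1
  have husem : ∀ e q, use B q e ≤ m e := fun e q => (hB3 e q).2
  refine game s t κ B (fun _ => 0) hB1 hB2 huse2 (fun j _ => Submodule.zero_mem _) N w ?_ ?_ ?_
  · intro e
    have := husem e (N - 1)
    simp only [hm] at this
    omega
  · intro e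
    have h1 := husem e (N - 1)
    have h2 := hwκ e
    have h3 := hκN e
    simp only [hm] at h1
    rw [le_min_iff]
    omega
  · rw [bd_weight_zero s t w heven, Finset.sum_const_zero]

/-- List form. -/
theorem main_list (s t : E → V) (w κ : E → ℕ) (N : ℕ)
    (hwκ : ∀ e, w e ≤ κ e) (hκN : ∀ e, κ e ≤ N)
    (heven : ∀ X : Finset V, Even (∑ e ∈ Finset.univ.filter
      (fun e => decide (s e ∈ X) ≠ decide (t e ∈ X)), w e))
    (hcut : ∀ X : Finset V, ∀ f ∈ Finset.univ.filter
      (fun e => decide (s e ∈ X) ≠ decide (t e ∈ X)),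
      (∀ e ∈ Finset.univ.filter (fun e => decide (s e ∈ X) ≠ decide (t e ∈ X)), κ e ≤ κ f) →
      4 * (κ f - 1) ≤ ∑ e ∈ (Finset.univ.filter
        (fun e => decide (s e ∈ X) ≠ decide (t e ∈ X))).filter (fun e => κ e = κ f),
          amt (w e) (κ e)) :
    ∃ L : List (Finset E), L.length = N ∧
      (∀ S ∈ L, ∀ v : V,
        Even ((S.filter (fun e => s e = v)).card + (S.filter (fun e => t e = v)).card)) ∧
      ∀ e : E, (L.filter (fun S => decide (e ∈ S))).length = w e := by
  obtain ⟨H, h1, h2⟩ := main s t w κ N hwκ hκN heven hcut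
  refine ⟨(List.range N).map (fun i => H (i + 1)), by simp, ?_, ?_⟩
  · intro S hS v
    rw [List.mem_map] at hS
    obtain ⟨i, hi, rfl⟩ := hS
    rw [List.mem_range] at hi
    have h3 := congrFun (h1 (i + 1) (by omega) (by omega)) v
    rw [bd_sum_apply, Pi.zero_apply, ZMod.natCast_eq_zero_iff_even] at h3
    exact h3
  · intro e
    rw [← h2 e, List.filter_map, List.length_map]
    unfold use
    have h4 : ((Finset.Icc 1 N).filter (fun q' => e ∈ H q')).card =
        ((Finset.range N).filter (fun i => e ∈ H (i + 1))).card := by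
      symm
      refine Finset.card_bij (fun i _ => i + 1) ?_ ?_ ?_
      · intro i hi
        rw [Finset.mem_filter, Finset.mem_range] at hi
        rw [Finset.mem_filter, Finset.mem_Icc]
        exact ⟨⟨by omega, by omega⟩, hi.2⟩
      · intro i _ j _ hij
        omega
      · intro i hi
        rw [Finset.mem_filter, Finset.mem_Icc] at hi
        refine ⟨i - 1, ?_, by omega⟩
        rw [Finset.mem_filter, Finset.mem_range, show i - 1 + 1 = i by omega]
        exact ⟨by omega, hi.2⟩
    rw [h4]
    have h5 : ∀ n, (List.filter ((fun S => decide (e ∈ S)) ∘ fun i => H (i + 1)) (List.range n)).length =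
        ((Finset.range n).filter (fun i => e ∈ H (i + 1))).card := by
      intro n
      induction n with
      | zero => simp
      | succ n ih =>
        rw [List.range_succ, List.filter_append, List.length_append, ih,
          Finset.range_add_one, Finset.filter_insert]
        by_cases hmem : e ∈ H (n + 1)
        · rw [if_pos hmem, Finset.card_insert_of_notMem (by simp)]
          simp [hmem]
        · rw [if_neg hmem]
          simp [hmem]
    exact h5 N

end Pool.Agent.H46.Faith
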