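import Mathlib
import Pool.Agent.H46.Faith.Pack

set_option autoImplicit false

/-! Edge-disjoint Steiner forests in eulerian graphs. -/

namespace Pool.Agent.H46.Faith

open Module

set_option linter.unusedSectionVars false

variable {V C : Type} [Fintype V] [DecidableEq V] [Fintype C] [DecidableEq C]

/-- does `c` cross `X`? -/
def xx (s t : C → V) (X : Finset V) (c : C) : ℕ := if (s c ∈ X ↔ t c ∈ X) then 0 else 1

/-- size of a cut -/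
def dd (s t : C → V) (A : Finset C) (X : Finset V) : ℕ := ∑ c ∈ A, xx s t X c

lemma dd_compl (s t : C → V) (A : Finset C) (X : Finset V) : dd s t A Xᶜ = dd s t A X := by
  unfold dd
  refine Finset.sum_congr rfl (fun c _ => ?_)
  unfold xx
  simp only [Finset.mem_compl, not_iff_not]

lemma dd_submod (s t : C → V) (A : Finset C) (X Y : Finset V) :
    dd s t A (X ∩ Y) + dd s t A (X ∪ Y) ≤ dd s t A X + dd s t A Y := by
  unfold dd
  rw [← Finset.sum_add_distrib, ← Finset.sum_add_distrib]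
  refine Finset.sum_le_sum (fun c _ => ?_)
  unfold xx
  simp only [Finset.mem_inter, Finset.mem_union]
  by_cases h1 : s c ∈ X <;> by_cases h2 : t c ∈ X <;> by_cases h3 : s c ∈ Y <;>
    by_cases h4 : t c ∈ Y <;> simp [h1, h2, h3, h4]

lemma dd_posimod (s t : C → V) (A : Finset C) (X Y : Finset V) (c1 : C) (hc1 : c1 ∈ A)
    (h : (s c1 ∈ X ∧ s c1 ∈ Y ∧ t c1 ∉ X ∧ t c1 ∉ Y) ∨ (t c1 ∈ X ∧ t c1 ∈ Y ∧ s c1 ∉ X ∧ s c1 ∉ Y)) :
    dd s t A (X \ Y) + dd s t A (Y \ X) + 2 ≤ dd s t A X + dd s t A Y := by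
  unfold dd
  rw [← Finset.add_sum_erase A _ hc1, ← Finset.add_sum_erase A _ hc1,
    ← Finset.add_sum_erase A _ hc1, ← Finset.add_sum_erase A _ hc1]
  have h1 : ∑ c ∈ A.erase c1, xx s t (X \ Y) c + ∑ c ∈ A.erase c1, xx s t (Y \ X) c ≤
      ∑ c ∈ A.erase c1, xx s t X c + ∑ c ∈ A.erase c1, xx s t Y c := by
    rw [← Finset.sum_add_distrib, ← Finset.sum_add_distrib]
    refine Finset.sum_le_sum (fun c _ => ?_)
    unfold xx
    simp only [Finset.mem_sdiff]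
    by_cases h1 : s c ∈ X <;> by_cases h2 : t c ∈ X <;> by_cases h3 : s c ∈ Y <;>
      by_cases h4 : t c ∈ Y <;> simp [h1, h2, h3, h4]
  have h2 : xx s t (X \ Y) c1 + xx s t (Y \ X) c1 + 2 ≤ xx s t X c1 + xx s t Y c1 := by
    unfold xx
    simp only [Finset.mem_sdiff]
    rcases h with ⟨a, b, c, d⟩ | ⟨a, b, c, d⟩ <;> simp [a, b, c, d]
  omega

lemma mem_sp_of_cut (s t : C → V) (Y : Finset C) (x y : V)
    (h : ∀ X : Finset V, x ∈ X → y ∉ X → ∃ c ∈ Y, ¬ (s c ∈ X ↔ t c ∈ X)) :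
    (Pi.single x 1 + Pi.single y 1 : V → ZMod 2) ∈ sp s t Y := by
  by_contra hcon
  obtain ⟨g, hg1, hg2⟩ := Submodule.exists_le_ker_of_notMem hcon
  set f : V → ZMod 2 := fun v => g (Pi.single v 1) with hf
  have hxy : f x ≠ f y := by
    intro h1
    apply hg1
    rw [map_add]
    change f x + f y = 0
    rw [h1]
    exact CharTwo.add_self_eq_zero _
  obtain ⟨c, hc, hc'⟩ := h (Finset.univ.filter (fun v => f v = f x)) (by simp)
    (by simp only [Finset.mem_filter, Finset.mem_univ, true_and]; exact fun h => hxy h.symm)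
  apply hc'
  have h1 : bd s t c ∈ sp s t Y := Submodule.subset_span ⟨c, by exact_mod_cast hc, rfl⟩
  have h2 : g (bd s t c) = 0 := hg2 h1
  have h3 : f (s c) = f (t c) := by
    have h4 : f (s c) + f (t c) = 0 := by
      rw [← h2, bd, map_add]
    have h5 := eq_neg_of_add_eq_zero_left h4
    rw [h5, ZMod.neg_eq_self_mod_two]
  simp only [Finset.mem_filter, Finset.mem_univ, true_and, h3]

/-- Two crossing separating sets. -/
lemma sep_cases (D : V → V → Prop) (hD : ∀ x y, D x y → D y x) (X Y : Finset V)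
    (hX : ∃ p q, D p q ∧ p ∈ X ∧ q ∉ X) (hY : ∃ p q, D p q ∧ p ∈ Y ∧ q ∉ Y) :
    ((∃ p q, D p q ∧ p ∈ X ∩ Y ∧ q ∉ X ∩ Y) ∧ (∃ p q, D p q ∧ p ∈ X ∪ Y ∧ q ∉ X ∪ Y)) ∨
    ((∃ p q, D p q ∧ p ∈ X \ Y ∧ q ∉ X \ Y) ∧ (∃ p q, D p q ∧ p ∈ Y \ X ∧ q ∉ Y \ X)) := by
  obtain ⟨p, q, hpq, hp, hq⟩ := hX
  obtain ⟨p', q', hpq', hp', hq'⟩ := hY
  have hqp := hD _ _ hpq
  have hqp' := hD _ _ hpq'
  simp only [Finset.mem_inter, Finset.mem_union, Finset.mem_sdiff]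
  by_cases h1 : p ∈ Y <;> by_cases h2 : q ∈ Y <;> by_cases h3 : p' ∈ X <;> by_cases h4 : q' ∈ X
  -- p in X cap Y, q in Y \ X
  · exact Or.inr ⟨⟨q', p', hqp', by tauto, by tauto⟩, ⟨q, p, hqp, by tauto, by tauto⟩⟩
  · exact Or.inl ⟨⟨p, q, hpq, by tauto, by tauto⟩, ⟨p', q', hpq', by tauto, by tauto⟩⟩
  · exact Or.inr ⟨⟨q', p', hqp', by tauto, by tauto⟩, ⟨q, p, hqp, by tauto, by tauto⟩⟩
  · exact Or.inl ⟨⟨p, q, hpq, by tauto, by tauto⟩, ⟨p', q', hpq', by tauto, by tauto⟩⟩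
  -- p in X cap Y, q outside
  · exact Or.inl ⟨⟨p, q, hpq, by tauto, by tauto⟩, ⟨p, q, hpq, by tauto, by tauto⟩⟩
  · exact Or.inl ⟨⟨p, q, hpq, by tauto, by tauto⟩, ⟨p, q, hpq, by tauto, by tauto⟩⟩
  · exact Or.inl ⟨⟨p, q, hpq, by tauto, by tauto⟩, ⟨p, q, hpq, by tauto, by tauto⟩⟩
  · exact Or.inl ⟨⟨p, q, hpq, by tauto, by tauto⟩, ⟨p, q, hpq, by tauto, by tauto⟩⟩
  -- p in X \ Y, q in Y \ X
  · exact Or.inr ⟨⟨p, q, hpq, by tauto, by tauto⟩, ⟨q, p, hqp, by tauto, by tauto⟩⟩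
  · exact Or.inr ⟨⟨p, q, hpq, by tauto, by tauto⟩, ⟨q, p, hqp, by tauto, by tauto⟩⟩
  · exact Or.inr ⟨⟨p, q, hpq, by tauto, by tauto⟩, ⟨q, p, hqp, by tauto, by tauto⟩⟩
  · exact Or.inr ⟨⟨p, q, hpq, by tauto, by tauto⟩, ⟨q, p, hqp, by tauto, by tauto⟩⟩
  -- p in X \ Y, q outside
  · exact Or.inl ⟨⟨p', q', hpq', by tauto, by tauto⟩, ⟨p, q, hpq, by tauto, by tauto⟩⟩
  · exact Or.inl ⟨⟨p', q', hpq', by tauto, by tauto⟩, ⟨p', q', hpq', by tauto, by tauto⟩⟩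
  · exact Or.inr ⟨⟨p, q, hpq, by tauto, by tauto⟩, ⟨p', q', hpq', by tauto, by tauto⟩⟩
  · exact Or.inr ⟨⟨p, q, hpq, by tauto, by tauto⟩, ⟨p', q', hpq', by tauto, by tauto⟩⟩

end Pool.Agent.H46.Faith
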