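import Mathlib
import Pool.Agent.H46.Faith.Steiner

set_option autoImplicit false

/-! Edge-disjoint Steiner forests in eulerian graphs, main induction. -/

namespace Pool.Agent.H46.Faith

open Module

set_option linter.unusedSectionVars false

variable {V C : Type} [Fintype V] [DecidableEq V] [Fintype C] [DecidableEq C]

/-- the conclusion -/
def HasForests (s t : C → V) (A : Finset C) (D : V → V → Prop) (k : ℕ) : Prop :=
  ∃ B : ℕ → Finset C, (∀ i, B i ⊆ A) ∧
    (∀ i j c, 1 ≤ i → i ≤ k → 1 ≤ j → j ≤ k → c ∈ B i → c ∈ B j → i = j) ∧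
    ∀ i x y, 1 ≤ i → i ≤ k → D x y → (Pi.single x 1 + Pi.single y 1 : V → ZMod 2) ∈ sp s t (B i)

/-- the hypothesis -/
def CutHyp (s t : C → V) (A : Finset C) (D : V → V → Prop) (k : ℕ) : Prop :=
  ∀ X : Finset V, (∃ p q, D p q ∧ p ∈ X ∧ q ∉ X) → 4 * k ≤ dd s t A X

lemma xx_pos {s t : C → V} {X : Finset V} {c : C} (h : 0 < xx s t X c) :
    ¬ (s c ∈ X ↔ t c ∈ X) := by
  unfold xx at h
  intro h'
  rw [if_pos h'] at h
  omega

lemma xx_le_one {s t : C → V} {X : Finset V} {c : C} : xx s t X c ≤ 1 := by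
  unfold xx; split_ifs <;> omega

/-- Splitting off at a vertex without demands. -/
lemma case_split (s t : C → V) (A : Finset C) (D : V → V → Prop) (k : ℕ)
    (hk : 1 ≤ k) (hD : ∀ x y, D x y → D y x) (hev : ∀ X, Even (dd s t A X))
    (hcut : CutHyp s t A D k) (v : V) (c1 : C) (hc1A : c1 ∈ A) (hc1 : s c1 ≠ t c1)
    (x : V) (hc1v : (s c1 = v ∧ t c1 = x) ∨ (t c1 = v ∧ s c1 = x))
    (hv : ∀ y, y ≠ v → ¬ D v y)
    (ih : ∀ (A' : Finset C) (s' t' : C → V),
      (A'.filter (fun c => s' c ≠ t' c)).card < (A.filter (fun c => s c ≠ t c)).card →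
      (∀ X, Even (dd s' t' A' X)) → CutHyp s' t' A' D k → HasForests s' t' A' D k) :
    HasForests s t A D k := by
  classical
  have hxv : x ≠ v := by
    rcases hc1v with ⟨a, b⟩ | ⟨a, b⟩
    · rintro rfl; exact hc1 (a.trans b.symm)
    · rintro rfl; exact hc1 (b.trans a.symm)
  -- other end of a copy at `v`
  set o : C → V := fun c => if s c = v then t c else s c with ho
  -- copies at v
  set N : Finset C := A.filter (fun c => s c ≠ t c ∧ (s c = v ∨ t c = v)) with hN
  have hNdd : dd s t A {v} = N.card := by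
    rw [hN, Finset.card_filter]
    unfold dd xx
    refine Finset.sum_congr rfl (fun c _ => ?_)
    simp only [Finset.mem_singleton]
    by_cases h1 : s c = v <;> by_cases h2 : t c = v
    · simp [h1, h2]
    · have : ¬ v = t c := fun h => h2 h.symm
      simp [h1, h2, this]
    · simp [h1, h2]
    · simp [h1, h2]
  have hc1N : c1 ∈ N := by
    rw [hN, Finset.mem_filter]
    rcases hc1v with ⟨a, b⟩ | ⟨a, b⟩
    · exact ⟨hc1A, hc1, Or.inl a⟩
    · exact ⟨hc1A, hc1, Or.inr a⟩
  have hoc1 : o c1 = x := by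
    simp only [ho]
    rcases hc1v with ⟨a, b⟩ | ⟨a, b⟩
    · rw [if_pos a]; exact b
    · rw [if_neg (fun h => hc1 (h.trans a.symm))]; exact b
  have hNo : ∀ c ∈ N, o c ≠ v ∧ ((s c = v ∧ t c = o c) ∨ (t c = v ∧ s c = o c)) := by
    intro c hc
    rw [hN, Finset.mem_filter] at hc
    obtain ⟨_, h1, h2⟩ := hc
    simp only [ho]
    by_cases h3 : s c = v
    · rw [if_pos h3]
      exact ⟨fun h => h1 (h3.trans h.symm), Or.inl ⟨h3, rfl⟩⟩
    · rw [if_neg h3]
      rcases h2 with h2 | h2
      · exact absurd h2 h3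
      · exact ⟨h3, Or.inr ⟨h2, rfl⟩⟩
  -- tight sets
  set T : Finset (Finset V) := Finset.univ.filter (fun X => v ∉ X ∧ x ∈ X ∧ dd s t A X = 4 * k ∧
    ∃ p q, D p q ∧ p ∈ X ∧ q ∉ X) with hT
  have hTmem : ∀ X, X ∈ T ↔ (v ∉ X ∧ x ∈ X ∧ dd s t A X = 4 * k ∧
      ∃ p q, D p q ∧ p ∈ X ∧ q ∉ X) := by
    intro X; rw [hT, Finset.mem_filter]; simp only [Finset.mem_univ, true_and]
  have hTunion : ∀ X ∈ T, ∀ Y ∈ T, X ∪ Y ∈ T := by
    intro X hX Y hY
    rw [hTmem] at hX hY ⊢
    obtain ⟨hX1, hX2, hX3, hX4⟩ := hX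
    obtain ⟨hY1, hY2, hY3, hY4⟩ := hY
    rcases sep_cases D hD X Y hX4 hY4 with ⟨h1, h2⟩ | ⟨h1, h2⟩
    · have h3 := hcut _ h1
      have h4 := hcut _ h2
      have h5 := dd_submod s t A X Y
      refine ⟨by simp [hX1, hY1], by simp [hX2], by omega, h2⟩
    · exfalso
      have h3 := hcut _ h1
      have h4 := hcut _ h2
      have h5 := dd_posimod s t A X Y c1 hc1A (by
        rcases hc1v with ⟨a, b⟩ | ⟨a, b⟩
        · right
          rw [a, b]; exact ⟨hX2, hY2, hX1, hY1⟩
        · left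
          rw [a, b]; exact ⟨hX2, hY2, hX1, hY1⟩)
      omega
  have hcex : ∃ c2 ∈ N, c2 ≠ c1 ∧ ∀ X ∈ T, o c2 ∉ X := by
    by_contra hcon
    push Not at hcon
    have hev' := hev {v}
    rw [hNdd] at hev'
    have hNcard : 2 ≤ N.card := by
      have h1 : 1 ≤ N.card := Finset.card_pos.2 ⟨c1, hc1N⟩
      obtain ⟨r, hr⟩ := hev'
      omega
    obtain ⟨c3, hc3N, hc3⟩ : ∃ c3 ∈ N, c3 ≠ c1 := by
      obtain ⟨a, ha, b, hb, hab⟩ := Finset.one_lt_card.1 hNcard
      by_cases h : a = c1
      · exact ⟨b, hb, fun h' => hab (h.trans h'.symm)⟩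
      · exact ⟨a, ha, h⟩
    obtain ⟨X3, hX3, _⟩ := hcon c3 hc3N hc3
    obtain ⟨Z, hZT, hZmax⟩ := Finset.exists_max_image T Finset.card ⟨X3, hX3⟩
    have hsubZ : ∀ X ∈ T, X ⊆ Z := by
      intro X hX
      have h1 := hZmax _ (hTunion X hX Z hZT)
      have h2 : Z = X ∪ Z := Finset.eq_of_subset_of_card_le Finset.subset_union_right h1
      rw [h2]
      exact Finset.subset_union_left
    have hallZ : ∀ c ∈ N, o c ∈ Z := by
      intro c hc
      by_cases h : c = c1
      · rw [h, hoc1]; exact ((hTmem Z).1 hZT).2.1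
      · obtain ⟨X, hX, hoX⟩ := hcon c hc h
        exact hsubZ X hX hoX
    obtain ⟨hZ1, hZ2, hZ3, p, q, hpq, hp, hq⟩ := (hTmem Z).1 hZT
    have hqv : q ≠ v := by
      rintro rfl
      refine hv p ?_ (hD _ _ hpq)
      rintro rfl
      exact hZ1 hp
    have h1 : 4 * k ≤ dd s t A (insert v Z) := by
      refine hcut _ ⟨p, q, hpq, Finset.mem_insert_of_mem hp, ?_⟩
      rw [Finset.mem_insert]
      rintro (h | h)
      · exact hqv h
      · exact hq h
    have h2 : dd s t A (insert v Z) + N.card = dd s t A Z := by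
      rw [hN, Finset.card_filter]
      unfold dd
      rw [← Finset.sum_add_distrib]
      refine Finset.sum_congr rfl (fun c hc => ?_)
      by_cases hcN : s c ≠ t c ∧ (s c = v ∨ t c = v)
      · rw [if_pos hcN]
        have hcN' : c ∈ N := by rw [hN, Finset.mem_filter]; exact ⟨hc, hcN⟩
        have h3 := hallZ c hcN'
        obtain ⟨h4, h5⟩ := hNo c hcN'
        unfold xx
        rcases h5 with ⟨a, b⟩ | ⟨a, b⟩
        · rw [a, b]; simp [h3, hZ1]
        · rw [a, b]; simp [h3, hZ1]
      · rw [if_neg hcN, add_zero]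
        push Not at hcN
        unfold xx
        by_cases hloop : s c = t c
        · rw [hloop]; simp
        · obtain ⟨h6, h7⟩ := hcN hloop
          simp only [Finset.mem_insert, h6, h7, false_or]
    omega
  obtain ⟨c2, hc2N, hc21, hc2T⟩ := hcex
  set y := o c2 with hy
  have hc2A : c2 ∈ A := by rw [hN, Finset.mem_filter] at hc2N; exact hc2N.1
  obtain ⟨hyv, hc2v⟩ := hNo c2 hc2N
  have hc2 : s c2 ≠ t c2 := by rw [hN, Finset.mem_filter] at hc2N; exact hc2N.2.1
  rw [← hy] at hyv hc2v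
  -- the new graph
  set s' : C → V := Function.update s c1 x with hs'
  set t' : C → V := Function.update t c1 y with ht'
  have hs'1 : s' c1 = x := by rw [hs', Function.update_self]
  have ht'1 : t' c1 = y := by rw [ht', Function.update_self]
  have hs'2 : ∀ c, c ≠ c1 → s' c = s c := fun c hc => by rw [hs', Function.update_of_ne hc]
  have ht'2 : ∀ c, c ≠ c1 → t' c = t c := fun c hc => by rw [ht', Function.update_of_ne hc]
  set A' := A.erase c2 with hA'
  have hc1A' : c1 ∈ A' := by rw [hA', Finset.mem_erase]; exact ⟨fun h => hc21 h.symm, hc1A⟩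
  have hdd : ∀ X, dd s t A X + xx s' t' X c1 = dd s' t' A' X + xx s t X c1 + xx s t X c2 := by
    intro X
    unfold dd
    rw [← Finset.add_sum_erase A _ hc2A, ← hA', ← Finset.add_sum_erase A' _ hc1A',
      ← Finset.add_sum_erase A' _ hc1A']
    have h1 : ∑ c ∈ A'.erase c1, xx s' t' X c = ∑ c ∈ A'.erase c1, xx s t X c := by
      refine Finset.sum_congr rfl (fun c hc => ?_)
      have hc' := Finset.ne_of_mem_erase hc
      unfold xx
      rw [hs'2 c hc', ht'2 c hc']
    rw [h1]
    ring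
  have hxx1 : ∀ X, xx s t X c1 = if (x ∈ X ↔ v ∈ X) then 0 else 1 := by
    intro X
    unfold xx
    rcases hc1v with ⟨a, b⟩ | ⟨a, b⟩
    · rw [a, b]
      by_cases h1 : v ∈ X <;> by_cases h2 : x ∈ X <;> simp [h1, h2]
    · rw [a, b]
  have hxx2 : ∀ X, xx s t X c2 = if (y ∈ X ↔ v ∈ X) then 0 else 1 := by
    intro X
    unfold xx
    rcases hc2v with ⟨a, b⟩ | ⟨a, b⟩
    · rw [a, b]
      by_cases h1 : v ∈ X <;> by_cases h2 : y ∈ X <;> simp [h1, h2]
    · rw [a, b]
  have hxx' : ∀ X, xx s' t' X c1 = if (x ∈ X ↔ y ∈ X) then 0 else 1 := by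
    intro X
    unfold xx
    rw [hs'1, ht'1]
  have hev' : ∀ X, Even (dd s' t' A' X) := by
    intro X
    have h1 := hdd X
    rw [hxx1, hxx2, hxx'] at h1
    have h2 := hev X
    rw [Nat.even_iff] at h2 ⊢
    by_cases a : x ∈ X <;> by_cases b : y ∈ X <;> by_cases c : v ∈ X <;>
      simp [a, b, c] at h1 <;> omega
  have htight : ∀ X, (∃ p q, D p q ∧ p ∈ X ∧ q ∉ X) → v ∉ X → x ∈ X → y ∈ X →
      4 * k + 2 ≤ dd s t A X := by
    intro X hX hvX hxX hyX
    have h1 := hcut X hX
    have h2 : dd s t A X ≠ 4 * k := by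
      intro h
      exact hc2T X ((hTmem X).2 ⟨hvX, hxX, h, hX⟩) hyX
    have h3 := hev X
    rw [Nat.even_iff] at h3
    omega
  have hcut' : CutHyp s' t' A' D k := by
    intro X hX
    have h1 := hdd X
    rw [hxx1, hxx2, hxx'] at h1
    have h2 := hcut X hX
    by_cases a : x ∈ X <;> by_cases b : y ∈ X <;> by_cases c : v ∈ X
    · simp [a, b, c] at h1; omega
    · have h3 := htight X hX c a b
      simp [a, b, c] at h1; omega
    · simp [a, b, c] at h1; omega
    · simp [a, b, c] at h1; omega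
    · simp [a, b, c] at h1; omega
    · simp [a, b, c] at h1; omega
    · have h3 := htight Xᶜ (by
        obtain ⟨p, q, hpq, hp, hq⟩ := hX
        exact ⟨q, p, hD _ _ hpq, Finset.mem_compl.2 hq, fun h => (Finset.mem_compl.1 h) hp⟩)
        (fun h => (Finset.mem_compl.1 h) c) (Finset.mem_compl.2 a) (Finset.mem_compl.2 b)
      rw [dd_compl] at h3
      simp [a, b, c] at h1; omega
    · simp [a, b, c] at h1; omega
  have hmeas : (A'.filter (fun c => s' c ≠ t' c)).card < (A.filter (fun c => s c ≠ t c)).card := by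
    have h1 : A'.filter (fun c => s' c ≠ t' c) ⊆ (A.filter (fun c => s c ≠ t c)).erase c2 := by
      intro c hc
      rw [Finset.mem_filter, hA', Finset.mem_erase] at hc
      obtain ⟨⟨h1, h2⟩, h3⟩ := hc
      rw [Finset.mem_erase, Finset.mem_filter]
      refine ⟨h1, h2, ?_⟩
      by_cases h : c = c1
      · rw [h]; exact hc1
      · rw [hs'2 c h, ht'2 c h] at h3; exact h3
    have h2 := Finset.card_le_card h1
    have h3 : c2 ∈ A.filter (fun c => s c ≠ t c) := Finset.mem_filter.2 ⟨hc2A, hc2⟩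
    have h4 := Finset.card_erase_lt_of_mem h3
    omega
  obtain ⟨B', hB1, hB2, hB3⟩ := ih A' s' t' hmeas hev' hcut'
  refine ⟨fun i => B' i ∪ (if c1 ∈ B' i then {c2} else ∅), ?_, ?_, ?_⟩
  · intro i
    refine Finset.union_subset ((hB1 i).trans (Finset.erase_subset _ _)) ?_
    split_ifs
    · exact Finset.singleton_subset_iff.2 hc2A
    · exact Finset.empty_subset _
  · intro i j c hi hi' hj hj' hci hcj
    have hsplit : ∀ i, c ∈ B' i ∪ (if c1 ∈ B' i then {c2} else ∅) →
        (c ≠ c2 ∧ c ∈ B' i) ∨ (c = c2 ∧ c1 ∈ B' i) := by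
      intro i h
      rw [Finset.mem_union] at h
      rcases h with h | h
      · refine Or.inl ⟨?_, h⟩
        have := hB1 i h
        rw [hA', Finset.mem_erase] at this
        exact this.1
      · split_ifs at h with h'
        · exact Or.inr ⟨Finset.mem_singleton.1 h, h'⟩
        · exact absurd h (Finset.notMem_empty _)
    rcases hsplit i hci with ⟨a, b⟩ | ⟨a, b⟩ <;> rcases hsplit j hcj with ⟨a', b'⟩ | ⟨a', b'⟩
    · exact hB2 i j c hi hi' hj hj' b b'
    · exact absurd a' a
    · exact absurd a a'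
    · exact hB2 i j c1 hi hi' hj hj' b b'
  · intro i p q hi hi' hpq
    have h1 := hB3 i p q hi hi' hpq
    have h2 : sp s' t' (B' i) ≤ sp s t (B' i ∪ (if c1 ∈ B' i then {c2} else ∅)) := by
      unfold sp
      rw [Submodule.span_le]
      rintro _ ⟨c, hc, rfl⟩
      rw [Finset.mem_coe] at hc
      by_cases hcc : c = c1
      · subst hcc
        have h3 : bd s' t' c = bd s t c + bd s t c2 := by
          unfold bd
          rw [hs'1, ht'1]
          have h4 : (Pi.single (s c) 1 + Pi.single (t c) 1 : V → ZMod 2) =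
              Pi.single x 1 + Pi.single v 1 := by
            rcases hc1v with ⟨a, b⟩ | ⟨a, b⟩
            · rw [a, b, add_comm]
            · rw [a, b]
          have h5 : (Pi.single (s c2) 1 + Pi.single (t c2) 1 : V → ZMod 2) =
              Pi.single y 1 + Pi.single v 1 := by
            rcases hc2v with ⟨a, b⟩ | ⟨a, b⟩
            · rw [a, b, add_comm]
            · rw [a, b]
          rw [h4, h5]
          have h6 : (Pi.single v 1 + Pi.single v 1 : V → ZMod 2) = 0 := by
            funext u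
            exact CharTwo.add_self_eq_zero _
          calc (Pi.single x 1 + Pi.single y 1 : V → ZMod 2)
              = Pi.single x 1 + Pi.single y 1 + 0 := by rw [add_zero]
            _ = Pi.single x 1 + Pi.single y 1 + (Pi.single v 1 + Pi.single v 1) := by rw [h6]
            _ = _ := by abel
        rw [h3]
        refine Submodule.add_mem _ (Submodule.subset_span ⟨c, ?_, rfl⟩)
          (Submodule.subset_span ⟨c2, ?_, rfl⟩)
        · rw [Finset.mem_coe, Finset.mem_union]; exact Or.inl hc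
        · rw [Finset.mem_coe, Finset.mem_union, if_pos hc]
          exact Or.inr (Finset.mem_singleton_self _)
      · have h3 : bd s' t' c = bd s t c := by
          unfold bd
          rw [hs'2 c hcc, ht'2 c hcc]
        rw [h3]
        refine Submodule.subset_span ⟨c, ?_, rfl⟩
        rw [Finset.mem_coe, Finset.mem_union]; exact Or.inl hc
    exact h2 h1

end Pool.Agent.H46.Faith
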