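import Mathlib
import Pool.Agent.H46.Faith.Steiner2

set_option autoImplicit false

/-! Edge-disjoint Steiner forests in eulerian graphs, conclusion. -/

namespace Pool.Agent.H46.Faith

open Module

set_option linter.unusedSectionVars false

variable {V C : Type} [Fintype V] [DecidableEq V] [Fintype C] [DecidableEq C]

lemma dd_eq_card (s t : C → V) (A : Finset C) (X : Finset V) :
    dd s t A X = (A.filter (fun c => ¬ (s c ∈ X ↔ t c ∈ X))).card := by
  unfold dd xx
  rw [Finset.card_filter]
  refine Finset.sum_congr rfl (fun c _ => ?_)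
  by_cases h : (s c ∈ X ↔ t c ∈ X) <;> simp [h]

lemma single_add_self (v : V) : (Pi.single v 1 + Pi.single v 1 : V → ZMod 2) = 0 := by
  funext u
  exact CharTwo.add_self_eq_zero _

/-- Contracting a minimal set with a small cut. -/
lemma case_contract (s t : C → V) (A : Finset C) (D : V → V → Prop) (k : ℕ)
    (hk : 2 ≤ k) (hD : ∀ x y, D x y → D y x) (hev : ∀ X, Even (dd s t A X))
    (hcut : CutHyp s t A D k)
    (hne : ∃ c ∈ A, s c ≠ t c)
    (hall : ∀ v, (∃ c ∈ A, s c ≠ t c ∧ (s c = v ∨ t c = v)) → ∃ y, y ≠ v ∧ D v y)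
    (ih : ∀ (A' : Finset C) (s' t' : C → V) (D' : V → V → Prop),
      (A'.filter (fun c => s' c ≠ t' c)).card < (A.filter (fun c => s c ≠ t c)).card →
      (∀ x y, D' x y → D' y x) →
      (∀ X, Even (dd s' t' A' X)) → CutHyp s' t' A' D' k → HasForests s' t' A' D' k) :
    HasForests s t A D k := by
  classical
  set U : Finset V := Finset.univ.filter (fun v => ∃ c ∈ A, s c ≠ t c ∧ (s c = v ∨ t c = v)) with hU
  have hUmem : ∀ v, v ∈ U ↔ ∃ c ∈ A, s c ≠ t c ∧ (s c = v ∨ t c = v) := by
    intro v; rw [hU, Finset.mem_filter]; simp only [Finset.mem_univ, true_and]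
  have hUs : ∀ c ∈ A, s c ≠ t c → s c ∈ U ∧ t c ∈ U := by
    intro c hc h
    exact ⟨(hUmem _).2 ⟨c, hc, h, Or.inl rfl⟩, (hUmem _).2 ⟨c, hc, h, Or.inr rfl⟩⟩
  have hUne : U.Nonempty := by
    obtain ⟨c, hc, h⟩ := hne
    exact ⟨s c, (hUs c hc h).1⟩
  have hddU : dd s t A U = 0 := by
    unfold dd
    refine Finset.sum_eq_zero (fun c hc => ?_)
    unfold xx
    by_cases h : s c = t c
    · rw [h]; simp
    · obtain ⟨h1, h2⟩ := hUs c hc h
      simp [h1, h2]
  -- the minimal set
  set F : Finset (Finset V) := U.powerset.filter (fun X => X.Nonempty ∧ dd s t A X < 4 * k) with hF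
  have hFne : F.Nonempty := by
    refine ⟨U, ?_⟩
    rw [hF, Finset.mem_filter, Finset.mem_powerset]
    exact ⟨Finset.Subset.refl _, hUne, by omega⟩
  obtain ⟨S, hSF, hSmin⟩ := Finset.exists_min_image F Finset.card hFne
  rw [hF, Finset.mem_filter, Finset.mem_powerset] at hSF
  obtain ⟨hSU, hSne, hSd⟩ := hSF
  have hSsub : ∀ X : Finset V, X ⊆ S → X ≠ S → X.Nonempty → 4 * k ≤ dd s t A X := by
    intro X hXS hXne hXn
    by_contra hcon
    push Not at hcon
    have h1 : X ∈ F := by
      rw [hF, Finset.mem_filter, Finset.mem_powerset]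
      exact ⟨hXS.trans hSU, hXn, hcon⟩
    have h2 := hSmin X h1
    exact hXne (Finset.eq_of_subset_of_card_le hXS h2)
  -- inside copies
  set In : Finset C := A.filter (fun c => s c ∈ S ∧ t c ∈ S) with hIn
  have hcr : ∀ X : Finset V, (X ∩ S).Nonempty → (S \ X).Nonempty →
      2 * k ≤ (In.filter (fun c => ¬ (s c ∈ X ↔ t c ∈ X))).card := by
    intro X h1 h2
    have h3 := hSsub (X ∩ S) Finset.inter_subset_right (by
      intro h
      obtain ⟨u, hu⟩ := h2
      rw [Finset.mem_sdiff] at hu
      apply hu.2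
      have : u ∈ X ∩ S := by rw [h]; exact hu.1
      exact (Finset.mem_inter.1 this).1) h1
    have h4 := hSsub (S \ X) Finset.sdiff_subset (by
      intro h
      obtain ⟨u, hu⟩ := h1
      rw [Finset.mem_inter] at hu
      have : u ∈ S \ X := by rw [h]; exact hu.2
      exact (Finset.mem_sdiff.1 this).2 hu.1) h2
    have h5 : dd s t A (X ∩ S) + dd s t A (S \ X) =
        dd s t A S + 2 * (In.filter (fun c => ¬ (s c ∈ X ↔ t c ∈ X))).card := by
      rw [hIn, Finset.filter_filter, Finset.card_filter]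
      unfold dd
      rw [Finset.mul_sum, ← Finset.sum_add_distrib, ← Finset.sum_add_distrib]
      refine Finset.sum_congr rfl (fun c _ => ?_)
      unfold xx
      simp only [Finset.mem_inter, Finset.mem_sdiff]
      by_cases a1 : s c ∈ X <;> by_cases a2 : t c ∈ X <;> by_cases a3 : s c ∈ S <;>
        by_cases a4 : t c ∈ S <;> simp [a1, a2, a3, a4]
    omega
  -- forests inside S
  set κ : C → ℕ := fun c => if c ∈ In then k + 1 else 0 with hκ
  set x : C → ℚ := fun c => if c ∈ In then 1 / (k : ℚ) else 0 with hx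
  have hk0 : (0 : ℚ) < k := by
    have : 0 < k := by omega
    exact_mod_cast this
  have hlvl : ∀ q, q ≤ k → lvl κ q = In := by
    intro q hq
    ext c
    rw [mem_lvl]
    simp only [hκ]
    by_cases h : c ∈ In
    · rw [if_pos h]; exact ⟨fun _ => h, fun _ => by omega⟩
    · rw [if_neg h]; exact ⟨fun h' => by omega, fun h' => absurd h' h⟩
  obtain ⟨Bp, hBp1, hBp2, hBp3⟩ := pack s t κ (fun _ => 1) x
    (by
      intro c
      simp only [hx]
      split_ifs
      · positivity
      · exact le_rfl)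
    (by
      intro c q hq
      simp only [hκ] at hq
      simp only [hx]
      split_ifs at hq ⊢
      · have : (q : ℚ) ≤ k := by
          have : q ≤ k := by omega
          exact_mod_cast this
        rw [div_mul_eq_mul_div, one_mul, div_le_iff₀ hk0]
        simpa using this
      · omega)
    (by
      intro c
      simp only [hx]
      split_ifs
      · have : (2 : ℚ) ≤ k := by exact_mod_cast hk
        rw [div_le_div_iff₀ hk0 (by norm_num)]
        linarith
      · norm_num)
    (by
      intro q hq X hex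
      obtain ⟨c, hc, hcX⟩ := hex
      have hqk : q ≤ k := by
        rw [mem_lvl] at hc
        simp only [hκ] at hc
        split_ifs at hc
        · omega
        · omega
      rw [hlvl q hqk] at hc ⊢
      have hcIn := hc
      rw [hIn, Finset.mem_filter] at hc
      obtain ⟨hcA, hcs, hct⟩ := hc
      have h1 : (X ∩ S).Nonempty ∧ (S \ X).Nonempty := by
        by_cases hsX : s c ∈ X
        · have htX : t c ∉ X := fun h => hcX ⟨fun _ => h, fun _ => hsX⟩
          exact ⟨⟨s c, Finset.mem_inter.2 ⟨hsX, hcs⟩⟩, ⟨t c, Finset.mem_sdiff.2 ⟨hct, htX⟩⟩⟩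
        · have htX : t c ∈ X := by
            by_contra h
            exact hcX ⟨fun h' => absurd h' hsX, fun h' => absurd h' h⟩
          exact ⟨⟨t c, Finset.mem_inter.2 ⟨htX, hct⟩⟩, ⟨s c, Finset.mem_sdiff.2 ⟨hcs, hsX⟩⟩⟩
      have h2 := hcr X h1.1 h1.2
      have h3 : ∑ e ∈ In.filter (fun c => ¬ (s c ∈ X ↔ t c ∈ X)), x e =
          ((In.filter (fun c => ¬ (s c ∈ X ↔ t c ∈ X))).card : ℚ) * (1 / (k : ℚ)) := by
        rw [← nsmul_eq_mul, ← Finset.sum_const]
        refine Finset.sum_congr rfl (fun e he => ?_)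
        simp only [hx]
        rw [if_pos (Finset.mem_filter.1 he).1]
      rw [h3, mul_one_div, le_div_iff₀ hk0]
      exact_mod_cast h2)
  have hBpIn : ∀ i, 1 ≤ i → i ≤ k → Bp i ⊆ In := by
    intro i _ h2
    have := hBp1 i
    rwa [hlvl i h2] at this
  have hBpsp : ∀ i, 1 ≤ i → i ≤ k → sp s t (Bp i) = sp s t In := by
    intro i h1 h2
    have := hBp2 i h1
    rwa [hlvl i h2] at this
  have hBpdisj : ∀ i j c, 1 ≤ i → i ≤ k → 1 ≤ j → j ≤ k → c ∈ Bp i → c ∈ Bp j → i = j := by
    intro i j c hi hi' hj hj' hci hcj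
    by_contra hij
    have h1 := (hBp3 c k).2
    have h2 : ({i, j} : Finset ℕ) ⊆ (Finset.Icc 1 k).filter (fun q' => c ∈ Bp q') := by
      intro a ha
      rw [Finset.mem_insert, Finset.mem_singleton] at ha
      rw [Finset.mem_filter, Finset.mem_Icc]
      rcases ha with rfl | rfl
      · exact ⟨⟨hi, hi'⟩, hci⟩
      · exact ⟨⟨hj, hj'⟩, hcj⟩
    have h3 := Finset.card_le_card h2
    rw [Finset.card_pair hij] at h3
    omega
  -- pairs inside S
  have hinS : ∀ a b, a ∈ S → b ∈ S → (Pi.single a 1 + Pi.single b 1 : V → ZMod 2) ∈ sp s t In := by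
    intro a b ha hb
    refine mem_sp_of_cut s t In a b (fun X haX hbX => ?_)
    have h1 := hcr X ⟨a, Finset.mem_inter.2 ⟨haX, ha⟩⟩ ⟨b, Finset.mem_sdiff.2 ⟨hb, hbX⟩⟩
    have h2 : 0 < (In.filter (fun c => ¬ (s c ∈ X ↔ t c ∈ X))).card := by omega
    obtain ⟨c, hc⟩ := Finset.card_pos.1 h2
    rw [Finset.mem_filter] at hc
    exact ⟨c, hc.1, hc.2⟩
  -- demands
  have hDU : ∀ a b, D a b → a ≠ b → a ∈ U := by
    intro a b hab hne'
    have h1 := hcut {a} ⟨a, b, hab, Finset.mem_singleton_self _, fun h =>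
      hne' (Finset.mem_singleton.1 h).symm⟩
    rw [dd_eq_card] at h1
    have h2 : 0 < (A.filter (fun c => ¬ (s c ∈ ({a} : Finset V) ↔ t c ∈ ({a} : Finset V)))).card := by
      omega
    obtain ⟨c, hc⟩ := Finset.card_pos.1 h2
    rw [Finset.mem_filter] at hc
    obtain ⟨hcA, hc'⟩ := hc
    simp only [Finset.mem_singleton] at hc'
    rw [hUmem]
    refine ⟨c, hcA, ?_, ?_⟩
    · intro h; apply hc'; rw [h]
    · by_contra hcon
      push Not at hcon
      exact hc' ⟨fun h => absurd h hcon.1, fun h => absurd h hcon.2⟩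
  have hDS : ∀ a b, D a b → (a ∈ S ↔ b ∈ S) := by
    intro a b hab
    constructor
    · intro ha
      by_contra hb
      have := hcut S ⟨a, b, hab, ha, hb⟩
      omega
    · intro hb
      by_contra ha
      have := hcut S ⟨b, a, hD _ _ hab, hb, ha⟩
      omega
  -- S has two elements, and a nonloop copy inside
  obtain ⟨s0, hs0⟩ := hSne
  have hinside : ∃ c ∈ In, s c ≠ t c := by
    obtain ⟨y, hy, hDy⟩ := hall s0 ((hUmem _).1 (hSU hs0))
    have hyS : y ∈ S := (hDS _ _ hDy).1 hs0
    have h1 := hcr {s0} ⟨s0, Finset.mem_inter.2 ⟨Finset.mem_singleton_self _, hs0⟩⟩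
      ⟨y, Finset.mem_sdiff.2 ⟨hyS, fun h => hy (Finset.mem_singleton.1 h)⟩⟩
    have h2 : 0 < (In.filter (fun c => ¬ (s c ∈ ({s0} : Finset V) ↔ t c ∈ ({s0} : Finset V)))).card := by
      omega
    obtain ⟨c, hc⟩ := Finset.card_pos.1 h2
    rw [Finset.mem_filter] at hc
    exact ⟨c, hc.1, fun h => hc.2 (by rw [h])⟩
  -- the contracted graph
  set φ : V → V := fun v => if v ∈ S then s0 else v with hφ
  have hφS : ∀ v, v ∈ S → φ v = s0 := fun v hv => by simp only [hφ]; rw [if_pos hv]
  have hφn : ∀ v, v ∉ S → φ v = v := fun v hv => by simp only [hφ]; rw [if_neg hv]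
  set s' : C → V := fun c => φ (s c) with hs'
  set t' : C → V := fun c => φ (t c) with ht'
  set A' := A \ In with hA'
  set D' : V → V → Prop := fun a b => D a b ∧ a ∉ S ∧ b ∉ S with hD'
  have hdd : ∀ X, dd s' t' A' X = dd s t A (Finset.univ.filter (fun v => φ v ∈ X)) := by
    intro X
    unfold dd
    rw [hA', ← Finset.sum_sdiff (Finset.filter_subset _ _ : In ⊆ A)]
    have h1 : ∑ c ∈ In, xx s t (Finset.univ.filter (fun v => φ v ∈ X)) c = 0 := by
      refine Finset.sum_eq_zero (fun c hc => ?_)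
      rw [hIn, Finset.mem_filter] at hc
      unfold xx
      simp only [Finset.mem_filter, Finset.mem_univ, true_and]
      rw [hφS _ hc.2.1, hφS _ hc.2.2]
      simp
    rw [h1, add_zero]
    refine Finset.sum_congr rfl (fun c _ => ?_)
    unfold xx
    simp only [hs', ht', Finset.mem_filter, Finset.mem_univ, true_and]
  have hmeas : (A'.filter (fun c => s' c ≠ t' c)).card < (A.filter (fun c => s c ≠ t c)).card := by
    obtain ⟨c, hc, hcl⟩ := hinside
    have h1 : A'.filter (fun c => s' c ≠ t' c) ⊆ (A.filter (fun c => s c ≠ t c)).erase c := by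
      intro c' hc'
      rw [Finset.mem_filter, hA', Finset.mem_sdiff] at hc'
      rw [Finset.mem_erase, Finset.mem_filter]
      refine ⟨fun h => hc'.1.2 (h ▸ hc), hc'.1.1, fun h => hc'.2 ?_⟩
      simp only [hs', ht']
      rw [h]
    have h2 := Finset.card_le_card h1
    have h3 : c ∈ A.filter (fun c => s c ≠ t c) :=
      Finset.mem_filter.2 ⟨(Finset.mem_filter.1 hc).1, hcl⟩
    have h4 := Finset.card_erase_lt_of_mem h3
    omega
  obtain ⟨B', hB1, hB2, hB3⟩ := ih A' s' t' D' hmeas
    (fun a b h => ⟨hD _ _ h.1, h.2.2, h.2.1⟩)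
    (fun X => by rw [hdd]; exact hev _)
    (by
      intro X hX
      rw [hdd]
      obtain ⟨p, q, ⟨hpq, hpS, hqS⟩, hp, hq⟩ := hX
      refine hcut _ ⟨p, q, hpq, ?_, ?_⟩
      · rw [Finset.mem_filter, hφn p hpS]; exact ⟨Finset.mem_univ _, hp⟩
      · rw [Finset.mem_filter, hφn q hqS]; exact fun h => hq h.2)
  refine ⟨fun i => if 1 ≤ i ∧ i ≤ k then Bp i ∪ B' i else ∅, ?_, ?_, ?_⟩
  · intro i
    by_cases hi : 1 ≤ i ∧ i ≤ k
    · simp only [if_pos hi]
      exact Finset.union_subset ((hBpIn i hi.1 hi.2).trans (Finset.filter_subset _ _))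
        ((hB1 i).trans Finset.sdiff_subset)
    · simp only [if_neg hi]
      exact Finset.empty_subset _
  · intro i j c hi hi' hj hj' hci hcj
    simp only [if_pos (And.intro hi hi')] at hci
    simp only [if_pos (And.intro hj hj')] at hcj
    rw [Finset.mem_union] at hci hcj
    rcases hci with hci | hci <;> rcases hcj with hcj | hcj
    · exact hBpdisj i j c hi hi' hj hj' hci hcj
    · exact absurd (hBpIn i hi hi' hci) (Finset.mem_sdiff.1 (hB1 j hcj)).2
    · exact absurd (hBpIn j hj hj' hcj) (Finset.mem_sdiff.1 (hB1 i hci)).2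
    · exact hB2 i j c hi hi' hj hj' hci hcj
  · intro i a b hi hi' hab
    simp only [if_pos (And.intro hi hi')]
    rw [sp_union, hBpsp i hi hi']
    by_cases hab' : a = b
    · rw [hab', single_add_self]; exact Submodule.zero_mem _
    by_cases haS : a ∈ S
    · exact (le_sup_left : sp s t In ≤ _) (hinS a b haS ((hDS a b hab).1 haS))
    · have hbS : b ∉ S := fun h => haS ((hDS a b hab).2 h)
      have h1 := hB3 i a b hi hi' ⟨hab, haS, hbS⟩
      have h2 : sp s' t' (B' i) ≤ sp s t In ⊔ sp s t (B' i) := by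
        unfold sp
        rw [Submodule.span_le]
        rintro _ ⟨c, hc, rfl⟩
        have h3 : ∀ v, (Pi.single (φ v) 1 + Pi.single v 1 : V → ZMod 2) ∈ sp s t In := by
          intro v
          by_cases hv : v ∈ S
          · rw [hφS v hv]; exact hinS _ _ hs0 hv
          · rw [hφn v hv, single_add_self]; exact Submodule.zero_mem _
        have h4 : bd s' t' c = ((Pi.single (φ (s c)) 1 + Pi.single (s c) 1) +
            (Pi.single (φ (t c)) 1 + Pi.single (t c) 1)) + bd s t c := by
          unfold bd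
          simp only [hs', ht']
          have e1 := single_add_self (V := V) (s c)
          have e2 := single_add_self (V := V) (t c)
          calc (Pi.single (φ (s c)) 1 + Pi.single (φ (t c)) 1 : V → ZMod 2)
              = Pi.single (φ (s c)) 1 + Pi.single (φ (t c)) 1 + 0 + 0 := by rw [add_zero, add_zero]
            _ = Pi.single (φ (s c)) 1 + Pi.single (φ (t c)) 1 + (Pi.single (s c) 1 + Pi.single (s c) 1)
                + (Pi.single (t c) 1 + Pi.single (t c) 1) := by rw [e1, e2]
            _ = _ := by abel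
        rw [h4]
        refine Submodule.add_mem _ ?_ ?_
        · exact (le_sup_left : sp s t In ≤ _) (Submodule.add_mem _ (h3 _) (h3 _))
        · exact (le_sup_right : sp s t (B' i) ≤ _) (Submodule.subset_span ⟨c, hc, rfl⟩)
      exact h2 h1

/-- Edge-disjoint Steiner forests. -/
theorem steiner (k : ℕ) (hk : 2 ≤ k) : ∀ (n : ℕ) (s t : C → V) (A : Finset C) (D : V → V → Prop),
    (A.filter (fun c => s c ≠ t c)).card ≤ n →
    (∀ x y, D x y → D y x) → (∀ X, Even (dd s t A X)) → CutHyp s t A D k →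
    HasForests s t A D k := by
  intro n
  induction n with
  | zero =>
    intro s t A D hn hD hev hcut
    refine ⟨fun _ => ∅, fun _ => Finset.empty_subset _, ?_, ?_⟩
    · intro i j c _ _ _ _ h
      exact absurd h (Finset.notMem_empty _)
    · intro i x y _ _ hxy
      by_cases h : x = y
      · rw [h, single_add_self]; exact Submodule.zero_mem _
      · exfalso
        have h1 := hcut {x} ⟨x, y, hxy, Finset.mem_singleton_self _, fun h' =>
          h (Finset.mem_singleton.1 h').symm⟩
        have h2 : dd s t A {x} = 0 := by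
          unfold dd
          refine Finset.sum_eq_zero (fun c hc => ?_)
          have h3 : s c = t c := by
            by_contra h4
            have : c ∈ A.filter (fun c => s c ≠ t c) := Finset.mem_filter.2 ⟨hc, h4⟩
            have := Finset.card_pos.2 ⟨c, this⟩
            omega
          unfold xx
          rw [h3]; simp
        omega
  | succ n ih =>
    intro s t A D hn hD hev hcut
    by_cases hne : ∃ c ∈ A, s c ≠ t c
    · by_cases hall : ∀ v, (∃ c ∈ A, s c ≠ t c ∧ (s c = v ∨ t c = v)) → ∃ y, y ≠ v ∧ D v y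
      · exact case_contract s t A D k hk hD hev hcut hne hall
          (fun A' s' t' D' hlt hD' hev' hcut' => ih s' t' A' D' (by omega) hD' hev' hcut')
      · push Not at hall
        obtain ⟨v, ⟨c1, hc1A, hc1, hc1v⟩, hv⟩ := hall
        have hex : ∃ x, (s c1 = v ∧ t c1 = x) ∨ (t c1 = v ∧ s c1 = x) := by
          rcases hc1v with h | h
          · exact ⟨t c1, Or.inl ⟨h, rfl⟩⟩
          · exact ⟨s c1, Or.inr ⟨h, rfl⟩⟩
        obtain ⟨x, hx⟩ := hex
        exact case_split s t A D k (by omega) hD hev hcut v c1 hc1A hc1 x hx hv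
          (fun A' s' t' hlt hev' hcut' => ih s' t' A' D (by omega) hD hev' hcut')
    · refine ih s t A D ?_ hD hev hcut
      push Not at hne
      have : A.filter (fun c => s c ≠ t c) = ∅ := by
        rw [Finset.filter_eq_empty_iff]
        intro c hc h
        exact h (hne c hc)
      rw [this]; simp

end Pool.Agent.H46.Faith
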