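import Mathlib
import Pool.Agent.H46.Faith.Steiner3
import Pool.Agent.H46.Faith.Game2
import Pool.Agent.H46.Faith.Main

set_option autoImplicit false

/-! Faithful covers from forests arranged in blocks of colours. -/

namespace Pool.Agent.H46.Faith

open Module

set_option linter.unusedSectionVars false

variable {V E : Type} [Fintype V] [DecidableEq V] [Fintype E] [DecidableEq E]

/-- project copies to edges -/
def prj (m : E → ℕ) (B : Finset (Cp m)) : Finset E :=
  Finset.univ.filter (fun e => ∃ a : Fin (m e), (⟨e, a⟩ : Cp m) ∈ B)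

lemma mem_prj {m : E → ℕ} {B : Finset (Cp m)} {e : E} :
    e ∈ prj m B ↔ ∃ a : Fin (m e), (⟨e, a⟩ : Cp m) ∈ B := by
  simp [prj]

lemma sp_prj (s t : E → V) (m : E → ℕ) (B : Finset (Cp m)) :
    sp (fun c : Cp m => s c.1) (fun c : Cp m => t c.1) B = sp s t (prj m B) := by
  unfold sp
  congr 1
  ext y
  simp only [Set.mem_image, Finset.mem_coe]
  constructor
  · rintro ⟨c, hc, rfl⟩
    exact ⟨c.1, mem_prj.2 ⟨c.2, hc⟩, rfl⟩
  · rintro ⟨e, he, rfl⟩
    obtain ⟨a, ha⟩ := mem_prj.1 he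
    exact ⟨⟨e, a⟩, ha, rfl⟩

lemma dd_cp (s t : E → V) (m : E → ℕ) (X : Finset V) :
    dd (fun c : Cp m => s c.1) (fun c : Cp m => t c.1) Finset.univ X =
      ∑ e ∈ Finset.univ.filter (fun e => ¬ (s e ∈ X ↔ t e ∈ X)), m e := by
  unfold dd
  rw [Fintype.sum_sigma, Finset.sum_filter]
  refine Finset.sum_congr rfl (fun e _ => ?_)
  unfold xx
  by_cases h : (s e ∈ X ↔ t e ∈ X) <;> simp [h]

/-- Forests for one block. -/
lemma block_forests (s t : E → V) (m : E → ℕ) (k : ℕ) (hk : 2 ≤ k) (P : E → Prop)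
    (hev : ∀ X : Finset V, Even (∑ e ∈ Finset.univ.filter (fun e => ¬ (s e ∈ X ↔ t e ∈ X)), m e))
    (hcut : ∀ X : Finset V, ∀ f, P f → ¬ (s f ∈ X ↔ t f ∈ X) →
      4 * k ≤ ∑ e ∈ Finset.univ.filter (fun e => ¬ (s e ∈ X ↔ t e ∈ X)), m e) :
    ∃ B : ℕ → Finset E,
      (∀ i, 1 ≤ i → i ≤ k → ∀ f, P f → bd s t f ∈ sp s t (B i)) ∧
      ∀ e, use B k e ≤ m e := by
  classical
  set s' : Cp m → V := fun c => s c.1 with hs'
  set t' : Cp m → V := fun c => t c.1 with ht'
  set D : V → V → Prop := fun x y => ∃ f, P f ∧ ((s f = x ∧ t f = y) ∨ (s f = y ∧ t f = x)) with hD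
  obtain ⟨B, hB1, hB2, hB3⟩ := steiner k hk _ s' t' Finset.univ D le_rfl
    (by
      rintro x y ⟨f, hf, h⟩
      exact ⟨f, hf, h.symm⟩)
    (by
      intro X
      rw [hs', ht', dd_cp]
      exact hev X)
    (by
      rintro X ⟨p, q, ⟨f, hf, h⟩, hp, hq⟩
      rw [hs', ht', dd_cp]
      refine hcut X f hf ?_
      rcases h with ⟨rfl, rfl⟩ | ⟨rfl, rfl⟩
      · exact fun h' => hq (h'.1 hp)
      · exact fun h' => hq (h'.2 hp))
  refine ⟨fun i => prj m (B i), ?_, ?_⟩
  · intro i hi hi' f hf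
    rw [← sp_prj]
    exact hB3 i (s f) (t f) hi hi' ⟨f, hf, Or.inl ⟨rfl, rfl⟩⟩
  · intro e
    unfold use
    have h1 : ∀ i ∈ (Finset.Icc 1 k).filter (fun i => e ∈ prj m (B i)),
        ∃ a : Fin (m e), (⟨e, a⟩ : Cp m) ∈ B i := by
      intro i hi
      exact mem_prj.1 (Finset.mem_filter.1 hi).2
    have h2 : ((Finset.Icc 1 k).filter (fun i => e ∈ prj m (B i))).card ≤
        (Finset.univ : Finset (Fin (m e))).card := by
      rcases Nat.eq_zero_or_pos (m e) with h0 | h0
      · rw [Finset.filter_eq_empty_iff.2, Finset.card_empty]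
        · exact Nat.zero_le _
        · intro i hi hi'
          obtain ⟨a, _⟩ := mem_prj.1 hi'
          exact absurd a.2 (by omega)
      · haveI : Nonempty (Fin (m e)) := ⟨⟨0, h0⟩⟩
        choose! g hg using h1
        refine Finset.card_le_card_of_injOn g (fun i _ => Finset.mem_coe.2 (Finset.mem_univ _)) ?_
        intro i hi j hj hij
        rw [Finset.mem_coe] at hi hj
        have h3 := hg i hi
        have h4 := hg j hj
        rw [hij] at h3
        rw [Finset.mem_filter, Finset.mem_Icc] at hi hj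
        exact hB2 i j _ hi.1.1 hi.1.2 hj.1.1 hj.1.2 h3 h4
    rwa [Finset.card_univ, Fintype.card_fin] at h2

/-- number of colours up to block `i`, where block `i` has `K i` colours -/
def off (K : ℕ → ℕ) (i : ℕ) : ℕ := ∑ l ∈ Finset.Icc 1 i, K l

lemma off_zero (K : ℕ → ℕ) : off K 0 = 0 := by simp [off]

lemma off_succ (K : ℕ → ℕ) (i : ℕ) : off K (i + 1) = off K i + K (i + 1) := by
  unfold off
  have h : Finset.Icc 1 (i + 1) = insert (i + 1) (Finset.Icc 1 i) := by
    ext l
    simp only [Finset.mem_insert, Finset.mem_Icc]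
    omega
  rw [h, Finset.sum_insert (by simp)]
  ring

lemma off_mono (K : ℕ → ℕ) {i j : ℕ} (h : i ≤ j) : off K i ≤ off K j := by
  unfold off
  exact Finset.sum_le_sum_of_subset (Finset.Icc_subset_Icc_right h)

lemma use_add (B : ℕ → Finset E) (a i : ℕ) (e : E) :
    use B (a + i) e = use B a e + use (fun l => B (a + l)) i e := by
  induction i with
  | zero => rw [add_zero, use_zero, add_zero]
  | succ i ih =>
    rw [← add_assoc, use_succ, use_succ, ih, ← add_assoc a i 1]
    ring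

lemma use_le (B : ℕ → Finset E) (i : ℕ) (e : E) : use B i e ≤ i := by
  unfold use
  refine (Finset.card_filter_le _ _).trans ?_
  simp

lemma use_mono (B : ℕ → Finset E) {i j : ℕ} (h : i ≤ j) (e : E) : use B i e ≤ use B j e := by
  unfold use
  exact Finset.card_le_card (Finset.filter_subset_filter _ (Finset.Icc_subset_Icc_right h))

lemma use_congr (B B' : ℕ → Finset E) (i : ℕ) (e : E)
    (h : ∀ l, 1 ≤ l → l ≤ i → (e ∈ B l ↔ e ∈ B' l)) : use B i e = use B' i e := by
  unfold use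
  congr 1
  refine Finset.filter_congr (fun l hl => ?_)
  rw [Finset.mem_Icc] at hl
  exact h l hl.1 hl.2

end Pool.Agent.H46.Faith
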