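import Mathlib
import Pool.Agent.H46.Faith.Blocks

set_option autoImplicit false

/-! Random assignments and a union bound over cuts. -/

namespace Pool.Agent.H46.Faith

open Module

set_option linter.unusedSectionVars false

lemma sum_assign {U : Type} [Fintype U] [DecidableEq U] (T : ℕ) (hT : 1 ≤ T) (A : Finset U)
    (l : Fin T) :
    ∑ g : U → Fin T, (1 / 2 : ℝ) ^ (A.filter (fun x => g x = l)).card =
      (T : ℝ) ^ Fintype.card U * (1 - 1 / (2 * T)) ^ A.card := by
  classical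
  have hT' : (0 : ℝ) < T := by exact_mod_cast hT
  have h1 : ∀ g : U → Fin T, (1 / 2 : ℝ) ^ (A.filter (fun x => g x = l)).card =
      ∏ x : U, (if x ∈ A ∧ g x = l then (1 / 2 : ℝ) else 1) := by
    intro g
    rw [Finset.prod_ite, Finset.prod_const, Finset.prod_const_one, mul_one]
    congr 2
    ext x; simp
  rw [Finset.sum_congr rfl (fun g _ => h1 g)]
  have h2 := Finset.prod_univ_sum (fun _ : U => (Finset.univ : Finset (Fin T)))
    (fun x j => (if x ∈ A ∧ j = l then (1 / 2 : ℝ) else 1))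
  rw [Fintype.piFinset_univ] at h2
  rw [← h2]
  have h3 : ∀ x : U, ∑ j : Fin T, (if x ∈ A ∧ j = l then (1 / 2 : ℝ) else 1) =
      (T : ℝ) * (if x ∈ A then (1 - 1 / (2 * T) : ℝ) else 1) := by
    intro x
    by_cases hx : x ∈ A
    · simp only [hx, true_and, if_true]
      have h4 : ∀ j : Fin T, (if j = l then (1 / 2 : ℝ) else 1) = 1 - (if j = l then 1 / 2 else 0) := by
        intro j
        split_ifs <;> norm_num
      rw [Finset.sum_congr rfl (fun j _ => h4 j), Finset.sum_sub_distrib, Finset.sum_ite_eq',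
        if_pos (Finset.mem_univ _)]
      simp only [Finset.sum_const, Finset.card_univ, Fintype.card_fin, nsmul_eq_mul, mul_one]
      field_simp
    · simp [hx]
  rw [Finset.prod_congr rfl (fun x _ => h3 x), Finset.prod_mul_distrib, Finset.prod_const,
    Finset.card_univ, Finset.prod_ite, Finset.prod_const, Finset.prod_const_one, mul_one]
  congr 3
  ext x; simp

/-- Random assignment of units to classes. -/
lemma exists_assignment {U ι : Type} [Fintype U] [DecidableEq U] (T : ℕ) (hT : 1 ≤ T)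
    (I : Finset ι) (A : ι → Finset U) (l : ι → Fin T) (h : ι → ℕ)
    (hsum : ∑ i ∈ I, (2 : ℝ) ^ (h i) * (1 - 1 / (2 * T)) ^ (A i).card < 1) :
    ∃ g : U → Fin T, ∀ i ∈ I, h i ≤ ((A i).filter (fun x => g x = l i)).card := by
  classical
  have hT' : (0 : ℝ) < T := by exact_mod_cast hT
  by_contra hcon
  push Not at hcon
  have h1 : ∀ g : U → Fin T, (1 : ℝ) ≤
      ∑ i ∈ I, (2 : ℝ) ^ (h i) * (1 / 2) ^ ((A i).filter (fun x => g x = l i)).card := by
    intro g
    obtain ⟨i, hi, hi'⟩ := hcon g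
    refine le_trans ?_ (Finset.single_le_sum (f := fun i => (2 : ℝ) ^ (h i) *
      (1 / 2) ^ ((A i).filter (fun x => g x = l i)).card) (fun j _ => by positivity) hi)
    obtain ⟨d, hd⟩ := Nat.exists_eq_add_of_le hi'.le
    rw [hd, pow_add, mul_right_comm, ← mul_pow]
    norm_num
    exact one_le_pow₀ (by norm_num)
  have h2 : ∑ g : U → Fin T, (1 : ℝ) ≤ ∑ g : U → Fin T,
      ∑ i ∈ I, (2 : ℝ) ^ (h i) * (1 / 2) ^ ((A i).filter (fun x => g x = l i)).card :=
    Finset.sum_le_sum (fun g _ => h1 g)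
  rw [Finset.sum_comm] at h2
  have h3 : ∀ i ∈ I, ∑ g : U → Fin T, (2 : ℝ) ^ (h i) *
      (1 / 2) ^ ((A i).filter (fun x => g x = l i)).card =
      (T : ℝ) ^ Fintype.card U * ((2 : ℝ) ^ (h i) * (1 - 1 / (2 * T)) ^ (A i).card) := by
    intro i _
    rw [← Finset.mul_sum, sum_assign T hT]
    ring
  rw [Finset.sum_congr rfl h3, ← Finset.mul_sum] at h2
  simp only [Finset.sum_const, Finset.card_univ, Fintype.card_fun, Fintype.card_fin, nsmul_eq_mul,
    mul_one] at h2
  push_cast at h2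
  have h4 : (0 : ℝ) < (T : ℝ) ^ Fintype.card U := by positivity
  have h5 := mul_lt_mul_of_pos_left hsum h4
  linarith

variable {V E : Type} [Fintype V] [DecidableEq V] [Fintype E] [DecidableEq E]

/-- Union bound over cuts by means of disjoint forests. -/
lemma count_cuts (𝒜 : Finset (Finset E)) (C : Finset E → Finset E) (k : ℕ) (hk : 1 ≤ k)
    (B : ℕ → Finset E) (w : E → ℕ) (hB : ∀ e, use B k e ≤ w e)
    (hinj : ∀ i ∈ Finset.Icc 1 k, ∀ A ∈ 𝒜, ∀ A' ∈ 𝒜, C A ∩ B i = C A' ∩ B i → A = A')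
    (hne : ∀ i ∈ Finset.Icc 1 k, ∀ A ∈ 𝒜, (C A ∩ B i).Nonempty) (α : ℝ) (hα : 0 ≤ α) :
    ∑ A ∈ 𝒜, Real.exp (-(α * (∑ e ∈ C A, w e : ℕ))) ≤
      (1 + Real.exp (-(α * k))) ^ Fintype.card E - 1 := by
  classical
  have hk' : (0 : ℝ) < k := by exact_mod_cast hk
  set z := Real.exp (-(α * k)) with hz
  have hz0 : 0 ≤ z := (Real.exp_pos _).le
  -- one cut
  have h1 : ∀ A ∈ 𝒜, Real.exp (-(α * (∑ e ∈ C A, w e : ℕ))) ≤
      ∑ i ∈ Finset.Icc 1 k, (1 / k : ℝ) * z ^ (C A ∩ B i).card := by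
    intro A _
    have h2 : ∑ i ∈ Finset.Icc 1 k, (C A ∩ B i).card ≤ ∑ e ∈ C A, w e := by
      calc ∑ i ∈ Finset.Icc 1 k, (C A ∩ B i).card
          = ∑ i ∈ Finset.Icc 1 k, ∑ e ∈ C A, (if e ∈ B i then 1 else 0) := by
            refine Finset.sum_congr rfl (fun i _ => ?_)
            rw [← Finset.card_filter, Finset.filter_mem_eq_inter]
        _ = ∑ e ∈ C A, ∑ i ∈ Finset.Icc 1 k, (if e ∈ B i then 1 else 0) := Finset.sum_comm
        _ = ∑ e ∈ C A, use B k e := by
            refine Finset.sum_congr rfl (fun e _ => ?_)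
            rw [← Finset.card_filter]
            rfl
        _ ≤ _ := Finset.sum_le_sum (fun e _ => hB e)
    have h3 : Real.exp (-(α * (∑ e ∈ C A, w e : ℕ))) ≤
        Real.exp (∑ i ∈ Finset.Icc 1 k, (1 / k : ℝ) • (-(α * k) * (C A ∩ B i).card)) := by
      rw [Real.exp_le_exp]
      have h4 : ∑ i ∈ Finset.Icc 1 k, (1 / k : ℝ) • (-(α * k) * (C A ∩ B i).card) =
          -(α * (∑ i ∈ Finset.Icc 1 k, (C A ∩ B i).card : ℕ)) := by
        push_cast
        rw [Finset.mul_sum, ← Finset.sum_neg_distrib]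
        refine Finset.sum_congr rfl (fun i _ => ?_)
        rw [smul_eq_mul]
        field_simp
      rw [h4]
      have h5 : ((∑ i ∈ Finset.Icc 1 k, (C A ∩ B i).card : ℕ) : ℝ) ≤ (∑ e ∈ C A, w e : ℕ) := by
        exact_mod_cast h2
      have := mul_le_mul_of_nonneg_left h5 hα
      linarith
    refine h3.trans ?_
    have h6 := convexOn_exp.map_sum_le (t := Finset.Icc 1 k) (w := fun _ => (1 / k : ℝ))
      (p := fun i => -(α * k) * (C A ∩ B i).card) (fun _ _ => by positivity)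
      (by
        rw [Finset.sum_const, Nat.card_Icc, Nat.add_sub_cancel, nsmul_eq_mul]
        field_simp)
      (fun _ _ => Set.mem_univ _)
    refine h6.trans (le_of_eq ?_)
    refine Finset.sum_congr rfl (fun i _ => ?_)
    rw [smul_eq_mul, hz, ← Real.exp_nat_mul]
    congr 2
    ring
  -- sum over the cuts for one forest
  have h2 : ∀ i ∈ Finset.Icc 1 k, ∑ A ∈ 𝒜, z ^ (C A ∩ B i).card ≤
      (1 + z) ^ Fintype.card E - 1 := by
    intro i hi
    have h3 : ∑ A ∈ 𝒜, z ^ (C A ∩ B i).card =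
        ∑ S ∈ 𝒜.image (fun A => C A ∩ B i), z ^ S.card := by
      rw [Finset.sum_image]
      intro A hA A' hA' h
      exact hinj i hi A hA A' hA' h
    have h4 : ∑ S ∈ 𝒜.image (fun A => C A ∩ B i), z ^ S.card ≤
        ∑ S ∈ (Finset.univ : Finset E).powerset.erase ∅, z ^ S.card := by
      refine Finset.sum_le_sum_of_subset_of_nonneg ?_ (fun _ _ _ => by positivity)
      intro S hS
      rw [Finset.mem_image] at hS
      obtain ⟨A, hA, rfl⟩ := hS
      rw [Finset.mem_erase, Finset.mem_powerset]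
      exact ⟨(hne i hi A hA).ne_empty, Finset.subset_univ _⟩
    have h5 := Finset.sum_pow_mul_eq_add_pow z 1 (Finset.univ : Finset E)
    simp only [one_pow, mul_one] at h5
    have h6 := Finset.sum_erase_add (Finset.univ : Finset E).powerset (fun S => z ^ S.card)
      (Finset.mem_powerset.2 (Finset.empty_subset _))
    rw [h5, Finset.card_empty, pow_zero, Finset.card_univ, add_comm z 1] at h6
    rw [h3]
    linarith
  calc ∑ A ∈ 𝒜, Real.exp (-(α * (∑ e ∈ C A, w e : ℕ)))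
      ≤ ∑ A ∈ 𝒜, ∑ i ∈ Finset.Icc 1 k, (1 / k : ℝ) * z ^ (C A ∩ B i).card := Finset.sum_le_sum h1
    _ = ∑ i ∈ Finset.Icc 1 k, (1 / k : ℝ) * ∑ A ∈ 𝒜, z ^ (C A ∩ B i).card := by
        rw [Finset.sum_comm]
        refine Finset.sum_congr rfl (fun i _ => ?_)
        rw [Finset.mul_sum]
    _ ≤ ∑ i ∈ Finset.Icc 1 k, (1 / k : ℝ) * ((1 + z) ^ Fintype.card E - 1) :=
        Finset.sum_le_sum (fun i hi => mul_le_mul_of_nonneg_left (h2 i hi) (by positivity))
    _ = (1 + z) ^ Fintype.card E - 1 := by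
        rw [Finset.sum_const, Nat.card_Icc, Nat.add_sub_cancel, nsmul_eq_mul]
        field_simp

/-- The functional of a vertex set. -/
def cf (X : Finset V) : (V → ZMod 2) →ₗ[ZMod 2] ZMod 2 := ∑ v ∈ X, LinearMap.proj v

lemma cf_apply (X : Finset V) (y : V → ZMod 2) : cf X y = ∑ v ∈ X, y v := by
  unfold cf
  rw [LinearMap.sum_apply]
  rfl

lemma cf_bd (s t : E → V) (X : Finset V) (e : E) :
    cf X (bd s t e) = if ¬ (s e ∈ X ↔ t e ∈ X) then 1 else 0 := by
  rw [cf_apply]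
  simp only [bd, Pi.add_apply, Pi.single_apply, Finset.sum_add_distrib, Finset.sum_ite_eq']
  by_cases h1 : s e ∈ X <;> by_cases h2 : t e ∈ X
  · simp only [h1, h2, if_true]
    decide
  · simp [h1, h2]
  · simp [h1, h2]
  · simp [h1, h2]

/-- Cuts agreeing on a spanning set agree on what it spans. -/
lemma cut_eq_of_span (s t : E → V) (B : Finset E) (X X' : Finset V)
    (h : ∀ e ∈ B, (¬ (s e ∈ X ↔ t e ∈ X)) ↔ ¬ (s e ∈ X' ↔ t e ∈ X')) (f : E)
    (hf : bd s t f ∈ sp s t B) :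
    (¬ (s f ∈ X ↔ t f ∈ X)) ↔ ¬ (s f ∈ X' ↔ t f ∈ X') := by
  have h1 : Set.EqOn (cf X) (cf X') (sp s t B) := by
    refine LinearMap.eqOn_span ?_
    rintro y ⟨e, he, rfl⟩
    rw [cf_bd, cf_bd]
    have := h e (by exact_mod_cast he)
    by_cases h2 : (¬ (s e ∈ X ↔ t e ∈ X))
    · rw [if_pos h2, if_pos (this.1 h2)]
    · rw [if_neg h2, if_neg (fun h' => h2 (this.2 h'))]
  have h2 := h1 hf
  rw [cf_bd, cf_bd] at h2
  by_cases h3 : (¬ (s f ∈ X ↔ t f ∈ X)) <;> by_cases h4 : (¬ (s f ∈ X' ↔ t f ∈ X'))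
  · exact iff_of_true h3 h4
  · rw [if_pos h3, if_neg h4] at h2
    exact absurd h2 (by decide)
  · rw [if_neg h3, if_pos h4] at h2
    exact absurd h2 (by decide)
  · exact iff_of_false h3 h4

end Pool.Agent.H46.Faith
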