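import Mathlib
import Pool.Agent.H46.Faith.Rand

set_option autoImplicit false

/-! Splitting the light edges among the blocks. -/

namespace Pool.Agent.H46.Faith

open Module

set_option linter.unusedSectionVars false

variable {V E : Type} [Fintype V] [DecidableEq V] [Fintype E] [DecidableEq E]

/-- edge cut -/
def dl (s t : E → V) (X : Finset V) : Finset E :=
  Finset.univ.filter (fun e => ¬ (s e ∈ X ↔ t e ∈ X))

lemma mem_dl {s t : E → V} {X : Finset V} {e : E} : e ∈ dl s t X ↔ ¬ (s e ∈ X ↔ t e ∈ X) := by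
  simp [dl]

/-- size of a block -/
def KK (T l : ℕ) : ℕ := 2 ^ l * (32 * T)

lemma KK_pos (T l : ℕ) : 32 * T ≤ KK T l := by
  unfold KK
  exact Nat.le_mul_of_pos_left _ (by positivity)

lemma numeric_bound (Λ m : ℕ) (hΛ : 1 ≤ Λ) (hm : m ≤ 2 ^ Λ) :
    (1 + Real.exp (-(8 * Λ : ℝ))) ^ m - 1 ≤ 1 := by
  have h1 : (1 + Real.exp (-(8 * Λ : ℝ))) ^ m ≤ Real.exp (m * Real.exp (-(8 * Λ : ℝ))) := by
    rw [Real.exp_nat_mul]
    refine pow_le_pow_left₀ (by positivity) ?_ m
    rw [add_comm]
    exact Real.add_one_le_exp _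
  have h2 : (m : ℝ) * Real.exp (-(8 * Λ : ℝ)) ≤ 1 / 2 := by
    have h3 : (m : ℝ) ≤ Real.exp Λ := by
      have h4 : (m : ℝ) ≤ 2 ^ Λ := by exact_mod_cast hm
      refine h4.trans ?_
      have h5 : (2 : ℝ) ≤ Real.exp 1 := by
        have := Real.add_one_le_exp (1 : ℝ)
        linarith
      calc (2 : ℝ) ^ Λ ≤ (Real.exp 1) ^ Λ := pow_le_pow_left₀ (by norm_num) h5 _
        _ = Real.exp Λ := by rw [← Real.exp_nat_mul, mul_one]
    have hΛ' : (1 : ℝ) ≤ Λ := by exact_mod_cast hΛ
    calc (m : ℝ) * Real.exp (-(8 * Λ : ℝ)) ≤ Real.exp Λ * Real.exp (-(8 * Λ : ℝ)) :=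
          mul_le_mul_of_nonneg_right h3 (Real.exp_pos _).le
      _ = Real.exp (-(7 * Λ)) := by rw [← Real.exp_add]; congr 1; ring
      _ ≤ Real.exp (-1) := by rw [Real.exp_le_exp]; linarith
      _ ≤ 1 / 2 := by
          rw [Real.exp_neg, inv_eq_one_div]
          refine one_div_le_one_div_of_le (by norm_num) ?_
          have := Real.add_one_le_exp (1 : ℝ)
          linarith
  have h3 : Real.exp (m * Real.exp (-(8 * Λ : ℝ))) ≤ 2 := by
    have h4 : Real.exp (m * Real.exp (-(8 * Λ : ℝ))) ≤ Real.exp (1 / 2) := Real.exp_le_exp.2 h2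
    have h5 : Real.exp (1 / 2) * Real.exp (1 / 2) = Real.exp 1 := by
      rw [← Real.exp_add]; norm_num
    have h6 := Real.exp_one_lt_d9
    have h7 := Real.exp_pos (1 / 2)
    nlinarith
  linarith

open Classical in
/-- Random splitting of the light edges. -/
theorem split_light (s t : E → V) (w : E → ℕ) (T Λ : ℕ) (hT : 1 ≤ T) (hTΛ : T ≤ Λ)
    (hE : Fintype.card E ≤ 2 ^ Λ)
    (hlev : ∀ X : Finset V, ∀ e ∈ dl s t X, w e < 16 * T → Even (w e))
    (heven : ∀ X : Finset V, Even (∑ e ∈ dl s t X, w e))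
    (hcut2 : ∀ X : Finset V, ∀ f ∈ dl s t X, 0 < w f → w f < 16 * T →
      1024 * T * Λ ≤ ∑ e ∈ dl s t X, w e) :
    ∃ c : ℕ → E → ℕ, (∀ l e, 1 ≤ l → l ≤ T ∨ c l e = 0) ∧
      (∀ e, 2 * ∑ l ∈ Finset.Icc 1 T, c l e ≤ w e) ∧
      ∀ l, 1 ≤ l → l ≤ T → ∀ X : Finset V,
        ∑ e ∈ dl s t X, w e ≤ 2 * ∑ e ∈ (dl s t X).filter (fun e => w e < 16 * T), w e →
        8 * T * KK T l ≤ ∑ e ∈ (dl s t X).filter (fun e => w e < 16 * T), w e →
        2 * KK T l ≤ ∑ e ∈ (dl s t X).filter (fun e => w e < 16 * T), c l e := by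
  classical
  have hΛ : 1 ≤ Λ := hT.trans hTΛ
  have hTr : (1 : ℝ) ≤ T := by exact_mod_cast hT
  set Lt : Finset E := Finset.univ.filter (fun e => 0 < w e ∧ w e < 16 * T) with hLt
  have hmemLt : ∀ e, e ∈ Lt ↔ (0 < w e ∧ w e < 16 * T) := by
    intro e; simp [hLt]
  set q : E → ℕ := fun e => if w e < 16 * T then w e / 2 else 0 with hq
  set k := 256 * T * Λ with hk
  have hk2 : 2 ≤ k := by
    rw [hk]
    have : 1 ≤ T * Λ := Nat.one_le_iff_ne_zero.2 (by positivity)
    nlinarith
  obtain ⟨B, hB1, hB2⟩ := block_forests s t w k hk2 (fun f => f ∈ Lt)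
    (fun X => heven X)
    (by
      intro X f hf hf'
      have h1 := hcut2 X f (mem_dl.2 hf') ((hmemLt f).1 hf).1 ((hmemLt f).1 hf).2
      calc 4 * k = 1024 * T * Λ := by rw [hk]; ring
        _ ≤ _ := h1)
  -- light part of a cut
  set ell : Finset V → ℕ := fun X => ∑ e ∈ (dl s t X).filter (fun e => w e < 16 * T), w e with hell
  set tr : Finset V → Finset E := fun X => (dl s t X).filter (fun e => e ∈ Lt) with htr
  set rel : ℕ → Finset V → Prop := fun l X =>
    ∑ e ∈ dl s t X, w e ≤ 2 * ell X ∧ 8 * T * KK T l ≤ ell X with hrel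
  have hell2 : ∀ X, ell X = ∑ e ∈ tr X, w e := by
    intro X
    simp only [hell, htr]
    symm
    refine Finset.sum_subset ?_ ?_
    · intro e he
      rw [Finset.mem_filter] at he ⊢
      exact ⟨he.1, ((hmemLt e).1 he.2).2⟩
    · intro e he he'
      rw [Finset.mem_filter] at he he'
      by_contra h0
      exact he' ⟨he.1, (hmemLt e).2 ⟨Nat.pos_of_ne_zero h0, he.2⟩⟩
  -- the index set
  set 𝒜 : Fin T → Finset (Finset E) := fun l =>
    Finset.univ.filter (fun A => ∃ X, rel (l.1 + 1) X ∧ tr X = A) with h𝒜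
  set Xf : Fin T → Finset E → Finset V := fun l A =>
    if h : ∃ X, rel (l.1 + 1) X ∧ tr X = A then h.choose else ∅ with hXf
  have hXfs : ∀ l, ∀ A ∈ 𝒜 l, rel (l.1 + 1) (Xf l A) ∧ tr (Xf l A) = A := by
    intro l A hA
    have h : ∃ X, rel (l.1 + 1) X ∧ tr X = A := (Finset.mem_filter.1 hA).2
    simp only [hXf]
    rw [dif_pos h]
    exact h.choose_spec
  have hKpos : ∀ l, 0 < 8 * T * KK T l := by
    intro l
    have := KK_pos T l
    have h1 : 0 < KK T l := by omega
    positivity
  set AU : Finset E → Finset (Cp q) := fun A => Finset.univ.filter (fun x : Cp q => x.1 ∈ A) with hAU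
  have hAUcard : ∀ A, (AU A).card = ∑ e ∈ A, q e := by
    intro A
    simp only [hAU]
    rw [Finset.card_filter, Fintype.sum_sigma]
    change ∑ e, ∑ _y : Fin (q e), (if e ∈ A then 1 else 0) = _
    rw [← Finset.sum_filter_add_sum_filter_not Finset.univ (fun e => e ∈ A)]
    have h1 : ∑ e ∈ Finset.univ.filter (fun e => ¬ e ∈ A), ∑ _y : Fin (q e), (if e ∈ A then 1 else 0) = 0 := by
      refine Finset.sum_eq_zero (fun e he => ?_)
      rw [Finset.mem_filter] at he
      simp [he.2]
    have h2 : ∑ e ∈ Finset.univ.filter (fun e => e ∈ A), ∑ _y : Fin (q e), (if e ∈ A then 1 else 0) =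
        ∑ e ∈ A, q e := by
      have h3 : Finset.univ.filter (fun e => e ∈ A) = A := by ext e; simp
      rw [h3]
      refine Finset.sum_congr rfl (fun e he => ?_)
      simp [he]
    rw [h2]
    omega
  have hAUcard2 : ∀ X, 2 * (AU (tr X)).card = ell X := by
    intro X
    rw [hAUcard, hell2, Finset.mul_sum]
    refine Finset.sum_congr rfl (fun e he => ?_)
    have h1 : e ∈ Lt := (Finset.mem_filter.1 he).2
    have h2 := hlev X e (Finset.mem_filter.1 he).1 ((hmemLt e).1 h1).2
    simp only [hq]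
    rw [if_pos ((hmemLt e).1 h1).2]
    exact Nat.two_mul_div_two_of_even h2
  -- one term
  have hterm : ∀ l : Fin T, ∀ A ∈ 𝒜 l,
      (2 : ℝ) ^ (2 * KK T (l.1 + 1)) * (1 - 1 / (2 * T)) ^ (AU A).card ≤
        (1 / (2 * T)) * Real.exp (-((1 / (32 * T)) * (∑ e ∈ dl s t (Xf l A), w e : ℕ))) := by
    intro l A hA
    obtain ⟨⟨h1, h2⟩, h3⟩ := hXfs l A hA
    have h4 := hAUcard2 (Xf l A)
    rw [h3] at h4
    set K := KK T (l.1 + 1) with hKdef
    set L := ell (Xf l A) with hL
    have hT0 : (0 : ℝ) < T := by linarith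
    have h5 : (1 - 1 / (2 * T : ℝ)) ^ (AU A).card ≤ Real.exp (-(L / (4 * T))) := by
      have h6 : (1 - 1 / (2 * T : ℝ)) ≤ Real.exp (-(1 / (2 * T))) := by
        have := Real.add_one_le_exp (-(1 / (2 * T : ℝ)))
        linarith
      have h7 : (0 : ℝ) ≤ 1 - 1 / (2 * T : ℝ) := by
        have : 1 / (2 * T : ℝ) ≤ 1 := by
          rw [div_le_one (by positivity)]
          linarith
        linarith
      calc (1 - 1 / (2 * T : ℝ)) ^ (AU A).card ≤ Real.exp (-(1 / (2 * T))) ^ (AU A).card :=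
            pow_le_pow_left₀ h7 h6 _
        _ = Real.exp (-(L / (4 * T))) := by
            rw [← Real.exp_nat_mul]
            congr 1
            have : (L : ℝ) = 2 * (AU A).card := by rw [← h4]; push_cast; ring
            rw [this]
            field_simp
            ring
    have h6 : (2 : ℝ) ^ (2 * K) ≤ Real.exp ((7 / 5) * K) := by
      have h7 : (2 : ℝ) ≤ Real.exp (7 / 10) := by
        have h8 : Real.log 2 < 7 / 10 := by
          have := Real.log_two_lt_d9
          linarith
        have := (Real.log_lt_iff_lt_exp (by norm_num : (0 : ℝ) < 2)).1 h8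
        exact this.le
      calc (2 : ℝ) ^ (2 * K) ≤ (Real.exp (7 / 10)) ^ (2 * K) := pow_le_pow_left₀ (by norm_num) h7 _
        _ = Real.exp ((7 / 5) * K) := by
            rw [← Real.exp_nat_mul]
            congr 1
            push_cast
            ring
    have h7 : (K : ℝ) * (8 * T) ≤ L := by
      have : ((8 * T * K : ℕ) : ℝ) ≤ L := by exact_mod_cast h2
      push_cast at this
      linarith
    have h8 : ((∑ e ∈ dl s t (Xf l A), w e : ℕ) : ℝ) ≤ 2 * L := by
      exact_mod_cast h1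
    have h9 : (32 * T : ℝ) ≤ K := by
      have := KK_pos T (l.1 + 1)
      exact_mod_cast this
    have h10 : (2 * K : ℝ) ≤ L / (4 * T) := by
      rw [le_div_iff₀ (by positivity)]
      linarith
    have h11 : (1 / (32 * T : ℝ)) * (∑ e ∈ dl s t (Xf l A), w e : ℕ) ≤ (1 / 4) * (L / (4 * T)) := by
      rw [div_mul_eq_mul_div, one_mul, div_le_iff₀ (by positivity)]
      have : (1 / 4) * ((L : ℝ) / (4 * T)) * (32 * T) = 2 * L := by
        field_simp
        ring
      rw [this]
      exact h8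
    have h12 : Real.exp (-(1 / 10 * K)) ≤ 1 / (2 * T) := by
      rw [Real.exp_neg, inv_eq_one_div]
      refine one_div_le_one_div_of_le (by positivity) ?_
      have := Real.add_one_le_exp ((1 : ℝ) / 10 * K)
      linarith
    calc (2 : ℝ) ^ (2 * K) * (1 - 1 / (2 * T)) ^ (AU A).card
        ≤ Real.exp ((7 / 5) * K) * Real.exp (-(L / (4 * T))) := by
          refine mul_le_mul h6 h5 (pow_nonneg ?_ _) (Real.exp_pos _).le
          have : 1 / (2 * T : ℝ) ≤ 1 := by
            rw [div_le_one (by positivity)]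
            linarith
          linarith
      _ = Real.exp ((7 / 5) * K - L / (4 * T)) := by
          rw [← Real.exp_add]; rfl
      _ ≤ Real.exp (-(1 / 10 * K) + -((1 / (32 * T)) * (∑ e ∈ dl s t (Xf l A), w e : ℕ))) := by
          rw [Real.exp_le_exp]
          linarith
      _ = Real.exp (-(1 / 10 * K)) *
            Real.exp (-((1 / (32 * T)) * (∑ e ∈ dl s t (Xf l A), w e : ℕ))) := Real.exp_add _ _
      _ ≤ _ := mul_le_mul_of_nonneg_right h12 (Real.exp_pos _).le
  -- sum over cuts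
  have hcount : ∀ l : Fin T,
      ∑ A ∈ 𝒜 l, Real.exp (-((1 / (32 * T)) * (∑ e ∈ dl s t (Xf l A), w e : ℕ))) ≤ 1 := by
    intro l
    have hinjt : ∀ i ∈ Finset.Icc 1 k, ∀ X X' : Finset V,
        dl s t X ∩ B i = dl s t X' ∩ B i → tr X = tr X' := by
      intro i hi X X' h
      rw [Finset.mem_Icc] at hi
      simp only [htr]
      ext f
      have h1 : f ∈ Lt → (f ∈ dl s t X ↔ f ∈ dl s t X') := by
        intro hf
        rw [mem_dl, mem_dl]
        refine cut_eq_of_span s t (B i) X X' ?_ f (hB1 i hi.1 hi.2 f hf)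
        intro e he
        have h2 := Finset.ext_iff.1 h e
        rw [Finset.mem_inter, Finset.mem_inter, mem_dl, mem_dl] at h2
        exact ⟨fun h3 => (h2.1 ⟨h3, he⟩).1, fun h3 => (h2.2 ⟨h3, he⟩).1⟩
      constructor
      · intro h2
        have h3 := Finset.mem_filter.1 h2
        exact Finset.mem_filter.2 ⟨(h1 h3.2).1 h3.1, h3.2⟩
      · intro h2
        have h3 := Finset.mem_filter.1 h2
        exact Finset.mem_filter.2 ⟨(h1 h3.2).2 h3.1, h3.2⟩
    have h1 := count_cuts (𝒜 l) (fun A => dl s t (Xf l A)) k (by omega) B w hB2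
      (by
        intro i hi A hA A' hA' h
        have h1 := hinjt i hi _ _ h
        rwa [(hXfs l A hA).2, (hXfs l A' hA').2] at h1)
      (by
        intro i hi A hA
        rw [Finset.nonempty_iff_ne_empty]
        intro h
        have h0 : dl s t (∅ : Finset V) ∩ B i = ∅ := by
          have : dl s t (∅ : Finset V) = ∅ := by
            unfold dl; simp
          rw [this, Finset.empty_inter]
        have h1 := hinjt i hi (Xf l A) ∅ (h.trans h0.symm)
        have h2 : tr (∅ : Finset V) = ∅ := by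
          simp [htr, dl]
        have h3 := hell2 (Xf l A)
        rw [h1, h2, Finset.sum_empty] at h3
        have h4 := (hXfs l A hA).1.2
        rw [h3] at h4
        have := hKpos (l.1 + 1)
        omega)
      (1 / (32 * T)) (by positivity)
    have h2 : (1 / (32 * T : ℝ)) * k = 8 * Λ := by
      rw [hk]
      push_cast
      field_simp
      ring
    rw [h2] at h1
    exact h1.trans (numeric_bound Λ _ hΛ hE)
  -- choose the assignment
  obtain ⟨g, hg⟩ := exists_assignment T hT
    ((Finset.univ : Finset (Fin T)).sigma (fun l => 𝒜 l))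
    (fun p => AU p.2) (fun p => p.1) (fun p => 2 * KK T (p.1.1 + 1))
    (by
      rw [Finset.sum_sigma]
      calc ∑ l : Fin T, ∑ A ∈ 𝒜 l, (2 : ℝ) ^ (2 * KK T (l.1 + 1)) * (1 - 1 / (2 * T)) ^ (AU A).card
          ≤ ∑ l : Fin T, ∑ A ∈ 𝒜 l, (1 / (2 * T)) *
              Real.exp (-((1 / (32 * T)) * (∑ e ∈ dl s t (Xf l A), w e : ℕ))) :=
            Finset.sum_le_sum (fun l _ => Finset.sum_le_sum (fun A hA => hterm l A hA))
        _ = ∑ l : Fin T, (1 / (2 * T)) * ∑ A ∈ 𝒜 l,
              Real.exp (-((1 / (32 * T)) * (∑ e ∈ dl s t (Xf l A), w e : ℕ))) := by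
            refine Finset.sum_congr rfl (fun l _ => ?_)
            rw [Finset.mul_sum]
        _ ≤ ∑ _l : Fin T, (1 / (2 * T) : ℝ) * 1 :=
            Finset.sum_le_sum (fun l _ => mul_le_mul_of_nonneg_left (hcount l) (by positivity))
        _ = 1 / 2 := by
            rw [Finset.sum_const, Finset.card_univ, Fintype.card_fin, nsmul_eq_mul]
            field_simp
        _ < 1 := by norm_num)
  refine ⟨fun l e => (Finset.univ.filter (fun a : Fin (q e) =>
    (g ⟨e, a⟩).1 + 1 = l)).card, ?_, ?_, ?_⟩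
  · intro l e hl
    by_cases h : l ≤ T
    · exact Or.inl h
    · right
      rw [Finset.card_eq_zero, Finset.filter_eq_empty_iff]
      intro a _ ha
      have := (g ⟨e, a⟩).2
      omega
  · intro e
    have h1 : ∑ l ∈ Finset.Icc 1 T, (Finset.univ.filter (fun a : Fin (q e) =>
        (g ⟨e, a⟩).1 + 1 = l)).card = (Finset.univ : Finset (Fin (q e))).card := by
      symm
      refine Finset.card_eq_sum_card_fiberwise (f := fun a : Fin (q e) => (g ⟨e, a⟩).1 + 1) ?_
      intro a _
      rw [Finset.mem_coe, Finset.mem_Icc]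
      have := (g ⟨e, a⟩).2
      exact ⟨Nat.le_add_left _ _, this⟩
    rw [h1, Finset.card_univ, Fintype.card_fin]
    simp only [hq]
    split_ifs <;> omega
  · intro l hl hlT X h1 h2
    have h3 : tr X ∈ 𝒜 ⟨l - 1, by omega⟩ := by
      simp only [h𝒜]
      rw [Finset.mem_filter]
      refine ⟨Finset.mem_univ _, X, ?_, rfl⟩
      rw [show l - 1 + 1 = l by omega]
      exact ⟨h1, h2⟩
    have h4 := hg ⟨⟨l - 1, by omega⟩, tr X⟩ (Finset.mem_sigma.2 ⟨Finset.mem_univ _, h3⟩)
    simp only [show l - 1 + 1 = l by omega] at h4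
    refine h4.trans ?_
    have h5 : ((AU (tr X)).filter (fun x => g x = ⟨l - 1, by omega⟩)).card =
        ∑ e ∈ tr X, (Finset.univ.filter (fun a : Fin (q e) => (g ⟨e, a⟩).1 + 1 = l)).card := by
      simp only [hAU]
      rw [Finset.filter_filter, Finset.card_filter, Fintype.sum_sigma]
      rw [← Finset.sum_filter_add_sum_filter_not Finset.univ (fun e => e ∈ tr X)]
      have h6 : ∑ e ∈ Finset.univ.filter (fun e => ¬ e ∈ tr X), ∑ y : Fin (q e),
          (if e ∈ tr X ∧ g ⟨e, y⟩ = ⟨l - 1, by omega⟩ then 1 else 0) = 0 := by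
        refine Finset.sum_eq_zero (fun e he => ?_)
        rw [Finset.mem_filter] at he
        simp [he.2]
      have h7 : Finset.univ.filter (fun e => e ∈ tr X) = tr X := by ext e; simp
      rw [h6, h7, add_zero]
      refine Finset.sum_congr rfl (fun e he => ?_)
      rw [Finset.card_filter]
      refine Finset.sum_congr rfl (fun a _ => ?_)
      have h8 : (g ⟨e, a⟩ = ⟨l - 1, by omega⟩) ↔ (g ⟨e, a⟩).1 + 1 = l := by
        rw [Fin.ext_iff]
        simp only
        omega
      simp [he, h8]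
    rw [h5]
    refine Finset.sum_le_sum_of_subset ?_
    intro e he
    simp only [htr] at he
    rw [Finset.mem_filter] at he ⊢
    exact ⟨he.1, ((hmemLt e).1 he.2).2⟩

end Pool.Agent.H46.Faith
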