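import Mathlib
import Pool.Agent.H46.Faith.Split

set_option autoImplicit false

/-! Boundaries of sets of edges; minimal joins behave like paths. -/

namespace Pool.Agent.H46.Faith

open Module

set_option linter.unusedSectionVars false

variable {V E : Type} [Fintype V] [DecidableEq V] [Fintype E] [DecidableEq E]

/-- indicator of a vertex -/
abbrev pt (v : V) : V → ZMod 2 := Pi.single v 1

/-- boundary of a set of edges -/
def bdS (s t : E → V) (H : Finset E) : V → ZMod 2 := ∑ e ∈ H, bd s t e

lemma pt_ne {u v : V} (h : v ≠ u) : pt u v = 0 := by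
  rw [pt, Pi.single_apply, if_neg h]

lemma dbl (x : V → ZMod 2) : x + x = 0 := by
  funext v
  exact CharTwo.add_self_eq_zero _

lemma eq_of_add_zero {x y : V → ZMod 2} (h : x + y = 0) : x = y := by
  have : x = x + (y + y) := by rw [dbl, add_zero]
  rw [this, ← add_assoc, h, zero_add]

lemma bdS_empty (s t : E → V) : bdS s t ∅ = 0 := by simp [bdS]

lemma bdS_singleton (s t : E → V) (e : E) : bdS s t {e} = bd s t e := by simp [bdS]

lemma bdS_union (s t : E → V) (A B : Finset E) (h : Disjoint A B) :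
    bdS s t (A ∪ B) = bdS s t A + bdS s t B := Finset.sum_union h

lemma bdS_sdiff (s t : E → V) (A B : Finset E) (h : B ⊆ A) :
    bdS s t (A \ B) = bdS s t A + bdS s t B := by
  have h1 : bdS s t (A \ B) + bdS s t B = bdS s t A := Finset.sum_sdiff h
  rw [← h1, add_assoc, dbl, add_zero]

lemma bdS_erase (s t : E → V) (A : Finset E) (e : E) (h : e ∈ A) :
    bdS s t (A.erase e) = bdS s t A + bd s t e := by
  rw [← Finset.sdiff_singleton_eq_erase, bdS_sdiff s t A {e} (by simpa using h), bdS_singleton]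

lemma bdS_insert (s t : E → V) (A : Finset E) (e : E) (h : e ∉ A) :
    bdS s t (insert e A) = bdS s t A + bd s t e := by
  rw [bdS, Finset.sum_insert h, add_comm]; rfl

lemma bdS_mem_sp (s t : E → V) (A : Finset E) : bdS s t A ∈ sp s t A :=
  Submodule.sum_mem _ (fun e he => Submodule.subset_span ⟨e, by exact_mod_cast he, rfl⟩)

lemma cf_pt (X : Finset V) (v : V) : cf X (pt v) = if v ∈ X then 1 else 0 := by
  rw [cf_apply]
  simp [Pi.single_apply]

lemma cf_bdS (s t : E → V) (X : Finset V) (H : Finset E) :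
    cf X (bdS s t H) = ((H ∩ dl s t X).card : ZMod 2) := by
  rw [bdS, map_sum, Finset.sum_congr rfl (fun e _ => cf_bd s t X e), ← Finset.sum_filter,
    Finset.sum_const, nsmul_eq_mul, mul_one]
  congr 2
  ext e
  simp [mem_dl]

/-- component of `b` -/
noncomputable def comp (s t : E → V) (Y : Finset E) (b : V) : Finset V := by
  classical
  exact Finset.univ.filter (fun v => pt b + pt v ∈ sp s t Y)

lemma mem_comp {s t : E → V} {Y : Finset E} {b v : V} :
    v ∈ comp s t Y b ↔ pt b + pt v ∈ sp s t Y := by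
  unfold comp
  simp

lemma self_mem_comp (s t : E → V) (Y : Finset E) (b : V) : b ∈ comp s t Y b := by
  rw [mem_comp, dbl]
  exact Submodule.zero_mem _

lemma comp_edge {s t : E → V} {Y : Finset E} {b : V} {e : E} (he : e ∈ Y) :
    s e ∈ comp s t Y b ↔ t e ∈ comp s t Y b := by
  have h1 : bd s t e ∈ sp s t Y := Submodule.subset_span ⟨e, by exact_mod_cast he, rfl⟩
  rw [mem_comp, mem_comp]
  constructor
  · intro h
    have h2 := Submodule.add_mem _ h h1
    have h3 : pt b + pt (s e) + bd s t e = pt b + pt (t e) := by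
      unfold bd
      have := dbl (pt (s e))
      calc pt b + pt (s e) + (pt (s e) + pt (t e)) = pt b + (pt (s e) + pt (s e)) + pt (t e) := by
            abel
        _ = _ := by rw [this, add_zero]
    rwa [h3] at h2
  · intro h
    have h2 := Submodule.add_mem _ h h1
    have h3 : pt b + pt (t e) + bd s t e = pt b + pt (s e) := by
      unfold bd
      have := dbl (pt (t e))
      calc pt b + pt (t e) + (pt (s e) + pt (t e)) = pt b + (pt (t e) + pt (t e)) + pt (s e) := by
            abel
        _ = _ := by rw [this, add_zero]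
    rwa [h3] at h2

lemma comp_disj_dl (s t : E → V) (Y : Finset E) (b : V) : Y ∩ dl s t (comp s t Y b) = ∅ := by
  rw [Finset.eq_empty_iff_forall_notMem]
  intro e he
  rw [Finset.mem_inter, mem_dl] at he
  exact he.2 (comp_edge he.1)

lemma cf_comp (s t : E → V) (Y Z : Finset E) (hZ : Z ⊆ Y) (b : V) :
    cf (comp s t Y b) (bdS s t Z) = 0 := by
  rw [cf_bdS]
  have : Z ∩ dl s t (comp s t Y b) = ∅ := by
    apply Finset.subset_empty.1
    rw [← comp_disj_dl s t Y b]
    exact Finset.inter_subset_inter_right hZ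
  rw [this]; simp

lemma bdS_filter (s t : E → V) (Z : Finset E) (X : Finset V)
    (hX : ∀ e ∈ Z, (s e ∈ X ↔ t e ∈ X)) (v : V) :
    bdS s t (Z.filter (fun e => s e ∈ X)) v = if v ∈ X then bdS s t Z v else 0 := by
  unfold bdS
  rw [Finset.sum_apply, Finset.sum_apply, Finset.sum_filter]
  by_cases hv : v ∈ X
  · rw [if_pos hv]
    refine Finset.sum_congr rfl (fun e he => ?_)
    by_cases h1 : s e ∈ X
    · rw [if_pos h1]
    · rw [if_neg h1]
      have h2 : t e ∉ X := fun h => h1 ((hX e he).2 h)
      unfold bd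
      rw [Pi.add_apply, Pi.single_apply, Pi.single_apply, if_neg, if_neg, add_zero]
      · rintro rfl; exact h2 hv
      · rintro rfl; exact h1 hv
  · rw [if_neg hv]
    refine Finset.sum_eq_zero (fun e he => ?_)
    by_cases h1 : s e ∈ X
    · rw [if_pos h1]
      have h2 : t e ∈ X := (hX e he).1 h1
      unfold bd
      rw [Pi.add_apply, Pi.single_apply, Pi.single_apply, if_neg, if_neg, add_zero]
      · rintro rfl; exact hv h2
      · rintro rfl; exact hv h1
    · rw [if_neg h1]

/-- no nonempty even subset -/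
def NoEven (s t : E → V) (P : Finset E) : Prop := ∀ H ⊆ P, bdS s t H = 0 → H = ∅

lemma NoEven.mono {s t : E → V} {P Q : Finset E} (h : NoEven s t P) (hQ : Q ⊆ P) :
    NoEven s t Q := fun H hH h0 => h H (hH.trans hQ) h0

lemma NoEven.nonloop {s t : E → V} {P : Finset E} (h : NoEven s t P) {g : E} (hg : g ∈ P) :
    s g ≠ t g := by
  intro h1
  have := h {g} (by simpa using hg) (by rw [bdS_singleton, bd, h1, dbl])
  simp at this

lemma path_split (s t : E → V) (P : Finset E) (hP : NoEven s t P) (a b : V)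
    (hbd : bdS s t P = pt a + pt b) (g : E) (hg : g ∈ P) :
    ∃ K ⊆ P.erase g, ∃ u, (u = s g ∨ u = t g) ∧ bdS s t K = pt b + pt u := by
  set Y := P.erase g with hY
  by_cases h1 : s g ∈ comp s t Y b
  · obtain ⟨K, hK, hK'⟩ := exists_subset_sum s t Y _ (mem_comp.1 h1)
    exact ⟨K, hK, s g, Or.inl rfl, hK'⟩
  by_cases h2 : t g ∈ comp s t Y b
  · obtain ⟨K, hK, hK'⟩ := exists_subset_sum s t Y _ (mem_comp.1 h2)
    exact ⟨K, hK, t g, Or.inr rfl, hK'⟩
  exfalso
  have h3 := cf_comp s t Y Y (Finset.Subset.refl _) b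
  rw [hY, bdS_erase s t P g hg, hbd, ← hY, map_add, map_add, cf_pt, cf_pt, cf_bd] at h3
  rw [if_pos (self_mem_comp s t Y b), if_neg (not_not.2 (iff_of_false h1 h2)), add_zero] at h3
  have ha : a ∈ comp s t Y b := by
    by_contra ha
    rw [if_neg ha] at h3
    exact absurd h3 (by decide)
  obtain ⟨K, hK, hK'⟩ := exists_subset_sum s t Y _ (mem_comp.1 ha)
  have hKP : K ⊆ P := hK.trans (Finset.erase_subset _ _)
  have h4 : bdS s t (P \ K) = 0 := by
    rw [bdS_sdiff s t P K hKP, hbd]
    have h5 : bdS s t K = pt b + pt a := hK'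
    rw [h5, add_comm (pt b) (pt a)]
    exact dbl _
  have h6 := hP _ Finset.sdiff_subset h4
  have h7 : g ∈ P \ K := Finset.mem_sdiff.2 ⟨hg, fun h => (Finset.mem_erase.1 (hK h)).1 rfl⟩
  rw [h6] at h7
  simp at h7

/-- A path has exactly one edge at its end. -/
lemma deg_end (s t : E → V) (P : Finset E) (hP : NoEven s t P) (a b : V) (hab : a ≠ b)
    (hbd : bdS s t P = pt a + pt b) : ∃ g, P ∩ dl s t {b} = {g} := by
  have hodd : (P ∩ dl s t {b}).Nonempty := by
    by_contra hcon
    rw [Finset.not_nonempty_iff_eq_empty] at hcon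
    have h1 := cf_bdS s t {b} P
    rw [hcon, hbd, map_add, cf_pt, cf_pt] at h1
    simp [hab] at h1
  obtain ⟨g1, hg1⟩ := hodd
  refine ⟨g1, ?_⟩
  ext g2
  rw [Finset.mem_singleton]
  constructor
  · intro hg2
    by_contra hne
    rw [Finset.mem_inter] at hg1 hg2
    obtain ⟨hg1P, hg1b⟩ := hg1
    obtain ⟨hg2P, hg2b⟩ := hg2
    set Y := P.erase g1 with hY
    obtain ⟨v1, hv1, hbd1⟩ : ∃ v1, v1 ≠ b ∧ bd s t g1 = pt b + pt v1 := by
      rw [mem_dl] at hg1b
      simp only [Finset.mem_singleton] at hg1b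
      by_cases h1 : s g1 = b
      · refine ⟨t g1, fun h => hg1b (iff_of_true h1 h), ?_⟩
        rw [bd, h1]
      · by_cases h2 : t g1 = b
        · refine ⟨s g1, h1, ?_⟩
          rw [bd, h2, add_comm]
        · exact absurd (iff_of_false h1 h2) hg1b
    have hv1X : v1 ∉ comp s t Y b := by
      intro h
      obtain ⟨K, hK, hK'⟩ := exists_subset_sum s t Y _ (mem_comp.1 h)
      have hg1K : g1 ∉ K := fun h' => (Finset.mem_erase.1 (hK h')).1 rfl
      have h1 : bdS s t (insert g1 K) = 0 := by
        rw [bdS_insert s t K g1 hg1K, hbd1]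
        have h5 : bdS s t K = pt b + pt v1 := hK'
        rw [h5]
        exact dbl _
      have h2 := hP (insert g1 K) (by
        intro e he
        rw [Finset.mem_insert] at he
        rcases he with rfl | he
        · exact hg1P
        · exact Finset.mem_of_mem_erase (hK he)) h1
      exact absurd (Finset.mem_insert_self g1 K) (by rw [h2]; simp)
    have hYbd : bdS s t Y = pt a + pt v1 := by
      rw [hY, bdS_erase s t P g1 hg1P, hbd, hbd1]
      calc pt a + pt b + (pt b + pt v1) = pt a + (pt b + pt b) + pt v1 := by abel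
        _ = _ := by rw [dbl, add_zero]
    have haX : a ∉ comp s t Y b := by
      intro ha
      have h3 := cf_comp s t Y Y (Finset.Subset.refl _) b
      rw [hYbd, map_add, cf_pt, cf_pt, if_pos ha, if_neg hv1X] at h3
      exact absurd h3 (by decide)
    have h4 : bdS s t (Y.filter (fun e => s e ∈ comp s t Y b)) = 0 := by
      funext v
      rw [bdS_filter s t Y _ (fun e he => comp_edge he) v]
      split_ifs with hv
      · rw [hYbd, Pi.add_apply, pt_ne, pt_ne]
        · rfl
        · rintro rfl; exact hv1X hv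
        · rintro rfl; exact haX hv
      · rfl
    have h5 := hP _ ((Finset.filter_subset _ _).trans (Finset.erase_subset _ _)) h4
    have h6 : g2 ∈ Y.filter (fun e => s e ∈ comp s t Y b) := by
      have h7 : g2 ∈ Y := Finset.mem_erase.2 ⟨hne, hg2P⟩
      rw [Finset.mem_filter]
      refine ⟨h7, ?_⟩
      rw [mem_dl] at hg2b
      simp only [Finset.mem_singleton] at hg2b
      by_cases h1 : s g2 = b
      · rw [h1]; exact self_mem_comp _ _ _ _
      · by_cases h2 : t g2 = b
        · rw [comp_edge h7, h2]; exact self_mem_comp _ _ _ _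
        · exact absurd (iff_of_false h1 h2) hg2b
    rw [h5] at h6
    simp at h6
  · rintro rfl; exact hg1

/-- minimal nonempty even set -/
def MinEven (s t : E → V) (C : Finset E) : Prop :=
  C.Nonempty ∧ bdS s t C = 0 ∧ ∀ H ⊆ C, bdS s t H = 0 → H = ∅ ∨ H = C

lemma MinEven.noEven_erase {s t : E → V} {C : Finset E} (h : MinEven s t C) {f : E} (hf : f ∈ C) :
    NoEven s t (C.erase f) := by
  intro H hH h0
  rcases h.2.2 H (hH.trans (Finset.erase_subset _ _)) h0 with h1 | h1
  · exact h1
  · rw [h1] at hH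
    exact absurd (hH hf) (Finset.notMem_erase f C)

lemma exists_minEven (s t : E → V) (H : Finset E) (hne : H.Nonempty) (h0 : bdS s t H = 0) :
    ∃ C ⊆ H, MinEven s t C := by
  obtain ⟨C, hC, hmin⟩ := Finset.exists_min_image
    (H.powerset.filter (fun C => C.Nonempty ∧ bdS s t C = 0)) Finset.card
    ⟨H, by simp [hne, h0]⟩
  rw [Finset.mem_filter, Finset.mem_powerset] at hC
  refine ⟨C, hC.1, hC.2.1, hC.2.2, ?_⟩
  intro K hK hK0
  rcases K.eq_empty_or_nonempty with h1 | h1
  · exact Or.inl h1
  · right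
    refine Finset.eq_of_subset_of_card_le hK (hmin K ?_)
    rw [Finset.mem_filter, Finset.mem_powerset]
    exact ⟨hK.trans hC.1, h1, hK0⟩

/-- A circuit has two edges at each of its vertices. -/
lemma MinEven.deg_two {s t : E → V} {C : Finset E} (h : MinEven s t C) (b : V) (f : E)
    (hf : f ∈ C) (hfb : f ∈ dl s t {b}) :
    ∃ g, g ≠ f ∧ g ∈ C ∧ C ∩ dl s t {b} = {f, g} := by
  obtain ⟨u, hu, hbdf⟩ : ∃ v1, v1 ≠ b ∧ bd s t f = pt v1 + pt b := by
    rw [mem_dl] at hfb
    simp only [Finset.mem_singleton] at hfb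
    by_cases h1 : s f = b
    · refine ⟨t f, fun h => hfb (iff_of_true h1 h), ?_⟩
      rw [bd, h1, add_comm]
    · by_cases h2 : t f = b
      · refine ⟨s f, h1, ?_⟩
        rw [bd, h2]
      · exact absurd (iff_of_false h1 h2) hfb
  obtain ⟨g, hg⟩ := deg_end s t (C.erase f) (h.noEven_erase hf) u b hu (by
    rw [bdS_erase s t C f hf, h.2.1, zero_add, hbdf])
  have hgm : g ∈ C.erase f ∩ dl s t {b} := by rw [hg]; simp
  rw [Finset.mem_inter, Finset.mem_erase] at hgm
  refine ⟨g, hgm.1.1, hgm.1.2, ?_⟩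
  ext e
  rw [Finset.mem_insert, Finset.mem_singleton, Finset.mem_inter]
  constructor
  · rintro ⟨h1, h2⟩
    by_cases h3 : e = f
    · exact Or.inl h3
    · right
      have : e ∈ C.erase f ∩ dl s t {b} := Finset.mem_inter.2 ⟨Finset.mem_erase.2 ⟨h3, h1⟩, h2⟩
      rw [hg] at this
      simpa using this
  · rintro (rfl | rfl)
    · exact ⟨hf, hfb⟩
    · exact ⟨hgm.1.2, hgm.2⟩

/-- A circuit is connected. -/
lemma MinEven.conn {s t : E → V} {C : Finset E} (h : MinEven s t C) (b z : V) (f g : E)
    (hf : f ∈ C) (hfb : s f = b ∨ t f = b) (hg : g ∈ C) (hgz : s g = z ∨ t g = z) :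
    ∃ K ⊆ C, bdS s t K = pt b + pt z := by
  have h4 : bdS s t (C.filter (fun e => s e ∈ comp s t C b)) = 0 := by
    funext v
    rw [bdS_filter s t C _ (fun e he => comp_edge he) v, h.2.1]
    split_ifs <;> rfl
  have h5 : f ∈ C.filter (fun e => s e ∈ comp s t C b) := by
    rw [Finset.mem_filter]
    refine ⟨hf, ?_⟩
    rcases hfb with h1 | h1
    · rw [h1]; exact self_mem_comp _ _ _ _
    · rw [comp_edge hf, h1]; exact self_mem_comp _ _ _ _
  rcases h.2.2 _ (Finset.filter_subset _ _) h4 with h6 | h6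
  · rw [h6] at h5; simp at h5
  · have h7 : g ∈ C.filter (fun e => s e ∈ comp s t C b) := by rw [h6]; exact hg
    rw [Finset.mem_filter] at h7
    have h8 : z ∈ comp s t C b := by
      rcases hgz with h1 | h1
      · rw [← h1]; exact h7.2
      · rw [← h1]; exact (comp_edge hg).1 h7.2
    obtain ⟨K, hK, hK'⟩ := exists_subset_sum s t C _ (mem_comp.1 h8)
    exact ⟨K, hK, hK'⟩

end Pool.Agent.H46.Faith
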