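import Mathlib
import Pool.Agent.H46.Faith.Paths

set_option autoImplicit false

/-! Conservative weightings have nonnegative inner product with admissible vectors. -/

namespace Pool.Agent.H46.Faith

open Module

set_option linter.unusedSectionVars false

variable {V E : Type} [Fintype V] [DecidableEq V] [Fintype E] [DecidableEq E]

/-- real admissible vectors -/
def AdmR (s t : E → V) (x : E → ℝ) : Prop :=
  (∀ e, 0 ≤ x e) ∧ ∀ X : Finset V, ∀ f ∈ dl s t X, 2 * x f ≤ ∑ e ∈ dl s t X, x e

lemma other_end {s t : E → V} {b : V} {g : E} (hg : g ∈ dl s t {b}) :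
    ∃ u, u ≠ b ∧ bd s t g = pt b + pt u ∧ (s g = u ∨ t g = u) ∧ (s g = b ∨ t g = b) := by
  rw [mem_dl] at hg
  simp only [Finset.mem_singleton] at hg
  by_cases h1 : s g = b
  · refine ⟨t g, fun h => hg (iff_of_true h1 h), ?_, Or.inr rfl, Or.inl h1⟩
    rw [bd, h1]
  · by_cases h2 : t g = b
    · refine ⟨s g, h1, ?_, Or.inl rfl, Or.inr h2⟩
      rw [bd, h2, add_comm]
    · exact absurd (iff_of_false h1 h2) hg

lemma mem_dl_single {s t : E → V} {b : V} {g : E} (hg : s g = b ∨ t g = b) (hn : s g ≠ t g) :
    g ∈ dl s t {b} := by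
  rw [mem_dl]
  simp only [Finset.mem_singleton]
  rintro ⟨h1, h2⟩
  rcases hg with h | h
  · exact hn (h.trans (h1 h).symm)
  · exact hn ((h2 h).trans h.symm)

theorem shift_exists (s t : E → V) (c : E → ℤ)
    (hcons : ∀ H, bdS s t H = 0 → 0 ≤ ∑ e ∈ H, c e) (hnz : ∀ e, s e ≠ t e → c e ≠ 0)
    (hneg : ∃ e, s e ≠ t e ∧ c e < 0) :
    ∃ b eb, eb ∈ dl s t {b} ∧ c eb < 0 ∧ (∀ g ∈ dl s t {b}, g ≠ eb → 0 < c g) ∧
      ∀ C, MinEven s t C → (∃ f ∈ C, f ∈ dl s t {b}) → eb ∉ C → ∑ e ∈ C, c e ≠ 0 := by
  classical
  obtain ⟨e0, he0, hce0⟩ := hneg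
  have hne0 : bdS s t {e0} = pt (s e0) + pt (t e0) := bdS_singleton s t e0
  obtain ⟨J, hJ, hmin⟩ := Finset.exists_min_image
    ((Finset.univ : Finset (Finset E)).filter (fun J => ∃ a b, a ≠ b ∧ bdS s t J = pt a + pt b))
    (fun J => (∑ e ∈ J, c e) * ((Fintype.card E : ℤ) + 1) + (J.card : ℤ))
    ⟨{e0}, by
      rw [Finset.mem_filter]
      exact ⟨Finset.mem_univ _, s e0, t e0, he0, hne0⟩⟩
  have F1 : ∀ (J' : Finset E) (a' b' : V), a' ≠ b' → bdS s t J' = pt a' + pt b' →
      (∑ e ∈ J, c e) < (∑ e ∈ J', c e) ∨
        ((∑ e ∈ J, c e) = (∑ e ∈ J', c e) ∧ J.card ≤ J'.card) := by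
    intro J' a' b' hab' hbd'
    have h1 := hmin J' (by
      rw [Finset.mem_filter]
      exact ⟨Finset.mem_univ _, a', b', hab', hbd'⟩)
    have h2 : (J'.card : ℤ) ≤ Fintype.card E := by
      exact_mod_cast (Finset.card_le_univ J')
    have h3 : (0 : ℤ) ≤ J.card := Int.natCast_nonneg _
    have h4 : (0 : ℤ) ≤ Fintype.card E := Int.natCast_nonneg _
    rcases lt_trichotomy (∑ e ∈ J, c e) (∑ e ∈ J', c e) with h | h | h
    · exact Or.inl h
    · right
      refine ⟨h, ?_⟩
      rw [h] at h1
      have : (J.card : ℤ) ≤ J'.card := by linarith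
      exact_mod_cast this
    · exfalso
      have h5 : (∑ e ∈ J', c e) + 1 ≤ ∑ e ∈ J, c e := h
      have h6 := mul_le_mul_of_nonneg_right h5 (by linarith : (0 : ℤ) ≤ (Fintype.card E : ℤ) + 1)
      rw [add_mul, one_mul] at h6
      linarith
  rw [Finset.mem_filter] at hJ
  obtain ⟨-, a, b, hab, hbd⟩ := hJ
  have F2 : ∑ e ∈ J, c e < 0 := by
    have := F1 {e0} _ _ he0 hne0
    rw [Finset.sum_singleton] at this
    rcases this with h | ⟨h, _⟩ <;> linarith
  have F3 : NoEven s t J := by
    intro H hH h0
    by_contra hne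
    have hHne : H.Nonempty := Finset.nonempty_iff_ne_empty.2 hne
    have h1 := F1 (J \ H) a b hab (by rw [bdS_sdiff s t J H hH, h0, add_zero, hbd])
    have h2 : ∑ e ∈ J \ H, c e = ∑ e ∈ J, c e - ∑ e ∈ H, c e := Finset.sum_sdiff_eq_sub hH
    have h3 := hcons H h0
    have h4 : (J \ H).card < J.card := by
      refine Finset.card_lt_card ?_
      refine Finset.ssubset_iff_subset_ne.2 ⟨Finset.sdiff_subset, ?_⟩
      intro h
      obtain ⟨e, he⟩ := hHne
      have : e ∈ J \ H := by rw [h]; exact hH he
      exact (Finset.mem_sdiff.1 this).2 he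
    rcases h1 with h | ⟨h, h'⟩
    · linarith
    · omega
  obtain ⟨eb, heb⟩ := deg_end s t J F3 a b hab hbd
  have hebm : eb ∈ J ∩ dl s t {b} := by rw [heb]; simp
  rw [Finset.mem_inter] at hebm
  obtain ⟨hebJ, hebb⟩ := hebm
  have hJb : ∀ g ∈ J, g ∈ dl s t {b} → g = eb := by
    intro g hg hg'
    have : g ∈ J ∩ dl s t {b} := Finset.mem_inter.2 ⟨hg, hg'⟩
    rw [heb] at this
    simpa using this
  have hpos : ∀ g ∈ dl s t {b}, g ≠ eb → 0 < c g := by
    intro g hg hne
    obtain ⟨u, hu, hbdg, -, -⟩ := other_end hg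
    have hgJ : g ∉ J := fun h => hne (hJb g h hg)
    have hloop : s g ≠ t g := by
      intro h
      rw [mem_dl] at hg
      exact hg (by rw [h])
    by_contra hcon
    have hcg : c g < 0 := lt_of_le_of_ne (not_lt.1 hcon) (hnz g hloop)
    have h1 : bdS s t (insert g J) = pt a + pt u := by
      rw [bdS_insert s t J g hgJ, hbd, hbdg]
      calc pt a + pt b + (pt b + pt u) = pt a + (pt b + pt b) + pt u := by abel
        _ = _ := by rw [dbl, add_zero]
    have h2 : ∑ e ∈ insert g J, c e = c g + ∑ e ∈ J, c e := Finset.sum_insert hgJ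
    by_cases hua : a = u
    · rw [← hua, dbl] at h1
      have := hcons _ h1
      linarith
    · rcases F1 _ a u hua h1 with h | ⟨h, _⟩ <;> linarith
  have hceb : c eb < 0 := by
    obtain ⟨u, hu, hbdg, -, -⟩ := other_end hebb
    have h1 : bdS s t (J.erase eb) = pt a + pt u := by
      rw [bdS_erase s t J eb hebJ, hbd, hbdg]
      calc pt a + pt b + (pt b + pt u) = pt a + (pt b + pt b) + pt u := by abel
        _ = _ := by rw [dbl, add_zero]
    have h2 : ∑ e ∈ J.erase eb, c e = ∑ e ∈ J, c e - c eb := Finset.sum_erase_eq_sub hebJ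
    by_cases hua : a = u
    · rw [← hua, dbl] at h1
      have h3 := F3 _ (Finset.erase_subset _ _) h1
      rw [h3, Finset.sum_empty] at h2
      linarith
    · have h3 : c eb ≤ 0 := by
        rcases F1 _ a u hua h1 with h | ⟨h, _⟩ <;> linarith
      exact lt_of_le_of_ne h3 (hnz eb (F3.nonloop hebJ))
  refine ⟨b, eb, hebb, hceb, hpos, ?_⟩
  intro C hC hCb hebC hC0
  obtain ⟨f, hfC, hfb⟩ := hCb
  obtain ⟨-, -, -, -, hfb'⟩ := other_end hfb
  -- vertices of C
  by_cases hcase : ∃ K : Finset E, K ⊆ J ∧ ∃ z, z ≠ b ∧ (∃ g ∈ C, s g = z ∨ t g = z) ∧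
      bdS s t K = pt z + pt b
  · -- choose K minimal
    obtain ⟨K, hK, hKmin⟩ := Finset.exists_min_image
      (J.powerset.filter (fun K => ∃ z, z ≠ b ∧ (∃ g ∈ C, s g = z ∨ t g = z) ∧
        bdS s t K = pt z + pt b)) Finset.card (by
        obtain ⟨K, hK1, hK2⟩ := hcase
        exact ⟨K, by rw [Finset.mem_filter, Finset.mem_powerset]; exact ⟨hK1, hK2⟩⟩)
    rw [Finset.mem_filter, Finset.mem_powerset] at hK
    obtain ⟨hKJ, z, hzb, ⟨g0, hg0C, hg0z⟩, hKbd⟩ := hK
    have hdisj : Disjoint K C := by
      rw [Finset.disjoint_left]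
      intro g hgK hgC
      obtain ⟨K1, hK1, u, hu, hK1bd⟩ := path_split s t K (F3.mono hKJ) z b hKbd g hgK
      by_cases hub : u = b
      · have hgb : g ∈ dl s t {b} := by
          refine mem_dl_single ?_ ((F3.mono hKJ).nonloop hgK)
          rcases hu with h | h
          · exact Or.inl (h.symm.trans hub)
          · exact Or.inr (h.symm.trans hub)
        exact hebC (by rw [← hJb g (hKJ hgK) hgb]; exact hgC)
      · have h1 := hKmin K1 (by
          rw [Finset.mem_filter, Finset.mem_powerset]
          refine ⟨(hK1.trans (Finset.erase_subset _ _)).trans hKJ, u, hub, ⟨g, hgC, ?_⟩, ?_⟩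
          · rcases hu with h | h
            · exact Or.inl h.symm
            · exact Or.inr h.symm
          · rw [hK1bd, add_comm])
        have h2 := Finset.card_le_card hK1
        have h3 := Finset.card_erase_lt_of_mem hgK
        omega
    obtain ⟨Cx, hCx, hCxbd⟩ := hC.conn b z f g0 hfC hfb' hg0C hg0z
    have hd1 : Disjoint K Cx := Finset.disjoint_of_subset_right hCx hdisj
    have hd2 : Disjoint K (C \ Cx) := Finset.disjoint_of_subset_right Finset.sdiff_subset hdisj
    have h1 : 0 ≤ ∑ e ∈ K ∪ Cx, c e := by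
      refine hcons _ ?_
      rw [bdS_union s t _ _ hd1, hKbd, hCxbd, add_comm (pt b)]
      exact dbl _
    have h2 : 0 ≤ ∑ e ∈ K ∪ (C \ Cx), c e := by
      refine hcons _ ?_
      rw [bdS_union s t _ _ hd2, hKbd, bdS_sdiff s t C Cx hCx, hC.2.1, zero_add, hCxbd,
        add_comm (pt b)]
      exact dbl _
    rw [Finset.sum_union hd1] at h1
    rw [Finset.sum_union hd2, Finset.sum_sdiff_eq_sub hCx, hC0] at h2
    have hcK : 0 ≤ ∑ e ∈ K, c e := by linarith
    have hKne : K.Nonempty := by
      rw [Finset.nonempty_iff_ne_empty]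
      rintro rfl
      rw [bdS_empty] at hKbd
      exact hzb (by
        by_contra hne
        have h5 := congrFun hKbd z
        rw [Pi.zero_apply, Pi.add_apply, pt_ne (u := b) hne, add_zero] at h5
        rw [pt, Pi.single_eq_same] at h5
        exact absurd h5 (by decide))
    have h3 : bdS s t (J \ K) = pt a + pt z := by
      rw [bdS_sdiff s t J K hKJ, hbd, hKbd]
      calc pt a + pt b + (pt z + pt b) = pt a + pt z + (pt b + pt b) := by abel
        _ = _ := by rw [dbl, add_zero]
    have h4 : ∑ e ∈ J \ K, c e = ∑ e ∈ J, c e - ∑ e ∈ K, c e := Finset.sum_sdiff_eq_sub hKJ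
    by_cases hza : a = z
    · rw [← hza, dbl] at h3
      have h5 := F3 _ Finset.sdiff_subset h3
      rw [h5, Finset.sum_empty] at h4
      linarith
    · have h6 : (J \ K).card < J.card := by
        refine Finset.card_lt_card ?_
        refine Finset.ssubset_iff_subset_ne.2 ⟨Finset.sdiff_subset, ?_⟩
        intro h
        obtain ⟨e, he⟩ := hKne
        have : e ∈ J \ K := by rw [h]; exact hKJ he
        exact (Finset.mem_sdiff.1 this).2 he
      rcases F1 _ a z hza h3 with h | ⟨h, h'⟩
      · linarith
      · omega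
  · -- C meets the path only in b
    have hdisj : Disjoint J C := by
      rw [Finset.disjoint_left]
      intro g hgJ hgC
      obtain ⟨K1, hK1, u, hu, hK1bd⟩ := path_split s t J F3 a b hbd g hgJ
      by_cases hub : u = b
      · have hgb : g ∈ dl s t {b} := by
          refine mem_dl_single ?_ (F3.nonloop hgJ)
          rcases hu with h | h
          · exact Or.inl (h.symm.trans hub)
          · exact Or.inr (h.symm.trans hub)
        exact hebC (by rw [← hJb g hgJ hgb]; exact hgC)
      · refine hcase ⟨K1, hK1.trans (Finset.erase_subset _ _), u, hub, ⟨g, hgC, ?_⟩, ?_⟩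
        · rcases hu with h | h
          · exact Or.inl h.symm
          · exact Or.inr h.symm
        · rw [hK1bd, add_comm]
    obtain ⟨u, hu, hbdf, -, -⟩ := other_end hfb
    have hfeb : f ≠ eb := by rintro rfl; exact hebC hfC
    have hcf := hpos f hfb hfeb
    have hd : Disjoint J (C.erase f) := Finset.disjoint_of_subset_right (Finset.erase_subset _ _) hdisj
    have h1 : bdS s t (J ∪ C.erase f) = pt a + pt u := by
      rw [bdS_union s t _ _ hd, hbd, bdS_erase s t C f hfC, hC.2.1, zero_add, hbdf]
      calc pt a + pt b + (pt b + pt u) = pt a + (pt b + pt b) + pt u := by abel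
        _ = _ := by rw [dbl, add_zero]
    have h2 : ∑ e ∈ J ∪ C.erase f, c e = ∑ e ∈ J, c e - c f := by
      rw [Finset.sum_union hd, Finset.sum_erase_eq_sub hfC, hC0]
      ring
    by_cases hua : a = u
    · rw [← hua, dbl] at h1
      have := hcons _ h1
      linarith
    · rcases F1 _ a u hua h1 with h | ⟨h, _⟩ <;> linarith

/-- contraction of an edge -/
def ctr (g1 g2 : V) (v : V) : V := if v = g2 then g1 else v

theorem dual : ∀ (n : ℕ) (s t : E → V) (c : E → ℤ),
    (Finset.univ.filter (fun e => s e ≠ t e)).card + ∑ e, (c e).natAbs ≤ n →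
    (∀ H, bdS s t H = 0 → Even (∑ e ∈ H, c e)) →
    (∀ H, bdS s t H = 0 → 0 ≤ ∑ e ∈ H, c e) →
    ∀ x, AdmR s t x → 0 ≤ ∑ e, (c e : ℝ) * x e := by
  classical
  intro n
  induction n using Nat.strong_induction_on with
  | _ n ih =>
  intro s t c hn hev hcons x hx
  by_cases hneg : ∃ e, s e ≠ t e ∧ c e < 0
  swap
  · push Not at hneg
    refine Finset.sum_nonneg (fun e _ => ?_)
    have hc : 0 ≤ c e := by
      by_cases h : s e = t e
      · have := hcons {e} (by rw [bdS_singleton, bd, h, dbl])
        rwa [Finset.sum_singleton] at this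
      · exact hneg e h
    have : (0 : ℝ) ≤ c e := by exact_mod_cast hc
    exact mul_nonneg this (hx.1 e)
  by_cases hz : ∃ g, s g ≠ t g ∧ c g = 0
  · -- contract g
    obtain ⟨g, hg, hcg⟩ := hz
    set φ : V → V := ctr (s g) (t g) with hφ
    have hφt : φ (t g) = s g := by simp [hφ, ctr]
    have hφs : φ (s g) = s g := by simp [hφ, ctr, hg]
    have hcard : (Finset.univ.filter (fun e => φ (s e) ≠ φ (t e))).card <
        (Finset.univ.filter (fun e => s e ≠ t e)).card := by
      refine Finset.card_lt_card ?_
      refine Finset.ssubset_iff_subset_ne.2 ⟨?_, ?_⟩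
      · intro e he
        rw [Finset.mem_filter] at he ⊢
        exact ⟨he.1, fun h => he.2 (by rw [h])⟩
      · intro h
        have h1 : g ∈ Finset.univ.filter (fun e => s e ≠ t e) := by simp [hg]
        rw [← h, Finset.mem_filter] at h1
        exact h1.2 (by rw [hφt, hφs])
    -- even sets of the contraction
    have hlift : ∀ H, bdS (fun e => φ (s e)) (fun e => φ (t e)) H = 0 →
        ∃ H', bdS s t H' = 0 ∧ ∑ e ∈ H', c e = ∑ e ∈ H, c e := by
      intro H hH
      set y := bdS s t H with hy
      have hval : ∀ v, v ≠ s g → v ≠ t g → y v = 0 := by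
        intro v h1 h2
        have h3 := congrFun hH v
        rw [Pi.zero_apply] at h3
        rw [← h3, hy]
        unfold bdS
        rw [Finset.sum_apply, Finset.sum_apply]
        refine Finset.sum_congr rfl (fun e _ => ?_)
        have h4 : ∀ u : V, (Pi.single u 1 : V → ZMod 2) v = (Pi.single (φ u) 1 : V → ZMod 2) v := by
          intro u
          by_cases hu : u = t g
          · rw [hu, hφt, Pi.single_apply, Pi.single_apply, if_neg h2, if_neg h1]
          · simp [hφ, ctr, hu]
        have h5 := h4 (s e)
        have h6 := h4 (t e)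
        unfold bd
        rw [Pi.add_apply, Pi.add_apply]
        exact congrArg₂ (· + ·) h5 h6
      have hval2 : y (s g) + y (t g) = 0 := by
        have h3 := congrFun hH (s g)
        rw [Pi.zero_apply] at h3
        rw [← h3, hy]
        unfold bdS
        rw [Finset.sum_apply, Finset.sum_apply, Finset.sum_apply, ← Finset.sum_add_distrib]
        refine Finset.sum_congr rfl (fun e _ => ?_)
        have h4 : ∀ u : V, (Pi.single u 1 : V → ZMod 2) (s g) + (Pi.single u 1 : V → ZMod 2) (t g) =
            (Pi.single (φ u) 1 : V → ZMod 2) (s g) := by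
          intro u
          by_cases hu : u = t g
          · rw [hu, hφt]
            simp [hg]
          · by_cases hu' : u = s g
            · rw [hu', hφs]
              simp [Ne.symm hg]
            · have hφu : φ u = u := by simp [hφ, ctr, hu]
              rw [hφu, Pi.single_apply, Pi.single_apply, if_neg (Ne.symm hu'), if_neg (Ne.symm hu),
                add_zero]
        unfold bd
        rw [Pi.add_apply, Pi.add_apply, Pi.add_apply, ← h4, ← h4]
        abel
      have h2 : ∀ z : ZMod 2, z = 0 ∨ z = 1 := by decide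
      have hcases : y = 0 ∨ y = bd s t g := by
        have heq : y (t g) = y (s g) := by
          have h5 := eq_neg_of_add_eq_zero_left hval2
          rw [h5, ZMod.neg_eq_self_mod_two]
        rcases h2 (y (s g)) with h | h
        · left
          funext v
          by_cases h1 : v = s g
          · rw [h1, h]; rfl
          · by_cases h3 : v = t g
            · rw [h3, heq, h]; rfl
            · rw [hval v h1 h3]; rfl
        · right
          funext v
          unfold bd
          rw [Pi.add_apply, Pi.single_apply, Pi.single_apply]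
          by_cases h1 : v = s g
          · rw [h1, h, if_pos rfl, if_neg hg, add_zero]
          · by_cases h3 : v = t g
            · rw [h3, heq, h, if_neg (Ne.symm hg), if_pos rfl, zero_add]
            · rw [hval v h1 h3, if_neg h1, if_neg h3, add_zero]
      rcases hcases with h | h
      · exact ⟨H, h, rfl⟩
      · by_cases hgH : g ∈ H
        · refine ⟨H.erase g, ?_, ?_⟩
          · rw [bdS_erase s t H g hgH, ← hy, h, dbl]
          · rw [Finset.sum_erase_eq_sub hgH, hcg, sub_zero]
        · refine ⟨insert g H, ?_, ?_⟩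
          · rw [bdS_insert s t H g hgH, ← hy, h, dbl]
          · rw [Finset.sum_insert hgH, hcg, zero_add]
    refine ih ((Finset.univ.filter (fun e => φ (s e) ≠ φ (t e))).card + ∑ e, (c e).natAbs)
      (by omega) (fun e => φ (s e)) (fun e => φ (t e)) c le_rfl ?_ ?_ x ?_
    · intro H hH
      obtain ⟨H', h1, h2⟩ := hlift H hH
      rw [← h2]; exact hev H' h1
    · intro H hH
      obtain ⟨H', h1, h2⟩ := hlift H hH
      rw [← h2]; exact hcons H' h1
    · refine ⟨hx.1, ?_⟩
      intro X f hf
      have h1 : dl (fun e => φ (s e)) (fun e => φ (t e)) X =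
          dl s t (Finset.univ.filter (fun v => φ v ∈ X)) := by
        ext e
        rw [mem_dl, mem_dl]
        simp
      rw [h1] at hf ⊢
      exact hx.2 _ f hf
  · push Not at hz
    obtain ⟨b, eb, hebb, hceb, hpos, hcirc⟩ := shift_exists s t c hcons hz hneg
    set c' : E → ℤ := fun e => if e = eb then c e + 1 else if e ∈ dl s t {b} then c e - 1 else c e
      with hc'
    have hsum : ∀ H : Finset E, ∑ e ∈ H, c' e =
        ∑ e ∈ H, c e + ∑ e ∈ H ∩ dl s t {b}, (if e = eb then 1 else -1 : ℤ) := by
      intro H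
      rw [← Finset.filter_mem_eq_inter, Finset.sum_filter, ← Finset.sum_add_distrib]
      refine Finset.sum_congr rfl (fun e _ => ?_)
      simp only [hc']
      by_cases h1 : e = eb
      · rw [if_pos h1, if_pos (by rw [h1]; exact hebb), if_pos h1]
      · rw [if_neg h1]
        by_cases h2 : e ∈ dl s t {b}
        · rw [if_pos h2, if_pos h2, if_neg h1]; ring
        · rw [if_neg h2, if_neg h2, add_zero]
    have hmeas : ∑ e, (c' e).natAbs < ∑ e, (c e).natAbs := by
      refine Finset.sum_lt_sum ?_ ⟨eb, Finset.mem_univ _, ?_⟩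
      · intro e _
        simp only [hc']
        by_cases h1 : e = eb
        · rw [if_pos h1, h1]; omega
        · rw [if_neg h1]
          by_cases h2 : e ∈ dl s t {b}
          · rw [if_pos h2]
            have := hpos e h2 h1
            omega
          · rw [if_neg h2]
      · simp only [hc', if_true]
        omega
    have hpar : ∀ H, bdS s t H = 0 → Even ((H ∩ dl s t {b}).card) := by
      intro H hH
      have h1 := cf_bdS s t {b} H
      rw [hH, map_zero] at h1
      rwa [eq_comm, ZMod.natCast_eq_zero_iff_even] at h1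
    have hmin : ∀ C, MinEven s t C → 0 ≤ ∑ e ∈ C, c' e := by
      intro C hC
      rw [hsum]
      have h0 := hcons C hC.2.1
      by_cases hb : ∃ f ∈ C, f ∈ dl s t {b}
      · by_cases hebC : eb ∈ C
        · obtain ⟨g, hg1, hg2, hg3⟩ := hC.deg_two b eb hebC hebb
          rw [hg3, Finset.sum_pair (Ne.symm hg1), if_pos rfl, if_neg hg1]
          linarith
        · obtain ⟨f, hfC, hfb⟩ := hb
          obtain ⟨g, hg1, hg2, hg3⟩ := hC.deg_two b f hfC hfb
          have h1 := hcirc C hC ⟨f, hfC, hfb⟩ hebC
          have h2 := hev C hC.2.1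
          rw [hg3, Finset.sum_pair (Ne.symm hg1), if_neg (by rintro rfl; exact hebC hfC),
            if_neg (by rintro rfl; exact hebC hg2)]
          obtain ⟨r, hr⟩ := h2
          omega
      · have h1 : C ∩ dl s t {b} = ∅ := by
          rw [Finset.eq_empty_iff_forall_notMem]
          intro e he
          rw [Finset.mem_inter] at he
          exact hb ⟨e, he.1, he.2⟩
        rw [h1, Finset.sum_empty]
        linarith
    have hcons' : ∀ (k : ℕ) (H : Finset E), H.card ≤ k → bdS s t H = 0 → 0 ≤ ∑ e ∈ H, c' e := by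
      intro k
      induction k with
      | zero =>
        intro H hH _
        rw [Finset.card_eq_zero.1 (Nat.le_zero.1 hH), Finset.sum_empty]
      | succ k ihk =>
        intro H hH h0
        rcases H.eq_empty_or_nonempty with h1 | h1
        · rw [h1, Finset.sum_empty]
        · obtain ⟨C, hCH, hC⟩ := exists_minEven s t H h1 h0
          have h2 : bdS s t (H \ C) = 0 := by
            rw [bdS_sdiff s t H C hCH, h0, hC.2.1, add_zero]
          have h3 : (H \ C).card ≤ k := by
            have h4 := Finset.card_sdiff_add_card_eq_card hCH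
            have h5 := Finset.card_pos.2 hC.1
            omega
          have h4 := ihk _ h3 h2
          have h5 := hmin C hC
          rw [← Finset.sum_sdiff hCH]
          linarith
    have hmain := ih ((Finset.univ.filter (fun e => s e ≠ t e)).card + ∑ e, (c' e).natAbs)
      (by omega) s t c' le_rfl
      (by
        intro H hH
        rw [hsum]
        refine (hev H hH).add ?_
        have h1 : ∀ S : Finset E, Even S.card → Even (∑ e ∈ S, (if e = eb then 1 else -1 : ℤ)) := by
          intro S hS
          have h2 : ∑ e ∈ S, (if e = eb then 1 else -1 : ℤ) =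
              ∑ e ∈ S, (if e = eb then 2 else 0 : ℤ) - S.card := by
            rw [Finset.card_eq_sum_ones]
            push_cast
            rw [← Finset.sum_sub_distrib]
            refine Finset.sum_congr rfl (fun e _ => ?_)
            split_ifs <;> norm_num
          rw [h2]
          refine Even.sub (Finset.even_sum _ (fun e _ => ?_)) (by exact_mod_cast hS)
          split_ifs
          · exact even_two
          · exact Even.zero
        exact h1 _ (hpar H hH))
      (fun H hH => hcons' _ H le_rfl hH) x hx
    have hdiff : ∑ e, (c e : ℝ) * x e - ∑ e, (c' e : ℝ) * x e =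
        ∑ e ∈ dl s t {b}, x e - 2 * x eb := by
      rw [← Finset.sum_sub_distrib]
      have h1 : ∀ e, (c e : ℝ) * x e - (c' e : ℝ) * x e =
          (if e ∈ dl s t {b} then x e else 0) - (if e = eb then 2 * x e else 0) := by
        intro e
        simp only [hc']
        by_cases h1 : e = eb
        · rw [if_pos h1, if_pos h1, if_pos (by rw [h1]; exact hebb)]
          push_cast
          ring
        · rw [if_neg h1, if_neg h1]
          by_cases h2 : e ∈ dl s t {b}
          · rw [if_pos h2, if_pos h2]
            push_cast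
            ring
          · rw [if_neg h2, if_neg h2]
            ring
      rw [Finset.sum_congr rfl (fun e _ => h1 e), Finset.sum_sub_distrib, ← Finset.sum_filter,
        Finset.filter_mem_eq_inter, Finset.univ_inter, Finset.sum_ite_eq' Finset.univ eb,
        if_pos (Finset.mem_univ _)]
    have := hx.2 {b} eb hebb
    linarith

end Pool.Agent.H46.Faith
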