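import Mathlib
import Pool.Agent.H46.Faith.Dual

set_option autoImplicit false

/-! Even sets joining two vertices of a 2-edge-connected graph. -/

namespace Pool.Agent.H46.Faith

open Module

set_option linter.unusedSectionVars false

variable {V E : Type} [Fintype V] [DecidableEq V] [Fintype E] [DecidableEq E]

/-- connected in `Y` -/
def Conn (s t : E → V) (Y : Finset E) (u v : V) : Prop := pt u + pt v ∈ sp s t Y

lemma Conn.refl (s t : E → V) (Y : Finset E) (u : V) : Conn s t Y u u := by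
  unfold Conn
  rw [dbl]
  exact Submodule.zero_mem _

lemma Conn.symm {s t : E → V} {Y : Finset E} {u v : V} (h : Conn s t Y u v) : Conn s t Y v u := by
  unfold Conn at h ⊢
  rwa [add_comm]

lemma Conn.trans {s t : E → V} {Y : Finset E} {u v w : V} (h : Conn s t Y u v)
    (h' : Conn s t Y v w) : Conn s t Y u w := by
  unfold Conn at h h' ⊢
  have h1 := Submodule.add_mem _ h h'
  have h2 : pt u + pt v + (pt v + pt w) = pt u + pt w := by
    calc pt u + pt v + (pt v + pt w) = pt u + (pt v + pt v) + pt w := by abel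
      _ = _ := by rw [dbl, add_zero]
  rwa [h2] at h1

lemma Conn.mono {s t : E → V} {Y Z : Finset E} {u v : V} (h : Conn s t Y u v) (hYZ : Y ⊆ Z) :
    Conn s t Z u v := sp_mono hYZ h

lemma Conn.edge {s t : E → V} {Y : Finset E} {e : E} (he : e ∈ Y) : Conn s t Y (s e) (t e) :=
  Submodule.subset_span ⟨e, by exact_mod_cast he, rfl⟩

lemma Conn.of_bdS {s t : E → V} {Y : Finset E} {u v : V} (h : bdS s t Y = pt u + pt v) :
    Conn s t Y u v := by
  unfold Conn
  rw [← h]
  exact bdS_mem_sp s t Y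

lemma Conn.join {s t : E → V} {Y : Finset E} {u v : V} (h : Conn s t Y u v) :
    ∃ J ⊆ Y, bdS s t J = pt u + pt v := exists_subset_sum s t Y _ h

lemma Conn.of_cut {s t : E → V} {Y : Finset E} {x y : V}
    (h : ∀ X : Finset V, x ∈ X → y ∉ X → ∃ c ∈ Y, c ∈ dl s t X) : Conn s t Y x y := by
  refine mem_sp_of_cut s t Y x y ?_
  intro X hx hy
  obtain ⟨c, hc, hc'⟩ := h X hx hy
  exact ⟨c, hc, mem_dl.1 hc'⟩

lemma Conn.cut {s t : E → V} {Y : Finset E} {x y : V} (h : Conn s t Y x y) (X : Finset V)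
    (hx : x ∈ X) (hy : y ∉ X) : ∃ c ∈ Y, c ∈ dl s t X := by
  by_contra hcon
  push Not at hcon
  obtain ⟨J, hJ, hJ'⟩ := h.join
  have h1 := cf_bdS s t X J
  have h2 : J ∩ dl s t X = ∅ := by
    rw [Finset.eq_empty_iff_forall_notMem]
    intro e he
    rw [Finset.mem_inter] at he
    exact hcon e (hJ he.1) he.2
  rw [h2, hJ', map_add, cf_pt, cf_pt, if_pos hx, if_neg hy] at h1
  simp at h1

lemma mem_comp' {s t : E → V} {Y : Finset E} {b v : V} : v ∈ comp s t Y b ↔ Conn s t Y b v :=
  mem_comp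

/-- a minimal join -/
lemma Conn.path {s t : E → V} {Y : Finset E} {u v : V} (h : Conn s t Y u v) (huv : u ≠ v) :
    ∃ J ⊆ Y, bdS s t J = pt u + pt v ∧ NoEven s t J := by
  obtain ⟨J0, hJ0, hJ0'⟩ := h.join
  obtain ⟨J, hJ, hmin⟩ := Finset.exists_min_image
    (Y.powerset.filter (fun J => bdS s t J = pt u + pt v)) Finset.card
    ⟨J0, by rw [Finset.mem_filter, Finset.mem_powerset]; exact ⟨hJ0, hJ0'⟩⟩
  rw [Finset.mem_filter, Finset.mem_powerset] at hJ
  refine ⟨J, hJ.1, hJ.2, ?_⟩
  intro H hH h0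
  by_contra hne
  have h1 := hmin (J \ H) (by
    rw [Finset.mem_filter, Finset.mem_powerset]
    exact ⟨Finset.sdiff_subset.trans hJ.1, by rw [bdS_sdiff s t J H hH, h0, add_zero, hJ.2]⟩)
  have h2 := Finset.card_sdiff_add_card_eq_card hH
  have h3 := Finset.card_pos.2 (Finset.nonempty_iff_ne_empty.2 hne)
  omega

lemma bdS_filter_eq (s t : E → V) (Z : Finset E) (X : Finset V)
    (hX : ∀ e ∈ Z, (s e ∈ X ↔ t e ∈ X)) (y : V → ZMod 2) (hZ : bdS s t Z = y)
    (hy : ∀ v ∉ X, y v = 0) : bdS s t (Z.filter (fun e => s e ∈ X)) = y := by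
  funext v
  rw [bdS_filter s t Z X hX v, hZ]
  split_ifs with h
  · rfl
  · exact (hy v h).symm

lemma bdS_filter_zero (s t : E → V) (Z : Finset E) (X : Finset V)
    (hX : ∀ e ∈ Z, (s e ∈ X ↔ t e ∈ X)) (hy : ∀ v ∈ X, bdS s t Z v = 0) :
    bdS s t (Z.filter (fun e => s e ∈ X)) = 0 := by
  funext v
  rw [bdS_filter s t Z X hX v]
  split_ifs with h
  · exact hy v h
  · rfl

/-- In a connected even set there is a join of `a` and `c` connected to `x`. -/
lemma join_through (s t : E → V) (M0 : Finset E) (x a c : V) (h0 : bdS s t M0 = 0)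
    (ha : Conn s t M0 x a) (hc : Conn s t M0 x c) (hac : a ≠ c) :
    ∃ M ⊆ M0, bdS s t M = pt a + pt c ∧ Conn s t M x a := by
  classical
  by_cases hxa : x = a
  · obtain ⟨J, hJ, hJ'⟩ := (ha.symm.trans hc).join
    exact ⟨J, hJ, hJ', by rw [hxa]; exact Conn.refl _ _ _ _⟩
  obtain ⟨P, hP, hPbd, hPN⟩ := ha.path hxa
  set N := M0 \ P with hN
  have hNbd : bdS s t N = pt x + pt a := by
    rw [hN, bdS_sdiff s t M0 P hP, h0, zero_add, hPbd]
  have hxaN : Conn s t N x a := Conn.of_bdS hNbd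
  by_cases hcN : Conn s t N x c
  · obtain ⟨J, hJ, hJbd⟩ := hcN.join
    have hd : Disjoint P J := by
      rw [Finset.disjoint_left]
      intro e he he'
      exact (Finset.mem_sdiff.1 (hJ he')).2 he
    refine ⟨P ∪ J, Finset.union_subset hP (hJ.trans Finset.sdiff_subset), ?_, ?_⟩
    · rw [bdS_union s t _ _ hd, hPbd, hJbd]
      calc pt x + pt a + (pt x + pt c) = pt a + pt c + (pt x + pt x) := by abel
        _ = _ := by rw [dbl, add_zero]
    · exact (Conn.of_bdS hPbd).mono Finset.subset_union_left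
  · set X := comp s t N c with hX
    have hxX : x ∉ X := by
      rw [hX, mem_comp']
      exact fun h => hcN h.symm
    have haX : a ∉ X := by
      rw [hX, mem_comp']
      exact fun h => hcN (hxaN.trans h.symm)
    have hXe : ∀ e ∈ N, (s e ∈ X ↔ t e ∈ X) := fun e he => comp_edge he
    set Nc := N.filter (fun e => s e ∈ X) with hNc
    have hNc0 : bdS s t Nc = 0 := by
      refine bdS_filter_zero s t N X hXe ?_
      intro v hv
      rw [hNbd, Pi.add_apply, pt_ne, pt_ne]
      · rfl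
      · rintro rfl; exact haX hv
      · rintro rfl; exact hxX hv
    set N' := N \ Nc with hN'
    have hN'bd : bdS s t N' = pt x + pt a := by
      rw [hN', bdS_sdiff s t N Nc (Finset.filter_subset _ _), hNc0, add_zero, hNbd]
    -- an edge of P leaves X
    obtain ⟨g, hgM, hgX⟩ := hc.symm.cut X (by rw [hX]; exact self_mem_comp _ _ _ _) hxX
    have hgP : g ∈ P := by
      by_contra hgP
      have : g ∈ N := Finset.mem_sdiff.2 ⟨hgM, hgP⟩
      exact (mem_dl.1 hgX) (hXe g this)
    -- both ends of g are connected to x in P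
    obtain ⟨K1, hK1, u, hu, hK1bd⟩ := path_split s t P hPN a x (by rw [hPbd, add_comm]) g hgP
    have hxu : Conn s t P x u := (Conn.of_bdS hK1bd).mono (hK1.trans (Finset.erase_subset _ _))
    have hge : Conn s t P (s g) (t g) := Conn.edge hgP
    have hxs : Conn s t P x (s g) := by
      rcases hu with h | h
      · rw [← h]; exact hxu
      · rw [h] at hxu
        exact hxu.trans hge.symm
    have hxt : Conn s t P x (t g) := hxs.trans hge
    obtain ⟨p, hpX, hxp⟩ : ∃ p, p ∈ X ∧ Conn s t P x p := by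
      by_cases h1 : s g ∈ X
      · exact ⟨s g, h1, hxs⟩
      · by_cases h2 : t g ∈ X
        · exact ⟨t g, h2, hxt⟩
        · exact absurd (iff_of_false h1 h2) (mem_dl.1 hgX)
    -- p is connected to c inside Nc
    have hpc : Conn s t Nc c p := by
      rw [hX, mem_comp'] at hpX
      obtain ⟨J, hJ, hJbd⟩ := hpX.join
      have h1 : bdS s t (J.filter (fun e => s e ∈ X)) = pt c + pt p := by
        refine bdS_filter_eq s t J X (fun e he => hXe e (hJ he)) _ hJbd ?_
        intro v hv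
        rw [Pi.add_apply, pt_ne, pt_ne, add_zero]
        · rintro rfl
          exact hv (by rw [hX, mem_comp']; exact hpX)
        · rintro rfl
          exact hv (by rw [hX]; exact self_mem_comp _ _ _ _)
      refine (Conn.of_bdS h1).mono ?_
      rw [hNc]
      exact Finset.filter_subset_filter _ hJ
    have hcP' : Conn s t (P ∪ Nc) x c :=
      (hxp.mono Finset.subset_union_left).trans (hpc.symm.mono Finset.subset_union_right)
    obtain ⟨J, hJ, hJbd⟩ := hcP'.join
    have hd : Disjoint J N' := by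
      rw [Finset.disjoint_left]
      intro e he he'
      rw [hN', Finset.mem_sdiff, hN, Finset.mem_sdiff] at he'
      rcases Finset.mem_union.1 (hJ he) with h | h
      · exact he'.1.2 h
      · exact he'.2 h
    refine ⟨J ∪ N', Finset.union_subset ?_ ?_, ?_, ?_⟩
    · refine hJ.trans (Finset.union_subset hP ?_)
      exact (Finset.filter_subset _ _).trans Finset.sdiff_subset
    · exact Finset.sdiff_subset.trans Finset.sdiff_subset
    · rw [bdS_union s t _ _ hd, hJbd, hN'bd]
      calc pt x + pt c + (pt x + pt a) = pt a + pt c + (pt x + pt x) := by abel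
        _ = _ := by rw [dbl, add_zero]
    · exact (Conn.of_bdS hN'bd).mono Finset.subset_union_right

/-- Two vertices of a 2-edge-connected graph lie in a connected even set. -/
theorem even_through (s t : E → V) (Y : Finset E) (W : Finset V)
    (hYW : ∀ e ∈ Y, s e ∈ W ∧ t e ∈ W)
    (h2 : ∀ K : Finset V, (K ∩ W).Nonempty → (W \ K).Nonempty → 2 ≤ (Y ∩ dl s t K).card)
    (x y : V) (hx : x ∈ W) (hy : y ∈ W) : ∃ Z ⊆ Y, bdS s t Z = 0 ∧ Conn s t Z x y := by
  classical
  set K : Finset V := Finset.univ.filter (fun v => ∃ Z ⊆ Y, bdS s t Z = 0 ∧ Conn s t Z x v) with hK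
  have hxK : x ∈ K := by
    rw [hK, Finset.mem_filter]
    exact ⟨Finset.mem_univ _, ∅, Finset.empty_subset _, bdS_empty s t, Conn.refl _ _ _ _⟩
  by_contra hcon
  have hyK : y ∉ K := by
    rw [hK, Finset.mem_filter]
    rintro ⟨_, h⟩
    exact hcon h
  have h3 := h2 K ⟨x, Finset.mem_inter.2 ⟨hxK, hx⟩⟩ ⟨y, Finset.mem_sdiff.2 ⟨hy, hyK⟩⟩
  obtain ⟨g, hg⟩ : (Y ∩ dl s t K).Nonempty := Finset.card_pos.1 (by omega)
  rw [Finset.mem_inter] at hg
  obtain ⟨a, b, haK, hbK, hab, hgab⟩ : ∃ a b, a ∈ K ∧ b ∉ K ∧ bd s t g = pt a + pt b ∧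
      ((s g = a ∧ t g = b) ∨ (s g = b ∧ t g = a)) := by
    have h4 := mem_dl.1 hg.2
    by_cases h5 : s g ∈ K
    · exact ⟨s g, t g, h5, fun h => h4 (iff_of_true h5 h), rfl, Or.inl ⟨rfl, rfl⟩⟩
    · by_cases h6 : t g ∈ K
      · refine ⟨t g, s g, h6, h5, ?_, Or.inr ⟨rfl, rfl⟩⟩
        rw [bd, add_comm]
      · exact absurd (iff_of_false h5 h6) h4
  have hne : a ≠ b := by rintro rfl; exact hbK haK
  obtain ⟨-, Za, hZaY, hZa0, hZaa⟩ := Finset.mem_filter.1 haK
  set R := comp s t Za x with hR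
  have hRK : ∀ v ∈ R, v ∈ K := by
    intro v hv
    rw [hK, Finset.mem_filter]
    exact ⟨Finset.mem_univ _, Za, hZaY, hZa0, mem_comp'.1 hv⟩
  set M0 := Za.filter (fun e => s e ∈ R) with hM0
  have hM00 : bdS s t M0 = 0 := by
    refine bdS_filter_zero s t Za R (fun e he => comp_edge he) ?_
    intro v _
    rw [hZa0]; rfl
  have hM0conn : ∀ v ∈ R, Conn s t M0 x v := by
    intro v hv
    have h5 := mem_comp'.1 hv
    obtain ⟨J, hJ, hJbd⟩ := h5.join
    have h6 : bdS s t (J.filter (fun e => s e ∈ R)) = pt x + pt v := by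
      refine bdS_filter_eq s t J R (fun e he => comp_edge (hJ he)) _ hJbd ?_
      intro z hz
      rw [Pi.add_apply, pt_ne, pt_ne, add_zero]
      · rintro rfl; exact hz hv
      · rintro rfl; exact hz (self_mem_comp _ _ _ _)
    exact (Conn.of_bdS h6).mono (Finset.filter_subset_filter _ hJ)
  have haR : a ∈ R := mem_comp'.2 hZaa
  have hbR : b ∉ R := fun h => hbK (hRK b h)
  -- g is not a bridge
  have hcirc : Conn s t (Y.erase g) a b := by
    refine Conn.of_cut ?_
    intro X haX hbX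
    have haW : a ∈ W := by
      rcases hgab with ⟨h, _⟩ | ⟨_, h⟩
      · rw [← h]; exact (hYW g hg.1).1
      · rw [← h]; exact (hYW g hg.1).2
    have hbW : b ∈ W := by
      rcases hgab with ⟨_, h⟩ | ⟨h, _⟩
      · rw [← h]; exact (hYW g hg.1).2
      · rw [← h]; exact (hYW g hg.1).1
    have h5 := h2 X ⟨a, Finset.mem_inter.2 ⟨haX, haW⟩⟩ ⟨b, Finset.mem_sdiff.2 ⟨hbW, hbX⟩⟩
    obtain ⟨c, hc, hcg⟩ := Finset.exists_mem_ne (by omega : 1 < (Y ∩ dl s t X).card) g
    rw [Finset.mem_inter] at hc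
    exact ⟨c, Finset.mem_erase.2 ⟨hcg, hc.1⟩, hc.2⟩
  obtain ⟨P, hP, hPbd, hPN⟩ := hcirc.path hne
  -- shortest piece from b to R
  obtain ⟨P1, hP1, hP1min⟩ := Finset.exists_min_image
    (P.powerset.filter (fun K => ∃ c ∈ R, bdS s t K = pt c + pt b)) Finset.card
    ⟨P, by rw [Finset.mem_filter, Finset.mem_powerset]; exact ⟨Finset.Subset.refl _, a, haR, hPbd⟩⟩
  rw [Finset.mem_filter, Finset.mem_powerset] at hP1
  obtain ⟨hP1P, c, hcR, hP1bd⟩ := hP1
  have hgP1 : g ∉ P1 := fun h => (Finset.mem_erase.1 (hP (hP1P h))).1 rfl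
  have hd1 : Disjoint P1 M0 := by
    rw [Finset.disjoint_left]
    intro e he he'
    obtain ⟨K1, hK1, u, hu, hK1bd⟩ := path_split s t P1 (hPN.mono hP1P) c b hP1bd e he
    have huR : u ∈ R := by
      rw [hM0, Finset.mem_filter] at he'
      rcases hu with h | h
      · rw [h]; exact he'.2
      · rw [h]; exact (comp_edge he'.1).1 he'.2
    have h5 := hP1min K1 (by
      rw [Finset.mem_filter, Finset.mem_powerset]
      exact ⟨(hK1.trans (Finset.erase_subset _ _)).trans hP1P, u, huR, by rw [hK1bd, add_comm]⟩)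
    have h6 := Finset.card_le_card hK1
    have h7 := Finset.card_erase_lt_of_mem he
    omega
  have hgM0 : g ∉ M0 := by
    intro h
    rw [hM0, Finset.mem_filter] at h
    have h5 : s g ∈ R ↔ t g ∈ R := comp_edge h.1
    rcases hgab with ⟨h6, h7⟩ | ⟨h6, h7⟩
    · rw [h6, h7] at h5
      exact hbR (h5.1 haR)
    · rw [h6, h7] at h5
      exact hbR (h5.2 haR)
  have hP1Y : P1 ⊆ Y := hP1P.trans (hP.trans (Finset.erase_subset _ _))
  have hM0Y : M0 ⊆ Y := (Finset.filter_subset _ _).trans hZaY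
  -- the ear
  obtain ⟨M, hM, hMbd, hMx⟩ : ∃ M ⊆ M0, bdS s t M = pt a + pt c ∧ Conn s t M x a := by
    by_cases hac : a = c
    · refine ⟨M0, Finset.Subset.refl _, ?_, hM0conn a haR⟩
      rw [hac, dbl, hM00]
    · exact join_through s t M0 x a c hM00 (hM0conn a haR) (hM0conn c hcR) hac
  apply hbK
  rw [hK, Finset.mem_filter]
  refine ⟨Finset.mem_univ _, insert g (P1 ∪ M), ?_, ?_, ?_⟩
  · intro e he
    rcases Finset.mem_insert.1 he with h | h
    · rw [h]; exact hg.1
    · rcases Finset.mem_union.1 h with h | h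
      · exact hP1Y h
      · exact hM0Y (hM h)
  · have hd2 : Disjoint P1 M := Finset.disjoint_of_subset_right hM hd1
    have hg2 : g ∉ P1 ∪ M := by
      rw [Finset.mem_union]
      rintro (h | h)
      · exact hgP1 h
      · exact hgM0 (hM h)
    rw [bdS_insert s t _ g hg2, bdS_union s t _ _ hd2, hP1bd, hMbd, hab]
    calc pt c + pt b + (pt a + pt c) + (pt a + pt b) =
        (pt c + pt c) + (pt b + pt b) + (pt a + pt a) := by abel
      _ = 0 := by rw [dbl (pt c), dbl (pt b), dbl (pt a), add_zero, add_zero]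
  · have h5 : Conn s t (insert g (P1 ∪ M)) x a :=
      hMx.mono (Finset.subset_union_right.trans (Finset.subset_insert _ _))
    have h6 : Conn s t (insert g (P1 ∪ M)) a b := by
      have h7 : Conn s t (insert g (P1 ∪ M)) (s g) (t g) := Conn.edge (Finset.mem_insert_self _ _)
      rcases hgab with ⟨h8, h9⟩ | ⟨h8, h9⟩
      · rwa [h8, h9] at h7
      · rw [h8, h9] at h7
        exact h7.symm
    exact h5.trans h6

end Pool.Agent.H46.Faith
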