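import Mathlib
import Pool.Agent.H46.Faith.Menger

set_option autoImplicit false

/-! Flows with values in the integers modulo three. -/

namespace Pool.Agent.H46.Faith

open Module

set_option linter.unusedSectionVars false

variable {V E : Type} [Fintype V] [DecidableEq V] [Fintype E] [DecidableEq E]

/-- oriented boundary -/
def bo (s t : E → V) (e : E) : V → ZMod 3 := Pi.single (s e) 1 - Pi.single (t e) 1

/-- divergence -/
def dv (s t : E → V) (φ : E → ZMod 3) : V → ZMod 3 := ∑ e, φ e • bo s t e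

lemma dv_add (s t : E → V) (φ ψ : E → ZMod 3) : dv s t (φ + ψ) = dv s t φ + dv s t ψ := by
  unfold dv
  rw [← Finset.sum_add_distrib]
  refine Finset.sum_congr rfl (fun e _ => ?_)
  rw [Pi.add_apply, add_smul]

lemma dv_smul (s t : E → V) (c : ZMod 3) (φ : E → ZMod 3) : dv s t (c • φ) = c • dv s t φ := by
  unfold dv
  rw [Finset.smul_sum]
  refine Finset.sum_congr rfl (fun e _ => ?_)
  rw [Pi.smul_apply, smul_assoc]

lemma dv_zero (s t : E → V) : dv s t 0 = 0 := by
  unfold dv
  simp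

lemma dv_sum {ι : Type} (s t : E → V) (A : Finset ι) (φ : ι → E → ZMod 3) :
    dv s t (∑ i ∈ A, φ i) = ∑ i ∈ A, dv s t (φ i) := by
  classical
  induction A using Finset.induction_on with
  | empty => simp [dv_zero]
  | insert a A ha ih => rw [Finset.sum_insert ha, Finset.sum_insert ha, dv_add, ih]

lemma dv_single (s t : E → V) (e : E) (c : ZMod 3) :
    dv s t (Pi.single e c) = c • bo s t e := by
  unfold dv
  rw [Finset.sum_eq_single e]
  · rw [Pi.single_eq_same]
  · intro g _ hg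
    rw [Pi.single_eq_of_ne hg, zero_smul]
  · intro h; exact absurd (Finset.mem_univ _) h

/-- net flow out of a set -/
lemma sum_dv (s t : E → V) (X : Finset V) (φ : E → ZMod 3) :
    ∑ v ∈ X, dv s t φ v = ∑ e, φ e * ((if s e ∈ X then 1 else 0) - (if t e ∈ X then 1 else 0)) := by
  unfold dv
  simp_rw [Finset.sum_apply]
  rw [Finset.sum_comm]
  refine Finset.sum_congr rfl (fun e _ => ?_)
  simp only [Pi.smul_apply, smul_eq_mul, bo, Pi.sub_apply]
  rw [← Finset.mul_sum, Finset.sum_sub_distrib]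
  simp [Pi.single_apply]

lemma path_flow (s t : E → V) (Y : Finset E) (u v : V) (h : Conn s t Y u v) :
    ∃ ψ : E → ZMod 3, (∀ e ∉ Y, ψ e = 0) ∧ dv s t ψ = Pi.single u 1 - Pi.single v 1 := by
  classical
  set X : Finset V := Finset.univ.filter (fun v => ∃ ψ : E → ZMod 3, (∀ e ∉ Y, ψ e = 0) ∧
    dv s t ψ = Pi.single u 1 - Pi.single v 1) with hX
  have huX : u ∈ X := by
    rw [hX, Finset.mem_filter]
    exact ⟨Finset.mem_univ _, 0, fun _ _ => rfl, by rw [dv_zero, sub_self]⟩
  by_contra hcon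
  have hvX : v ∉ X := by
    rw [hX, Finset.mem_filter]
    rintro ⟨_, h⟩
    exact hcon h
  obtain ⟨c, hc, hcX⟩ := h.cut X huX hvX
  rw [mem_dl] at hcX
  by_cases h1 : s c ∈ X
  · apply hcX
    refine iff_of_true h1 ?_
    obtain ⟨-, ψ, hψ1, hψ2⟩ := Finset.mem_filter.1 h1
    rw [hX, Finset.mem_filter]
    refine ⟨Finset.mem_univ _, ψ + Pi.single c 1, ?_, ?_⟩
    · intro e he
      rw [Pi.add_apply, hψ1 e he, Pi.single_eq_of_ne (by rintro rfl; exact he hc), add_zero]
    · rw [dv_add, hψ2, dv_single, one_smul, bo]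
      abel
  · by_cases h2 : t c ∈ X
    · obtain ⟨-, ψ, hψ1, hψ2⟩ := Finset.mem_filter.1 h2
      apply h1
      rw [hX, Finset.mem_filter]
      refine ⟨Finset.mem_univ _, ψ + Pi.single c (-1), ?_, ?_⟩
      · intro e he
        rw [Pi.add_apply, hψ1 e he, Pi.single_eq_of_ne (by rintro rfl; exact he hc), add_zero]
      · rw [dv_add, hψ2, dv_single, neg_one_smul, bo]
        abel
    · exact hcX (iff_of_false h1 h2)

/-- Filling a prescribed divergence. -/
lemma fill (s t : E → V) (Y : Finset E) (W : Finset V) (w0 : V)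
    (hW : ∀ v ∈ W, Conn s t Y v w0) (g : V → ZMod 3) (hg : ∀ v ∉ W, g v = 0)
    (hg0 : ∑ v ∈ W, g v = 0) :
    ∃ ψ : E → ZMod 3, (∀ e ∉ Y, ψ e = 0) ∧ dv s t ψ = g := by
  classical
  have h1 : ∀ v, ∃ ψ : E → ZMod 3, (∀ e ∉ Y, ψ e = 0) ∧
      (v ∈ W → dv s t ψ = Pi.single v 1 - Pi.single w0 1) := by
    intro v
    by_cases hv : v ∈ W
    · obtain ⟨ψ, h2, h3⟩ := path_flow s t Y v w0 (hW v hv)
      exact ⟨ψ, h2, fun _ => h3⟩
    · exact ⟨0, fun _ _ => rfl, fun h => absurd h hv⟩
  choose ψ hψ1 hψ2 using h1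
  refine ⟨∑ v ∈ W, g v • ψ v, ?_, ?_⟩
  · intro e he
    rw [Finset.sum_apply]
    refine Finset.sum_eq_zero (fun v _ => ?_)
    rw [Pi.smul_apply, hψ1 v e he, smul_zero]
  · rw [dv_sum]
    have h2 : ∑ v ∈ W, dv s t (g v • ψ v) =
        ∑ v ∈ W, g v • (Pi.single v 1 : V → ZMod 3) - (∑ v ∈ W, g v) • Pi.single w0 1 := by
      rw [Finset.sum_smul, ← Finset.sum_sub_distrib]
      refine Finset.sum_congr rfl (fun v hv => ?_)
      rw [dv_smul, hψ2 v hv, smul_sub]
    rw [h2, hg0, zero_smul, sub_zero]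
    funext z
    rw [Finset.sum_apply]
    by_cases hz : z ∈ W
    · rw [Finset.sum_eq_single z]
      · simp
      · intro v _ hv
        rw [Pi.smul_apply, Pi.single_eq_of_ne hv.symm, smul_zero]
      · intro h; exact absurd hz h
    · rw [hg z hz]
      refine Finset.sum_eq_zero (fun v hv => ?_)
      rw [Pi.smul_apply, Pi.single_eq_of_ne (by rintro rfl; exact hz hv), smul_zero]

lemma choose_nonzero {A : Finset E} (hA : 2 ≤ A.card) (S : ZMod 3) :
    ∃ z : E → ZMod 3, (∀ e, z e ≠ 0) ∧ ∑ e ∈ A, z e = S := by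
  classical
  obtain ⟨a, ha, b, hb, hab⟩ := Finset.one_lt_card.1 (by omega : 1 < A.card)
  have hd : ∀ r : ZMod 3, ∃ p q : ZMod 3, p ≠ 0 ∧ q ≠ 0 ∧ p + q = r := by decide
  obtain ⟨p, q, hp, hq, hpq⟩ := hd (S - ∑ e ∈ (A.erase a).erase b, (1 : ZMod 3))
  refine ⟨fun e => if e = a then p else if e = b then q else 1, ?_, ?_⟩
  · intro e
    simp only
    split_ifs
    · exact hp
    · exact hq
    · decide
  · rw [← Finset.add_sum_erase A _ ha,
      ← Finset.add_sum_erase (A.erase a) _ (Finset.mem_erase.2 ⟨hab.symm, hb⟩)]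
    rw [if_pos rfl, if_neg hab.symm, if_pos rfl]
    have h1 : ∑ e ∈ (A.erase a).erase b, (if e = a then p else if e = b then q else 1) =
        ∑ e ∈ (A.erase a).erase b, (1 : ZMod 3) := by
      refine Finset.sum_congr rfl (fun e he => ?_)
      rw [Finset.mem_erase, Finset.mem_erase] at he
      rw [if_neg he.2.1, if_neg he.1]
    rw [h1, ← add_assoc, hpq]
    ring

/-- edges inside a set of vertices -/
def inn (s t : E → V) (F : Finset E) (U : Finset V) : Finset E :=
  F.filter (fun e => s e ∈ U ∧ t e ∈ U)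

lemma mem_inn {s t : E → V} {F : Finset E} {U : Finset V} {e : E} :
    e ∈ inn s t F U ↔ e ∈ F ∧ s e ∈ U ∧ t e ∈ U := by
  simp [inn]

/-- edges between two sets of vertices -/
def btw (s t : E → V) (F : Finset E) (U B : Finset V) : Finset E :=
  F.filter (fun e => (s e ∈ U ∧ t e ∈ B) ∨ (s e ∈ B ∧ t e ∈ U))

lemma mem_btw {s t : E → V} {F : Finset E} {U B : Finset V} {e : E} :
    e ∈ btw s t F U B ↔ e ∈ F ∧ ((s e ∈ U ∧ t e ∈ B) ∨ (s e ∈ B ∧ t e ∈ U)) := by
  simp [btw]

/-- The inductive property. -/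
def QQ (s t : E → V) (F : Finset E) (U : Finset V) : Prop :=
  ∃ Z ⊆ inn s t F U, bdS s t Z = 0 ∧ ∀ φ : E → ZMod 3, ∃ ψ : E → ZMod 3,
    (∀ e ∉ inn s t F U, ψ e = 0) ∧ dv s t ψ = 0 ∧ ∀ e ∈ inn s t F U, e ∉ Z → φ e + ψ e ≠ 0

theorem QQ_step (s t : E → V) (F : Finset E) (U B : Finset V) (hUB : Disjoint U B)
    (b0 : V) (Z' : Finset E) (hZ' : Z' ⊆ inn s t F B) (hZ'0 : bdS s t Z' = 0)
    (hZ'c : ∀ b ∈ B, Conn s t Z' b b0) (h2 : 2 ≤ (btw s t F U B).card)
    (hUc : ∀ u ∈ U, ∀ v ∈ U, Conn s t F u v → Conn s t (inn s t F U) u v)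
    (hQ : QQ s t F U) : QQ s t F (U ∪ B) := by
  classical
  obtain ⟨Z, hZ, hZ0, hZφ⟩ := hQ
  have hnot : ∀ v, v ∈ U → v ∉ B := fun v h h' => Finset.disjoint_left.1 hUB h h'
  have hcases : ∀ e, e ∈ inn s t F (U ∪ B) → e ∈ inn s t F U ∨ e ∈ inn s t F B ∨ e ∈ btw s t F U B := by
    intro e he
    rw [mem_inn, Finset.mem_union, Finset.mem_union] at he
    rw [mem_inn, mem_inn, mem_btw]
    tauto
  have hsub1 : inn s t F U ⊆ inn s t F (U ∪ B) := by
    intro e he
    rw [mem_inn] at he ⊢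
    exact ⟨he.1, Finset.mem_union_left _ he.2.1, Finset.mem_union_left _ he.2.2⟩
  have hsub2 : inn s t F B ⊆ inn s t F (U ∪ B) := by
    intro e he
    rw [mem_inn] at he ⊢
    exact ⟨he.1, Finset.mem_union_right _ he.2.1, Finset.mem_union_right _ he.2.2⟩
  have hsub3 : btw s t F U B ⊆ inn s t F (U ∪ B) := by
    intro e he
    rw [mem_btw] at he
    rw [mem_inn, Finset.mem_union, Finset.mem_union]
    tauto
  have hd12 : ∀ e, e ∈ inn s t F U → e ∉ inn s t F B := by
    intro e he he'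
    rw [mem_inn] at he he'
    exact hnot _ he.2.1 he'.2.1
  have hd13 : ∀ e, e ∈ inn s t F U → e ∉ btw s t F U B := by
    intro e he he'
    rw [mem_inn] at he
    rw [mem_btw] at he'
    rcases he'.2 with h | h
    · exact hnot _ he.2.2 h.2
    · exact hnot _ he.2.1 h.1
  have hd23 : ∀ e, e ∈ inn s t F B → e ∉ btw s t F U B := by
    intro e he he'
    rw [mem_inn] at he
    rw [mem_btw] at he'
    rcases he'.2 with h | h
    · exact hnot _ h.1 he.2.1
    · exact hnot _ h.2 he.2.2
  refine ⟨Z ∪ Z', Finset.union_subset (hZ.trans hsub1) (hZ'.trans hsub2), ?_, ?_⟩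
  · rw [bdS_union s t Z Z', hZ0, hZ'0, add_zero]
    rw [Finset.disjoint_left]
    intro e he he'
    exact hd12 e (hZ he) (hZ' he')
  intro φ
  set EB := btw s t F U B with hEB
  set σ : E → ZMod 3 := fun e => (if s e ∈ U then 1 else 0) - (if t e ∈ U then 1 else 0) with hσ
  have hσEB : ∀ e ∈ EB, σ e * σ e = 1 ∧ σ e ≠ 0 ∧
      (if s e ∈ B then 1 else 0) - (if t e ∈ B then 1 else 0) = - σ e := by
    intro e he
    rw [hEB, mem_btw] at he
    simp only [hσ]
    rcases he.2 with ⟨h, h'⟩ | ⟨h, h'⟩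
    · rw [if_pos h, if_neg (fun h'' => hnot _ h'' h'), if_neg (hnot _ h), if_pos h']
      decide
    · rw [if_neg (fun h'' => hnot _ h'' h), if_pos h', if_pos h, if_neg (hnot _ h')]
      decide
  obtain ⟨z, hz, hzsum⟩ := choose_nonzero h2 (∑ e ∈ EB, σ e * φ e)
  set y : E → ZMod 3 := fun e => if e ∈ EB then σ e * z e - φ e else
    if e ∈ inn s t F B ∧ e ∉ Z' then (if φ e = 0 then 1 else 0) else 0 with hy
  have hy1 : ∀ e ∈ EB, φ e + y e ≠ 0 := by
    intro e he
    simp only [hy, if_pos he]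
    rw [add_sub_cancel]
    exact mul_ne_zero (hσEB e he).2.1 (hz e)
  have hy2 : ∀ e ∈ inn s t F B, e ∉ Z' → φ e + y e ≠ 0 := by
    intro e he he'
    simp only [hy, if_neg (hd23 e he), if_pos (show e ∈ inn s t F B ∧ e ∉ Z' from ⟨he, he'⟩)]
    split_ifs with h
    · rw [h]; decide
    · rwa [add_zero]
  have hy0 : ∀ e, e ∉ EB → e ∉ inn s t F B → y e = 0 := by
    intro e h1 h3
    simp only [hy, if_neg h1]
    rw [if_neg (fun h => h3 h.1)]
  set ρ := dv s t y with hρ
  have hρU : ∑ v ∈ U, ρ v = 0 := by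
    rw [hρ, sum_dv]
    have h3 : ∀ e, y e * ((if s e ∈ U then 1 else 0) - (if t e ∈ U then 1 else 0)) =
        if e ∈ EB then z e - σ e * φ e else 0 := by
      intro e
      by_cases he : e ∈ EB
      · rw [if_pos he]
        change y e * σ e = _
        simp only [hy, if_pos he]
        have := (hσEB e he).1
        calc (σ e * z e - φ e) * σ e = (σ e * σ e) * z e - σ e * φ e := by ring
          _ = _ := by rw [this, one_mul]
      · rw [if_neg he]
        by_cases he' : e ∈ inn s t F B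
        · rw [mem_inn] at he'
          rw [if_neg (fun h => hnot _ h he'.2.1), if_neg (fun h => hnot _ h he'.2.2), sub_self,
            mul_zero]
        · rw [hy0 e he he', zero_mul]
    rw [Finset.sum_congr rfl (fun e _ => h3 e), ← Finset.sum_filter, Finset.filter_mem_eq_inter,
      Finset.univ_inter, Finset.sum_sub_distrib, hzsum, sub_self]
  have hρB : ∑ v ∈ B, ρ v = 0 := by
    rw [hρ, sum_dv]
    have h3 : ∀ e, y e * ((if s e ∈ B then 1 else 0) - (if t e ∈ B then 1 else 0)) =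
        if e ∈ EB then -(z e - σ e * φ e) else 0 := by
      intro e
      by_cases he : e ∈ EB
      · rw [if_pos he, (hσEB e he).2.2]
        simp only [hy, if_pos he]
        have := (hσEB e he).1
        calc (σ e * z e - φ e) * -σ e = -((σ e * σ e) * z e - σ e * φ e) := by ring
          _ = _ := by rw [this, one_mul]
      · rw [if_neg he]
        by_cases he' : e ∈ inn s t F B
        · rw [mem_inn] at he'
          rw [if_pos he'.2.1, if_pos he'.2.2, sub_self, mul_zero]
        · rw [hy0 e he he', zero_mul]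
    rw [Finset.sum_congr rfl (fun e _ => h3 e), ← Finset.sum_filter, Finset.filter_mem_eq_inter,
      Finset.univ_inter, Finset.sum_neg_distrib, Finset.sum_sub_distrib, hzsum, sub_self, neg_zero]
  -- support of ρ
  have hρsupp : ∀ v, ρ v ≠ 0 → ∃ e, (e ∈ EB ∨ e ∈ inn s t F B) ∧ (s e = v ∨ t e = v) := by
    intro v hv
    by_contra hcon
    push Not at hcon
    apply hv
    rw [hρ]
    unfold dv
    rw [Finset.sum_apply]
    refine Finset.sum_eq_zero (fun e _ => ?_)
    by_cases he : e ∈ EB ∨ e ∈ inn s t F B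
    · have h3 := hcon e he
      rw [Pi.smul_apply, bo, Pi.sub_apply, Pi.single_eq_of_ne (Ne.symm h3.1),
        Pi.single_eq_of_ne (Ne.symm h3.2), sub_self, smul_zero]
    · push Not at he
      rw [hy0 e he.1 he.2, zero_smul]
      rfl
  obtain ⟨e1, he1⟩ : EB.Nonempty := Finset.card_pos.1 (by omega)
  -- U-end and B-end of the edges between
  have hends : ∀ e ∈ EB, ∃ u b, u ∈ U ∧ b ∈ B ∧ Conn s t F u b ∧
      ((s e = u ∧ t e = b) ∨ (s e = b ∧ t e = u)) := by
    intro e he
    rw [hEB, mem_btw] at he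
    rcases he.2 with ⟨h, h'⟩ | ⟨h, h'⟩
    · exact ⟨s e, t e, h, h', Conn.edge he.1, Or.inl ⟨rfl, rfl⟩⟩
    · exact ⟨t e, s e, h', h, (Conn.edge he.1).symm, Or.inr ⟨rfl, rfl⟩⟩
  obtain ⟨u1, b1, hu1, hb1, hub1, -⟩ := hends e1 he1
  have hZ'F : Z' ⊆ F := hZ'.trans (Finset.filter_subset _ _)
  obtain ⟨ψU, hψU1, hψU2⟩ := fill s t (inn s t F U) (U.filter (fun v => ρ v ≠ 0)) u1
    (by
      intro v hv
      rw [Finset.mem_filter] at hv
      refine hUc v hv.1 u1 hu1 ?_
      obtain ⟨e, he, hev⟩ := hρsupp v hv.2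
      have heEB : e ∈ EB := by
        rcases he with h | h
        · exact h
        · exfalso
          rw [mem_inn] at h
          rcases hev with h' | h'
          · exact hnot v hv.1 (h' ▸ h.2.1)
          · exact hnot v hv.1 (h' ▸ h.2.2)
      obtain ⟨u, b, hu, hb, hub, hor⟩ := hends e heEB
      have hvu : v = u := by
        rcases hor with ⟨h3, h4⟩ | ⟨h3, h4⟩
        · rcases hev with h' | h'
          · rw [← h', h3]
          · exfalso; rw [← h', h4] at hv; exact hnot _ hv.1 hb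
        · rcases hev with h' | h'
          · exfalso; rw [← h', h3] at hv; exact hnot _ hv.1 hb
          · rw [← h', h4]
      rw [hvu]
      exact hub.trans ((((hZ'c b hb).mono hZ'F).trans ((hZ'c b1 hb1).mono hZ'F).symm).trans
        hub1.symm))
    (fun v => if v ∈ U then - ρ v else 0)
    (by
      intro v hv
      split_ifs with h
      · rw [Finset.mem_filter, not_and, not_not] at hv
        rw [hv h, neg_zero]
      · rfl)
    (by
      rw [Finset.sum_filter]
      have h3 : ∀ v ∈ U, (if ρ v ≠ 0 then (if v ∈ U then - ρ v else 0) else 0) = - ρ v := by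
        intro v hv
        rw [if_pos hv]
        split_ifs with h
        · rfl
        · rw [not_not] at h
          rw [h, neg_zero]
      rw [Finset.sum_congr rfl h3, Finset.sum_neg_distrib, hρU, neg_zero])
  obtain ⟨ψB, hψB1, hψB2⟩ := fill s t Z' B b0 hZ'c
    (fun v => if v ∈ B then - ρ v else 0)
    (by intro v hv; simp only [if_neg hv])
    (by
      rw [Finset.sum_congr rfl (fun v hv => if_pos hv), Finset.sum_neg_distrib, hρB, neg_zero])
  have hdv2 : dv s t (y + ψU + ψB) = 0 := by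
    rw [dv_add, dv_add, hψU2, hψB2, ← hρ]
    funext v
    rw [Pi.add_apply, Pi.add_apply, Pi.zero_apply]
    by_cases h3 : v ∈ U
    · rw [if_pos h3, if_neg (hnot v h3)]; ring
    · rw [if_neg h3]
      by_cases h4 : v ∈ B
      · rw [if_pos h4]; ring
      · rw [if_neg h4]
        have h5 : ρ v = 0 := by
          by_contra h5
          obtain ⟨e, he, hev⟩ := hρsupp v h5
          rcases he with h | h
          · obtain ⟨u, b, hu, hb, -, hor⟩ := hends e h
            rcases hor with ⟨h6, h7⟩ | ⟨h6, h7⟩ <;> rcases hev with h' | h'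
            · exact h3 (by rw [← h', h6]; exact hu)
            · exact h4 (by rw [← h', h7]; exact hb)
            · exact h4 (by rw [← h', h6]; exact hb)
            · exact h3 (by rw [← h', h7]; exact hu)
          · rw [mem_inn] at h
            rcases hev with h' | h'
            · exact h4 (h' ▸ h.2.1)
            · exact h4 (h' ▸ h.2.2)
        rw [h5]; ring
  obtain ⟨ψ3, hψ31, hψ32, hψ33⟩ := hZφ (φ + (y + ψU + ψB))
  refine ⟨(y + ψU + ψB) + ψ3, ?_, ?_, ?_⟩
  · intro e he
    have h3 : e ∉ inn s t F U := fun h => he (hsub1 h)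
    have h4 : e ∉ inn s t F B := fun h => he (hsub2 h)
    have h5 : e ∉ EB := fun h => he (hsub3 h)
    rw [Pi.add_apply, Pi.add_apply, Pi.add_apply, hy0 e h5 h4, hψU1 e h3,
      hψB1 e (fun h => h4 (hZ' h)), hψ31 e h3]
    rfl
  · rw [dv_add, hdv2, hψ32, add_zero]
  · intro e he heZ
    rcases hcases e he with h | h | h
    · have h3 := hψ33 e h (fun h' => heZ (Finset.mem_union_left _ h'))
      rw [Pi.add_apply, add_assoc] at h3
      rw [Pi.add_apply]
      exact h3
    · have h3 : e ∉ inn s t F U := fun h' => hd12 e h' h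
      have h4 : e ∉ Z' := fun h' => heZ (Finset.mem_union_right _ h')
      rw [Pi.add_apply, Pi.add_apply, Pi.add_apply, hψU1 e h3, hψB1 e h4, hψ31 e h3, add_zero,
        add_zero, add_zero]
      exact hy2 e h h4
    · have h3 : e ∉ inn s t F U := fun h' => hd13 e h' h
      have h4 : e ∉ Z' := fun h' => hd23 e (hZ' h') h
      rw [Pi.add_apply, Pi.add_apply, Pi.add_apply, hψU1 e h3, hψB1 e h4, hψ31 e h3, add_zero,
        add_zero, add_zero]
      exact hy1 e h

end Pool.Agent.H46.Faith
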