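import Mathlib
import Pool.Agent.H46.Faith.Flow3

set_option autoImplicit false

/-! Seymour's theorem on flows with values in `Z_2 × Z_3`. -/

namespace Pool.Agent.H46.Faith

open Module

set_option linter.unusedSectionVars false

variable {V E : Type} [Fintype V] [DecidableEq V] [Fintype E] [DecidableEq E]

lemma comp_conn (s t : E → V) (Z : Finset E) (x v : V) (hv : v ∈ comp s t Z x) :
    Conn s t (Z.filter (fun e => s e ∈ comp s t Z x)) x v := by
  obtain ⟨J, hJ, hJbd⟩ := (mem_comp'.1 hv).join
  have h6 : bdS s t (J.filter (fun e => s e ∈ comp s t Z x)) = pt x + pt v := by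
    refine bdS_filter_eq s t J _ (fun e he => comp_edge (hJ he)) _ hJbd ?_
    intro z hz
    rw [Pi.add_apply, pt_ne, pt_ne, add_zero]
    · rintro rfl; exact hz hv
    · rintro rfl; exact hz (self_mem_comp _ _ _ _)
  exact (Conn.of_bdS h6).mono (Finset.filter_subset_filter _ hJ)

theorem exists_B (s t : E → V) (F : Finset E) (U : Finset V)
    (h3 : ∀ X : Finset V, (F ∩ dl s t X).Nonempty → 3 ≤ (F ∩ dl s t X).card)
    (hmeet : ∀ v, ∃ u ∈ U, Conn s t F v u) (hU : Uᶜ.Nonempty) :
    ∃ (B : Finset V) (b0 : V) (Z' : Finset E), b0 ∈ B ∧ Disjoint U B ∧ Z' ⊆ inn s t F B ∧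
      bdS s t Z' = 0 ∧ (∀ b ∈ B, Conn s t Z' b b0) ∧ 2 ≤ (btw s t F U B).card := by
  classical
  set W := Uᶜ with hW
  obtain ⟨X, hX, hmin⟩ := Finset.exists_min_image
    (W.powerset.filter (fun X => X.Nonempty ∧ (btw s t F X (W \ X)).card ≤ 1)) Finset.card
    ⟨W, by
      rw [Finset.mem_filter, Finset.mem_powerset]
      refine ⟨Finset.Subset.refl _, hU, ?_⟩
      have : btw s t F W (W \ W) = ∅ := by
        rw [Finset.eq_empty_iff_forall_notMem]
        intro e he
        rw [mem_btw] at he
        simp at he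
      rw [this]; simp⟩
  rw [Finset.mem_filter, Finset.mem_powerset] at hX
  obtain ⟨hXW, hXne, hXout⟩ := hX
  have hXU : ∀ v ∈ X, v ∉ U := fun v hv => Finset.mem_compl.1 (hXW hv)
  have hdisj : Disjoint U X := by
    rw [Finset.disjoint_left]
    intro v hv hv'
    exact hXU v hv' hv
  -- many edges to U
  have hUX : 2 ≤ (btw s t F U X).card := by
    obtain ⟨v, hv⟩ := hXne
    obtain ⟨u, hu, huv⟩ := hmeet v
    obtain ⟨c, hc, hcX⟩ := huv.cut X hv (fun h => hXU u h hu)
    have h4 := h3 X ⟨c, Finset.mem_inter.2 ⟨hc, hcX⟩⟩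
    have h5 : F ∩ dl s t X ⊆ btw s t F U X ∪ btw s t F X (W \ X) := by
      intro e he
      rw [Finset.mem_inter, mem_dl] at he
      rw [Finset.mem_union, mem_btw, mem_btw]
      have h6 : ∀ z, z ∉ X → z ∈ U ∨ z ∈ W \ X := by
        intro z hz
        by_cases h7 : z ∈ U
        · exact Or.inl h7
        · exact Or.inr (Finset.mem_sdiff.2 ⟨Finset.mem_compl.2 h7, hz⟩)
      by_cases h7 : s e ∈ X
      · have h8 : t e ∉ X := fun h => he.2 (iff_of_true h7 h)
        rcases h6 _ h8 with h9 | h9
        · exact Or.inl ⟨he.1, Or.inr ⟨h7, h9⟩⟩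
        · exact Or.inr ⟨he.1, Or.inl ⟨h7, h9⟩⟩
      · have h8 : t e ∈ X := by
          by_contra h
          exact he.2 (iff_of_false h7 h)
        rcases h6 _ h7 with h9 | h9
        · exact Or.inl ⟨he.1, Or.inl ⟨h9, h8⟩⟩
        · exact Or.inr ⟨he.1, Or.inr ⟨h9, h8⟩⟩
    have h6 := (Finset.card_le_card h5).trans (Finset.card_union_le _ _)
    omega
  by_cases hone : ∃ v ∈ X, 2 ≤ (btw s t F U {v}).card
  · obtain ⟨v, hv, hv2⟩ := hone
    refine ⟨{v}, v, ∅, Finset.mem_singleton_self v, ?_, Finset.empty_subset _, bdS_empty s t, ?_, hv2⟩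
    · rw [Finset.disjoint_singleton_right]
      exact hXU v hv
    · intro b hb
      rw [Finset.mem_singleton] at hb
      rw [hb]
      exact Conn.refl _ _ _ _
  · push Not at hone
    obtain ⟨e1, he1, e2, he2, hne⟩ := Finset.one_lt_card.1 (by omega : 1 < (btw s t F U X).card)
    have hend : ∀ e ∈ btw s t F U X, ∃ x ∈ X, e ∈ btw s t F U {x} := by
      intro e he
      rw [mem_btw] at he
      rcases he.2 with ⟨h, h'⟩ | ⟨h, h'⟩
      · exact ⟨t e, h', mem_btw.2 ⟨he.1, Or.inl ⟨h, Finset.mem_singleton_self _⟩⟩⟩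
      · exact ⟨s e, h, mem_btw.2 ⟨he.1, Or.inr ⟨Finset.mem_singleton_self _, h'⟩⟩⟩
    obtain ⟨x1, hx1, hx1e⟩ := hend e1 he1
    obtain ⟨x2, hx2, hx2e⟩ := hend e2 he2
    -- 2-edge-connectivity inside X
    have h2 : ∀ K : Finset V, (K ∩ X).Nonempty → (X \ K).Nonempty →
        2 ≤ (inn s t F X ∩ dl s t K).card := by
      intro K hK1 hK2
      have hmin' : ∀ Y : Finset V, Y.Nonempty → Y ⊆ X → (X \ Y).Nonempty →
          2 ≤ (btw s t F Y (W \ Y)).card := by
        intro Y hY hYX hXY
        by_contra hcon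
        have h4 := hmin Y (by
          rw [Finset.mem_filter, Finset.mem_powerset]
          exact ⟨hYX.trans hXW, hY, by omega⟩)
        have h5 : Y.card < X.card := by
          refine Finset.card_lt_card (Finset.ssubset_iff_subset_ne.2 ⟨hYX, ?_⟩)
          rintro rfl
          simp at hXY
        omega
      have a1 := hmin' (X ∩ K) (by rwa [Finset.inter_comm]) Finset.inter_subset_left (by
        obtain ⟨z, hz⟩ := hK2
        rw [Finset.mem_sdiff] at hz
        exact ⟨z, Finset.mem_sdiff.2 ⟨hz.1, fun h => hz.2 (Finset.mem_inter.1 h).2⟩⟩)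
      have a2 := hmin' (X \ K) hK2 Finset.sdiff_subset (by
        obtain ⟨z, hz⟩ := hK1
        rw [Finset.mem_inter] at hz
        exact ⟨z, Finset.mem_sdiff.2 ⟨hz.2, fun h => (Finset.mem_sdiff.1 h).2 hz.1⟩⟩)
      have b1 : btw s t F (X ∩ K) (W \ (X ∩ K)) ⊆
          (inn s t F X ∩ dl s t K) ∪ btw s t F (X ∩ K) (W \ X) := by
        intro e he
        rw [mem_btw] at he
        rw [Finset.mem_union, Finset.mem_inter, mem_inn, mem_dl, mem_btw]
        simp only [Finset.mem_inter, Finset.mem_sdiff] at he ⊢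
        tauto
      have b2 : btw s t F (X \ K) (W \ (X \ K)) ⊆
          (inn s t F X ∩ dl s t K) ∪ btw s t F (X \ K) (W \ X) := by
        intro e he
        rw [mem_btw] at he
        rw [Finset.mem_union, Finset.mem_inter, mem_inn, mem_dl, mem_btw]
        simp only [Finset.mem_sdiff] at he ⊢
        tauto
      have b3 : (btw s t F (X ∩ K) (W \ X)).card + (btw s t F (X \ K) (W \ X)).card ≤
          (btw s t F X (W \ X)).card := by
        rw [← Finset.card_union_of_disjoint]
        · refine Finset.card_le_card ?_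
          intro e he
          rw [Finset.mem_union, mem_btw, mem_btw] at he
          rw [mem_btw]
          simp only [Finset.mem_inter, Finset.mem_sdiff] at he ⊢
          tauto
        · rw [Finset.disjoint_left]
          intro e he he'
          rw [mem_btw] at he he'
          simp only [Finset.mem_inter, Finset.mem_sdiff] at he he'
          tauto
      have c1 := (Finset.card_le_card b1).trans (Finset.card_union_le _ _)
      have c2 := (Finset.card_le_card b2).trans (Finset.card_union_le _ _)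
      omega
    obtain ⟨Z, hZ, hZ0, hZc⟩ := even_through s t (inn s t F X) X
      (fun e he => (mem_inn.1 he).2) h2 x1 x2 hx1 hx2
    set B := comp s t Z x1 with hB
    have hBX : B ⊆ X := by
      intro v hv
      by_contra hvX
      obtain ⟨c, hc, hcX⟩ := (mem_comp'.1 hv).cut X hx1 hvX
      have := (mem_inn.1 (hZ hc)).2
      exact (mem_dl.1 hcX) (iff_of_true this.1 this.2)
    refine ⟨B, x1, Z.filter (fun e => s e ∈ B), self_mem_comp _ _ _ _,
      Finset.disjoint_of_subset_right hBX hdisj, ?_, ?_, ?_, ?_⟩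
    · intro e he
      rw [Finset.mem_filter] at he
      rw [mem_inn]
      exact ⟨(mem_inn.1 (hZ he.1)).1, he.2, (comp_edge he.1).1 he.2⟩
    · refine bdS_filter_zero s t Z B (fun e he => comp_edge he) ?_
      intro v _
      rw [hZ0]; rfl
    · intro b hb
      exact (comp_conn s t Z x1 b hb).symm
    · have hx2B : x2 ∈ B := mem_comp'.2 hZc
      have hx1B : x1 ∈ B := self_mem_comp _ _ _ _
      have hmono : ∀ x ∈ B, ∀ e ∈ btw s t F U {x}, e ∈ btw s t F U B := by
        intro x hx e he
        rw [mem_btw] at he ⊢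
        simp only [Finset.mem_singleton] at he
        rcases he.2 with ⟨h, h'⟩ | ⟨h, h'⟩
        · exact ⟨he.1, Or.inl ⟨h, by rw [h']; exact hx⟩⟩
        · exact ⟨he.1, Or.inr ⟨by rw [h]; exact hx, h'⟩⟩
      have h4 : ({e1, e2} : Finset E) ⊆ btw s t F U B := by
        intro e he
        rw [Finset.mem_insert, Finset.mem_singleton] at he
        rcases he with rfl | rfl
        · exact hmono x1 hx1B _ hx1e
        · exact hmono x2 hx2B _ hx2e
      have h5 := Finset.card_le_card h4
      rwa [Finset.card_pair hne] at h5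

theorem grow (s t : E → V) (F : Finset E)
    (h3 : ∀ X : Finset V, (F ∩ dl s t X).Nonempty → 3 ≤ (F ∩ dl s t X).card) :
    ∀ (n : ℕ) (U : Finset V), Uᶜ.card ≤ n → (∀ v, ∃ u ∈ U, Conn s t F v u) →
      (∀ u ∈ U, ∀ v ∈ U, Conn s t F u v → Conn s t (inn s t F U) u v) →
      QQ s t F U → QQ s t F Finset.univ := by
  classical
  intro n
  induction n with
  | zero =>
    intro U hU _ _ hQ
    have h1 : Uᶜ = ∅ := Finset.card_eq_zero.1 (Nat.le_zero.1 hU)
    have h2 : U = Finset.univ := by
      rw [← Finset.compl_empty, ← h1, compl_compl]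
    rwa [← h2]
  | succ n ih =>
    intro U hU hmeet hUc hQ
    rcases Uᶜ.eq_empty_or_nonempty with h1 | h1
    · have h2 : U = Finset.univ := by
        rw [← Finset.compl_empty, ← h1, compl_compl]
      rwa [← h2]
    · obtain ⟨B, b0, Z', hb0, hd, hZ', hZ'0, hZ'c, h2⟩ := exists_B s t F U h3 hmeet h1
      have hQ' := QQ_step s t F U B hd b0 Z' hZ' hZ'0 hZ'c h2 hUc hQ
      refine ih (U ∪ B) ?_ ?_ ?_ hQ'
      · have h3 : (U ∪ B)ᶜ ⊂ Uᶜ := by
          refine Finset.ssubset_iff_subset_ne.2 ⟨?_, ?_⟩
          · exact Finset.compl_subset_compl.2 Finset.subset_union_left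
          · intro h
            have h4 : b0 ∈ Uᶜ := Finset.mem_compl.2 (fun h' => Finset.disjoint_left.1 hd h' hb0)
            rw [← h, Finset.mem_compl] at h4
            exact h4 (Finset.mem_union_right _ hb0)
        have h4 := Finset.card_lt_card h3
        omega
      · intro v
        obtain ⟨u, hu, huv⟩ := hmeet v
        exact ⟨u, Finset.mem_union_left _ hu, huv⟩
      · have hsub1 : inn s t F U ⊆ inn s t F (U ∪ B) := by
          intro e he
          rw [mem_inn] at he ⊢
          exact ⟨he.1, Finset.mem_union_left _ he.2.1, Finset.mem_union_left _ he.2.2⟩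
        have hsub2 : inn s t F B ⊆ inn s t F (U ∪ B) := by
          intro e he
          rw [mem_inn] at he ⊢
          exact ⟨he.1, Finset.mem_union_right _ he.2.1, Finset.mem_union_right _ he.2.2⟩
        obtain ⟨e1, he1⟩ : (btw s t F U B).Nonempty := Finset.card_pos.1 (by omega)
        obtain ⟨u1, b1, hu1, hb1, hub1⟩ : ∃ u1 b1, u1 ∈ U ∧ b1 ∈ B ∧
            Conn s t (inn s t F (U ∪ B)) u1 b1 := by
          rw [mem_btw] at he1
          have h5 : e1 ∈ inn s t F (U ∪ B) := by
            rw [mem_inn, Finset.mem_union, Finset.mem_union]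
            tauto
          rcases he1.2 with ⟨h, h'⟩ | ⟨h, h'⟩
          · exact ⟨s e1, t e1, h, h', Conn.edge h5⟩
          · exact ⟨t e1, s e1, h', h, (Conn.edge h5).symm⟩
        have hrep : ∀ w ∈ U ∪ B, ∃ r ∈ U, Conn s t (inn s t F (U ∪ B)) w r := by
          intro w hw
          rcases Finset.mem_union.1 hw with h | h
          · exact ⟨w, h, Conn.refl _ _ _ _⟩
          · refine ⟨u1, hu1, ?_⟩
            have h6 := ((hZ'c w h).trans (hZ'c b1 hb1).symm).mono (hZ'.trans hsub2)
            exact h6.trans hub1.symm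
        intro u hu v hv huv
        obtain ⟨r, hr, hur⟩ := hrep u hu
        obtain ⟨r', hr', hvr'⟩ := hrep v hv
        have hsubF : inn s t F (U ∪ B) ⊆ F := Finset.filter_subset _ _
        have h7 : Conn s t F r r' :=
          ((hur.mono hsubF).symm.trans huv).trans (hvr'.mono hsubF)
        have h8 := (hUc r hr r' hr' h7).mono hsub1
        exact (hur.trans h8).trans hvr'.symm

def connSetoid (s t : E → V) (F : Finset E) : Setoid V where
  r := Conn s t F
  iseqv := ⟨fun u => Conn.refl s t F u, fun h => h.symm, fun h h' => h.trans h'⟩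

/-- The case where all cuts have at least three edges. -/
theorem six3 (s t : E → V) (F : Finset E)
    (h3 : ∀ X : Finset V, (F ∩ dl s t X).Nonempty → 3 ≤ (F ∩ dl s t X).card) :
    ∃ Z ⊆ F, bdS s t Z = 0 ∧ ∃ ψ : E → ZMod 3, (∀ e ∉ F, ψ e = 0) ∧ dv s t ψ = 0 ∧
      ∀ e ∈ F, e ∉ Z → ψ e ≠ 0 := by
  classical
  set rep : V → V := fun v => (Quotient.mk (connSetoid s t F) v).out with hrep
  have hrep1 : ∀ v, Conn s t F v (rep v) := by
    intro v
    have : (Quotient.mk (connSetoid s t F) (rep v)) = Quotient.mk (connSetoid s t F) v :=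
      Quotient.out_eq _
    exact (Quotient.exact this).symm
  have hrep2 : ∀ u v, Conn s t F u v → rep u = rep v := by
    intro u v h
    have : (Quotient.mk (connSetoid s t F) u) = Quotient.mk (connSetoid s t F) v :=
      Quotient.sound h
    simp only [hrep]
    rw [this]
  set U : Finset V := Finset.univ.image rep with hU
  have hUeq : ∀ u ∈ U, ∀ v ∈ U, Conn s t F u v → u = v := by
    intro u hu v hv h
    rw [hU, Finset.mem_image] at hu hv
    obtain ⟨a, _, rfl⟩ := hu
    obtain ⟨b, _, rfl⟩ := hv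
    exact hrep2 a b (((hrep1 a).trans h).trans (hrep1 b).symm)
  obtain ⟨Z, hZ, hZ0, hZφ⟩ := grow s t F h3 _ U le_rfl
    (fun v => ⟨rep v, by rw [hU]; exact Finset.mem_image_of_mem _ (Finset.mem_univ _), hrep1 v⟩)
    (fun u hu v hv h => by rw [hUeq u hu v hv h]; exact Conn.refl _ _ _ _)
    (by
      refine ⟨∅, Finset.empty_subset _, bdS_empty s t, ?_⟩
      intro φ
      refine ⟨fun e => if e ∈ inn s t F U ∧ φ e = 0 then 1 else 0, ?_, ?_, ?_⟩
      · intro e he
        simp only
        rw [if_neg (fun h => he h.1)]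
      · unfold dv
        refine Finset.sum_eq_zero (fun e _ => ?_)
        simp only
        split_ifs with h
        · have h1 := mem_inn.1 h.1
          have h2 : s e = t e := hUeq _ h1.2.1 _ h1.2.2 (Conn.edge h1.1)
          rw [bo, h2, sub_self, smul_zero]
        · rw [zero_smul]
      · intro e he _
        simp only
        by_cases h : φ e = 0
        · rw [if_pos ⟨he, h⟩, h]; decide
        · rw [if_neg (fun h' => h h'.2), add_zero]; exact h)
  have hinn : inn s t F Finset.univ = F := by
    ext e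
    rw [mem_inn]
    simp
  rw [hinn] at hZ hZφ
  obtain ⟨ψ, h4, h5, h6⟩ := hZφ 0
  refine ⟨Z, hZ, hZ0, ψ, h4, h5, ?_⟩
  intro e he heZ
  have := h6 e he heZ
  rwa [Pi.zero_apply, zero_add] at this

end Pool.Agent.H46.Faith
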