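import Mathlib
import Pool.Agent.H46.Faith.Chain

set_option autoImplicit false

/-! Seymour's six-flow theorem for bridgeless graphs. -/

namespace Pool.Agent.H46.Faith

open Module

set_option linter.unusedSectionVars false

variable {V E : Type} [Fintype V] [DecidableEq V] [Fintype E] [DecidableEq E]

lemma ctr_single {R : Type} [AddMonoidWithOne R] (a b : V) (hab : a ≠ b) (u : V) :
    (∀ v, v ≠ a → v ≠ b → (Pi.single (ctr a b u) 1 : V → R) v = (Pi.single u 1 : V → R) v) ∧
    (Pi.single (ctr a b u) 1 : V → R) a = (Pi.single u 1 : V → R) a + (Pi.single u 1 : V → R) b := by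
  unfold ctr
  by_cases hu : u = b
  · rw [if_pos hu, hu]
    refine ⟨?_, ?_⟩
    · intro v h1 h2
      rw [Pi.single_eq_of_ne h1, Pi.single_eq_of_ne h2]
    · rw [Pi.single_eq_same, Pi.single_eq_of_ne hab, Pi.single_eq_same, zero_add]
  · rw [if_neg hu]
    refine ⟨fun _ _ _ => rfl, ?_⟩
    rw [Pi.single_eq_of_ne (M := fun _ => R) (Ne.symm hu) (1 : R), add_zero]

lemma ctr_bdS (s t : E → V) (a b : V) (hab : a ≠ b) (H : Finset E)
    (h : bdS (fun e => ctr a b (s e)) (fun e => ctr a b (t e)) H = 0) :
    bdS s t H = 0 ∨ bdS s t H = pt a + pt b := by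
  set y := bdS s t H with hy
  have hval : ∀ v, v ≠ a → v ≠ b → y v = 0 := by
    intro v h1 h2
    have h3 := congrFun h v
    rw [Pi.zero_apply] at h3
    rw [← h3, hy]
    unfold bdS
    rw [Finset.sum_apply, Finset.sum_apply]
    refine Finset.sum_congr rfl (fun e _ => ?_)
    have h5 := (ctr_single (R := ZMod 2) a b hab (s e)).1 v h1 h2
    have h6 := (ctr_single (R := ZMod 2) a b hab (t e)).1 v h1 h2
    unfold bd
    rw [Pi.add_apply, Pi.add_apply]
    exact (congrArg₂ (· + ·) h5 h6).symm
  have hval2 : y a + y b = 0 := by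
    have h3 := congrFun h a
    rw [Pi.zero_apply] at h3
    rw [← h3, hy]
    unfold bdS
    rw [Finset.sum_apply, Finset.sum_apply, Finset.sum_apply, ← Finset.sum_add_distrib]
    refine Finset.sum_congr rfl (fun e _ => ?_)
    have h5 := (ctr_single (R := ZMod 2) a b hab (s e)).2
    have h6 := (ctr_single (R := ZMod 2) a b hab (t e)).2
    unfold bd
    rw [Pi.add_apply, Pi.add_apply, Pi.add_apply, h5, h6]
    abel
  have h2 : ∀ z : ZMod 2, z = 0 ∨ z = 1 := by decide
  have heq : y b = y a := by
    have h5 := eq_neg_of_add_eq_zero_left hval2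
    rw [h5, ZMod.neg_eq_self_mod_two]
  rcases h2 (y a) with h | h
  · left
    funext v
    by_cases h1 : v = a
    · rw [h1, h]; rfl
    · by_cases h3 : v = b
      · rw [h3, heq, h]; rfl
      · rw [hval v h1 h3]; rfl
  · right
    funext v
    rw [Pi.add_apply]
    by_cases h1 : v = a
    · rw [h1, h, pt_ne hab, add_zero, pt, Pi.single_eq_same]
    · by_cases h3 : v = b
      · rw [h3, heq, h, pt_ne (Ne.symm hab), zero_add, pt, Pi.single_eq_same]
      · rw [hval v h1 h3, pt_ne h1, pt_ne h3, add_zero]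

lemma ctr_dv (s t : E → V) (a b : V) (hab : a ≠ b) (ψ : E → ZMod 3)
    (h : dv (fun e => ctr a b (s e)) (fun e => ctr a b (t e)) ψ = 0) :
    ∃ r : ZMod 3, dv s t ψ = r • (Pi.single a 1 - Pi.single b 1) := by
  set y := dv s t ψ with hy
  have hval : ∀ v, v ≠ a → v ≠ b → y v = 0 := by
    intro v h1 h2
    have h3 := congrFun h v
    rw [Pi.zero_apply] at h3
    rw [← h3, hy]
    unfold dv
    rw [Finset.sum_apply, Finset.sum_apply]
    refine Finset.sum_congr rfl (fun e _ => ?_)
    have h5 := (ctr_single (R := ZMod 3) a b hab (s e)).1 v h1 h2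
    have h6 := (ctr_single (R := ZMod 3) a b hab (t e)).1 v h1 h2
    rw [Pi.smul_apply, Pi.smul_apply]
    unfold bo
    rw [Pi.sub_apply, Pi.sub_apply]
    rw [h5, h6]
  have hval2 : y a + y b = 0 := by
    have h3 := congrFun h a
    rw [Pi.zero_apply] at h3
    rw [← h3, hy]
    unfold dv
    rw [Finset.sum_apply, Finset.sum_apply, Finset.sum_apply, ← Finset.sum_add_distrib]
    refine Finset.sum_congr rfl (fun e _ => ?_)
    have h5 := (ctr_single (R := ZMod 3) a b hab (s e)).2
    have h6 := (ctr_single (R := ZMod 3) a b hab (t e)).2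
    rw [Pi.smul_apply, Pi.smul_apply, Pi.smul_apply, ← smul_add]
    unfold bo
    rw [Pi.sub_apply, Pi.sub_apply, Pi.sub_apply, h5, h6]
    congr 1
    abel
  refine ⟨y a, ?_⟩
  funext v
  rw [Pi.smul_apply, Pi.sub_apply, smul_eq_mul]
  by_cases h1 : v = a
  · rw [h1, Pi.single_eq_same, Pi.single_eq_of_ne hab, sub_zero, mul_one]
  · by_cases h3 : v = b
    · rw [h3, Pi.single_eq_same, Pi.single_eq_of_ne (Ne.symm hab), zero_sub, mul_neg, mul_one]
      exact eq_neg_of_add_eq_zero_right hval2
    · rw [hval v h1 h3, Pi.single_eq_of_ne h1, Pi.single_eq_of_ne h3, sub_zero, mul_zero]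

/-- Seymour's theorem. -/
theorem six_flow : ∀ (n : ℕ) (s t : E → V) (F : Finset E), F.card ≤ n →
    (∀ X : Finset V, (F ∩ dl s t X).card ≠ 1) →
    ∃ Z ⊆ F, bdS s t Z = 0 ∧ ∃ ψ : E → ZMod 3, (∀ e ∉ F, ψ e = 0) ∧ dv s t ψ = 0 ∧
      ∀ e ∈ F, e ∉ Z → ψ e ≠ 0 := by
  classical
  intro n
  induction n with
  | zero =>
    intro s t F hF _
    have h1 : F = ∅ := Finset.card_eq_zero.1 (Nat.le_zero.1 hF)
    exact ⟨∅, Finset.empty_subset _, bdS_empty s t, 0, fun _ _ => rfl, dv_zero s t,
      fun e he => by rw [h1] at he; simp at he⟩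
  | succ n ih =>
    intro s t F hF hbr
    by_cases htwo : ∃ X : Finset V, (F ∩ dl s t X).card = 2
    swap
    · push Not at htwo
      refine six3 s t F (fun X hX => ?_)
      have h1 := hbr X
      have h2 := htwo X
      have h3 := Finset.card_pos.2 hX
      omega
    obtain ⟨X, hX⟩ := htwo
    obtain ⟨g, g', hgg', hXeq⟩ := Finset.card_eq_two.1 hX
    have hgX : g ∈ F ∩ dl s t X := by rw [hXeq]; simp
    have hg'X : g' ∈ F ∩ dl s t X := by rw [hXeq]; simp
    rw [Finset.mem_inter] at hgX hg'X
    have hab : s g ≠ t g := by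
      intro h
      have := mem_dl.1 hgX.2
      rw [h] at this
      exact this Iff.rfl
    set a := s g with ha
    set b := t g with hb
    set s' : E → V := fun e => ctr a b (s e) with hs'
    set t' : E → V := fun e => ctr a b (t e) with ht'
    have hpre : ∀ X' : Finset V, dl s' t' X' =
        dl s t (Finset.univ.filter (fun v => ctr a b v ∈ X')) := by
      intro X'
      ext e
      rw [mem_dl, mem_dl]
      simp [hs', ht']
    have hca : ctr a b a = a := by simp [ctr, hab]
    have hcb : ctr a b b = a := by simp [ctr]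
    obtain ⟨Z', hZ', hZ'0, ψ', hψ'1, hψ'2, hψ'3⟩ := ih s' t' (F.erase g)
      (by
        have := Finset.card_erase_lt_of_mem hgX.1
        omega)
      (by
        intro X'
        rw [hpre]
        have h1 : F.erase g ∩ dl s t (Finset.univ.filter (fun v => ctr a b v ∈ X')) =
            F ∩ dl s t (Finset.univ.filter (fun v => ctr a b v ∈ X')) := by
          ext e
          rw [Finset.mem_inter, Finset.mem_inter, Finset.mem_erase]
          constructor
          · rintro ⟨⟨_, h⟩, h'⟩; exact ⟨h, h'⟩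
          · rintro ⟨h, h'⟩
            refine ⟨⟨?_, h⟩, h'⟩
            rintro rfl
            rw [mem_dl] at h'
            apply h'
            simp only [Finset.mem_filter, Finset.mem_univ, true_and]
            rw [← ha, ← hb, hca, hcb]
        rw [h1]
        exact hbr _)
    -- lift the even set
    obtain ⟨Z, hZ, hZ0, hZe⟩ : ∃ Z ⊆ F, bdS s t Z = 0 ∧ ∀ e, e ≠ g → (e ∈ Z ↔ e ∈ Z') := by
      have hgZ' : g ∉ Z' := fun h => (Finset.mem_erase.1 (hZ' h)).1 rfl
      rcases ctr_bdS s t a b hab Z' hZ'0 with h | h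
      · exact ⟨Z', hZ'.trans (Finset.erase_subset _ _), h, fun _ _ => Iff.rfl⟩
      · refine ⟨insert g Z', ?_, ?_, ?_⟩
        · intro e he
          rcases Finset.mem_insert.1 he with h' | h'
          · rw [h']; exact hgX.1
          · exact Finset.mem_of_mem_erase (hZ' h')
        · rw [bdS_insert s t Z' g hgZ', h]
          exact dbl _
        · intro e he
          rw [Finset.mem_insert]
          exact ⟨fun h' => h'.resolve_left he, Or.inr⟩
    -- lift the flow
    obtain ⟨r, hr⟩ := ctr_dv s t a b hab ψ' hψ'2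
    set ψ : E → ZMod 3 := ψ' + Pi.single g (-r) with hψ
    have hψ0 : dv s t ψ = 0 := by
      rw [hψ, dv_add, hr, dv_single, bo, ← ha, ← hb, ← add_smul, add_neg_cancel, zero_smul]
    have hψe : ∀ e, e ≠ g → ψ e = ψ' e := by
      intro e he
      rw [hψ, Pi.add_apply, Pi.single_eq_of_ne he, add_zero]
    have hψF : ∀ e ∉ F, ψ e = 0 := by
      intro e he
      have h1 : e ≠ g := by rintro rfl; exact he hgX.1
      rw [hψe e h1]
      exact hψ'1 e (fun h => he (Finset.mem_of_mem_erase h))
    refine ⟨Z, hZ, hZ0, ψ, hψF, hψ0, ?_⟩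
    have hother : ∀ e ∈ F, e ≠ g → e ∉ Z → ψ e ≠ 0 := by
      intro e he hne heZ
      rw [hψe e hne]
      exact hψ'3 e (Finset.mem_erase.2 ⟨hne, he⟩) (fun h => heZ ((hZe e hne).2 h))
    intro e he heZ
    by_cases hne : e = g
    swap
    · exact hother e he hne heZ
    subst hne
    -- g' is not in Z
    have hg'Z : g' ∉ Z := by
      intro h
      have h1 := cf_bdS s t X Z
      rw [hZ0, map_zero] at h1
      have h2 : Z ∩ dl s t X = {g'} := by
        ext f
        rw [Finset.mem_inter, Finset.mem_singleton]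
        constructor
        · rintro ⟨h3, h4⟩
          have h5 : f ∈ F ∩ dl s t X := Finset.mem_inter.2 ⟨hZ h3, h4⟩
          rw [hXeq, Finset.mem_insert, Finset.mem_singleton] at h5
          rcases h5 with h6 | h6
          · exact absurd (h6 ▸ h3) heZ
          · exact h6
        · rintro rfl; exact ⟨h, hg'X.2⟩
      rw [h2] at h1
      simp at h1
    have h4 := hother g' hg'X.1 (Ne.symm hgg') hg'Z
    -- flow across the cut
    have h5 := sum_dv s t X ψ
    rw [hψ0] at h5
    simp only [Pi.zero_apply, Finset.sum_const_zero] at h5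
    have h6 : ∀ f, ψ f * ((if s f ∈ X then 1 else 0) - (if t f ∈ X then 1 else 0)) =
        if f ∈ F ∩ dl s t X then
          ψ f * ((if s f ∈ X then 1 else 0) - (if t f ∈ X then 1 else 0)) else 0 := by
      intro f
      by_cases h : f ∈ F ∩ dl s t X
      · rw [if_pos h]
      · rw [if_neg h]
        by_cases hf : f ∈ F
        · have h7 : f ∉ dl s t X := fun h' => h (Finset.mem_inter.2 ⟨hf, h'⟩)
          rw [mem_dl, not_not] at h7
          by_cases h8 : s f ∈ X
          · rw [if_pos h8, if_pos (h7.1 h8), sub_self, mul_zero]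
          · rw [if_neg h8, if_neg (fun h9 => h8 (h7.2 h9)), sub_self, mul_zero]
        · rw [hψF f hf, zero_mul]
    rw [Finset.sum_congr rfl (fun f _ => h6 f), ← Finset.sum_filter, Finset.filter_mem_eq_inter,
      Finset.univ_inter, hXeq, Finset.sum_pair hgg'] at h5
    intro h7
    rw [h7, zero_mul, zero_add] at h5
    have h8 : ((if s g' ∈ X then 1 else 0) - (if t g' ∈ X then 1 else 0) : ZMod 3) ≠ 0 := by
      have h9 := mem_dl.1 hg'X.2
      by_cases h10 : s g' ∈ X
      · rw [if_pos h10, if_neg (fun h => h9 (iff_of_true h10 h))]; decide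
      · rw [if_neg h10]
        by_cases h11 : t g' ∈ X
        · rw [if_pos h11]; decide
        · exact absurd (iff_of_false h10 h11) h9
    have h9 := mul_ne_zero h4 h8
    exact h9 h5.symm

end Pool.Agent.H46.Faith
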