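import Mathlib
import Pool.Agent.H46.Faith.SixFlow
import Pool.Agent.H46.Faith.Main

set_option autoImplicit false

/-! Orientations with prescribed in-degrees; from flows modulo three to pairs of even sets. -/

namespace Pool.Agent.H46.Faith

open Module

set_option linter.unusedSectionVars false

variable {V E : Type} [Fintype V] [DecidableEq V] [Fintype E] [DecidableEq E]

/-- out-degree -/
def od (s : E → V) (S : Finset E) (v : V) : ℕ := (S.filter (fun e => s e = v)).card

/-- Choosing a subset with prescribed net degrees. -/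
theorem orient (s t : E → V) (S : Finset E) (d : ℕ) (hd : 1 ≤ d)
    (hdiv : ∀ v, d ∣ od s S v + (d - 1) * od t S v) :
    ∃ R ⊆ S, ∀ v, d * (od s R v + od t (S \ R) v) = od s S v + (d - 1) * od t S v := by
  classical
  choose q hq using hdiv
  -- slots
  have hcount : ∀ (A : Finset E) (X : Finset V) (r : E → V),
      ∑ v ∈ X, od r A v = (A.filter (fun e => r e ∈ X)).card := by
    intro A X r
    unfold od
    rw [Finset.card_eq_sum_card_fiberwise (f := r) (t := X)
      (s := A.filter (fun e => r e ∈ X)) (fun e he => (Finset.mem_filter.1 he).2)]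
    refine Finset.sum_congr rfl (fun v hv => ?_)
    congr 1
    ext e
    simp only [Finset.mem_filter]
    constructor
    · rintro ⟨h1, h2⟩; exact ⟨⟨h1, by rw [h2]; exact hv⟩, h2⟩
    · rintro ⟨⟨h1, _⟩, h2⟩; exact ⟨h1, h2⟩
  let T : {e // e ∈ S} → Finset (Σ v : V, Fin (q v)) :=
    fun e => Finset.univ.filter (fun p => p.1 = s e.1 ∨ p.1 = t e.1)
  have hall : ∀ J : Finset {e // e ∈ S}, J.card ≤ (J.biUnion T).card := by
    intro J
    set X : Finset V := J.image (fun e => s e.1) ∪ J.image (fun e => t e.1) with hX
    have h1 : J.biUnion T = X.sigma (fun v => (Finset.univ : Finset (Fin (q v)))) := by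
      ext p
      simp only [T, Finset.mem_biUnion, Finset.mem_filter, Finset.mem_univ, true_and,
        Finset.mem_sigma, and_true, hX, Finset.mem_union, Finset.mem_image]
      constructor
      · rintro ⟨e, he, h | h⟩
        · exact Or.inl ⟨e, he, h.symm⟩
        · exact Or.inr ⟨e, he, h.symm⟩
      · rintro (⟨e, he, h⟩ | ⟨e, he, h⟩)
        · exact ⟨e, he, Or.inl h.symm⟩
        · exact ⟨e, he, Or.inr h.symm⟩
    rw [h1, Finset.card_sigma]
    simp only [Finset.card_univ, Fintype.card_fin]
    have h2 : d * J.card ≤ d * ∑ v ∈ X, q v := by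
      rw [Finset.mul_sum, Finset.sum_congr rfl (fun v _ => (hq v).symm), Finset.sum_add_distrib,
        ← Finset.mul_sum, hcount, hcount]
      have h3 : J.card ≤ (S.filter (fun e => s e ∈ X)).card := by
        rw [← Finset.card_image_of_injective J Subtype.val_injective]
        refine Finset.card_le_card ?_
        intro e he
        rw [Finset.mem_image] at he
        obtain ⟨e', he', rfl⟩ := he
        rw [Finset.mem_filter]
        refine ⟨e'.2, ?_⟩
        rw [hX]
        exact Finset.mem_union_left _ (Finset.mem_image_of_mem (fun e : {e // e ∈ S} => s e.1) he')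
      have h4 : J.card ≤ (S.filter (fun e => t e ∈ X)).card := by
        rw [← Finset.card_image_of_injective J Subtype.val_injective]
        refine Finset.card_le_card ?_
        intro e he
        rw [Finset.mem_image] at he
        obtain ⟨e', he', rfl⟩ := he
        rw [Finset.mem_filter]
        refine ⟨e'.2, ?_⟩
        rw [hX]
        exact Finset.mem_union_right _ (Finset.mem_image_of_mem (fun e : {e // e ∈ S} => t e.1) he')
      obtain ⟨d', rfl⟩ : ∃ d', d = d' + 1 := ⟨d - 1, by omega⟩
      rw [Nat.add_sub_cancel]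
      have h5 := Nat.mul_le_mul_left d' h4
      rw [add_mul, one_mul]
      omega
    exact Nat.le_of_mul_le_mul_left h2 (by omega)
  obtain ⟨f, hfinj, hf⟩ := (Finset.all_card_le_biUnion_card_iff_exists_injective T).1 hall
  have hf' : ∀ e : {e // e ∈ S}, (f e).1 = s e.1 ∨ (f e).1 = t e.1 := by
    intro e
    have := hf e
    simp only [T, Finset.mem_filter, Finset.mem_univ, true_and] at this
    exact this
  -- the head of an edge
  set as : E → V := fun e => if h : e ∈ S then (f ⟨e, h⟩).1 else s e with has
  have has1 : ∀ e, as e = s e ∨ as e = t e := by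
    intro e
    simp only [has]
    split_ifs with h
    · exact hf' ⟨e, h⟩
    · exact Or.inl rfl
  set R := S.filter (fun e => as e = s e) with hR
  have htok : ∀ v, od as S v = od s R v + od t (S \ R) v := by
    intro v
    unfold od
    rw [← Finset.card_union_of_disjoint]
    · congr 1
      ext e
      simp only [Finset.mem_filter, Finset.mem_union, Finset.mem_sdiff, hR]
      constructor
      · rintro ⟨h1, h2⟩
        by_cases h3 : as e = s e
        · exact Or.inl ⟨⟨h1, h3⟩, by rw [← h3]; exact h2⟩
        · refine Or.inr ⟨⟨h1, fun h => h3 h.2⟩, ?_⟩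
          rw [← (has1 e).resolve_left h3]; exact h2
      · rintro (⟨⟨h1, h2⟩, h3⟩ | ⟨⟨h1, h2⟩, h3⟩)
        · exact ⟨h1, by rw [h2]; exact h3⟩
        · refine ⟨h1, ?_⟩
          rw [(has1 e).resolve_left (fun h => h2 ⟨h1, h⟩)]; exact h3
    · rw [Finset.disjoint_left]
      intro e he he'
      rw [Finset.mem_filter] at he he'
      exact (Finset.mem_sdiff.1 he'.1).2 he.1
  have hle : ∀ v ∈ (Finset.univ : Finset V), od as S v ≤ q v := by
    intro v _
    unfold od
    have h1 : (S.filter (fun e => as e = v)) ⊆
        ((Finset.univ : Finset {e // e ∈ S}).filter (fun e => (f e).1 = v)).image Subtype.val := by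
      intro e he
      rw [Finset.mem_filter] at he
      rw [Finset.mem_image]
      refine ⟨⟨e, he.1⟩, ?_, rfl⟩
      rw [Finset.mem_filter]
      refine ⟨Finset.mem_univ _, ?_⟩
      have := he.2
      simp only [has, dif_pos he.1] at this
      exact this
    have h2 : ((Finset.univ : Finset {e // e ∈ S}).filter (fun e => (f e).1 = v)).card ≤
        ((Finset.univ : Finset (Fin (q v))).image (fun i => (⟨v, i⟩ : Σ v : V, Fin (q v)))).card := by
      refine Finset.card_le_card_of_injOn f ?_ (fun a _ b _ h => hfinj h)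
      intro e he
      rw [Finset.mem_coe, Finset.mem_filter] at he
      rw [Finset.mem_coe, Finset.mem_image]
      obtain ⟨_, he⟩ := he
      generalize hp : f e = p at he
      obtain ⟨v', i⟩ := p
      simp only at he
      subst he
      exact ⟨i, Finset.mem_univ _, rfl⟩
    calc (S.filter (fun e => as e = v)).card
        ≤ (((Finset.univ : Finset {e // e ∈ S}).filter (fun e => (f e).1 = v)).image
            Subtype.val).card := Finset.card_le_card h1
      _ ≤ ((Finset.univ : Finset {e // e ∈ S}).filter (fun e => (f e).1 = v)).card :=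
          Finset.card_image_le
      _ ≤ _ := h2
      _ ≤ (Finset.univ : Finset (Fin (q v))).card := Finset.card_image_le
      _ = q v := by rw [Finset.card_univ, Fintype.card_fin]
  have hsum1 : ∑ v, od as S v = S.card := by
    rw [hcount S Finset.univ as]
    simp
  have hsum2 : ∑ v, q v = S.card := by
    have h1 : d * ∑ v, q v = d * S.card := by
      rw [Finset.mul_sum, Finset.sum_congr rfl (fun v _ => (hq v).symm), Finset.sum_add_distrib,
        ← Finset.mul_sum, hcount, hcount]
      simp only [Finset.mem_univ, Finset.filter_true]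
      obtain ⟨d', rfl⟩ : ∃ d', d = d' + 1 := ⟨d - 1, by omega⟩
      rw [Nat.add_sub_cancel]
      ring
    exact Nat.eq_of_mul_eq_mul_left (by omega) h1
  have heq := (Finset.sum_eq_sum_iff_of_le hle).1 (hsum1.trans hsum2.symm)
  refine ⟨R, Finset.filter_subset _ _, fun v => ?_⟩
  rw [← htok, heq v (Finset.mem_univ v), hq v]

/-- sums over a set of vertices -/
lemma sum_od (A : Finset E) (X : Finset V) (r : E → V) :
    ∑ v ∈ X, od r A v = (A.filter (fun e => r e ∈ X)).card := by
  unfold od
  rw [Finset.card_eq_sum_card_fiberwise (f := r) (t := X)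
    (s := A.filter (fun e => r e ∈ X)) (fun e he => (Finset.mem_filter.1 he).2)]
  refine Finset.sum_congr rfl (fun v hv => ?_)
  congr 1
  ext e
  simp only [Finset.mem_filter]
  constructor
  · rintro ⟨h1, h2⟩; exact ⟨⟨h1, by rw [h2]; exact hv⟩, h2⟩
  · rintro ⟨⟨h1, _⟩, h2⟩; exact ⟨h1, h2⟩

lemma bdS_zero_iff (s t : E → V) (S : Finset E) :
    bdS s t S = 0 ↔ ∀ v, Even (od s S v + od t S v) := by
  constructor
  · intro h v
    have h3 := congrFun h v
    rw [bdS, bd_sum_apply, Pi.zero_apply, ZMod.natCast_eq_zero_iff_even] at h3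
    exact h3
  · intro h
    funext v
    rw [bdS, bd_sum_apply, Pi.zero_apply, ZMod.natCast_eq_zero_iff_even]
    exact h v

/-- membership in the span by cuts -/
lemma mem_sp_of_cuts (s t : E → V) (Y : Finset E) (y : V → ZMod 2)
    (h : ∀ X : Finset V, Y ∩ dl s t X = ∅ → cf X y = 0) : y ∈ sp s t Y := by
  by_contra hcon
  obtain ⟨g, hg1, hg2⟩ := Submodule.exists_le_ker_of_notMem hcon
  set f : V → ZMod 2 := fun v => g (Pi.single v 1) with hf
  set X : Finset V := Finset.univ.filter (fun v => f v = 1) with hX
  have h2 : ∀ z : ZMod 2, z = 0 ∨ z = 1 := by decide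
  have hgX : ∀ z : V → ZMod 2, g z = cf X z := by
    intro z
    rw [LinearMap.pi_apply_eq_sum_univ g z, cf_apply, hX, Finset.sum_filter]
    refine Finset.sum_congr rfl (fun v _ => ?_)
    have h3 : (fun j => if v = j then (1 : ZMod 2) else 0) = Pi.single v 1 := by
      funext j
      rw [Pi.single_apply]
      by_cases hj : v = j
      · rw [if_pos hj, if_pos hj.symm]
      · rw [if_neg hj, if_neg (fun h => hj h.symm)]
    rw [h3, smul_eq_mul]
    change z v * f v = _
    rcases h2 (f v) with h4 | h4
    · rw [h4, mul_zero, if_neg (by decide)]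
    · rw [h4, mul_one, if_pos rfl]
  apply hg1
  rw [hgX]
  apply h
  rw [Finset.eq_empty_iff_forall_notMem]
  intro e he
  rw [Finset.mem_inter] at he
  have h3 : bd s t e ∈ sp s t Y := Submodule.subset_span ⟨e, by exact_mod_cast he.1, rfl⟩
  have h4 : g (bd s t e) = 0 := hg2 h3
  rw [hgX, cf_bd, if_pos (mem_dl.1 he.2)] at h4
  exact absurd h4 (by decide)

/-- sums of out- and in-degrees over a set of vertices -/
lemma net_cut (s t : E → V) (A : Finset E) (X : Finset V) :
    ∑ v ∈ X, (od s A v : ℤ) - ∑ v ∈ X, (od t A v : ℤ) =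
      ((A.filter (fun e => s e ∈ X ∧ t e ∉ X)).card : ℤ) -
        ((A.filter (fun e => s e ∉ X ∧ t e ∈ X)).card : ℤ) := by
  have h1 : ∑ v ∈ X, (od s A v : ℤ) = ((A.filter (fun e => s e ∈ X)).card : ℤ) := by
    rw [← sum_od]; push_cast; rfl
  have h2 : ∑ v ∈ X, (od t A v : ℤ) = ((A.filter (fun e => t e ∈ X)).card : ℤ) := by
    rw [← sum_od]; push_cast; rfl
  have h3 : (A.filter (fun e => s e ∈ X)).card =
      (A.filter (fun e => s e ∈ X ∧ t e ∈ X)).card +
        (A.filter (fun e => s e ∈ X ∧ t e ∉ X)).card := by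
    rw [← Finset.card_union_of_disjoint]
    · congr 1
      ext e
      simp only [Finset.mem_filter, Finset.mem_union]
      tauto
    · rw [Finset.disjoint_left]
      intro e he he'
      rw [Finset.mem_filter] at he he'
      exact he'.2.2 he.2.2
  have h4 : (A.filter (fun e => t e ∈ X)).card =
      (A.filter (fun e => s e ∈ X ∧ t e ∈ X)).card +
        (A.filter (fun e => s e ∉ X ∧ t e ∈ X)).card := by
    rw [← Finset.card_union_of_disjoint]
    · congr 1
      ext e
      simp only [Finset.mem_filter, Finset.mem_union]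
      tauto
    · rw [Finset.disjoint_left]
      intro e he he'
      rw [Finset.mem_filter] at he he'
      exact he'.2.1 he.2.1
  rw [h1, h2, h3, h4]
  push_cast
  ring

lemma card_dl_split (s t : E → V) (A : Finset E) (X : Finset V) :
    (A ∩ dl s t X).card = (A.filter (fun e => s e ∈ X ∧ t e ∉ X)).card +
      (A.filter (fun e => s e ∉ X ∧ t e ∈ X)).card := by
  rw [← Finset.card_union_of_disjoint]
  · congr 1
    ext e
    simp only [Finset.mem_filter, Finset.mem_union, Finset.mem_inter, mem_dl]
    tauto
  · rw [Finset.disjoint_left]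
    intro e he he'
    rw [Finset.mem_filter] at he he'
    exact he'.2.1 he.2.1

/-- From a balanced set modulo three to two even sets covering it. -/
theorem two_even_aux (s t : E → V) (S : Finset E)
    (hS : ∀ v, 3 ∣ od s S v + 2 * od t S v) :
    ∃ D1 ⊆ S, ∃ D2 ⊆ S, bdS s t D1 = 0 ∧ bdS s t D2 = 0 ∧ S ⊆ D1 ∪ D2 := by
  classical
  obtain ⟨R, hR, hnet⟩ := orient s t S 3 (by norm_num) hS
  have hadd : ∀ (r : E → V) (v : V), od r S v = od r R v + od r (S \ R) v := by
    intro r v
    unfold od
    rw [← Finset.card_union_of_disjoint]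
    · congr 1
      ext e
      simp only [Finset.mem_filter, Finset.mem_union, Finset.mem_sdiff]
      constructor
      · rintro ⟨h1, h2⟩
        by_cases h3 : e ∈ R
        · exact Or.inl ⟨h3, h2⟩
        · exact Or.inr ⟨⟨h1, h3⟩, h2⟩
      · rintro (⟨h1, h2⟩ | ⟨⟨h1, _⟩, h2⟩)
        · exact ⟨hR h1, h2⟩
        · exact ⟨h1, h2⟩
    · rw [Finset.disjoint_left]
      intro e he he'
      rw [Finset.mem_filter] at he he'
      exact (Finset.mem_sdiff.1 he'.1).2 he.1
  -- 2 (out_R - in_R) = out_{S\R} - in_{S\R}
  have hkey : ∀ v, 2 * ((od s R v : ℤ) - od t R v) = (od s (S \ R) v : ℤ) - od t (S \ R) v := by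
    intro v
    have h1 := hnet v
    have h2 := hadd s v
    have h3 := hadd t v
    omega
  have hD1 : bdS s t (S \ R) = 0 := by
    rw [bdS_zero_iff]
    intro v
    have := hkey v
    rw [Nat.even_iff]
    omega
  have hRsp : bdS s t R ∈ sp s t (S \ R) := by
    refine mem_sp_of_cuts s t _ _ (fun X hX => ?_)
    rw [cf_bdS, ZMod.natCast_eq_zero_iff_even]
    have h1 := net_cut s t R X
    have h2 := net_cut s t (S \ R) X
    have h3 : ∑ v ∈ X, (od s (S \ R) v : ℤ) - ∑ v ∈ X, (od t (S \ R) v : ℤ) =
        2 * (∑ v ∈ X, (od s R v : ℤ) - ∑ v ∈ X, (od t R v : ℤ)) := by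
      rw [← Finset.sum_sub_distrib, ← Finset.sum_sub_distrib, Finset.mul_sum]
      exact Finset.sum_congr rfl (fun v _ => (hkey v).symm)
    have h4 := card_dl_split s t (S \ R) X
    rw [hX, Finset.card_empty] at h4
    have h5 := card_dl_split s t R X
    rw [h5, Nat.even_iff]
    omega
  obtain ⟨J, hJ, hJbd⟩ := exists_subset_sum s t (S \ R) _ hRsp
  have hd : Disjoint R J := by
    rw [Finset.disjoint_left]
    intro e he he'
    exact (Finset.mem_sdiff.1 (hJ he')).2 he
  refine ⟨S \ R, Finset.sdiff_subset, R ∪ J, Finset.union_subset hR (hJ.trans Finset.sdiff_subset),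
    hD1, ?_, ?_⟩
  · rw [bdS_union s t _ _ hd]
    have : bdS s t J = bdS s t R := hJbd
    rw [this, dbl]
  · intro e he
    rw [Finset.mem_union, Finset.mem_union]
    by_cases h : e ∈ R
    · exact Or.inr (Or.inl h)
    · exact Or.inl (Finset.mem_sdiff.2 ⟨he, h⟩)

/-- A flow modulo three is covered by two even sets inside its support. -/
theorem two_even (s t : E → V) (ψ : E → ZMod 3) (hψ : dv s t ψ = 0) :
    ∃ D1 D2 : Finset E, bdS s t D1 = 0 ∧ bdS s t D2 = 0 ∧ (∀ e ∈ D1, ψ e ≠ 0) ∧
      (∀ e ∈ D2, ψ e ≠ 0) ∧ ∀ e, ψ e ≠ 0 → e ∈ D1 ∨ e ∈ D2 := by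
  classical
  set S : Finset E := Finset.univ.filter (fun e => ψ e ≠ 0) with hS
  set s' : E → V := fun e => if ψ e = 2 then t e else s e with hs'
  set t' : E → V := fun e => if ψ e = 2 then s e else t e with ht'
  have hbd : ∀ e, bd s' t' e = bd s t e := by
    intro e
    unfold bd
    simp only [hs', ht']
    split_ifs
    · rw [add_comm]
    · rfl
  have hbdS : ∀ A : Finset E, bdS s' t' A = bdS s t A := by
    intro A
    unfold bdS
    exact Finset.sum_congr rfl (fun e _ => hbd e)
  obtain ⟨D1, h1, D2, h2, h3, h4, h5⟩ := two_even_aux s' t' S (by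
    intro v
    have h1 := congrFun hψ v
    rw [Pi.zero_apply] at h1
    unfold dv at h1
    rw [Finset.sum_apply] at h1
    have h2 : ∀ e, (ψ e • bo s t e) v = if e ∈ S then
        ((if s' e = v then 1 else 0) - (if t' e = v then 1 else 0) : ZMod 3) else 0 := by
      intro e
      rw [Pi.smul_apply, bo, Pi.sub_apply, Pi.single_apply, Pi.single_apply, smul_eq_mul]
      simp only [eq_comm (a := v)]
      have h3 : ∀ z : ZMod 3, z = 0 ∨ z = 1 ∨ z = 2 := by decide
      have hmem : e ∈ S ↔ ψ e ≠ 0 := by rw [hS, Finset.mem_filter]; simp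
      rcases h3 (ψ e) with h | h | h
      · have hm : e ∉ S := fun h' => hmem.1 h' h
        rw [if_neg hm, h, zero_mul]
      · have hm : e ∈ S := hmem.2 (by rw [h]; decide)
        have e1 : s' e = s e := by
          simp only [hs']
          rw [if_neg (by rw [h]; decide)]
        have e2 : t' e = t e := by
          simp only [ht']
          rw [if_neg (by rw [h]; decide)]
        rw [if_pos hm, e1, e2, h, one_mul]
      · have hm : e ∈ S := hmem.2 (by rw [h]; decide)
        have e1 : s' e = t e := by
          simp only [hs']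
          rw [if_pos h]
        have e2 : t' e = s e := by
          simp only [ht']
          rw [if_pos h]
        rw [if_pos hm, e1, e2, h]
        have h8 : (2 : ZMod 3) = -1 := by decide
        rw [h8]
        ring
    rw [Finset.sum_congr rfl (fun e _ => h2 e), ← Finset.sum_filter, Finset.filter_mem_eq_inter,
      Finset.univ_inter, Finset.sum_sub_distrib, Finset.sum_boole, Finset.sum_boole] at h1
    rw [← ZMod.natCast_eq_zero_iff]
    push_cast
    unfold od
    have h8 : (2 : ZMod 3) = -1 := by decide
    rw [h8]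
    rw [← h1]
    ring)
  refine ⟨D1, D2, by rw [← hbdS]; exact h3, by rw [← hbdS]; exact h4, ?_, ?_, ?_⟩
  · intro e he
    have := h1 he
    rw [hS, Finset.mem_filter] at this
    exact this.2
  · intro e he
    have := h2 he
    rw [hS, Finset.mem_filter] at this
    exact this.2
  · intro e he
    exact Finset.mem_union.1 (h5 (by rw [hS, Finset.mem_filter]; exact ⟨Finset.mem_univ _, he⟩))

/-- An even set is the support of a flow modulo three. -/
theorem even_flow (s t : E → V) (H : Finset E) (hH : bdS s t H = 0) :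
    ∃ η : E → ZMod 3, dv s t η = 0 ∧ ∀ e, η e ≠ 0 ↔ e ∈ H := by
  classical
  obtain ⟨R, hR, hnet⟩ := orient s t H 2 (by norm_num) (by
    intro v
    have := (bdS_zero_iff s t H).1 hH v
    rw [show (2 - 1) * od t H v = od t H v by omega]
    exact even_iff_two_dvd.1 this)
  have hadd : ∀ (r : E → V) (v : V), od r H v = od r R v + od r (H \ R) v := by
    intro r v
    unfold od
    rw [← Finset.card_union_of_disjoint]
    · congr 1
      ext e
      simp only [Finset.mem_filter, Finset.mem_union, Finset.mem_sdiff]
      constructor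
      · rintro ⟨h1, h2⟩
        by_cases h3 : e ∈ R
        · exact Or.inl ⟨h3, h2⟩
        · exact Or.inr ⟨⟨h1, h3⟩, h2⟩
      · rintro (⟨h1, h2⟩ | ⟨⟨h1, _⟩, h2⟩)
        · exact ⟨hR h1, h2⟩
        · exact ⟨h1, h2⟩
    · rw [Finset.disjoint_left]
      intro e he he'
      rw [Finset.mem_filter] at he he'
      exact (Finset.mem_sdiff.1 he'.1).2 he.1
  refine ⟨fun e => if e ∈ R then -1 else if e ∈ H then 1 else 0, ?_, ?_⟩
  · funext v
    unfold dv
    rw [Finset.sum_apply, Pi.zero_apply]
    have h2 : ∀ e, ((if e ∈ R then (-1 : ZMod 3) else if e ∈ H then 1 else 0) • bo s t e) v =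
        (if e ∈ H \ R then ((if s e = v then 1 else 0) - (if t e = v then 1 else 0) : ZMod 3) else 0) -
        (if e ∈ R then ((if s e = v then 1 else 0) - (if t e = v then 1 else 0) : ZMod 3) else 0) := by
      intro e
      rw [Pi.smul_apply, bo, Pi.sub_apply, Pi.single_apply, Pi.single_apply, smul_eq_mul]
      simp only [eq_comm (a := v)]
      by_cases h3 : e ∈ R
      · rw [if_pos h3, if_pos h3, if_neg (fun h => (Finset.mem_sdiff.1 h).2 h3)]
        ring
      · rw [if_neg h3, if_neg h3]
        by_cases h4 : e ∈ H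
        · rw [if_pos h4, if_pos (Finset.mem_sdiff.2 ⟨h4, h3⟩)]
          ring
        · rw [if_neg h4, if_neg (fun h => h4 (Finset.mem_sdiff.1 h).1)]
          ring
    rw [Finset.sum_congr rfl (fun e _ => h2 e), Finset.sum_sub_distrib, ← Finset.sum_filter,
      ← Finset.sum_filter, Finset.filter_mem_eq_inter, Finset.filter_mem_eq_inter,
      Finset.univ_inter, Finset.univ_inter, Finset.sum_sub_distrib, Finset.sum_sub_distrib,
      Finset.sum_boole, Finset.sum_boole, Finset.sum_boole, Finset.sum_boole]
    have h5 := hnet v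
    have h6 := hadd s v
    have h7 := hadd t v
    have h8 : (od s (H \ R) v : ℤ) - od t (H \ R) v - (od s R v - od t R v) = 0 := by omega
    have h9 : ((od s (H \ R) v : ℤ) - od t (H \ R) v - (od s R v - od t R v) : ℤ) = (0 : ZMod 3) := by
      rw [h8]; simp
    push_cast at h9
    exact h9
  · intro e
    simp only
    by_cases h3 : e ∈ R
    · rw [if_pos h3]
      exact iff_of_true (by decide) (hR h3)
    · rw [if_neg h3]
      by_cases h4 : e ∈ H
      · rw [if_pos h4]
        exact iff_of_true (by decide) h4
      · rw [if_neg h4]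
        exact iff_of_false (by simp) h4

end Pool.Agent.H46.Faith
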