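import Mathlib
import Pool.Agent.H46.Faith.Pack

set_option autoImplicit false

/-! Fractional packing of spanning sets (Nash-Williams, Tutte). -/

namespace Pool.Agent.H46.Faith

open Module

set_option linter.unusedSectionVars false

variable {V E : Type} [Fintype V] [DecidableEq V] [Fintype E] [DecidableEq E]

/-- The positions available to a copy. -/
def av0 (F : Finset E) (m : E → ℕ) (K d : ℕ) (c : Cp m) : Finset ((ℕ × Cp m) ⊕ ℕ) :=
  ((Finset.Icc 1 K).filter (fun _ => c.1 ∈ F)).image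
    (fun q => Sum.inl (q, c)) ∪ (Finset.range d).image Sum.inr

lemma mem_av0 {F : Finset E} {m : E → ℕ} {K d : ℕ} {c : Cp m} {y : (ℕ × Cp m) ⊕ ℕ} :
    y ∈ av0 F m K d c ↔
      (∃ q, 1 ≤ q ∧ q ≤ K ∧ c.1 ∈ F ∧ y = Sum.inl (q, c)) ∨
      (∃ i, i < d ∧ y = Sum.inr i) := by
  unfold av0
  simp only [Finset.mem_union, Finset.mem_image, Finset.mem_filter, Finset.mem_Icc, Finset.mem_range]
  constructor
  · rintro (⟨q, ⟨⟨h1, h2⟩, h3⟩, rfl⟩ | ⟨i, hi, rfl⟩)
    · exact Or.inl ⟨q, h1, h2, h3, rfl⟩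
    · exact Or.inr ⟨i, hi, rfl⟩
  · rintro (⟨q, h1, h2, h3, rfl⟩ | ⟨i, hi, rfl⟩)
    · exact Or.inl ⟨q, ⟨⟨h1, h2⟩, h3⟩, rfl⟩
    · exact Or.inr ⟨i, hi, rfl⟩

lemma mem_lev0_biUnion {F : Finset E} {m : E → ℕ} {K d q : ℕ} (hq1 : 1 ≤ q) (hqK : q ≤ K)
    {J : Finset (Cp m)} {e : E} :
    e ∈ lev m q (J.biUnion (av0 F m K d)) ↔ ∃ a : Fin (m e), (⟨e, a⟩ : Cp m) ∈ J ∧ e ∈ F := by
  simp only [lev, Finset.mem_filter, Finset.mem_univ, true_and, Finset.mem_biUnion, mem_av0]
  constructor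
  · rintro ⟨a, c, hc, ⟨q', h1, h2, h3, h5⟩ | ⟨i, hi, h5⟩⟩
    · rw [Sum.inl.injEq, Prod.mk.injEq] at h5
      obtain ⟨rfl, rfl⟩ := h5
      exact ⟨a, hc, h3⟩
    · exact absurd h5 (by simp)
  · rintro ⟨a, hJ, h1⟩
    exact ⟨a, ⟨e, a⟩, hJ, Or.inl ⟨q, hq1, hqK, h1, rfl⟩⟩

open Classical in
lemma main_ineq0 (s t : E → V) (F : Finset E) (m : E → ℕ) (x : E → ℚ) (K d : ℕ)
    (hx0 : ∀ e, 0 ≤ x e) (hxm : ∀ e, x e * K ≤ m e)
    (hcut : ∀ X : Finset V, (∃ e ∈ F, ¬ (s e ∈ X ↔ t e ∈ X)) →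
      2 ≤ ∑ e ∈ F.filter (fun e => ¬ (s e ∈ X ↔ t e ∈ X)), x e)
    (J : Finset (Cp m)) :
    K * finrank (ZMod 2) (sp s t F) ≤
      ∑ q ∈ Finset.Icc 1 K, finrank (ZMod 2) (sp s t (lev m q (J.biUnion (av0 F m K d)))) +
        Jᶜ.card := by
  set Y : Finset E := Finset.univ.filter (fun e => ∃ a : Fin (m e), (⟨e, a⟩ : Cp m) ∈ J ∧ e ∈ F)
    with hY
  have hlev : ∀ q ∈ Finset.Icc 1 K, lev m q (J.biUnion (av0 F m K d)) = Y := by
    intro q hq
    rw [Finset.mem_Icc] at hq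
    ext e
    rw [mem_lev0_biUnion hq.1 hq.2, hY]
    simp
  have hsum : ∑ q ∈ Finset.Icc 1 K, finrank (ZMod 2) (sp s t (lev m q (J.biUnion (av0 F m K d)))) =
      K * finrank (ZMod 2) (sp s t Y) := by
    rw [Finset.sum_congr rfl (fun q hq => by rw [hlev q hq]), Finset.sum_const, Nat.card_Icc,
      Nat.add_sub_cancel, smul_eq_mul]
  rw [hsum]
  have h1 := rank_diff s t Y F x hx0 hcut
  have h2 : ∀ e : E, (if e ∈ F ∧ ¬ same s t Y (s e) (t e) then (K : ℚ) * x e else 0)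
      ≤ ((Finset.univ.filter (fun a : Fin (m e) => (⟨e, a⟩ : Cp m) ∉ J)).card : ℚ) := by
    intro e
    split_ifs with h
    · have hnot : ∀ a : Fin (m e), (⟨e, a⟩ : Cp m) ∉ J := by
        intro a ha
        apply h.2
        apply same_of_mem
        rw [hY]
        simp only [Finset.mem_filter, Finset.mem_univ, true_and]
        exact ⟨a, ha, h.1⟩
      have h3 : (Finset.univ.filter (fun a : Fin (m e) => (⟨e, a⟩ : Cp m) ∉ J)).card = m e := by
        rw [Finset.filter_true_of_mem (fun a _ => hnot a), Finset.card_univ, Fintype.card_fin]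
      rw [h3, mul_comm]
      exact hxm e
    · exact Nat.cast_nonneg _
  have h3 : (∑ e : E, ((Finset.univ.filter (fun a : Fin (m e) => (⟨e, a⟩ : Cp m) ∉ J)).card)) =
      Jᶜ.card := by
    have : Jᶜ = Finset.univ.sigma
        (fun e => Finset.univ.filter (fun a : Fin (m e) => (⟨e, a⟩ : Cp m) ∉ J)) := by
      ext c
      simp only [Finset.mem_compl, Finset.mem_sigma, Finset.mem_univ, true_and, Finset.mem_filter]
    rw [this, Finset.card_sigma]
  have h4 : (K : ℚ) * ((finrank (ZMod 2) (sp s t F) : ℚ) - finrank (ZMod 2) (sp s t Y)) ≤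
      Jᶜ.card := by
    calc (K : ℚ) * ((finrank (ZMod 2) (sp s t F) : ℚ) - finrank (ZMod 2) (sp s t Y))
        ≤ K * ∑ e ∈ F.filter (fun e => ¬ same s t Y (s e) (t e)), x e :=
          mul_le_mul_of_nonneg_left h1 (Nat.cast_nonneg _)
      _ = ∑ e : E, (if e ∈ F ∧ ¬ same s t Y (s e) (t e) then (K : ℚ) * x e else 0) := by
          rw [Finset.mul_sum, Finset.sum_filter, ← Finset.sum_filter]
          rw [← Finset.sum_filter]
          refine Finset.sum_congr ?_ (fun _ _ => rfl)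
          ext e
          simp
      _ ≤ ∑ e : E, ((Finset.univ.filter (fun a : Fin (m e) => (⟨e, a⟩ : Cp m) ∉ J)).card : ℚ) :=
          Finset.sum_le_sum (fun e _ => h2 e)
      _ = Jᶜ.card := by
          rw [← h3]
          push_cast
          rfl
  have h5 : ((K * finrank (ZMod 2) (sp s t F) : ℕ) : ℚ) ≤
      ((K * finrank (ZMod 2) (sp s t Y) + Jᶜ.card : ℕ) : ℚ) := by
    push_cast
    linarith
  exact_mod_cast h5

open Classical in
/-- Existence of the spanning sets. -/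
theorem pack0 (s t : E → V) (F : Finset E) (m : E → ℕ) (x : E → ℚ) (K : ℕ)
    (hx0 : ∀ e, 0 ≤ x e) (hxm : ∀ e, x e * K ≤ m e)
    (hcut : ∀ X : Finset V, (∃ e ∈ F, ¬ (s e ∈ X ↔ t e ∈ X)) →
      2 ≤ ∑ e ∈ F.filter (fun e => ¬ (s e ∈ X ↔ t e ∈ X)), x e) :
    ∃ B : ℕ → Finset E, (∀ q, B q ⊆ F) ∧ (∀ q, 1 ≤ q → q ≤ K → sp s t (B q) = sp s t F) ∧
      ∀ e, ((Finset.Icc 1 K).filter (fun q' => e ∈ B q')).card ≤ m e := by
  classical
  set R := K * finrank (ZMod 2) (sp s t F) with hR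
  set d := Fintype.card (Cp m) - R with hd
  have hRle : R ≤ Fintype.card (Cp m) := by
    have := main_ineq0 s t F m x K d hx0 hxm hcut ∅
    have h1 : finrank (ZMod 2) (sp s t (∅ : Finset E)) = 0 := by
      unfold sp; simp
    have h0 : ∑ q ∈ Finset.Icc 1 K, finrank (ZMod 2)
        (sp s t (lev m q ((∅ : Finset (Cp m)).biUnion (av0 F m K d)))) = 0 := by
      refine Finset.sum_eq_zero (fun q _ => ?_)
      have h2 : lev m q ((∅ : Finset (Cp m)).biUnion (av0 F m K d)) = ∅ := by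
        rw [Finset.biUnion_empty]
        unfold lev
        simp
      rw [h2]
      exact h1
    rw [h0, zero_add, Finset.compl_empty, Finset.card_univ] at this
    exact this
  obtain ⟨f, hf, hfJ⟩ := rado (rk s t m K) (rk_empty s t m K) (rk_mono s t m K)
    (rk_submod s t m K) (av0 F m K d) (by
      intro J
      rcases J.eq_empty_or_nonempty with hJ | ⟨c, hc⟩
      · rw [hJ]; simp
      · have h1 := main_ineq0 s t F m x K d hx0 hxm hcut J
        unfold rk
        have h2 : (Finset.range d).image (Sum.inr : ℕ → (ℕ × Cp m) ⊕ ℕ) ⊆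
            (J.biUnion (av0 F m K d)).filter (fun y => y.isRight = true) := by
          intro y hy
          rw [Finset.mem_image] at hy
          obtain ⟨i, hi, rfl⟩ := hy
          rw [Finset.mem_filter]
          refine ⟨Finset.mem_biUnion.2 ⟨c, hc, mem_av0.2 (Or.inr ⟨i, Finset.mem_range.1 hi, rfl⟩)⟩, rfl⟩
        have h3 := Finset.card_le_card h2
        rw [Finset.card_image_of_injective _ Sum.inr_injective, Finset.card_range] at h3
        have h4 : J.card + Jᶜ.card = Fintype.card (Cp m) := Finset.card_add_card_compl J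
        omega)
  have hfull := hfJ Finset.univ
  set B : ℕ → Finset E := fun q => lev m q (Finset.univ.image f) with hB
  have hfc : ∀ c, (∃ q, 1 ≤ q ∧ q ≤ K ∧ c.1 ∈ F ∧ f c = Sum.inl (q, c)) ∨
      (∃ i, i < d ∧ f c = Sum.inr i) := fun c => mem_av0.1 (hf c)
  have hBmem : ∀ q e, e ∈ B q ↔ ∃ a : Fin (m e), f ⟨e, a⟩ = Sum.inl (q, ⟨e, a⟩) := by
    intro q e
    simp only [hB, lev, Finset.mem_filter, Finset.mem_univ, true_and, Finset.mem_image]
    constructor
    · rintro ⟨a, c, hc⟩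
      rcases hfc c with ⟨q', h1, h2, h3, h5⟩ | ⟨i, hi, h5⟩
      · rw [h5, Sum.inl.injEq, Prod.mk.injEq] at hc
        obtain ⟨rfl, rfl⟩ := hc
        exact ⟨a, h5⟩
      · rw [h5] at hc
        exact absurd hc (by simp)
    · rintro ⟨a, ha⟩
      exact ⟨a, ⟨e, a⟩, ha⟩
  have hBinfo : ∀ q e, ∀ a : Fin (m e), f ⟨e, a⟩ = Sum.inl (q, ⟨e, a⟩) →
      1 ≤ q ∧ q ≤ K ∧ e ∈ F := by
    intro q e a ha
    rcases hfc ⟨e, a⟩ with ⟨q', h1, h2, h3, h5⟩ | ⟨i, hi, h5⟩
    · rw [h5, Sum.inl.injEq, Prod.mk.injEq] at ha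
      obtain ⟨rfl, -⟩ := ha
      exact ⟨h1, h2, h3⟩
    · rw [h5] at ha
      exact absurd ha (by simp)
  have hBsub : ∀ q, B q ⊆ F := by
    intro q e he
    obtain ⟨a, ha⟩ := (hBmem q e).1 he
    exact (hBinfo q e a ha).2.2
  refine ⟨B, hBsub, ?_, ?_⟩
  · -- ranks
    have hright : ((Finset.univ.image f).filter (fun y => y.isRight = true)).card ≤ d := by
      have h1 : (Finset.univ.image f).filter (fun y => y.isRight = true) ⊆
          (Finset.range d).image Sum.inr := by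
        intro y hy
        rw [Finset.mem_filter, Finset.mem_image] at hy
        obtain ⟨⟨c, _, rfl⟩, hr⟩ := hy
        rcases hfc c with ⟨q', h1, h2, h3, h5⟩ | ⟨i, hi, h5⟩
        · rw [h5] at hr; simp at hr
        · rw [h5]
          exact Finset.mem_image_of_mem _ (Finset.mem_range.2 hi)
      have h2 := Finset.card_le_card h1
      rwa [Finset.card_image_of_injective _ Sum.inr_injective, Finset.card_range] at h2
    unfold rk at hfull
    rw [Finset.card_univ] at hfull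
    have hsumle : R ≤ ∑ q ∈ Finset.Icc 1 K, finrank (ZMod 2) (sp s t (B q)) := by
      have : Fintype.card (Cp m) ≤ ∑ q ∈ Finset.Icc 1 K, finrank (ZMod 2) (sp s t (B q)) + d :=
        hfull.trans (Nat.add_le_add_left hright _)
      omega
    have hle : ∀ q ∈ Finset.Icc 1 K, finrank (ZMod 2) (sp s t (B q)) ≤
        finrank (ZMod 2) (sp s t F) :=
      fun q _ => Submodule.finrank_mono (sp_mono (hBsub q))
    have hRsum : R = ∑ q ∈ Finset.Icc 1 K, finrank (ZMod 2) (sp s t F) := by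
      rw [Finset.sum_const, Nat.card_Icc, Nat.add_sub_cancel, smul_eq_mul]
    have heq : ∑ q ∈ Finset.Icc 1 K, finrank (ZMod 2) (sp s t (B q)) =
        ∑ q ∈ Finset.Icc 1 K, finrank (ZMod 2) (sp s t F) :=
      le_antisymm (Finset.sum_le_sum hle) (hRsum ▸ hsumle)
    have heq' := (Finset.sum_eq_sum_iff_of_le hle).1 heq
    intro q hq hqK
    exact Submodule.eq_of_le_of_finrank_eq (sp_mono (hBsub q))
      (heq' q (Finset.mem_Icc.2 ⟨hq, hqK⟩))
  · intro e
    have h1 : (Finset.Icc 1 K).filter (fun q' => e ∈ B q') ⊆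
        (Finset.univ : Finset (Fin (m e))).image
          (fun a => Sum.elim (fun p => p.1) (fun _ => 0) (f ⟨e, a⟩)) := by
      intro q' hq'
      rw [Finset.mem_filter, Finset.mem_Icc] at hq'
      obtain ⟨a, ha⟩ := (hBmem q' e).1 hq'.2
      rw [Finset.mem_image]
      refine ⟨a, Finset.mem_univ _, ?_⟩
      rw [ha]; rfl
    have h2 := (Finset.card_le_card h1).trans Finset.card_image_le
    rwa [Finset.card_univ, Fintype.card_fin] at h2

/-- In a graph all of whose cuts have at least three edges there are three spanning sets with no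
common edge. -/
theorem three_trees (s t : E → V) (F : Finset E)
    (hcut : ∀ X : Finset V, (∃ e ∈ F, ¬ (s e ∈ X ↔ t e ∈ X)) →
      3 ≤ (F.filter (fun e => ¬ (s e ∈ X ↔ t e ∈ X))).card) :
    ∃ B : ℕ → Finset E, (∀ q, B q ⊆ F) ∧ (∀ q, 1 ≤ q → q ≤ 3 → sp s t (B q) = sp s t F) ∧
      ∀ e, ∃ q, 1 ≤ q ∧ q ≤ 3 ∧ e ∉ B q := by
  classical
  obtain ⟨B, h1, h2, h3⟩ := pack0 s t F (fun _ => 2) (fun _ => 2 / 3) 3 (fun _ => by norm_num)
    (fun _ => by norm_num) (by
      intro X hX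
      have h := hcut X hX
      rw [Finset.sum_const, nsmul_eq_mul]
      have h' : (3 : ℚ) ≤ (F.filter (fun e => ¬ (s e ∈ X ↔ t e ∈ X))).card := by exact_mod_cast h
      linarith)
  refine ⟨B, h1, h2, ?_⟩
  intro e
  by_contra hcon
  push Not at hcon
  have h4 : (Finset.Icc 1 3).filter (fun q' => e ∈ B q') = Finset.Icc 1 3 := by
    refine Finset.filter_true_of_mem (fun q hq => ?_)
    rw [Finset.mem_Icc] at hq
    exact hcon q hq.1 hq.2
  have h5 := h3 e
  rw [h4, Nat.card_Icc] at h5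
  omega

end Pool.Agent.H46.Faith
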