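import Mathlib
import Pool.Agent.H46.Faith.Menger
import Pool.Agent.H46.Faith.Chain
import Pool.Agent.H46.Faith.Pack0

set_option autoImplicit false

/-! Nine classes of edges whose complements are 2-edge-connected (DeVos, Johnson, Seymour). -/

namespace Pool.Agent.H46.Faith

open Module

set_option linter.unusedSectionVars false

variable {V E : Type} [Fintype V] [DecidableEq V] [Fintype E] [DecidableEq E]

/-- Colouring edges so that no cut of a laminar family is monochromatic. -/
theorem laminar_colouring (s t : E → V) (T : Finset E) (S : E → Finset V)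
    (hlam : ∀ i ∈ T, ∀ j ∈ T, S i ⊆ S j ∨ S j ⊆ S i ∨ Disjoint (S i) (S j)) :
    ∀ (n : ℕ) (P : Finset E), P.card ≤ n → ∃ c : E → Fin 3, ∀ i ∈ T,
      2 ≤ (P ∩ dl s t (S i)).card →
        ∃ e ∈ P ∩ dl s t (S i), ∃ e' ∈ P ∩ dl s t (S i), c e ≠ c e' := by
  classical
  set ap : E → ℕ := fun e =>
    (insert (Fintype.card V + 1) ((T.filter (fun i => s e ∈ S i ∧ t e ∈ S i)).image
      (fun i => (S i).card))).min' (Finset.insert_nonempty _ _) with hap
  have hap1 : ∀ e, ∀ i ∈ T, s e ∈ S i → t e ∈ S i → ap e ≤ (S i).card := by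
    intro e i hi h1 h2
    refine Finset.min'_le _ _ ?_
    refine Finset.mem_insert_of_mem (Finset.mem_image.2 ⟨i, ?_, rfl⟩)
    rw [Finset.mem_filter]
    exact ⟨hi, h1, h2⟩
  have hap2 : ∀ e, ap e ≤ Fintype.card V → ∃ i ∈ T, s e ∈ S i ∧ t e ∈ S i ∧ (S i).card = ap e := by
    intro e he
    have h1 := Finset.min'_mem (insert (Fintype.card V + 1)
      ((T.filter (fun i => s e ∈ S i ∧ t e ∈ S i)).image (fun i => (S i).card)))
      (Finset.insert_nonempty _ _)
    rcases Finset.mem_insert.1 h1 with h2 | h2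
    · exfalso
      have : ap e = Fintype.card V + 1 := h2
      omega
    · rw [Finset.mem_image] at h2
      obtain ⟨i, hi, h3⟩ := h2
      rw [Finset.mem_filter] at hi
      exact ⟨i, hi.1, hi.2.1, hi.2.2, h3⟩
  intro n
  induction n with
  | zero =>
    intro P hP
    have h1 : P = ∅ := Finset.card_eq_zero.1 (Nat.le_zero.1 hP)
    refine ⟨fun _ => 0, fun i _ h2 => ?_⟩
    rw [h1, Finset.empty_inter, Finset.card_empty] at h2
    omega
  | succ n ih =>
    intro P hP
    rcases P.eq_empty_or_nonempty with h1 | h1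
    · refine ⟨fun _ => 0, fun i _ h2 => ?_⟩
      rw [h1, Finset.empty_inter, Finset.card_empty] at h2
      omega
    obtain ⟨e, he, hmin⟩ := Finset.exists_min_image P ap h1
    obtain ⟨c, hc⟩ := ih (P.erase e) (by
      have := Finset.card_erase_lt_of_mem he
      omega)
    -- the other edge of a cut with two edges is determined by the side
    have huniq : ∀ x, (x = s e ∨ x = t e) → ∀ i ∈ T, ∀ j ∈ T, x ∈ S i → x ∈ S j →
        e ∈ dl s t (S i) → e ∈ dl s t (S j) → S i ⊆ S j → ∀ a, a ∈ P → a ∈ dl s t (S i) →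
        a ∈ dl s t (S j) := by
      intro x hx i hi j hj hxi hxj hei hej hij a ha hai
      by_contra haj
      rw [mem_dl, not_not] at haj
      have hboth : s a ∈ S j ∧ t a ∈ S j := by
        rw [mem_dl] at hai
        by_cases h2 : s a ∈ S i
        · exact ⟨hij h2, haj.1 (hij h2)⟩
        · by_cases h3 : t a ∈ S i
          · exact ⟨haj.2 (hij h3), hij h3⟩
          · exact absurd (iff_of_false h2 h3) hai
      have h2 := hap1 a j hj hboth.1 hboth.2
      have h3 := (hmin a ha).trans h2
      obtain ⟨k, hk, hks, hkt, hkc⟩ := hap2 e (h3.trans (Finset.card_le_univ _))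
      have hxk : x ∈ S k := by
        rcases hx with h | h
        · rw [h]; exact hks
        · rw [h]; exact hkt
      have h4 : (S k).card ≤ (S j).card := by rw [hkc]; exact h3
      rw [mem_dl] at hej
      rcases hlam k hk j hj with h5 | h5 | h5
      · exact hej (iff_of_true (h5 hks) (h5 hkt))
      · have h6 := Finset.eq_of_subset_of_card_le h5 h4
        exact hej (iff_of_true (by rw [h6]; exact hks) (by rw [h6]; exact hkt))
      · exact Finset.disjoint_left.1 h5 hxk hxj
    have hside : ∀ x, (x = s e ∨ x = t e) → ∃ r : Fin 3, ∀ i ∈ T, x ∈ S i → e ∈ dl s t (S i) →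
        ∀ a, P.erase e ∩ dl s t (S i) = {a} → c a = r := by
      intro x hx
      by_cases hex : ∃ i ∈ T, x ∈ S i ∧ e ∈ dl s t (S i) ∧ ∃ a, P.erase e ∩ dl s t (S i) = {a}
      · obtain ⟨i, hi, hxi, hei, a, ha⟩ := hex
        refine ⟨c a, ?_⟩
        intro j hj hxj hej b hb
        have ham : a ∈ P.erase e ∩ dl s t (S i) := by rw [ha]; simp
        have hbm : b ∈ P.erase e ∩ dl s t (S j) := by rw [hb]; simp
        rw [Finset.mem_inter] at ham hbm
        rcases hlam i hi j hj with h5 | h5 | h5
        · have h6 := huniq x hx i hi j hj hxi hxj hei hej h5 a (Finset.mem_of_mem_erase ham.1) ham.2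
          have h7 : a ∈ P.erase e ∩ dl s t (S j) := Finset.mem_inter.2 ⟨ham.1, h6⟩
          rw [hb, Finset.mem_singleton] at h7
          rw [h7]
        · have h6 := huniq x hx j hj i hi hxj hxi hej hei h5 b (Finset.mem_of_mem_erase hbm.1) hbm.2
          have h7 : b ∈ P.erase e ∩ dl s t (S i) := Finset.mem_inter.2 ⟨hbm.1, h6⟩
          rw [ha, Finset.mem_singleton] at h7
          rw [h7]
        · exact absurd hxj (Finset.disjoint_left.1 h5 hxi)
      · refine ⟨0, ?_⟩
        intro i hi hxi hei a ha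
        exact absurd ⟨i, hi, hxi, hei, a, ha⟩ hex
    obtain ⟨r1, hr1⟩ := hside (s e) (Or.inl rfl)
    obtain ⟨r2, hr2⟩ := hside (t e) (Or.inr rfl)
    have hfin : ∀ a b : Fin 3, ∃ r : Fin 3, r ≠ a ∧ r ≠ b := by decide
    obtain ⟨r, hra, hrb⟩ := hfin r1 r2
    refine ⟨Function.update c e r, ?_⟩
    intro i hi h2
    have hsub : P.erase e ∩ dl s t (S i) ⊆ P ∩ dl s t (S i) :=
      Finset.inter_subset_inter_right (Finset.erase_subset _ _)
    by_cases hcard : 2 ≤ (P.erase e ∩ dl s t (S i)).card
    · obtain ⟨a, ha, b, hb, hab⟩ := hc i hi hcard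
      refine ⟨a, hsub ha, b, hsub hb, ?_⟩
      have h3 : a ≠ e := (Finset.mem_erase.1 (Finset.mem_inter.1 ha).1).1
      have h4 : b ≠ e := (Finset.mem_erase.1 (Finset.mem_inter.1 hb).1).1
      rw [Function.update_of_ne h3, Function.update_of_ne h4]
      exact hab
    · have hei : e ∈ dl s t (S i) := by
        by_contra hei
        have h3 : P.erase e ∩ dl s t (S i) = P ∩ dl s t (S i) := by
          ext a
          rw [Finset.mem_inter, Finset.mem_inter, Finset.mem_erase]
          constructor
          · rintro ⟨⟨_, h⟩, h'⟩; exact ⟨h, h'⟩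
          · rintro ⟨h, h'⟩
            exact ⟨⟨by rintro rfl; exact hei h', h⟩, h'⟩
        rw [h3] at hcard
        exact hcard h2
      have heP : e ∈ P ∩ dl s t (S i) := Finset.mem_inter.2 ⟨he, hei⟩
      have h3 : P.erase e ∩ dl s t (S i) = (P ∩ dl s t (S i)).erase e := by
        ext a
        rw [Finset.mem_inter, Finset.mem_erase, Finset.mem_erase, Finset.mem_inter]
        tauto
      have h4 : (P.erase e ∩ dl s t (S i)).card = 1 := by
        have h5 := Finset.card_erase_of_mem heP
        rw [h3] at hcard ⊢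
        omega
      obtain ⟨a, ha⟩ := Finset.card_eq_one.1 h4
      have ham : a ∈ P.erase e ∩ dl s t (S i) := by rw [ha]; simp
      have hae : a ≠ e := (Finset.mem_erase.1 (Finset.mem_inter.1 ham).1).1
      refine ⟨e, heP, a, hsub ham, ?_⟩
      rw [Function.update_self, Function.update_of_ne hae]
      by_cases h5 : s e ∈ S i
      · rw [hr1 i hi h5 hei a ha]; exact hra
      · have h6 : t e ∈ S i := by
          by_contra h6
          exact (mem_dl.1 hei) (iff_of_false h5 h6)
        rw [hr2 i hi h6 hei a ha]; exact hrb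

/-- a forest with the same span -/
lemma exists_forest (s t : E → V) (B : Finset E) :
    ∃ T ⊆ B, sp s t T = sp s t B ∧ NoEven s t T := by
  classical
  obtain ⟨T, hT, hmin⟩ := Finset.exists_min_image
    (B.powerset.filter (fun T => sp s t T = sp s t B)) Finset.card
    ⟨B, by rw [Finset.mem_filter, Finset.mem_powerset]; exact ⟨Finset.Subset.refl _, rfl⟩⟩
  rw [Finset.mem_filter, Finset.mem_powerset] at hT
  refine ⟨T, hT.1, hT.2, ?_⟩
  intro H hH h0
  by_contra hne
  obtain ⟨e, he⟩ := Finset.nonempty_iff_ne_empty.2 hne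
  have h1 : bd s t e ∈ sp s t (T.erase e) := by
    have h2 := bdS_erase s t H e he
    rw [h0, zero_add] at h2
    rw [← h2]
    refine sp_mono ?_ (bdS_mem_sp s t _)
    exact Finset.erase_subset_erase _ hH
  have h2 : sp s t (T.erase e) = sp s t T := by
    refine le_antisymm (sp_mono (Finset.erase_subset _ _)) ?_
    unfold sp
    rw [Submodule.span_le]
    rintro y ⟨f, hf, rfl⟩
    by_cases hfe : f = e
    · rw [hfe]; exact h1
    · exact Submodule.subset_span ⟨f, by
        rw [Finset.mem_coe, Finset.mem_erase]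
        exact ⟨hfe, by exact_mod_cast hf⟩, rfl⟩
  have h3 := hmin (T.erase e) (by
    rw [Finset.mem_filter, Finset.mem_powerset]
    exact ⟨(Finset.erase_subset _ _).trans hT.1, h2.trans hT.2⟩)
  have h4 := Finset.card_erase_lt_of_mem (hH he)
  omega

/-- Colouring the chords of a spanning forest. -/
theorem chord_colouring (s t : E → V) (F T : Finset E) (hTF : T ⊆ F) (hsp : sp s t T = sp s t F)
    (hT : NoEven s t T)
    (h3 : ∀ X : Finset V, (F ∩ dl s t X).Nonempty → 3 ≤ (F ∩ dl s t X).card) :
    ∃ c : E → Fin 3, ∀ (X : Finset V) (f : E), T ∩ dl s t X = {f} →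
      ∃ e ∈ (F \ T) ∩ dl s t X, ∃ e' ∈ (F \ T) ∩ dl s t X, c e ≠ c e' := by
  classical
  set rep : V → V := fun v => (Quotient.mk (connSetoid s t T) v).out with hrep
  have hrep1 : ∀ v, Conn s t T v (rep v) := by
    intro v
    have : (Quotient.mk (connSetoid s t T) (rep v)) = Quotient.mk (connSetoid s t T) v :=
      Quotient.out_eq _
    exact (Quotient.exact this).symm
  have hrep2 : ∀ u v, Conn s t T u v → rep u = rep v := by
    intro u v h
    have : (Quotient.mk (connSetoid s t T) u) = Quotient.mk (connSetoid s t T) v :=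
      Quotient.sound h
    simp only [hrep]
    rw [this]
  set S : E → Finset V := fun f => Finset.univ.filter (fun v => ¬ Conn s t (T.erase f) v (rep v))
    with hS
  have hmemS : ∀ f v, v ∈ S f ↔ ¬ Conn s t (T.erase f) v (rep v) := by
    intro f v
    simp [hS]
  have hsubT : ∀ f, T.erase f ⊆ T := fun f => Finset.erase_subset _ _
  -- closure
  have hclos : ∀ f u v, Conn s t (T.erase f) u v → (u ∈ S f ↔ v ∈ S f) := by
    intro f u v h
    rw [hmemS, hmemS, hrep2 u v (h.mono (hsubT f))]
    constructor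
    · intro h1 h2; exact h1 (h.trans h2)
    · intro h1 h2; exact h1 (h.symm.trans h2)
  have hedge : ∀ f, ∀ e ∈ T, e ≠ f → (s e ∈ S f ↔ t e ∈ S f) := by
    intro f e he hne
    exact hclos f _ _ (Conn.edge (Finset.mem_erase.2 ⟨hne, he⟩))
  -- f itself is in the cut
  have hself : ∀ f ∈ T, f ∈ dl s t (S f) := by
    intro f hf
    rw [mem_dl, hmemS, hmemS]
    have hr : rep (s f) = rep (t f) := hrep2 _ _ (Conn.edge hf)
    rw [← hr]
    intro hiff
    by_cases h1 : Conn s t (T.erase f) (s f) (rep (s f))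
    · have h2 : Conn s t (T.erase f) (t f) (rep (s f)) := by
        by_contra h2
        exact (hiff.2 h2) h1
      obtain ⟨J, hJ, hJbd⟩ := (h1.trans h2.symm).join
      have hfJ : f ∉ J := fun h => (Finset.mem_erase.1 (hJ h)).1 rfl
      have h4 := hT (insert f J) (by
        intro e he
        rcases Finset.mem_insert.1 he with h | h
        · rw [h]; exact hf
        · exact hsubT f (hJ h)) (by
        rw [bdS_insert s t J f hfJ, hJbd, bd]
        exact dbl _)
      exact absurd (Finset.mem_insert_self f J) (by rw [h4]; simp)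
    · have h2 : ¬ Conn s t (T.erase f) (t f) (rep (s f)) := hiff.1 h1
      obtain ⟨e, he, heX⟩ := (hrep1 (s f)).symm.cut (comp s t (T.erase f) (rep (s f)))
        (self_mem_comp _ _ _ _) (fun h => h1 (mem_comp'.1 h).symm)
      rw [mem_dl] at heX
      by_cases hef : e = f
      · subst hef
        exact heX (iff_of_false (fun h => h1 (mem_comp'.1 h).symm)
          (fun h => h2 (mem_comp'.1 h).symm))
      · exact heX (comp_edge (Finset.mem_erase.2 ⟨hef, he⟩))
  have hcutT : ∀ f ∈ T, T ∩ dl s t (S f) = {f} := by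
    intro f hf
    ext e
    rw [Finset.mem_inter, Finset.mem_singleton]
    constructor
    · rintro ⟨h1, h2⟩
      by_contra hne
      exact (mem_dl.1 h2) (hedge f e h1 hne)
    · rintro rfl
      exact ⟨hf, hself _ hf⟩
  -- the far end
  have hfar : ∀ f ∈ T, ∃ z, z ∈ S f ∧ ∀ v ∈ S f, Conn s t (T.erase f) v z := by
    intro f hf
    obtain ⟨z, z', hz, hz', hor⟩ : ∃ z z', z ∈ S f ∧ z' ∉ S f ∧
        ((s f = z ∧ t f = z') ∨ (s f = z' ∧ t f = z)) := by
      have h1 := mem_dl.1 (hself f hf)
      by_cases h2 : s f ∈ S f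
      · exact ⟨s f, t f, h2, fun h => h1 (iff_of_true h2 h), Or.inl ⟨rfl, rfl⟩⟩
      · by_cases h4 : t f ∈ S f
        · exact ⟨t f, s f, h4, h2, Or.inr ⟨rfl, rfl⟩⟩
        · exact absurd (iff_of_false h2 h4) h1
    refine ⟨z, hz, ?_⟩
    intro v hv
    by_contra hcon
    -- the component of v in T - f is left by f
    obtain ⟨e, he, heX⟩ := (hrep1 v).cut (comp s t (T.erase f) v) (self_mem_comp _ _ _ _)
      (fun h => (hmemS f v).1 hv (mem_comp'.1 h))
    have hef : e = f := by
      by_contra hne
      exact (mem_dl.1 heX) (comp_edge (Finset.mem_erase.2 ⟨hne, he⟩))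
    subst hef
    have hzX : z ∉ comp s t (T.erase e) v := fun h => hcon (mem_comp'.1 h)
    have hz'X : z' ∉ comp s t (T.erase e) v := by
      intro h
      exact hz' ((hclos e v z' (mem_comp'.1 h)).1 hv)
    rw [mem_dl] at heX
    apply heX
    rcases hor with ⟨h1, h2⟩ | ⟨h1, h2⟩
    · rw [h1, h2]; exact iff_of_false hzX hz'X
    · rw [h1, h2]; exact iff_of_false hz'X hzX
  -- paths on one side avoid edges of the other side
  have havoid : ∀ f g, ∀ (X : Finset V), (∀ e ∈ T.erase f, (s e ∈ X ↔ t e ∈ X)) →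
      (s g ∉ X) → ∀ u v, u ∈ X → v ∈ X → Conn s t (T.erase f) u v → Conn s t (T.erase g) u v := by
    intro f g X hX hg u v hu hv h
    obtain ⟨J, hJ, hJbd⟩ := h.join
    have h6 : bdS s t (J.filter (fun e => s e ∈ X)) = pt u + pt v := by
      refine bdS_filter_eq s t J X (fun e he => hX e (hJ he)) _ hJbd ?_
      intro z hz
      rw [Pi.add_apply, pt_ne, pt_ne, add_zero]
      · rintro rfl; exact hz hv
      · rintro rfl; exact hz hu
    refine (Conn.of_bdS h6).mono ?_
    intro e he
    rw [Finset.mem_filter] at he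
    rw [Finset.mem_erase]
    refine ⟨?_, hsubT f (hJ he.1)⟩
    rintro rfl
    exact hg he.2
  have hlam : ∀ f ∈ T, ∀ g ∈ T, S f ⊆ S g ∨ S g ⊆ S f ∨ Disjoint (S f) (S g) := by
    intro f hf g hg
    by_cases hfg : f = g
    · left; rw [hfg]
    have hgf : s g ∈ S f ↔ t g ∈ S f := hedge f g hg (Ne.symm hfg)
    by_cases hsg : s g ∈ S f
    · -- S g ⊆ S f
      right; left
      intro v hv
      by_contra hvf
      rw [hmemS, not_not] at hvf
      rw [hmemS] at hv
      apply hv
      refine havoid f g (S f)ᶜ ?_ ?_ v (rep v) ?_ ?_ hvf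
      · intro e he
        rw [Finset.mem_compl, Finset.mem_compl]
        rw [Finset.mem_erase] at he
        exact not_congr (hedge f e he.2 he.1)
      · rw [Finset.mem_compl, not_not]; exact hsg
      · rw [Finset.mem_compl, hmemS, not_not]; exact hvf
      · rw [Finset.mem_compl, hmemS, not_not]
        have : rep (rep v) = rep v := (hrep2 _ _ (hrep1 v)).symm
        rw [this]
        exact Conn.refl _ _ _ _
    · obtain ⟨z, hz, hzc⟩ := hfar f hf
      have hall : ∀ v ∈ S f, (v ∈ S g ↔ z ∈ S g) := by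
        intro v hv
        refine hclos g v z ?_
        refine havoid f g (S f) ?_ hsg v z hv hz (hzc v hv)
        intro e he
        rw [Finset.mem_erase] at he
        exact hedge f e he.2 he.1
      by_cases hzg : z ∈ S g
      · left
        intro v hv
        exact (hall v hv).2 hzg
      · right; right
        rw [Finset.disjoint_left]
        intro v hv hv'
        exact hzg ((hall v hv).1 hv')
  obtain ⟨c, hc⟩ := laminar_colouring s t T S hlam _ (F \ T) le_rfl
  refine ⟨c, ?_⟩
  intro X f hXf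
  have hfT : f ∈ T ∩ dl s t X := by rw [hXf]; simp
  rw [Finset.mem_inter] at hfT
  -- the cut X agrees with the fundamental cut on F
  have hagree : ∀ e ∈ F, (e ∈ dl s t X ↔ e ∈ dl s t (S f)) := by
    intro e he
    rw [mem_dl, mem_dl]
    refine cut_eq_of_span s t T X (S f) ?_ e ?_
    · intro g hg
      rw [← mem_dl, ← mem_dl]
      have h1 : g ∈ dl s t X ↔ g = f := by
        constructor
        · intro h
          have : g ∈ T ∩ dl s t X := Finset.mem_inter.2 ⟨hg, h⟩
          rw [hXf] at this
          simpa using this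
        · rintro rfl; exact hfT.2
      have h2 : g ∈ dl s t (S f) ↔ g = f := by
        constructor
        · intro h
          have : g ∈ T ∩ dl s t (S f) := Finset.mem_inter.2 ⟨hg, h⟩
          rw [hcutT f hfT.1] at this
          simpa using this
        · rintro rfl; exact hself _ hfT.1
      rw [h1, h2]
    · rw [hsp]
      exact Submodule.subset_span ⟨e, by exact_mod_cast he, rfl⟩
  have heq : (F \ T) ∩ dl s t X = (F \ T) ∩ dl s t (S f) := by
    ext e
    rw [Finset.mem_inter, Finset.mem_inter]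
    constructor
    · rintro ⟨h1, h2⟩
      exact ⟨h1, (hagree e (Finset.mem_sdiff.1 h1).1).1 h2⟩
    · rintro ⟨h1, h2⟩
      exact ⟨h1, (hagree e (Finset.mem_sdiff.1 h1).1).2 h2⟩
  rw [heq]
  refine hc f hfT.1 ?_
  have h4 := h3 (S f) ⟨f, Finset.mem_inter.2 ⟨hTF hfT.1, hself f hfT.1⟩⟩
  have h5 : F ∩ dl s t (S f) ⊆ insert f ((F \ T) ∩ dl s t (S f)) := by
    intro e he
    rw [Finset.mem_inter] at he
    rw [Finset.mem_insert]
    by_cases hef : e = f
    · exact Or.inl hef
    · right
      rw [Finset.mem_inter, Finset.mem_sdiff]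
      refine ⟨⟨he.1, ?_⟩, he.2⟩
      intro h
      have : e ∈ T ∩ dl s t (S f) := Finset.mem_inter.2 ⟨h, he.2⟩
      rw [hcutT f hfT.1] at this
      exact hef (by simpa using this)
  have h6 := (Finset.card_le_card h5).trans (Finset.card_insert_le _ _)
  omega

/-- Nine classes. -/
theorem nine_classes (s t : E → V) (F : Finset E)
    (h3 : ∀ X : Finset V, (F ∩ dl s t X).Nonempty → 3 ≤ (F ∩ dl s t X).card) :
    ∃ κ : E → ℕ × Fin 3, (∀ e, κ e ∈ (Finset.Icc 1 3) ×ˢ (Finset.univ : Finset (Fin 3))) ∧
      ∀ (i : ℕ × Fin 3) (X : Finset V), i ∈ (Finset.Icc 1 3) ×ˢ (Finset.univ : Finset (Fin 3)) →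
        (F ∩ dl s t X).Nonempty → 2 ≤ ((F.filter (fun e => κ e ≠ i)) ∩ dl s t X).card := by
  classical
  obtain ⟨B, hB1, hB2, hB3⟩ := three_trees s t F (by
    intro X hX
    have h1 : F.filter (fun e => ¬ (s e ∈ X ↔ t e ∈ X)) = F ∩ dl s t X := by
      ext e
      rw [Finset.mem_filter, Finset.mem_inter, mem_dl]
    rw [h1]
    obtain ⟨e, he, he'⟩ := hX
    exact h3 X ⟨e, Finset.mem_inter.2 ⟨he, mem_dl.2 he'⟩⟩)
  have htree : ∀ q, 1 ≤ q → q ≤ 3 → ∃ T ⊆ B q, ∃ c : E → Fin 3, sp s t T = sp s t F ∧
      ∀ (X : Finset V) (f : E), T ∩ dl s t X = {f} →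
        ∃ e ∈ (F \ T) ∩ dl s t X, ∃ e' ∈ (F \ T) ∩ dl s t X, c e ≠ c e' := by
    intro q hq1 hq3
    obtain ⟨T, hT1, hT2, hT3⟩ := exists_forest s t (B q)
    have hsp := hT2.trans (hB2 q hq1 hq3)
    obtain ⟨c, hc⟩ := chord_colouring s t F T (hT1.trans (hB1 q)) hsp hT3 h3
    exact ⟨T, hT1, c, hsp, hc⟩
  choose! T hT1 c hTsp hc using htree
  choose qq hq1 hq3 hqB using hB3
  refine ⟨fun e => (qq e, c (qq e) e), ?_, ?_⟩
  · intro e
    rw [Finset.mem_product, Finset.mem_Icc]
    exact ⟨⟨hq1 e, hq3 e⟩, Finset.mem_univ _⟩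
  · rintro ⟨q, r⟩ X hi hX
    rw [Finset.mem_product, Finset.mem_Icc] at hi
    obtain ⟨⟨hqa, hqb⟩, -⟩ := hi
    simp only at hqa hqb
    have hTsub : T q ⊆ F := (hT1 q hqa hqb).trans (hB1 q)
    have hTin : T q ∩ dl s t X ⊆ (F.filter (fun e => (qq e, c (qq e) e) ≠ (q, r))) ∩ dl s t X := by
      intro e he
      rw [Finset.mem_inter] at he ⊢
      rw [Finset.mem_filter]
      refine ⟨⟨hTsub he.1, ?_⟩, he.2⟩
      intro h
      rw [Prod.mk.injEq] at h
      have := hT1 q hqa hqb he.1
      rw [← h.1] at this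
      exact hqB e this
    -- T q meets the cut
    have hne : (T q ∩ dl s t X).Nonempty := by
      by_contra hcon
      rw [Finset.not_nonempty_iff_eq_empty] at hcon
      obtain ⟨e, he⟩ := hX
      rw [Finset.mem_inter] at he
      have h1 : bd s t e ∈ sp s t (T q) := by
        rw [hTsp q hqa hqb]
        exact Submodule.subset_span ⟨e, by exact_mod_cast he.1, rfl⟩
      obtain ⟨J, hJ, hJbd⟩ := exists_subset_sum s t (T q) _ h1
      have h2 : cf X (bdS s t J) = 0 := by
        rw [cf_bdS]
        have : J ∩ dl s t X = ∅ := by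
          apply Finset.subset_empty.1
          rw [← hcon]
          exact Finset.inter_subset_inter_right hJ
        rw [this]; simp
      have h4 : bdS s t J = bd s t e := hJbd
      rw [h4, cf_bd, if_pos (mem_dl.1 he.2)] at h2
      exact absurd h2 (by decide)
    by_cases htwo : 2 ≤ (T q ∩ dl s t X).card
    · exact htwo.trans (Finset.card_le_card hTin)
    · have hone : (T q ∩ dl s t X).card = 1 := by
        have := Finset.card_pos.2 hne
        omega
      obtain ⟨f, hf⟩ := Finset.card_eq_one.1 hone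
      obtain ⟨e, he, e', he', hee'⟩ := hc q hqa hqb X f hf
      -- one of e, e' is not coloured r
      obtain ⟨g, hg, hgr⟩ : ∃ g ∈ (F \ T q) ∩ dl s t X, c q g ≠ r := by
        by_cases h1 : c q e = r
        · exact ⟨e', he', fun h2 => hee' (h1.trans h2.symm)⟩
        · exact ⟨e, he, h1⟩
      rw [Finset.mem_inter, Finset.mem_sdiff] at hg
      have hfT : f ∈ T q ∩ dl s t X := by rw [hf]; simp
      have hfg : f ≠ g := by
        rintro rfl
        exact hg.1.2 (Finset.mem_inter.1 hfT).1
      have hsub : ({f, g} : Finset E) ⊆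
          (F.filter (fun e => (qq e, c (qq e) e) ≠ (q, r))) ∩ dl s t X := by
        intro x hx
        rw [Finset.mem_insert, Finset.mem_singleton] at hx
        rcases hx with rfl | rfl
        · exact hTin hfT
        · rw [Finset.mem_inter, Finset.mem_filter]
          refine ⟨⟨hg.1.1, ?_⟩, hg.2⟩
          intro h
          rw [Prod.mk.injEq] at h
          apply hgr
          rw [← h.1]
          exact h.2
      have := Finset.card_le_card hsub
      rwa [Finset.card_pair hfg] at this

end Pool.Agent.H46.Faith
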