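import Mathlib
import Pool.Agent.H46.Faith.Dual

set_option autoImplicit false

/-! Admissible real vectors are nonnegative combinations of even sets. -/

namespace Pool.Agent.H46.Faith

open Module

set_option linter.unusedSectionVars false

variable {V E : Type} [Fintype V] [DecidableEq V] [Fintype E] [DecidableEq E]

/-- indicator of a set of edges -/
def ind (H : Finset E) : E → ℝ := fun e => if e ∈ H then 1 else 0

lemma sum_ind (γ : E → ℝ) (H : Finset E) : ∑ e, γ e * ind H e = ∑ e ∈ H, γ e := by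
  unfold ind
  simp

theorem mem_hull (s t : E → V) (x : E → ℝ) (hx : AdmR s t x) :
    x ∈ convexHull ℝ {y : E → ℝ | ∃ H : Finset E, bdS s t H = 0 ∧
      y = ((∑ e, x e) + 1) • ind H} := by
  classical
  set M : ℝ := (∑ e, x e) + 1 with hM
  set S : Set (E → ℝ) := {y | ∃ H : Finset E, bdS s t H = 0 ∧ y = M • ind H} with hS
  have hsx : 0 ≤ ∑ e, x e := Finset.sum_nonneg (fun e _ => hx.1 e)
  have hM0 : 0 < M := by rw [hM]; linarith
  have hfin : S.Finite := by
    have : S ⊆ Set.range (fun H : Finset E => M • ind H) := by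
      rintro y ⟨H, _, rfl⟩
      exact ⟨H, rfl⟩
    exact (Set.finite_range _).subset this
  by_contra hcon
  obtain ⟨f, u, hf1, hf2⟩ := geometric_hahn_banach_closed_point (convex_convexHull ℝ S)
    (hfin.isCompact_convexHull ℝ).isClosed hcon
  set γ : E → ℝ := fun e => f (fun j => if e = j then 1 else 0) with hγ
  have hfy : ∀ y : E → ℝ, f y = ∑ e, γ e * y e := by
    intro y
    have := LinearMap.pi_apply_eq_sum_univ (f : (E → ℝ) →ₗ[ℝ] ℝ) y
    rw [show f y = (f : (E → ℝ) →ₗ[ℝ] ℝ) y from rfl, this]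
    refine Finset.sum_congr rfl (fun e _ => ?_)
    rw [smul_eq_mul, mul_comm]
    rfl
  have hH : ∀ H : Finset E, bdS s t H = 0 → M * ∑ e ∈ H, γ e < u := by
    intro H hH
    have h1 := hf1 (M • ind H) (subset_convexHull ℝ S ⟨H, hH, rfl⟩)
    rw [hfy] at h1
    have h2 : ∑ e, γ e * (M • ind H) e = M * ∑ e ∈ H, γ e := by
      rw [← sum_ind γ H, Finset.mul_sum]
      refine Finset.sum_congr rfl (fun e _ => ?_)
      rw [Pi.smul_apply, smul_eq_mul]
      ring
    rwa [h2] at h1
  set U : ℝ := ∑ e, γ e * x e with hU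
  have hU1 : u < U := by rw [hU, ← hfy]; exact hf2
  have hu0 : 0 < u := by
    have := hH ∅ (bdS_empty s t)
    rwa [Finset.sum_empty, mul_zero] at this
  -- perturbed functional
  set c : E → ℝ := fun e => U / M - γ e with hc
  have hcH : ∀ H : Finset E, bdS s t H = 0 → 0 ≤ ∑ e ∈ H, c e := by
    intro H hH0
    rcases H.eq_empty_or_nonempty with h | h
    · rw [h, Finset.sum_empty]
    · have h1 : ∑ e ∈ H, c e = H.card * (U / M) - ∑ e ∈ H, γ e := by
        simp only [hc]
        rw [Finset.sum_sub_distrib, Finset.sum_const, nsmul_eq_mul]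
      rw [h1]
      have h2 : ∑ e ∈ H, γ e < U / M := by
        rw [lt_div_iff₀ hM0, mul_comm]
        exact (hH H hH0).trans hU1
      have h3 : (1 : ℝ) ≤ H.card := by exact_mod_cast Finset.card_pos.2 h
      have h4 : 0 ≤ U / M := div_nonneg (by linarith) hM0.le
      nlinarith
  have hcx : ∑ e, c e * x e < 0 := by
    have h1 : ∑ e, c e * x e = U / M * ∑ e, x e - U := by
      simp only [hc, sub_mul]
      rw [Finset.sum_sub_distrib, ← Finset.mul_sum]
    rw [h1]
    have h2 : U / M * ∑ e, x e < U := by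
      rw [div_mul_eq_mul_div, div_lt_iff₀ hM0, hM]
      nlinarith
    linarith
  -- integral functional
  obtain ⟨N, hN⟩ := exists_nat_gt ((∑ e, x e) / (-(∑ e, c e * x e)))
  rw [div_lt_iff₀ (by linarith)] at hN
  set c' : E → ℤ := fun e => 2 * ⌈(N : ℝ) * c e⌉ with hc'
  have hlow : ∀ e, 2 * ((N : ℝ) * c e) ≤ (c' e : ℝ) := by
    intro e
    simp only [hc']
    push_cast
    have := Int.le_ceil ((N : ℝ) * c e)
    linarith
  have hup : ∀ e, (c' e : ℝ) ≤ 2 * ((N : ℝ) * c e) + 2 := by
    intro e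
    simp only [hc']
    push_cast
    have := (Int.ceil_lt_add_one ((N : ℝ) * c e)).le
    linarith
  have hfinal := dual _ s t c' le_rfl
    (by
      intro H _
      refine Finset.even_sum _ (fun e _ => ?_)
      exact even_two_mul _)
    (by
      intro H hH0
      have h1 : (0 : ℝ) ≤ ∑ e ∈ H, (c' e : ℝ) := by
        calc (0 : ℝ) ≤ 2 * N * ∑ e ∈ H, c e := mul_nonneg (by positivity) (hcH H hH0)
          _ = ∑ e ∈ H, 2 * ((N : ℝ) * c e) := by
              rw [Finset.mul_sum]
              exact Finset.sum_congr rfl (fun e _ => by ring)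
          _ ≤ _ := Finset.sum_le_sum (fun e _ => hlow e)
      exact_mod_cast h1) x hx
  have h1 : ∑ e, (c' e : ℝ) * x e ≤ 2 * (N * ∑ e, c e * x e + ∑ e, x e) := by
    calc ∑ e, (c' e : ℝ) * x e ≤ ∑ e, (2 * ((N : ℝ) * c e) + 2) * x e :=
          Finset.sum_le_sum (fun e _ => mul_le_mul_of_nonneg_right (hup e) (hx.1 e))
      _ = _ := by
          rw [mul_add, Finset.mul_sum, Finset.mul_sum, Finset.mul_sum, ← Finset.sum_add_distrib]
          exact Finset.sum_congr rfl (fun e _ => by ring)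
  have h2 : (N : ℝ) * ∑ e, c e * x e + ∑ e, x e < 0 := by
    have : (N : ℝ) * -(∑ e, c e * x e) = -(N * ∑ e, c e * x e) := by ring
    rw [this] at hN
    linarith
  linarith

/-- Admissible real vectors are nonnegative combinations of at most `|E| + 1` even sets. -/
theorem frac_decomp (s t : E → V) (x : E → ℝ) (hx : AdmR s t x) :
    ∃ (k : ℕ) (H : Fin k → Finset E) (lam : Fin k → ℝ), k ≤ Fintype.card E + 1 ∧
      (∀ i, bdS s t (H i) = 0) ∧ (∀ i, 0 < lam i) ∧
      ∀ e, x e = ∑ i, if e ∈ H i then lam i else 0 := by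
  classical
  obtain ⟨ι, hι, z, w, hz, haff, hw, hw1, hwz⟩ := eq_pos_convex_span_of_mem_convexHull
    (mem_hull s t x hx)
  have hM0 : 0 < (∑ e, x e) + 1 := by
    have : 0 ≤ ∑ e, x e := Finset.sum_nonneg (fun e _ => hx.1 e)
    linarith
  have hz' : ∀ i, ∃ H : Finset E, bdS s t H = 0 ∧ z i = ((∑ e, x e) + 1) • ind H :=
    fun i => hz ⟨i, rfl⟩
  choose H hH1 hH2 using hz'
  have hcard : Fintype.card ι ≤ Fintype.card E + 1 := by
    refine haff.card_le_finrank_succ.trans ?_
    refine Nat.add_le_add_right ?_ _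
    refine (Submodule.finrank_le _).trans ?_
    rw [Module.finrank_fintype_fun_eq_card]
  set eq := Fintype.equivFin ι with heq
  refine ⟨Fintype.card ι, fun i => H (eq.symm i), fun i => ((∑ e, x e) + 1) * w (eq.symm i),
    hcard, fun i => hH1 _, fun i => mul_pos hM0 (hw _), ?_⟩
  intro e
  have h1 := congrFun hwz e
  rw [Finset.sum_apply] at h1
  conv_lhs => rw [← h1]
  rw [← Equiv.sum_comp eq.symm (fun i => (w i • z i) e)]
  refine Finset.sum_congr rfl (fun i _ => ?_)
  rw [Pi.smul_apply, hH2, Pi.smul_apply]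
  unfold ind
  split_ifs <;> simp [mul_comm]

end Pool.Agent.H46.Faith
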