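import Mathlib
import Pool.Agent.H46.Faith.Frac

set_option autoImplicit false

/-! Random rounding. -/

namespace Pool.Agent.H46.Faith

set_option linter.unusedSectionVars false

lemma exp_bern (p τ : ℝ) (hp0 : 0 ≤ p) (hτ : |τ| ≤ 1) :
    p * Real.exp (τ * (1 - p)) + (1 - p) * Real.exp (-(τ * p)) ≤ Real.exp (p * τ ^ 2) := by
  have h1 : p * Real.exp (τ * (1 - p)) + (1 - p) * Real.exp (-(τ * p)) =
      Real.exp (-(τ * p)) * (p * (Real.exp τ - 1) + 1) := by
    have : Real.exp (τ * (1 - p)) = Real.exp (-(τ * p)) * Real.exp τ := by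
      rw [← Real.exp_add]; congr 1; ring
    rw [this]; ring
  rw [h1]
  have h2 : p * (Real.exp τ - 1) + 1 ≤ Real.exp (p * (Real.exp τ - 1)) := Real.add_one_le_exp _
  have h3 : Real.exp τ - 1 - τ ≤ τ ^ 2 := (le_abs_self _).trans (Real.abs_exp_sub_one_sub_id_le hτ)
  calc Real.exp (-(τ * p)) * (p * (Real.exp τ - 1) + 1)
      ≤ Real.exp (-(τ * p)) * Real.exp (p * (Real.exp τ - 1)) :=
        mul_le_mul_of_nonneg_left h2 (Real.exp_pos _).le
    _ = Real.exp (p * (Real.exp τ - 1 - τ)) := by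
        rw [← Real.exp_add]; congr 1; ring
    _ ≤ Real.exp (p * τ ^ 2) := by
        rw [Real.exp_le_exp]
        exact mul_le_mul_of_nonneg_left h3 hp0

/-- exponential moment of a weighted sum of independent Bernoulli variables -/
lemma exp_moment {ι : Type} [Fintype ι] [DecidableEq ι] (A : Finset ι) (p : ι → ℝ)
    (hp0 : ∀ i, 0 ≤ p i) (hp1 : ∀ i, p i ≤ 1) (τ : ℝ) (hτ : |τ| ≤ 1) :
    ∑ S : Finset ι, ((∏ i ∈ S, p i) * ∏ i ∈ Sᶜ, (1 - p i)) *
      Real.exp (τ * (((S ∩ A).card : ℝ) - ∑ i ∈ A, p i)) ≤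
      Real.exp (τ ^ 2 * ∑ i ∈ A, p i) := by
  classical
  set f : ι → ℝ := fun i => p i * (if i ∈ A then Real.exp (τ * (1 - p i)) else 1) with hf
  set g : ι → ℝ := fun i => (1 - p i) * (if i ∈ A then Real.exp (-(τ * p i)) else 1) with hg
  have h1 : ∀ S : Finset ι, ((∏ i ∈ S, p i) * ∏ i ∈ Sᶜ, (1 - p i)) *
      Real.exp (τ * (((S ∩ A).card : ℝ) - ∑ i ∈ A, p i)) = (∏ i ∈ S, f i) * ∏ i ∈ Sᶜ, g i := by
    intro S
    simp only [hf, hg, Finset.prod_mul_distrib]
    have h2 : (∏ i ∈ S, (if i ∈ A then Real.exp (τ * (1 - p i)) else 1)) *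
        ∏ i ∈ Sᶜ, (if i ∈ A then Real.exp (-(τ * p i)) else 1) =
        Real.exp (τ * (((S ∩ A).card : ℝ) - ∑ i ∈ A, p i)) := by
      rw [← Finset.prod_filter, ← Finset.prod_filter, ← Real.exp_sum, ← Real.exp_sum,
        ← Real.exp_add]
      congr 1
      rw [Finset.filter_mem_eq_inter, Finset.filter_mem_eq_inter]
      have h3 : ∑ i ∈ A, p i = ∑ i ∈ S ∩ A, p i + ∑ i ∈ Sᶜ ∩ A, p i := by
        rw [← Finset.sum_union]
        · congr 1
          ext i
          simp only [Finset.mem_union, Finset.mem_inter, Finset.mem_compl]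
          tauto
        · rw [Finset.disjoint_left]
          intro i hi hi'
          rw [Finset.mem_inter] at hi hi'
          exact (Finset.mem_compl.1 hi'.1) hi.1
      rw [h3, ← Finset.mul_sum, Finset.sum_sub_distrib, Finset.sum_neg_distrib, ← Finset.mul_sum,
        Finset.sum_const, nsmul_eq_mul, mul_one]
      ring
    rw [← h2]; ring
  rw [Finset.sum_congr rfl (fun S _ => h1 S)]
  have h4 := Finset.prod_add f g (Finset.univ : Finset ι)
  rw [Finset.powerset_univ] at h4
  have h5 : ∑ S : Finset ι, (∏ i ∈ S, f i) * ∏ i ∈ Sᶜ, g i = ∏ i, (f i + g i) := by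
    rw [h4]
    refine Finset.sum_congr rfl (fun S _ => ?_)
    rw [Finset.compl_eq_univ_sdiff]
  rw [h5]
  calc ∏ i, (f i + g i) ≤ ∏ i, (if i ∈ A then Real.exp (τ ^ 2 * p i) else 1) := by
        refine Finset.prod_le_prod ?_ ?_
        · intro i _
          simp only [hf, hg]
          have a1 := hp0 i
          have a2 := hp1 i
          split_ifs
          · have := Real.exp_pos (τ * (1 - p i))
            have := Real.exp_pos (-(τ * p i))
            have : 0 ≤ 1 - p i := by linarith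
            positivity
          · linarith
        · intro i _
          simp only [hf, hg]
          split_ifs
          · have := exp_bern (p i) τ (hp0 i) hτ
            rw [mul_comm (p i) (τ ^ 2)] at this
            exact this
          · linarith
    _ = Real.exp (τ ^ 2 * ∑ i ∈ A, p i) := by
        rw [← Finset.prod_filter, ← Real.exp_sum, Finset.filter_mem_eq_inter, Finset.univ_inter,
          Finset.mul_sum]

theorem rounding {ι E : Type} [Fintype ι] [DecidableEq ι] [Fintype E] [DecidableEq E]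
    (A : E → Finset ι) (p : ι → ℝ)
    (hp0 : ∀ i, 0 ≤ p i) (hp1 : ∀ i, p i ≤ 1) (l : ℝ) (hl0 : 0 < l)
    (hl : 2 * (Fintype.card E : ℝ) ≤ Real.exp l) (Q : E → ℝ) (hQl : ∀ e, l ≤ Q e)
    (hQ : ∀ e, ∑ i ∈ A e, p i ≤ Q e) :
    ∃ S : Finset ι, ∀ e, |((S ∩ A e).card : ℝ) - ∑ i ∈ A e, p i| ≤ 2 * Real.sqrt (l * Q e) := by
  classical
  set P : Finset ι → ℝ := fun S => (∏ i ∈ S, p i) * ∏ i ∈ Sᶜ, (1 - p i) with hP
  have hP0 : ∀ S, 0 ≤ P S := by
    intro S
    refine mul_nonneg (Finset.prod_nonneg (fun i _ => hp0 i)) (Finset.prod_nonneg (fun i _ => ?_))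
    have := hp1 i
    linarith
  have hP1 : ∑ S : Finset ι, P S = 1 := by
    have h4 := Finset.prod_add p (fun i => 1 - p i) (Finset.univ : Finset ι)
    rw [Finset.powerset_univ] at h4
    have h5 : ∏ i : ι, (p i + (1 - p i)) = 1 := by
      refine Finset.prod_eq_one (fun i _ => by ring)
    rw [h5] at h4
    rw [h4]
    refine Finset.sum_congr rfl (fun S _ => ?_)
    simp only [hP]
    rw [Finset.compl_eq_univ_sdiff]
  have hQ0 : ∀ e, 0 < Q e := fun e => lt_of_lt_of_le hl0 (hQl e)
  set τ : E → ℝ := fun e => Real.sqrt (l / Q e) with hτ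
  have hτ0 : ∀ e, 0 < τ e := fun e => Real.sqrt_pos.2 (div_pos hl0 (hQ0 e))
  have hτ1 : ∀ e, |τ e| ≤ 1 := by
    intro e
    rw [abs_of_pos (hτ0 e)]
    simp only [hτ]
    rw [Real.sqrt_le_one]
    rw [div_le_one (hQ0 e)]
    exact hQl e
  have hτ2 : ∀ e, |-τ e| ≤ 1 := fun e => by rw [abs_neg]; exact hτ1 e
  have hτsq : ∀ e, τ e ^ 2 * Q e = l := by
    intro e
    simp only [hτ]
    rw [Real.sq_sqrt (div_pos hl0 (hQ0 e)).le, div_mul_cancel₀ _ (hQ0 e).ne']
  -- the potential
  set Y : Finset ι → E → ℝ := fun S e => ((S ∩ A e).card : ℝ) - ∑ i ∈ A e, p i with hY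
  set Φ : Finset ι → ℝ := fun S => ∑ e, (Real.exp (τ e * Y S e) + Real.exp (-τ e * Y S e)) *
    Real.exp (-l) with hΦ
  have hav : ∑ S : Finset ι, P S * Φ S ≤ 2 * Fintype.card E := by
    calc ∑ S : Finset ι, P S * Φ S
        = ∑ e, (∑ S : Finset ι, P S * Real.exp (τ e * Y S e) +
            ∑ S : Finset ι, P S * Real.exp (-τ e * Y S e)) * Real.exp (-l) := by
          simp only [hΦ]
          simp_rw [Finset.mul_sum]
          rw [Finset.sum_comm]
          refine Finset.sum_congr rfl (fun e _ => ?_)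
          rw [← Finset.sum_add_distrib, Finset.sum_mul]
          refine Finset.sum_congr rfl (fun S _ => ?_)
          ring
      _ ≤ ∑ e : E, (2 : ℝ) := by
          refine Finset.sum_le_sum (fun e _ => ?_)
          have h1 := exp_moment (A e) p hp0 hp1 (τ e) (hτ1 e)
          have h2 := exp_moment (A e) p hp0 hp1 (-τ e) (hτ2 e)
          have h3 : Real.exp (τ e ^ 2 * ∑ i ∈ A e, p i) ≤ Real.exp l := by
            rw [Real.exp_le_exp, ← hτsq e]
            exact mul_le_mul_of_nonneg_left (hQ e) (by positivity)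
          rw [neg_sq] at h2
          have h4 : Real.exp l * Real.exp (-l) = 1 := by
            rw [← Real.exp_add, add_neg_cancel, Real.exp_zero]
          have h5 : 0 < Real.exp (-l) := Real.exp_pos _
          calc (∑ S : Finset ι, P S * Real.exp (τ e * Y S e) +
              ∑ S : Finset ι, P S * Real.exp (-τ e * Y S e)) * Real.exp (-l)
              ≤ (Real.exp l + Real.exp l) * Real.exp (-l) := by
                refine mul_le_mul_of_nonneg_right ?_ h5.le
                exact add_le_add (h1.trans h3) (h2.trans h3)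
            _ = 2 := by rw [add_mul, h4]; norm_num
      _ = 2 * Fintype.card E := by
          rw [Finset.sum_const, Finset.card_univ, nsmul_eq_mul, mul_comm]
  obtain ⟨S, hS⟩ : ∃ S, Φ S ≤ 2 * Fintype.card E := by
    by_contra hcon
    push Not at hcon
    have h1 : ∑ S : Finset ι, P S * (2 * Fintype.card E : ℝ) < ∑ S : Finset ι, P S * Φ S := by
      have hex : ∃ S, 0 < P S := by
        by_contra h
        push Not at h
        have : ∑ S : Finset ι, P S ≤ 0 := Finset.sum_nonpos (fun S _ => h S)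
        linarith
      obtain ⟨S0, hS0⟩ := hex
      refine Finset.sum_lt_sum (fun S _ => mul_le_mul_of_nonneg_left (hcon S).le (hP0 S))
        ⟨S0, Finset.mem_univ _, mul_lt_mul_of_pos_left (hcon S0) hS0⟩
    rw [← Finset.sum_mul, hP1, one_mul] at h1
    linarith
  refine ⟨S, fun e => ?_⟩
  have h1 : (Real.exp (τ e * Y S e) + Real.exp (-τ e * Y S e)) * Real.exp (-l) ≤
      2 * Fintype.card E := by
    refine le_trans ?_ hS
    exact Finset.single_le_sum (f := fun e => (Real.exp (τ e * Y S e) +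
      Real.exp (-τ e * Y S e)) * Real.exp (-l)) (fun e _ => by positivity) (Finset.mem_univ e)
  have h2 : Real.exp (τ e * |Y S e|) ≤ Real.exp (τ e * Y S e) + Real.exp (-τ e * Y S e) := by
    rcases abs_cases (Y S e) with ⟨h, _⟩ | ⟨h, _⟩
    · rw [h]
      have := Real.exp_pos (-τ e * Y S e)
      linarith
    · rw [h]
      have := Real.exp_pos (τ e * Y S e)
      have h3 : τ e * -Y S e = -τ e * Y S e := by ring
      rw [h3]
      linarith
  have h3 : Real.exp (τ e * |Y S e|) ≤ Real.exp (2 * l) := by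
    have h4 : Real.exp (τ e * |Y S e|) * Real.exp (-l) ≤ Real.exp l :=
      (mul_le_mul_of_nonneg_right h2 (Real.exp_pos _).le).trans (h1.trans hl)
    have h5 := mul_le_mul_of_nonneg_right h4 (Real.exp_pos l).le
    rw [mul_assoc, ← Real.exp_add, neg_add_cancel, Real.exp_zero, mul_one, ← Real.exp_add] at h5
    rw [two_mul]
    exact h5
  rw [Real.exp_le_exp] at h3
  -- τ |Y| ≤ 2 l = 2 τ sqrt (l Q)
  have h6 : τ e * Real.sqrt (l * Q e) = l := by
    simp only [hτ]
    rw [← Real.sqrt_mul (div_pos hl0 (hQ0 e)).le]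
    have : l / Q e * (l * Q e) = l ^ 2 := by
      field_simp [(hQ0 e).ne']
    rw [this, Real.sqrt_sq hl0.le]
  have h7 : τ e * |Y S e| ≤ τ e * (2 * Real.sqrt (l * Q e)) := by
    calc τ e * |Y S e| ≤ 2 * l := h3
      _ = τ e * (2 * Real.sqrt (l * Q e)) := by
          rw [← mul_assoc, mul_comm (τ e) 2, mul_assoc, h6]
  exact le_of_mul_le_mul_left h7 (hτ0 e)

end Pool.Agent.H46.Faith
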