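import Mathlib
import Pool.Agent.H46.Faith.Round

set_option autoImplicit false

/-! Iterated rounding. -/

namespace Pool.Agent.H46.Faith

open Module

set_option linter.unusedSectionVars false

variable {V E : Type} [Fintype V] [DecidableEq V] [Fintype E] [DecidableEq E]

/-- indicator with natural values -/
def indN (H : Finset E) : E → ℕ := fun e => if e ∈ H then 1 else 0

/-- weights with a faithful cover -/
def Cov (s t : E → V) : AddSubmonoid (E → ℕ) :=
  AddSubmonoid.closure {y | ∃ H : Finset E, bdS s t H = 0 ∧ y = indN H}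

lemma indN_mem_Cov (s t : E → V) (H : Finset E) (h : bdS s t H = 0) : indN H ∈ Cov s t :=
  AddSubmonoid.subset_closure ⟨H, h, rfl⟩

/-- boundary of a weighting -/
def wbd (s t : E → V) (w : E → ℕ) : V → ZMod 2 := ∑ e, (w e : ZMod 2) • bd s t e

lemma wbd_add (s t : E → V) (a b : E → ℕ) : wbd s t (a + b) = wbd s t a + wbd s t b := by
  unfold wbd
  rw [← Finset.sum_add_distrib]
  refine Finset.sum_congr rfl (fun e _ => ?_)
  rw [Pi.add_apply, Nat.cast_add, add_smul]

lemma wbd_ind (s t : E → V) (H : Finset E) : wbd s t (indN H) = bdS s t H := by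
  unfold wbd bdS indN
  rw [← Finset.sum_filter_add_sum_filter_not Finset.univ (fun e => e ∈ H)]
  have h1 : ∑ e ∈ Finset.univ.filter (fun e => e ∉ H),
      ((if e ∈ H then 1 else 0 : ℕ) : ZMod 2) • bd s t e = 0 := by
    refine Finset.sum_eq_zero (fun e he => ?_)
    rw [if_neg (Finset.mem_filter.1 he).2]
    simp
  rw [h1, add_zero, Finset.filter_mem_eq_inter, Finset.univ_inter]
  refine Finset.sum_congr rfl (fun e he => ?_)
  rw [if_pos he]
  simp

lemma wbd_of_mem_Cov (s t : E → V) (u : E → ℕ) (h : u ∈ Cov s t) : wbd s t u = 0 := by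
  unfold Cov at h
  induction h using AddSubmonoid.closure_induction with
  | mem x hx =>
    obtain ⟨H, hH, rfl⟩ := hx
    rw [wbd_ind, hH]
  | zero => simp [wbd]
  | add x y _ _ hx hy => rw [wbd_add, hx, hy, add_zero]

/-- the size of the rounding error -/
noncomputable def noise (l x m : ℝ) : ℝ := 2 * Real.sqrt (l * max (min x m) l)

theorem one_step (s t : E → V) (w : E → ℕ) (hw : wbd s t w = 0) (T' : E → ℝ)
    (hx : AdmR s t (fun e => (w e : ℝ) - T' e)) (l : ℝ) (hl0 : 0 < l)
    (hl : 2 * (Fintype.card E : ℝ) ≤ Real.exp l)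
    (hT : ∀ e, (w e : ℝ) - T' e ≠ 0 → noise l ((w e : ℝ) - T' e) (Fintype.card E + 1) ≤ T' e) :
    ∃ w' u : E → ℕ, wbd s t w' = 0 ∧ u ∈ Cov s t ∧ w = w' + u ∧
      (∀ e, (w e : ℝ) - T' e = 0 → (w' e : ℝ) = T' e) ∧
      ∀ e, (w e : ℝ) - T' e ≠ 0 →
        |(w' e : ℝ) - T' e| ≤ noise l ((w e : ℝ) - T' e) (Fintype.card E + 1) := by
  classical
  obtain ⟨k, H, lam, hk, hH, hlam, hdec⟩ := frac_decomp s t _ hx
  set x : E → ℝ := fun e => (w e : ℝ) - T' e with hxdef
  set A : E → Finset (Fin k) := fun e => Finset.univ.filter (fun i => e ∈ H i) with hA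
  have hdec' : ∀ e, x e = ∑ i ∈ A e, lam i := by
    intro e
    rw [hxdef]
    simp only
    rw [hdec e, hA, Finset.sum_filter]
  set p : Fin k → ℝ := fun i => Int.fract (lam i) with hp
  have hp0 : ∀ i, 0 ≤ p i := fun i => Int.fract_nonneg _
  have hp1 : ∀ i, p i ≤ 1 := fun i => (Int.fract_lt_one _).le
  have hpl : ∀ i, p i ≤ lam i := by
    intro i
    simp only [hp]
    have h1 := Int.self_sub_floor (lam i)
    have h2 : (0 : ℝ) ≤ ⌊lam i⌋ := by
      exact_mod_cast Int.floor_nonneg.2 (hlam i).le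
    linarith
  have hQ : ∀ e, ∑ i ∈ A e, p i ≤ max (min (x e) (Fintype.card E + 1)) l := by
    intro e
    refine le_trans (le_min ?_ ?_) (le_max_left _ _)
    · rw [hdec' e]
      exact Finset.sum_le_sum (fun i _ => hpl i)
    · calc ∑ i ∈ A e, p i ≤ ∑ i ∈ A e, (1 : ℝ) := Finset.sum_le_sum (fun i _ => hp1 i)
        _ = (A e).card := by rw [Finset.sum_const, nsmul_eq_mul, mul_one]
        _ ≤ (k : ℝ) := by
            have := Finset.card_le_univ (A e)
            rw [Fintype.card_fin] at this
            exact_mod_cast this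
        _ ≤ _ := by exact_mod_cast hk
  obtain ⟨S, hS⟩ := rounding A p hp0 hp1 l hl0 hl
    (fun e => max (min (x e) (Fintype.card E + 1)) l) (fun e => le_max_right _ _) hQ
  set n : Fin k → ℕ := fun i => ⌊lam i⌋₊ + if i ∈ S then 1 else 0 with hn
  set u : E → ℕ := ∑ i, n i • indN (H i) with hu
  have huval : ∀ e, u e = ∑ i ∈ A e, n i := by
    intro e
    rw [hu, Finset.sum_apply, hA, Finset.sum_filter]
    refine Finset.sum_congr rfl (fun i _ => ?_)
    rw [Pi.smul_apply, smul_eq_mul, indN]
    split_ifs <;> simp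
  have herr : ∀ e, (u e : ℝ) - x e = ((S ∩ A e).card : ℝ) - ∑ i ∈ A e, p i := by
    intro e
    rw [huval, hdec' e]
    push_cast
    simp only [hn]
    push_cast
    rw [Finset.sum_add_distrib]
    have h1 : ∑ i ∈ A e, (if i ∈ S then (1 : ℝ) else 0) = ((S ∩ A e).card : ℝ) := by
      rw [← Finset.sum_filter, Finset.sum_const, nsmul_eq_mul, mul_one, Finset.filter_mem_eq_inter,
        Finset.inter_comm]
    rw [h1]
    have h2 : ∀ i, (lam i : ℝ) = (⌊lam i⌋₊ : ℝ) + p i := by
      intro i
      simp only [hp]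
      have h3 := Int.self_sub_floor (lam i)
      have h4 : ((⌊lam i⌋₊ : ℕ) : ℝ) = (⌊lam i⌋ : ℝ) := by
        rw [natCast_floor_eq_intCast_floor (hlam i).le]
      rw [h4]
      linarith
    have h5 : ∑ i ∈ A e, lam i = ∑ i ∈ A e, (⌊lam i⌋₊ : ℝ) + ∑ i ∈ A e, p i := by
      rw [← Finset.sum_add_distrib]
      exact Finset.sum_congr rfl (fun i _ => h2 i)
    rw [h5]
    ring
  have hzero : ∀ e, x e = 0 → u e = 0 := by
    intro e he
    rw [huval]
    have h1 : A e = ∅ := by
      by_contra hne
      have h2 : 0 < ∑ i ∈ A e, lam i :=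
        Finset.sum_pos (fun i _ => hlam i) (Finset.nonempty_iff_ne_empty.2 hne)
      rw [← hdec' e, he] at h2
      exact lt_irrefl _ h2
    rw [h1, Finset.sum_empty]
  have hnoise : ∀ e, |(u e : ℝ) - x e| ≤ noise l (x e) (Fintype.card E + 1) := by
    intro e
    rw [herr]
    exact hS e
  have huw : ∀ e, u e ≤ w e := by
    intro e
    by_cases h0 : x e = 0
    · rw [hzero e h0]; exact Nat.zero_le _
    · have h1 := hT e h0
      have h2 := (le_abs_self _).trans (hnoise e)
      have h3 : (u e : ℝ) ≤ w e := by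
        have : x e = (w e : ℝ) - T' e := rfl
        rw [this] at h2
        have h4 : noise l (x e) (Fintype.card E + 1) = noise l ((w e : ℝ) - T' e) (Fintype.card E + 1) := rfl
        rw [← this] at h2 h1
        linarith
      exact_mod_cast h3
  have huC : u ∈ Cov s t := by
    rw [hu]
    refine sum_mem (fun i _ => ?_)
    exact nsmul_mem (indN_mem_Cov s t (H i) (hH i)) _
  have hsplit : w = (fun e => w e - u e) + u := by
    funext e
    rw [Pi.add_apply]
    have := huw e
    omega
  have hcast : ∀ e, ((w e - u e : ℕ) : ℝ) - T' e = -((u e : ℝ) - x e) := by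
    intro e
    rw [Nat.cast_sub (huw e)]
    have : x e = (w e : ℝ) - T' e := rfl
    rw [this]
    ring
  refine ⟨fun e => w e - u e, u, ?_, huC, hsplit, ?_, ?_⟩
  · have h1 := wbd_add s t (fun e => w e - u e) u
    rw [← hsplit, hw, wbd_of_mem_Cov s t u huC, add_zero] at h1
    exact h1.symm
  · intro e he
    have h1 := hcast e
    have h0 : x e = 0 := he
    rw [hzero e h0, h0] at h1
    simp only at h1 ⊢
    push_cast at h1 ⊢
    rw [hzero e h0]
    simp only [Nat.sub_zero] at h1 ⊢
    linarith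
  · intro e _
    simp only
    rw [hcast e, abs_neg]
    exact hnoise e

/-- truncation of templates -/
lemma trunc_adm (s t : E → V) (c M : ℝ) (hc : 0 ≤ c) (hM : 0 ≤ M) (T : E → ℝ) (hT0 : ∀ e, 0 ≤ T e)
    (hT : ∀ X : Finset V, ∀ f ∈ dl s t X, c * T f ≤ ∑ e ∈ dl s t X, T e) :
    ∀ X : Finset V, ∀ f ∈ dl s t X, c * min (T f) M ≤ ∑ e ∈ dl s t X, min (T e) M := by
  intro X f hf
  by_cases hall : ∀ e ∈ dl s t X, T e ≤ M
  · rw [min_eq_left (hall f hf), Finset.sum_congr rfl (fun e he => min_eq_left (hall e he))]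
    exact hT X f hf
  · push Not at hall
    obtain ⟨e0, he0, hlt⟩ := hall
    obtain ⟨g, hg, hgmax⟩ := Finset.exists_max_image (dl s t X) T ⟨f, hf⟩
    have hgM : M < T g := lt_of_lt_of_le hlt (hgmax e0 he0)
    have hg0 : 0 < T g := lt_of_le_of_lt hM hgM
    calc c * min (T f) M ≤ c * M := mul_le_mul_of_nonneg_left (min_le_right _ _) hc
      _ = (M / T g) * (c * T g) := by field_simp
      _ ≤ (M / T g) * ∑ e ∈ dl s t X, T e :=
          mul_le_mul_of_nonneg_left (hT X g hg) (div_nonneg hM hg0.le)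
      _ = ∑ e ∈ dl s t X, (M / T g) * T e := Finset.mul_sum _ _ _
      _ ≤ _ := by
          refine Finset.sum_le_sum (fun e he => ?_)
          rw [div_mul_eq_mul_div]
          refine le_min ?_ ?_
          · rw [div_le_iff₀ hg0, mul_comm]
            exact mul_le_mul_of_nonneg_left hgM.le (hT0 e)
          · rw [div_le_iff₀ hg0]
            exact mul_le_mul_of_nonneg_left (hgmax e he) hM

theorem iterate (s t : E → V) (L D h : ℕ) (hL : 1 ≤ L) (hD : 2 ≤ D) (hh : 2 ≤ h)
    (hE : 2 * Fintype.card E ≤ 2 ^ L) (c : ℝ) (hc0 : 0 ≤ c)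
    (hc : 2 * (1 + 1 / (h : ℝ)) ≤ (1 - 1 / h - 1 / D) * c)
    (A : ℝ) (hA : A = 4 * ((h : ℝ) + 1) * h * D ^ 2 * L) (Pos : Finset E)
    (hfin : ∀ w : E → ℕ, wbd s t w = 0 → (∀ e ∈ Pos, |(w e : ℝ) - A| ≤ A / h) →
      (∀ e ∉ Pos, w e = 0) → w ∈ Cov s t) :
    ∀ (j : ℕ) (T : E → ℝ), (∀ e ∉ Pos, T e = 0) → (∀ e ∈ Pos, A * D * D ^ j ≤ T e) →
      (∀ e, min (T e) (Fintype.card E + 1) ≤ A * D ^ (2 * 2 ^ j)) →
      (∀ X : Finset V, ∀ f ∈ dl s t X, c * T f ≤ ∑ e ∈ dl s t X, T e) →
      ∀ w : E → ℕ, wbd s t w = 0 → (∀ e, |(w e : ℝ) - T e| ≤ T e / h) → w ∈ Cov s t := by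
  classical
  have hh' : (2 : ℝ) ≤ h := by exact_mod_cast hh
  have hD' : (2 : ℝ) ≤ D := by exact_mod_cast hD
  have hL' : (1 : ℝ) ≤ L := by exact_mod_cast hL
  have hh0 : (0 : ℝ) < h := by linarith
  have hD0 : (0 : ℝ) < D := by linarith
  have hL0 : (0 : ℝ) < L := by linarith
  have hA0 : 0 < A := by rw [hA]; positivity
  have hexp : 2 * (Fintype.card E : ℝ) ≤ Real.exp L := by
    have h1 : (2 * Fintype.card E : ℝ) ≤ 2 ^ L := by exact_mod_cast hE
    refine h1.trans ?_
    have h2 : (2 : ℝ) ≤ Real.exp 1 := by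
      have := Real.add_one_le_exp (1 : ℝ)
      linarith
    calc (2 : ℝ) ^ L ≤ (Real.exp 1) ^ L := pow_le_pow_left₀ (by norm_num) h2 L
      _ = Real.exp L := by rw [← Real.exp_nat_mul, mul_one]
  have hfac : 0 < 1 - 1 / (h : ℝ) - 1 / D := by
    by_contra hcon
    push Not at hcon
    have h1 : (1 - 1 / (h : ℝ) - 1 / D) * c ≤ 0 := mul_nonpos_of_nonpos_of_nonneg hcon hc0
    have h2 : (0 : ℝ) < 1 / h := by positivity
    linarith
  have common : ∀ (j : ℕ) (T : E → ℝ), (∀ e ∉ Pos, T e = 0) → (∀ e ∈ Pos, A * D * D ^ j ≤ T e) →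
      (∀ e, min (T e) (Fintype.card E + 1) ≤ A * D ^ (2 * 2 ^ j)) →
      (∀ X : Finset V, ∀ f ∈ dl s t X, c * T f ≤ ∑ e ∈ dl s t X, T e) →
      ∀ w : E → ℕ, wbd s t w = 0 → (∀ e, |(w e : ℝ) - T e| ≤ T e / h) →
      ∃ w' u : E → ℕ, wbd s t w' = 0 ∧ u ∈ Cov s t ∧ w = w' + u ∧
        ∀ e, |(w' e : ℝ) - min (T e) (A * D ^ (2 ^ j)) / D| ≤
          (min (T e) (A * D ^ (2 ^ j)) / D) / h := by
    intro j T hoff hpos hmin hcut w hw hwT
    set M : ℝ := A * D ^ (2 ^ j) with hM
    have hDj : (1 : ℝ) ≤ (D : ℝ) ^ j := one_le_pow₀ (by linarith)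
    have hD2j : (D : ℝ) ≤ (D : ℝ) ^ (2 ^ j) := by
      calc (D : ℝ) = (D : ℝ) ^ 1 := (pow_one _).symm
        _ ≤ (D : ℝ) ^ (2 ^ j) := pow_le_pow_right₀ (by linarith) Nat.one_le_two_pow
    have hMAD : A * D ≤ M := mul_le_mul_of_nonneg_left hD2j hA0.le
    have hM0 : 0 < M := lt_of_lt_of_le (by positivity) hMAD
    have hposAD : ∀ e ∈ Pos, A * D ≤ T e := by
      intro e he
      refine le_trans ?_ (hpos e he)
      have : 0 < A * D := by positivity
      nlinarith
    have hT0 : ∀ e, 0 ≤ T e := by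
      intro e
      by_cases he : e ∈ Pos
      · exact le_trans (by positivity) (hposAD e he)
      · rw [hoff e he]
    set T' : E → ℝ := fun e => min (T e) M / D with hT'
    have hT'0 : ∀ e, 0 ≤ T' e := fun e => div_nonneg (le_min (hT0 e) hM0.le) hD0.le
    have hT'le : ∀ e, T' e ≤ 1 / D * T e := by
      intro e
      simp only [hT']
      rw [div_mul_eq_mul_div, one_mul]
      exact div_le_div_of_nonneg_right (min_le_left _ _) hD0.le
    have hlow : ∀ e, (1 - 1 / (h : ℝ)) * T e ≤ w e := by
      intro e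
      have h1 := (abs_le.1 (hwT e)).1
      have h2 : T e / h = 1 / h * T e := by ring
      rw [h2] at h1
      linarith
    have hup : ∀ e, (w e : ℝ) ≤ (1 + 1 / (h : ℝ)) * T e := by
      intro e
      have h1 := (abs_le.1 (hwT e)).2
      have h2 : T e / h = 1 / h * T e := by ring
      rw [h2] at h1
      linarith
    have hxlow : ∀ e, (1 - 1 / (h : ℝ) - 1 / D) * T e ≤ (w e : ℝ) - T' e := by
      intro e
      have h1 := hlow e
      have h2 := hT'le e
      linarith
    have hxadm : AdmR s t (fun e => (w e : ℝ) - T' e) := by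
      refine ⟨fun e => le_trans (mul_nonneg hfac.le (hT0 e)) (hxlow e), ?_⟩
      intro X f hf
      calc 2 * ((w f : ℝ) - T' f) ≤ 2 * ((1 + 1 / (h : ℝ)) * T f) := by
            have h1 := hup f
            have h2 := hT'0 f
            linarith
        _ = 2 * (1 + 1 / (h : ℝ)) * T f := by ring
        _ ≤ (1 - 1 / h - 1 / D) * c * T f := mul_le_mul_of_nonneg_right hc (hT0 f)
        _ = (1 - 1 / h - 1 / D) * (c * T f) := by ring
        _ ≤ (1 - 1 / h - 1 / D) * ∑ e ∈ dl s t X, T e :=
            mul_le_mul_of_nonneg_left (hcut X f hf) hfac.le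
        _ = ∑ e ∈ dl s t X, (1 - 1 / (h : ℝ) - 1 / D) * T e := Finset.mul_sum _ _ _
        _ ≤ _ := Finset.sum_le_sum (fun e _ => hxlow e)
    have hT'A : ∀ e ∈ Pos, A ≤ T' e := by
      intro e he
      simp only [hT']
      rw [le_div_iff₀ hD0]
      exact le_min (hposAD e he) hMAD
    have hxPos : ∀ e, (w e : ℝ) - T' e ≠ 0 → e ∈ Pos := by
      intro e hne
      by_contra he
      apply hne
      have h1 := hup e
      rw [hoff e he, mul_zero] at h1
      have h2 : (0 : ℝ) ≤ w e := Nat.cast_nonneg _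
      have h3 : T' e = 0 := by
        simp only [hT']
        rw [hoff e he, min_eq_left hM0.le, zero_div]
      rw [h3]
      linarith
    have hnoise : ∀ e ∈ Pos, noise L ((w e : ℝ) - T' e) (Fintype.card E + 1) ≤ T' e / h := by
      intro e he
      unfold noise
      have hz0 : 0 ≤ T' e / (2 * h) := div_nonneg (hT'0 e) (by positivity)
      have key : (L : ℝ) * max (min ((w e : ℝ) - T' e) (Fintype.card E + 1)) L ≤
          (T' e / (2 * h)) ^ 2 := by
        have hLL : (L : ℝ) * L ≤ (T' e / (2 * h)) ^ 2 := by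
          have h1 : (L : ℝ) ≤ T' e / (2 * h) := by
            rw [le_div_iff₀ (by positivity)]
            refine le_trans ?_ (hT'A e he)
            rw [hA]
            have h2 : (1 : ℝ) ≤ D ^ 2 := one_le_pow₀ (by linarith)
            have h3 : (L : ℝ) * (2 * h) * 1 ≤ (L : ℝ) * (2 * h) * (2 * (h + 1) * D ^ 2) := by
              refine mul_le_mul_of_nonneg_left ?_ (by positivity)
              nlinarith
            calc (L : ℝ) * (2 * h) = (L : ℝ) * (2 * h) * 1 := by ring
              _ ≤ (L : ℝ) * (2 * h) * (2 * (h + 1) * D ^ 2) := h3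
              _ = 4 * ((h : ℝ) + 1) * h * D ^ 2 * L := by ring
          rw [sq]
          exact mul_le_mul h1 h1 hL0.le hz0
        rw [mul_max_of_nonneg _ _ hL0.le]
        refine max_le ?_ hLL
        have hxle : (w e : ℝ) - T' e ≤ (1 + 1 / (h : ℝ)) * T e := by
          have h1 := hup e
          have h2 := hT'0 e
          linarith
        have h1h : (0 : ℝ) < 1 / h := by positivity
        have hA2 : A = 4 * h ^ 2 * D ^ 2 * (L * (1 + 1 / (h : ℝ))) := by
          rw [hA]
          field_simp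
        rcases le_or_gt (T e) M with hTM | hTM
        · have h1 : T' e = T e / D := by
            simp only [hT']
            rw [min_eq_left hTM]
          have hTA : A ≤ T e := by
            refine le_trans ?_ (hposAD e he)
            nlinarith
          calc (L : ℝ) * min ((w e : ℝ) - T' e) (Fintype.card E + 1)
              ≤ L * ((1 + 1 / (h : ℝ)) * T e) :=
                mul_le_mul_of_nonneg_left ((min_le_left _ _).trans hxle) hL0.le
            _ = A * T e / (4 * h ^ 2 * D ^ 2) := by
                rw [hA2]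
                field_simp
            _ ≤ T e * T e / (4 * h ^ 2 * D ^ 2) := by
                refine div_le_div_of_nonneg_right ?_ (by positivity)
                exact mul_le_mul_of_nonneg_right hTA (hT0 e)
            _ = (T' e / (2 * h)) ^ 2 := by
                rw [h1]
                field_simp
                ring
        · have h1 : T' e = M / D := by
            simp only [hT']
            rw [min_eq_right hTM.le]
          have h2 : min ((w e : ℝ) - T' e) (Fintype.card E + 1) ≤
              (1 + 1 / (h : ℝ)) * (A * D ^ (2 * 2 ^ j)) := by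
            refine le_trans ?_ (mul_le_mul_of_nonneg_left (hmin e) (by linarith))
            rw [mul_min_of_nonneg _ _ (by linarith : (0 : ℝ) ≤ 1 + 1 / h)]
            refine min_le_min hxle ?_
            have : (0 : ℝ) ≤ (Fintype.card E : ℝ) + 1 := by positivity
            nlinarith
          calc (L : ℝ) * min ((w e : ℝ) - T' e) (Fintype.card E + 1)
              ≤ L * ((1 + 1 / (h : ℝ)) * (A * D ^ (2 * 2 ^ j))) :=
                mul_le_mul_of_nonneg_left h2 hL0.le
            _ = A * (A * D ^ (2 * 2 ^ j)) / (4 * h ^ 2 * D ^ 2) := by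
                conv_rhs => rw [hA2]
                field_simp
                rw [hA2]
                field_simp
            _ = (T' e / (2 * h)) ^ 2 := by
                rw [h1, hM, pow_mul']
                field_simp
                ring
      have h3 : Real.sqrt ((L : ℝ) * max (min ((w e : ℝ) - T' e) (Fintype.card E + 1)) L) ≤
          T' e / (2 * h) := by
        rw [← Real.sqrt_sq hz0]
        exact Real.sqrt_le_sqrt key
      calc 2 * Real.sqrt ((L : ℝ) * max (min ((w e : ℝ) - T' e) (Fintype.card E + 1)) L)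
          ≤ 2 * (T' e / (2 * h)) := by linarith
        _ = T' e / h := by field_simp
    have hh1 : ∀ e, T' e / h ≤ T' e := by
      intro e
      exact div_le_self (hT'0 e) (by linarith)
    obtain ⟨w', u, h1, h2, h3, h4, h5⟩ := one_step s t w hw T' hxadm L hL0 hexp
      (fun e he => (hnoise e (hxPos e he)).trans (hh1 e))
    refine ⟨w', u, h1, h2, h3, ?_⟩
    intro e
    by_cases he : (w e : ℝ) - T' e = 0
    · have h6 := h4 e he
      change |(w' e : ℝ) - T' e| ≤ T' e / h
      rw [h6, sub_self, abs_zero]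
      exact div_nonneg (hT'0 e) hh0.le
    · exact (h5 e he).trans (hnoise e (hxPos e he))
  intro j
  induction j with
  | zero =>
    intro T hoff hpos hmin hcut w hw hwT
    obtain ⟨w', u, h1, h2, h3, h4⟩ := common 0 T hoff hpos hmin hcut w hw hwT
    have h5 : w' ∈ Cov s t := by
      refine hfin w' h1 ?_ ?_
      · intro e he
        have h6 := h4 e
        have h7 : A * D * D ^ 0 ≤ T e := hpos e he
        rw [pow_zero, mul_one] at h7
        rw [pow_zero, pow_one, min_eq_right h7, mul_div_assoc, div_self hD0.ne', mul_one] at h6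
        exact h6
      · intro e he
        have h6 := h4 e
        rw [hoff e he, min_eq_left (by positivity), zero_div, zero_div, sub_zero] at h6
        have h7 := le_antisymm h6 (abs_nonneg _)
        rw [abs_eq_zero] at h7
        exact_mod_cast h7
    rw [h3]
    exact add_mem h5 h2
  | succ j ih =>
    intro T hoff hpos hmin hcut w hw hwT
    obtain ⟨w', u, h1, h2, h3, h4⟩ := common (j + 1) T hoff hpos hmin hcut w hw hwT
    have hT0 : ∀ e, 0 ≤ T e := by
      intro e
      by_cases he : e ∈ Pos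
      · exact le_trans (by positivity) (hpos e he)
      · rw [hoff e he]
    have hM0 : 0 ≤ A * (D : ℝ) ^ (2 ^ (j + 1)) := by positivity
    have hpow : (D : ℝ) ^ (2 ^ (j + 1)) = D ^ (2 * 2 ^ j) := by
      congr 1
      rw [pow_succ]; ring
    have h5 : w' ∈ Cov s t := by
      refine ih (fun e => min (T e) (A * D ^ (2 ^ (j + 1))) / D) ?_ ?_ ?_ ?_ w' h1 h4
      · intro e he
        rw [hoff e he, min_eq_left hM0, zero_div]
      · intro e he
        rw [le_div_iff₀ hD0]
        refine le_min ?_ ?_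
        · refine le_trans (le_of_eq ?_) (hpos e he)
          rw [pow_succ]; ring
        · have h6 : (D : ℝ) ^ (j + 2) ≤ D ^ (2 ^ (j + 1)) := by
            refine pow_le_pow_right₀ (by linarith) ?_
            exact Nat.lt_two_pow_self
          calc A * D * D ^ j * D = A * D ^ (j + 2) := by ring
            _ ≤ A * D ^ (2 ^ (j + 1)) := mul_le_mul_of_nonneg_left h6 hA0.le
      · intro e
        refine (min_le_left _ _).trans ?_
        rw [← hpow]
        refine (div_le_self (le_min (hT0 e) hM0) (by linarith)).trans (min_le_right _ _)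
      · intro X f hf
        have h6 := trunc_adm s t c (A * D ^ (2 ^ (j + 1))) hc0 hM0 T hT0 hcut X f hf
        rw [← Finset.sum_div, ← mul_div_assoc]
        exact div_le_div_of_nonneg_right h6 hD0.le
    rw [h3]
    exact add_mem h5 h2

end Pool.Agent.H46.Faith
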