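import Mathlib
import Pool.Agent.H46.Faith.Orient
import Pool.Agent.H46.Faith.Iter

set_option autoImplicit false

/-! Covers of bridgeless graphs in which every edge lies four times, respectively six times. -/

namespace Pool.Agent.H46.Faith

open Module

set_option linter.unusedSectionVars false

variable {V E : Type} [Fintype V] [DecidableEq V] [Fintype E] [DecidableEq E]

lemma bdS_symmDiff (s t : E → V) (A B : Finset E) :
    bdS s t (symmDiff A B) = bdS s t A + bdS s t B := by
  have h1 : symmDiff A B = (A \ B) ∪ (B \ A) := by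
    rw [Finset.symmDiff_def]
  have hd : Disjoint (A \ B) (B \ A) := by
    rw [Finset.disjoint_left]
    intro e he he'
    exact (Finset.mem_sdiff.1 he).2 (Finset.mem_sdiff.1 he').1
  have hA : bdS s t A = bdS s t (A \ B) + bdS s t (A ∩ B) := by
    rw [← bdS_union s t (A \ B) (A ∩ B), Finset.sdiff_union_inter]
    rw [Finset.disjoint_left]
    intro e he he'
    exact (Finset.mem_sdiff.1 he).2 (Finset.mem_inter.1 he').2
  have hB : bdS s t B = bdS s t (B \ A) + bdS s t (A ∩ B) := by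
    rw [Finset.inter_comm, ← bdS_union s t (B \ A) (B ∩ A), Finset.sdiff_union_inter]
    rw [Finset.disjoint_left]
    intro e he he'
    exact (Finset.mem_sdiff.1 he).2 (Finset.mem_inter.1 he').2
  rw [h1, bdS_union s t _ _ hd, hA, hB]
  calc bdS s t (A \ B) + bdS s t (B \ A) =
      bdS s t (A \ B) + bdS s t (B \ A) + 0 := (add_zero _).symm
    _ = bdS s t (A \ B) + bdS s t (B \ A) + (bdS s t (A ∩ B) + bdS s t (A ∩ B)) := by rw [dbl]
    _ = _ := by abel

lemma symm_mem_Cov (s t : E → V) (A B : Finset E) (hA : bdS s t A = 0) (hB : bdS s t B = 0) :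
    indN (symmDiff A B) ∈ Cov s t :=
  indN_mem_Cov s t _ (by rw [bdS_symmDiff, hA, hB, add_zero])

/-- Every bridgeless graph has a list of even subgraphs covering each edge four times. -/
theorem four_cover (s t : E → V) (F : Finset E) (hbr : ∀ X : Finset V, (F ∩ dl s t X).card ≠ 1) :
    4 • indN F ∈ Cov s t := by
  classical
  obtain ⟨Z, hZ, hZ0, ψ, hψF, hψ0, hψ⟩ := six_flow _ s t F le_rfl hbr
  obtain ⟨D1, D2, h1, h2, h3, h4, h5⟩ := two_even s t ψ hψ0
  have h6 : bdS s t (symmDiff D1 D2) = 0 := by rw [bdS_symmDiff, h1, h2, add_zero]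
  have hsum : 4 • indN F = indN Z + indN D1 + indN D2 + indN (symmDiff D1 D2) +
      indN (symmDiff D1 Z) + indN (symmDiff D2 Z) + indN (symmDiff (symmDiff D1 D2) Z) := by
    funext e
    simp only [Pi.smul_apply, Pi.add_apply, indN, Finset.mem_symmDiff, smul_eq_mul]
    by_cases heF : e ∈ F
    · have h7 : e ∈ Z ∨ e ∈ D1 ∨ e ∈ D2 := by
        by_cases heZ : e ∈ Z
        · exact Or.inl heZ
        · exact Or.inr (h5 e (hψ e heF heZ))
      by_cases a1 : e ∈ Z <;> by_cases a2 : e ∈ D1 <;> by_cases a3 : e ∈ D2 <;>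
        simp [heF, a1, a2, a3]
      exact absurd h7 (by simp [a1, a2, a3])
    · have a1 : e ∉ Z := fun h => heF (hZ h)
      have a2 : e ∉ D1 := fun h => h3 e h (hψF e heF)
      have a3 : e ∉ D2 := fun h => h4 e h (hψF e heF)
      simp [heF, a1, a2, a3]
  rw [hsum]
  exact add_mem (add_mem (add_mem (add_mem (add_mem (add_mem (indN_mem_Cov s t _ hZ0)
    (indN_mem_Cov s t _ h1)) (indN_mem_Cov s t _ h2)) (indN_mem_Cov s t _ h6))
    (symm_mem_Cov s t _ _ h1 hZ0)) (symm_mem_Cov s t _ _ h2 hZ0)) (symm_mem_Cov s t _ _ h6 hZ0)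

/-- Every bridgeless graph has a list of even subgraphs covering each edge six times. -/
theorem six_cover (s t : E → V) (F : Finset E) (hbr : ∀ X : Finset V, (F ∩ dl s t X).card ≠ 1) :
    6 • indN F ∈ Cov s t := by
  classical
  obtain ⟨Z, hZ, hZ0, ψ, hψF, hψ0, hψ⟩ := six_flow _ s t F le_rfl hbr
  obtain ⟨η, hη0, hη⟩ := even_flow s t Z hZ0
  have hall : ∀ c : ZMod 3, ∃ D1 D2 : Finset E, bdS s t D1 = 0 ∧ bdS s t D2 = 0 ∧
      (∀ e ∈ D1, ψ e + c * η e ≠ 0) ∧ (∀ e ∈ D2, ψ e + c * η e ≠ 0) ∧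
      ∀ e, ψ e + c * η e ≠ 0 → e ∈ D1 ∨ e ∈ D2 := by
    intro c
    exact two_even s t (ψ + c • η) (by rw [dv_add, dv_smul, hψ0, hη0, smul_zero, add_zero])
  choose D1 D2 h1 h2 h3 h4 h5 using hall
  set T : ZMod 3 → (E → ℕ) := fun c => indN (symmDiff (D1 c) Z) + indN (symmDiff (D2 c) Z) +
    indN (symmDiff (symmDiff (D1 c) (D2 c)) Z) with hT
  have hTmem : ∀ c, T c ∈ Cov s t := by
    intro c
    have h6 : bdS s t (symmDiff (D1 c) (D2 c)) = 0 := by rw [bdS_symmDiff, h1, h2, add_zero]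
    exact add_mem (add_mem (symm_mem_Cov s t _ _ (h1 c) hZ0) (symm_mem_Cov s t _ _ (h2 c) hZ0))
      (symm_mem_Cov s t _ _ h6 hZ0)
  have hTval : ∀ c e, T c e = if e ∈ Z then (if ψ e + c * η e = 0 then 3 else 1)
      else (if ψ e + c * η e = 0 then 0 else 2) := by
    intro c e
    simp only [hT, Pi.add_apply, indN, Finset.mem_symmDiff]
    by_cases h0 : ψ e + c * η e = 0
    · have a2 : e ∉ D1 c := fun h => h3 c e h h0
      have a3 : e ∉ D2 c := fun h => h4 c e h h0
      by_cases a1 : e ∈ Z <;> simp [a1, a2, a3, h0]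
    · have h7 := h5 c e h0
      by_cases a1 : e ∈ Z <;> by_cases a2 : e ∈ D1 c <;> by_cases a3 : e ∈ D2 c <;>
        simp [a1, a2, a3, h0]
      · exact absurd h7 (by simp [a2, a3])
      · exact absurd h7 (by simp [a2, a3])
  have hsum : 6 • indN F = indN Z + T 0 + T 1 + T 2 := by
    funext e
    rw [Pi.add_apply, Pi.add_apply, Pi.add_apply, hTval, hTval, hTval, Pi.smul_apply]
    unfold indN
    rw [smul_eq_mul]
    by_cases heZ : e ∈ Z
    · have heF : e ∈ F := hZ heZ
      have hr : η e ≠ 0 := (hη e).2 heZ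
      simp only [if_pos heZ, if_pos heF]
      have hdec : ∀ p r : ZMod 3, r ≠ 0 → 6 * 1 = 1 + (if p + 0 * r = 0 then 3 else 1) +
          (if p + 1 * r = 0 then 3 else 1) + (if p + 2 * r = 0 then 3 else 1) := by decide
      exact hdec _ _ hr
    · have hr : η e = 0 := by
        by_contra h
        exact heZ ((hη e).1 h)
      simp only [if_neg heZ, hr, mul_zero, add_zero]
      by_cases heF : e ∈ F
      · rw [if_pos heF, if_neg (hψ e heF heZ)]
      · rw [if_neg heF, if_pos (hψF e heF)]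
  rw [hsum]
  exact add_mem (add_mem (add_mem (indN_mem_Cov s t _ hZ0) (hTmem 0)) (hTmem 1)) (hTmem 2)

end Pool.Agent.H46.Faith
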