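import Mathlib
import Pool.Agent.H46.Faith.Iter
import Pool.Agent.H46.Faith.Main

set_option autoImplicit false

/-! Large weights: a factor larger than four suffices. -/

namespace Pool.Agent.H46.Faith

open Module

set_option linter.unusedSectionVars false

variable {V E : Type} [Fintype V] [DecidableEq V] [Fintype E] [DecidableEq E]

lemma cut_eq_dl (s t : E → V) (X : Finset V) :
    Finset.univ.filter (fun e => decide (s e ∈ X) ≠ decide (t e ∈ X)) = dl s t X := by
  ext e
  rw [mem_dl, Finset.mem_filter]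
  simp only [Finset.mem_univ, true_and, ne_eq, decide_eq_decide]

lemma cf_wbd (s t : E → V) (X : Finset V) (w : E → ℕ) :
    cf X (wbd s t w) = ((∑ e ∈ dl s t X, w e : ℕ) : ZMod 2) := by
  unfold wbd
  rw [map_sum]
  have h1 : ∀ e, cf X ((w e : ZMod 2) • bd s t e) = if e ∈ dl s t X then (w e : ZMod 2) else 0 := by
    intro e
    rw [map_smul, cf_bd, smul_eq_mul]
    by_cases h : e ∈ dl s t X
    · rw [if_pos h, if_pos (mem_dl.1 h), mul_one]
    · rw [if_neg h, if_neg (fun h' => h (mem_dl.2 h')), mul_zero]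
  rw [Finset.sum_congr rfl (fun e _ => h1 e), ← Finset.sum_filter, Finset.filter_mem_eq_inter,
    Finset.univ_inter]
  push_cast
  rfl

lemma even_of_wbd (s t : E → V) (X : Finset V) (w : E → ℕ) (h : wbd s t w = 0) :
    Even (∑ e ∈ dl s t X, w e) := by
  have h1 := cf_wbd s t X w
  rw [h, map_zero, eq_comm, ZMod.natCast_eq_zero_iff_even] at h1
  exact h1

lemma wbd_of_even (s t : E → V) (w : E → ℕ) (h : ∀ X, Even (∑ e ∈ dl s t X, w e)) :
    wbd s t w = 0 := by
  refine bd_weight_zero s t w (fun X => ?_)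
  rw [cut_eq_dl]
  exact h X

lemma cov_of_family (s t : E → V) (w : E → ℕ) (N : ℕ) (H : ℕ → Finset E)
    (h1 : ∀ i, 1 ≤ i → i ≤ N → ∑ e ∈ H i, bd s t e = 0) (h2 : ∀ e, use H N e = w e) :
    w ∈ Cov s t := by
  have h3 : w = ∑ i ∈ Finset.Icc 1 N, indN (H i) := by
    funext e
    rw [← h2 e, Finset.sum_apply]
    unfold use indN
    rw [Finset.card_filter]
  rw [h3]
  refine sum_mem (fun i hi => ?_)
  rw [Finset.mem_Icc] at hi
  exact indN_mem_Cov s t _ (h1 i hi.1 hi.2)

theorem list_of_cov (s t : E → V) (w : E → ℕ) (h : w ∈ Cov s t) :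
    ∃ L : List (Finset E), (∀ S ∈ L, ∀ v : V,
        Even ((S.filter (fun e => s e = v)).card + (S.filter (fun e => t e = v)).card)) ∧
      ∀ e : E, (L.filter (fun S => decide (e ∈ S))).length = w e := by
  unfold Cov at h
  induction h using AddSubmonoid.closure_induction with
  | mem x hx =>
    obtain ⟨H, hH, rfl⟩ := hx
    refine ⟨[H], ?_, ?_⟩
    · intro S hS v
      rw [List.mem_singleton] at hS
      subst hS
      have h3 := congrFun hH v
      rw [bdS, bd_sum_apply, Pi.zero_apply, ZMod.natCast_eq_zero_iff_even] at h3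
      exact h3
    · intro e
      unfold indN
      by_cases he : e ∈ H
      · simp [he]
      · simp [he]
  | zero => exact ⟨[], by simp, by simp⟩
  | add x y _ _ hx hy =>
    obtain ⟨L1, h1, h2⟩ := hx
    obtain ⟨L2, h3, h4⟩ := hy
    refine ⟨L1 ++ L2, ?_, ?_⟩
    · intro S hS
      rcases List.mem_append.1 hS with h | h
      · exact h1 S h
      · exact h3 S h
    · intro e
      rw [List.filter_append, List.length_append, h2, h4, Pi.add_apply]

open Classical in
/-- Nearly constant weights when every cut has at least five edges. -/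
theorem final_five (s t : E → V) (A : ℕ) (hA : 3 ≤ A) (Pos : Finset E)
    (h5 : ∀ X : Finset V, (∃ f ∈ dl s t X, f ∈ Pos) → 5 ≤ ((dl s t X).filter (· ∈ Pos)).card)
    (w : E → ℕ) (hw : wbd s t w = 0) (hpos : ∀ e ∈ Pos, 4 * A ≤ 5 * w e ∧ 5 * w e ≤ 6 * A)
    (hoff : ∀ e ∉ Pos, w e = 0) : w ∈ Cov s t := by
  classical
  obtain ⟨H, h1, h2⟩ := main s t w (fun e => if e ∈ Pos then 2 * A else 0) (2 * A)
    (by
      intro e
      by_cases he : e ∈ Pos
      · simp only [if_pos he]
        have := hpos e he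
        omega
      · simp only [if_neg he]
        rw [hoff e he])
    (by intro e; split_ifs <;> omega)
    (by
      intro X
      rw [cut_eq_dl]
      exact even_of_wbd s t X w hw)
    (by
      intro X f hf _
      rw [cut_eq_dl] at hf ⊢
      by_cases hfP : f ∈ Pos
      · simp only [if_pos hfP]
        have h6 := h5 X ⟨f, hf, hfP⟩
        have h7 : ((dl s t X).filter (· ∈ Pos)).card * (8 * A) ≤
            5 * ∑ e ∈ (dl s t X).filter (fun e => (if e ∈ Pos then 2 * A else 0) = 2 * A),
              amt (w e) (if e ∈ Pos then 2 * A else 0) := by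
          rw [Finset.mul_sum]
          have h8 : (dl s t X).filter (fun e => (if e ∈ Pos then 2 * A else 0) = 2 * A) =
              (dl s t X).filter (· ∈ Pos) := by
            refine Finset.filter_congr (fun e _ => ?_)
            by_cases he : e ∈ Pos
            · simp [he]
            · rw [if_neg he]
              exact iff_of_false (by omega) he
          rw [h8, ← smul_eq_mul, ← Finset.sum_const]
          refine Finset.sum_le_sum (fun e he => ?_)
          rw [Finset.mem_filter] at he
          have := hpos e he.2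
          rw [if_pos he.2]
          unfold amt
          omega
        have h9 : 5 * (8 * A) ≤ ((dl s t X).filter (· ∈ Pos)).card * (8 * A) :=
          Nat.mul_le_mul_right _ h6
        omega
      · simp only [if_neg hfP]
        omega)
  exact cov_of_family s t w _ H h1 h2

/-- Large weights, factor larger than four. -/
theorem large_four (s t : E → V) (w : E → ℕ) (L : ℕ) (hL : 1 ≤ L)
    (hE : 2 * Fintype.card E ≤ 2 ^ L) (heven : ∀ X, Even (∑ e ∈ dl s t X, w e))
    (hbig : ∀ e, w e = 0 ∨ 18432 * L ^ 3 ≤ w e)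
    (hcut : ∀ X : Finset V, ∀ f ∈ dl s t X, 0 < w f → 4 * w f < ∑ e ∈ dl s t X, w e) :
    w ∈ Cov s t := by
  classical
  set Pos : Finset E := Finset.univ.filter (fun e => 0 < w e) with hPos
  have hmem : ∀ e, e ∈ Pos ↔ 0 < w e := by intro e; simp [hPos]
  have h5 : ∀ X : Finset V, (∃ f ∈ dl s t X, f ∈ Pos) →
      5 ≤ ((dl s t X).filter (· ∈ Pos)).card := by
    rintro X ⟨f0, hf0, hf0P⟩
    obtain ⟨f, hf, hfmax⟩ := Finset.exists_max_image ((dl s t X).filter (· ∈ Pos)) w
      ⟨f0, Finset.mem_filter.2 ⟨hf0, hf0P⟩⟩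
    rw [Finset.mem_filter] at hf
    have h1 := hcut X f hf.1 ((hmem f).1 hf.2)
    have h2 : ∑ e ∈ dl s t X, w e = ∑ e ∈ (dl s t X).filter (· ∈ Pos), w e := by
      rw [Finset.sum_filter]
      refine Finset.sum_congr rfl (fun e _ => ?_)
      by_cases he : e ∈ Pos
      · rw [if_pos he]
      · rw [if_neg he]
        have := mt (hmem e).2 he
        omega
    have h3 : ∑ e ∈ (dl s t X).filter (· ∈ Pos), w e ≤
        ((dl s t X).filter (· ∈ Pos)).card * w f := by
      rw [← smul_eq_mul]
      exact Finset.sum_le_card_nsmul _ _ _ hfmax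
    rw [h2] at h1
    by_contra hcon
    have h4 : ((dl s t X).filter (· ∈ Pos)).card ≤ 4 := by omega
    have h6 := Nat.mul_le_mul_right (w f) h4
    omega
  have hfin := iterate s t L 4 8 hL (by norm_num) (by norm_num) hE 4 (by norm_num) (by norm_num)
    (4608 * L) (by push_cast; ring) Pos
    (by
      intro w' hw' h1 h2
      refine final_five s t (4608 * L) (by omega) Pos h5 w' hw' ?_ h2
      intro e he
      have h3 := abs_le.1 (h1 e he)
      have h4 : (7 : ℝ) * (4608 * L) ≤ 8 * w' e := by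
        have := h3.1
        push_cast at this
        linarith
      have h6 : (8 : ℝ) * w' e ≤ 9 * (4608 * L) := by
        have := h3.2
        push_cast at this
        linarith
      have h7 : 7 * (4608 * L) ≤ 8 * w' e := by exact_mod_cast h4
      have h8 : 8 * w' e ≤ 9 * (4608 * L) := by exact_mod_cast h6
      omega)
    (Nat.log 2 L) (fun e => (w e : ℝ))
  have hlog1 : 2 ^ Nat.log 2 L ≤ L := Nat.pow_log_le_self 2 (by omega)
  have hlog2 : L < 2 ^ (Nat.log 2 L + 1) := Nat.lt_pow_succ_log_self (by norm_num) L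
  refine hfin ?_ ?_ ?_ ?_ w (wbd_of_even s t w heven) ?_
  · intro e he
    have := mt (hmem e).2 he
    have h0 : w e = 0 := by omega
    simp [h0]
  · intro e he
    have h0 := (hmem e).1 he
    have h1 : 18432 * L ^ 3 ≤ w e := by
      rcases hbig e with h | h
      · omega
      · exact h
    have h2 : 4608 * L * 4 * 4 ^ Nat.log 2 L ≤ 18432 * L ^ 3 := by
      have h3 : 4 ^ Nat.log 2 L ≤ L ^ 2 := by
        calc 4 ^ Nat.log 2 L = (2 ^ Nat.log 2 L) ^ 2 := by
              rw [← pow_mul, mul_comm, pow_mul]; norm_num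
          _ ≤ L ^ 2 := Nat.pow_le_pow_left hlog1 2
      calc 4608 * L * 4 * 4 ^ Nat.log 2 L ≤ 4608 * L * 4 * L ^ 2 := Nat.mul_le_mul_left _ h3
        _ = 18432 * L ^ 3 := by ring
    have h4 : ((4608 * L * 4 * 4 ^ Nat.log 2 L : ℕ) : ℝ) ≤ (w e : ℝ) := by
      exact_mod_cast h2.trans h1
    push_cast at h4 ⊢
    exact h4
  · intro e
    refine (min_le_right _ _).trans ?_
    have h1 : Fintype.card E + 1 ≤ 2 ^ L := by
      rcases Nat.eq_zero_or_pos (Fintype.card E) with h | h
      · rw [h]; exact Nat.one_le_two_pow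
      · omega
    have h2 : (2 : ℕ) ^ L ≤ 4608 * L * 4 ^ (2 * 2 ^ Nat.log 2 L) := by
      have h3 : 2 ^ L ≤ 4 ^ (2 * 2 ^ Nat.log 2 L) := by
        calc 2 ^ L ≤ 2 ^ (2 * (2 * 2 ^ Nat.log 2 L)) := by
              refine Nat.pow_le_pow_right (by norm_num) ?_
              rw [pow_succ] at hlog2
              omega
          _ = 4 ^ (2 * 2 ^ Nat.log 2 L) := by rw [pow_mul]; norm_num
      calc 2 ^ L ≤ 4 ^ (2 * 2 ^ Nat.log 2 L) := h3
        _ ≤ 4608 * L * 4 ^ (2 * 2 ^ Nat.log 2 L) := Nat.le_mul_of_pos_left _ (by omega)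
    have h3 : ((Fintype.card E + 1 : ℕ) : ℝ) ≤ ((4608 * L * 4 ^ (2 * 2 ^ Nat.log 2 L) : ℕ) : ℝ) := by
      exact_mod_cast h1.trans h2
    push_cast at h3 ⊢
    exact h3
  · intro X f hf
    rcases Nat.eq_zero_or_pos (w f) with h0 | h0
    · simp only [h0, Nat.cast_zero, mul_zero]
      exact Finset.sum_nonneg (fun e _ => Nat.cast_nonneg _)
    · have h1 := (hcut X f hf h0).le
      have h2 : ((4 * w f : ℕ) : ℝ) ≤ ((∑ e ∈ dl s t X, w e : ℕ) : ℝ) := by exact_mod_cast h1
      push_cast at h2
      exact h2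
  · intro e
    simp only [sub_self, abs_zero]
    positivity

end Pool.Agent.H46.Faith
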