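import Mathlib
import Pool.Agent.H46.Faith.Covers
import Pool.Agent.H46.Faith.Classes
import Pool.Agent.H46.Faith.Large

set_option autoImplicit false

/-! Nearly constant weights when every cut has at least three edges, and the main theorem for
weights which are at least polylogarithmic. -/

namespace Pool.Agent.H46.Faith

open Module

set_option linter.unusedSectionVars false

variable {V E : Type} [Fintype V] [DecidableEq V] [Fintype E] [DecidableEq E]

lemma wbd_odd (s t : E → V) (w : E → ℕ) :
    wbd s t w = bdS s t (Finset.univ.filter (fun e => w e % 2 = 1)) := by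
  unfold wbd bdS
  rw [Finset.sum_filter]
  refine Finset.sum_congr rfl (fun e _ => ?_)
  rcases Nat.mod_two_eq_zero_or_one (w e) with h | h
  · rw [if_neg (by omega)]
    have : (w e : ZMod 2) = 0 := by
      rw [ZMod.natCast_eq_zero_iff_even, Nat.even_iff]; exact h
    rw [this, zero_smul]
  · rw [if_pos h]
    have : (w e : ZMod 2) = 1 := by
      rw [ZMod.natCast_eq_one_iff_odd, Nat.odd_iff]; exact h
    rw [this, one_smul]

/-- Nearly constant weights, all cuts with at least three edges. -/
theorem final_three (s t : E → V) (Pos : Finset E)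
    (h3 : ∀ X : Finset V, (Pos ∩ dl s t X).Nonempty → 3 ≤ (Pos ∩ dl s t X).card)
    (w : E → ℕ) (hw : wbd s t w = 0) (r : ℕ)
    (hpos : ∀ e ∈ Pos, 32 * r + 55 ≤ w e ∧ w e ≤ 36 * r + 48)
    (hoff : ∀ e ∉ Pos, w e = 0) : w ∈ Cov s t := by
  classical
  obtain ⟨κ, hκ, hκ2⟩ := nine_classes s t Pos h3
  set I : Finset (ℕ × Fin 3) := (Finset.Icc 1 3) ×ˢ (Finset.univ : Finset (Fin 3)) with hI
  have hIcard : I.card = 9 := by
    rw [hI, Finset.card_product, Nat.card_Icc, Finset.card_univ, Fintype.card_fin]
  set G : ℕ × Fin 3 → Finset E → Finset E := fun i A => Pos.filter (fun e => κ e ≠ i ∨ e ∈ A) with hG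
  have hbr : ∀ i ∈ I, ∀ A, ∀ X : Finset V, (G i A ∩ dl s t X).card ≠ 1 := by
    intro i hi A X
    rcases (Pos ∩ dl s t X).eq_empty_or_nonempty with h | h
    · have : G i A ∩ dl s t X = ∅ := by
        apply Finset.subset_empty.1
        rw [← h]
        exact Finset.inter_subset_inter_right (Finset.filter_subset _ _)
      rw [this, Finset.card_empty]
      omega
    · have h1 := hκ2 i X hi h
      have h2 : (Pos.filter (fun e => κ e ≠ i)) ∩ dl s t X ⊆ G i A ∩ dl s t X := by
        refine Finset.inter_subset_inter_right ?_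
        intro e he
        rw [Finset.mem_filter] at he
        simp only [hG, Finset.mem_filter]
        exact ⟨he.1, Or.inl he.2⟩
      have := Finset.card_le_card h2
      omega
  -- sums over the classes
  have hsum : ∀ A : Finset E, ∀ e, (∑ i ∈ I, indN (G i A)) e =
      if e ∈ Pos then (if e ∈ A then 9 else 8) else 0 := by
    intro A e
    rw [Finset.sum_apply]
    unfold indN
    simp only [hG, Finset.mem_filter]
    by_cases heP : e ∈ Pos
    · simp only [heP, true_and, if_true]
      by_cases heA : e ∈ A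
      · simp only [heA, or_true, if_true]
        rw [Finset.sum_const, hIcard]; rfl
      · simp only [heA, or_false, if_false]
        rw [← Finset.card_filter]
        have : I.filter (fun i => κ e ≠ i) = I.erase (κ e) := by
          ext i
          rw [Finset.mem_filter, Finset.mem_erase]
          constructor
          · rintro ⟨h1, h2⟩; exact ⟨Ne.symm h2, h1⟩
          · rintro ⟨h1, h2⟩; exact ⟨h2, Ne.symm h1⟩
        rw [this, Finset.card_erase_of_mem (hκ e), hIcard]
    · simp [heP]
  set D : Finset E := Finset.univ.filter (fun e => w e % 2 = 1) with hD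
  have hD0 : bdS s t D = 0 := by rw [hD, ← wbd_odd, hw]
  set A' : Finset E := Finset.univ.filter (fun e => (w e - w e % 2) % 4 = 2) with hA'
  set a : E → ℕ := fun e => (w e - w e % 2 - 48 - 32 * r -
    (if (w e - w e % 2) % 4 = 2 then 6 else 0)) / 4 with ha
  set Aj : ℕ → Finset E := fun j => Finset.univ.filter (fun e => j < a e) with hAj
  have hmain : w = indN D + 6 • (∑ i ∈ I, indN (G i A')) +
      4 • ∑ j ∈ Finset.range r, ∑ i ∈ I, indN (G i (Aj j)) := by
    funext e
    rw [Pi.add_apply, Pi.add_apply, Pi.smul_apply, Pi.smul_apply, hsum, Finset.sum_apply,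
      Finset.sum_congr rfl (fun j _ => hsum (Aj j) e), smul_eq_mul, smul_eq_mul]
    by_cases heP : e ∈ Pos
    · have hp := hpos e heP
      simp only [if_pos heP]
      have h1 : ∑ j ∈ Finset.range r, (if e ∈ Aj j then 9 else 8) = 8 * r + min r (a e) := by
        have h2 : ∀ j, (if e ∈ Aj j then 9 else 8) = 8 + (if j < a e then 1 else 0) := by
          intro j
          simp only [hAj, Finset.mem_filter, Finset.mem_univ, true_and]
          split_ifs <;> rfl
        rw [Finset.sum_congr rfl (fun j _ => h2 j), Finset.sum_add_distrib, Finset.sum_const,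
          Finset.card_range, smul_eq_mul, ← Finset.card_filter, mul_comm]
        congr 1
        have h3 : (Finset.range r).filter (fun j => j < a e) = Finset.range (min r (a e)) := by
          ext j
          rw [Finset.mem_filter, Finset.mem_range, Finset.mem_range, lt_min_iff]
        rw [h3, Finset.card_range]
      rw [h1]
      have h4 : indN D e = w e % 2 := by
        unfold indN
        simp only [hD, Finset.mem_filter, Finset.mem_univ, true_and]
        split_ifs <;> omega
      rw [h4]
      have h5 : (if e ∈ A' then 9 else 8) = 8 + (if (w e - w e % 2) % 4 = 2 then 1 else 0) := by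
        simp only [hA', Finset.mem_filter, Finset.mem_univ, true_and]
        split_ifs <;> rfl
      rw [h5]
      simp only [ha]
      split_ifs <;> omega
    · rw [hoff e heP]
      simp only [if_neg heP]
      have h4 : indN D e = 0 := by
        unfold indN
        rw [if_neg]
        simp only [hD, Finset.mem_filter, Finset.mem_univ, true_and]
        rw [hoff e heP]
        omega
      rw [h4]
      simp
  rw [hmain]
  refine add_mem (add_mem (indN_mem_Cov s t D hD0) ?_) ?_
  · rw [Finset.smul_sum]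
    exact sum_mem (fun i hi => six_cover s t _ (hbr i hi A'))
  · rw [Finset.smul_sum]
    refine sum_mem (fun j _ => ?_)
    rw [Finset.smul_sum]
    exact sum_mem (fun i hi => four_cover s t _ (hbr i hi (Aj j)))

/-- Large weights, factor `2 (1 + 1/h) / (1 - 1/h - 1/2^d)`. -/
theorem large_three (s t : E → V) (w : E → ℕ) (L h d : ℕ) (hL : 1 ≤ L) (hh : 64 ≤ h) (hd : 1 ≤ d)
    (hE : 2 * Fintype.card E ≤ 2 ^ L) (heven : ∀ X, Even (∑ e ∈ dl s t X, w e))
    (hbig : ∀ e, w e = 0 ∨ 4 * (h + 1) * h * 8 ^ d * L ^ (d + 1) ≤ w e)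
    (hcut : ∀ X : Finset V, ∀ f ∈ dl s t X,
      2 * (h + 1) * 2 ^ d * w f ≤ (h * 2 ^ d - h - 2 ^ d) * ∑ e ∈ dl s t X, w e) :
    w ∈ Cov s t := by
  classical
  have hd2 : 2 ≤ 2 ^ d := by
    calc 2 = 2 ^ 1 := (pow_one 2).symm
      _ ≤ 2 ^ d := Nat.pow_le_pow_right (by norm_num) hd
  obtain ⟨K, hK⟩ : ∃ K, K = 2 ^ d := ⟨_, rfl⟩
  rw [← hK] at hd2 hcut
  have hpos0 : h + K < h * K := by nlinarith
  set Pos : Finset E := Finset.univ.filter (fun e => 0 < w e) with hPos
  have hmem : ∀ e, e ∈ Pos ↔ 0 < w e := by intro e; simp [hPos]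
  have h3 : ∀ X : Finset V, (Pos ∩ dl s t X).Nonempty → 3 ≤ (Pos ∩ dl s t X).card := by
    rintro X hX
    obtain ⟨f, hf, hfmax⟩ := Finset.exists_max_image (Pos ∩ dl s t X) w hX
    rw [Finset.mem_inter] at hf
    have h1 := hcut X f hf.2
    have h2 : ∑ e ∈ dl s t X, w e = ∑ e ∈ Pos ∩ dl s t X, w e := by
      symm
      refine Finset.sum_subset Finset.inter_subset_right ?_
      intro e he hne
      by_contra h0
      exact hne (Finset.mem_inter.2 ⟨(hmem e).2 (by omega), he⟩)
    have h4 : ∑ e ∈ Pos ∩ dl s t X, w e ≤ (Pos ∩ dl s t X).card * w f := by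
      rw [← smul_eq_mul]
      exact Finset.sum_le_card_nsmul _ _ _ hfmax
    rw [h2] at h1
    by_contra hcon
    have h5 : (Pos ∩ dl s t X).card ≤ 2 := by omega
    have h6 := Nat.mul_le_mul_right (w f) h5
    have h7 := Nat.mul_le_mul_left (h * K - h - K) (h4.trans h6)
    have h8 : 0 < w f := (hmem f).1 hf.1
    have h9 : (h * K - h - K) * (2 * w f) < 2 * (h + 1) * K * w f := by
      have h10 : (h * K - h - K) * 2 < 2 * (h + 1) * K := by
        have : 2 * (h + 1) * K = 2 * (h * K) + 2 * K := by ring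
        omega
      calc (h * K - h - K) * (2 * w f) = (h * K - h - K) * 2 * w f := by ring
        _ < 2 * (h + 1) * K * w f := Nat.mul_lt_mul_of_pos_right h10 h8
    omega
  obtain ⟨N, hN⟩ : ∃ N, N = h * K - h - K := ⟨_, rfl⟩
  rw [← hN] at hcut
  have hNhK : N + h + K = h * K := by omega
  have hN0 : 0 < N := by omega
  have hNr : (N : ℝ) + h + K = h * K := by exact_mod_cast hNhK
  have hN0r : (0 : ℝ) < N := by exact_mod_cast hN0
  have hh0 : (0 : ℝ) < h := by
    have : 0 < h := by omega
    exact_mod_cast this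
  have hK0 : (0 : ℝ) < K := by
    have : 0 < K := by omega
    exact_mod_cast this
  obtain ⟨A, hA⟩ : ∃ A, A = 4 * (h + 1) * h * K ^ 2 * L := ⟨_, rfl⟩
  have hA1 : 66560 ≤ A := by
    rw [hA]
    calc 66560 = 4 * (64 + 1) * 64 * 2 ^ 2 * 1 := by norm_num
      _ ≤ 4 * (h + 1) * h * K ^ 2 * L := by gcongr
  have hfin := iterate s t L K h hL hd2 (by omega) hE (2 * (h + 1) * K / N) (by positivity)
    (by
      have h1 : (1 - 1 / (h : ℝ) - 1 / K) = N / (h * K) := by
        rw [eq_div_iff (by positivity)]
        field_simp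
        linarith
      rw [h1]
      have h2 : (N : ℝ) / (h * K) * (2 * (h + 1) * K / N) = 2 * (1 + 1 / (h : ℝ)) := by
        field_simp
      rw [h2])
    A (by rw [hA]; push_cast; ring) Pos
    (by
      intro w' hw' h1 h2
      refine final_three s t Pos h3 w' hw' (A / 34) ?_ h2
      intro e he
      have h4 := abs_le.1 (h1 e he)
      have h5 : (A : ℝ) / h ≤ A / 64 := by
        refine div_le_div_of_nonneg_left (Nat.cast_nonneg _) (by norm_num) ?_
        exact_mod_cast hh
      have h6 : (63 : ℝ) * A ≤ 64 * w' e := by linarith [h4.1]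
      have h7 : (64 : ℝ) * w' e ≤ 65 * A := by linarith [h4.2]
      have h8 : 63 * A ≤ 64 * w' e := by exact_mod_cast h6
      have h9 : 64 * w' e ≤ 65 * A := by exact_mod_cast h7
      omega)
    (Nat.log 2 L) (fun e => (w e : ℝ))
  have hlog1 : 2 ^ Nat.log 2 L ≤ L := Nat.pow_log_le_self 2 (by omega)
  have hlog2 : L < 2 ^ (Nat.log 2 L + 1) := Nat.lt_pow_succ_log_self (by norm_num) L
  refine hfin ?_ ?_ ?_ ?_ w (wbd_of_even s t w heven) ?_
  · intro e he
    have := mt (hmem e).2 he
    have h0 : w e = 0 := by omega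
    simp [h0]
  · intro e he
    have h0 := (hmem e).1 he
    have h1 : 4 * (h + 1) * h * 8 ^ d * L ^ (d + 1) ≤ w e := by
      rcases hbig e with h2 | h2
      · omega
      · exact h2
    have h2 : A * K * K ^ Nat.log 2 L ≤ 4 * (h + 1) * h * 8 ^ d * L ^ (d + 1) := by
      have h4 : K ^ Nat.log 2 L ≤ L ^ d := by
        calc K ^ Nat.log 2 L = (2 ^ Nat.log 2 L) ^ d := by
              rw [hK, ← pow_mul, ← pow_mul, mul_comm]
          _ ≤ L ^ d := Nat.pow_le_pow_left hlog1 d
      have h5 : K ^ 3 = 8 ^ d := by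
        rw [hK, ← pow_mul, mul_comm, pow_mul]; norm_num
      calc A * K * K ^ Nat.log 2 L ≤ A * K * L ^ d := Nat.mul_le_mul_left _ h4
        _ = 4 * (h + 1) * h * K ^ 3 * L ^ (d + 1) := by rw [hA]; ring
        _ = 4 * (h + 1) * h * 8 ^ d * L ^ (d + 1) := by rw [h5]
    have h4 : ((A * K * K ^ Nat.log 2 L : ℕ) : ℝ) ≤ (w e : ℝ) := by
      exact_mod_cast h2.trans h1
    push_cast at h4
    exact h4
  · intro e
    refine (min_le_right _ _).trans ?_
    have h1 : Fintype.card E + 1 ≤ 2 ^ L := by
      rcases Nat.eq_zero_or_pos (Fintype.card E) with h2 | h2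
      · rw [h2]; exact Nat.one_le_two_pow
      · omega
    have h2 : (2 : ℕ) ^ L ≤ A * K ^ (2 * 2 ^ Nat.log 2 L) := by
      calc 2 ^ L ≤ 2 ^ (2 * 2 ^ Nat.log 2 L) := by
              refine Nat.pow_le_pow_right (by norm_num) ?_
              rw [pow_succ] at hlog2
              omega
        _ ≤ K ^ (2 * 2 ^ Nat.log 2 L) := Nat.pow_le_pow_left hd2 _
        _ ≤ A * K ^ (2 * 2 ^ Nat.log 2 L) := Nat.le_mul_of_pos_left _ (by omega)
    have h4 : ((Fintype.card E + 1 : ℕ) : ℝ) ≤ ((A * K ^ (2 * 2 ^ Nat.log 2 L) : ℕ) : ℝ) := by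
      exact_mod_cast h1.trans h2
    push_cast at h4
    exact h4
  · intro X f hf
    have h1 := hcut X f hf
    have h2 : ((2 * (h + 1) * K * w f : ℕ) : ℝ) ≤ ((N * ∑ e ∈ dl s t X, w e : ℕ) : ℝ) := by
      exact_mod_cast h1
    push_cast at h2
    rw [div_mul_eq_mul_div, div_le_iff₀ hN0r]
    linarith
  · intro e
    simp only [sub_self, abs_zero]
    positivity

end Pool.Agent.H46.Faith
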