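import Mathlib
import Pool.Agent.H46.Faith.Blocks

set_option autoImplicit false

/-! Faithful covers from shares assigned to blocks of colours. -/

namespace Pool.Agent.H46.Faith

open Module

set_option linter.unusedSectionVars false

variable {V E : Type} [Fintype V] [DecidableEq V] [Fintype E] [DecidableEq E]

/-- Concatenation of blocks. -/
def cat (K : ℕ → ℕ) (F : ℕ → ℕ → Finset E) : ℕ → ℕ → Finset E
  | 0, _ => ∅
  | (n + 1), j => if j ≤ off K n then cat K F n j else F (n + 1) (j - off K n)

lemma cat_stable (K : ℕ → ℕ) (F : ℕ → ℕ → Finset E) (n m j : ℕ) (h : n ≤ m) (hj : j ≤ off K n) :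
    cat K F m j = cat K F n j := by
  induction m with
  | zero => rw [Nat.le_zero.1 h]
  | succ m ih =>
    rcases Nat.lt_or_ge n (m + 1) with h1 | h1
    · have h2 : j ≤ off K m := hj.trans (off_mono K (by omega))
      rw [cat, if_pos h2]
      exact ih (by omega)
    · rw [show n = m + 1 by omega]

lemma cat_block (K : ℕ → ℕ) (F : ℕ → ℕ → Finset E) (n m i : ℕ) (h : n + 1 ≤ m)
    (hi : 1 ≤ i) (hi' : i ≤ K (n + 1)) :
    cat K F m (off K n + i) = F (n + 1) i := by
  rw [cat_stable K F (n + 1) m _ h (by rw [off_succ]; omega), cat, if_neg (by omega)]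
  congr 1
  omega

lemma use_cat (K : ℕ → ℕ) (F : ℕ → ℕ → Finset E) (m : ℕ) (e : E) :
    ∀ n i, n + 1 ≤ m → i ≤ K (n + 1) →
      use (cat K F m) (off K n + i) e =
        ∑ l ∈ Finset.Icc 1 n, use (F l) (K l) e + use (F (n + 1)) i e := by
  intro n
  induction n with
  | zero =>
    intro i hm hi
    rw [use_add, off_zero, use_zero]
    simp only [show Finset.Icc 1 0 = (∅ : Finset ℕ) from rfl, Finset.sum_empty, zero_add]
    refine use_congr _ _ _ _ (fun l hl hl' => ?_)
    have := cat_block K F 0 m l hm hl (hl'.trans hi)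
    rw [off_zero, zero_add, zero_add] at this
    rw [this]
  | succ n ih =>
    intro i hm hi
    rw [use_add, off_succ, ih (K (n + 1)) (by omega) le_rfl]
    have h : Finset.Icc 1 (n + 1) = insert (n + 1) (Finset.Icc 1 n) := by
      ext l
      simp only [Finset.mem_insert, Finset.mem_Icc]
      omega
    rw [h, Finset.sum_insert (by simp)]
    have h2 : use (fun l => cat K F m (off K n + K (n + 1) + l)) i e = use (F (n + 1 + 1)) i e := by
      refine use_congr _ _ _ _ (fun l hl hl' => ?_)
      have := cat_block K F (n + 1) m l hm hl (hl'.trans hi)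
      rw [off_succ] at this
      rw [this]
    rw [h2]
    ring

lemma exists_block (K : ℕ → ℕ) (S j : ℕ) (hj : 1 ≤ j) (hj' : j ≤ off K S) :
    ∃ n i, n + 1 ≤ S ∧ 1 ≤ i ∧ i ≤ K (n + 1) ∧ j = off K n + i := by
  induction S with
  | zero => rw [off_zero] at hj'; omega
  | succ S ih =>
    rcases Nat.lt_or_ge (off K S) j with h | h
    · rw [off_succ] at hj'
      exact ⟨S, j - off K S, le_rfl, by omega, by omega, by omega⟩
    · obtain ⟨n, i, h1, h2, h3, h4⟩ := ih h
      exact ⟨n, i, by omega, h2, h3, h4⟩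

open Classical in
/-- Block theorem. -/
theorem block_main (s t : E → V) (w : E → ℕ) (K : ℕ → ℕ) (S : ℕ) (u : ℕ → E → ℕ) (b : E → ℕ)
    (hK : ∀ l, 1 ≤ l → 2 ≤ K l) (hS : 1 ≤ S)
    (hb : ∀ e, b e ≤ S) (hwM : ∀ e, 2 * w e ≤ off K (b e))
    (hutot : ∀ e, ∑ l ∈ Finset.Icc 1 S, u l e ≤ w e)
    (huev : ∀ l, 2 ≤ l → ∀ e, Even (u l e))
    (hu1 : ∀ e, 2 * u 1 e ≤ K 1)
    (hdens : ∀ e l, 2 ≤ l → l ≤ b e → 2 * ∑ i ∈ Finset.Icc 1 l, u i e ≤ off K (l - 1))
    (hcut : ∀ l, 1 ≤ l → l ≤ S → ∀ X : Finset V, ∀ f, l ≤ b f → ¬ (s f ∈ X ↔ t f ∈ X) →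
      4 * K l ≤ ∑ e ∈ Finset.univ.filter (fun e => ¬ (s e ∈ X ↔ t e ∈ X)), u l e)
    (heven : ∀ X : Finset V, Even (∑ e ∈ Finset.univ.filter
      (fun e => decide (s e ∈ X) ≠ decide (t e ∈ X)), w e)) :
    ∃ H : ℕ → Finset E, (∀ i, 1 ≤ i → i ≤ off K S → ∑ e ∈ H i, bd s t e = 0) ∧
      ∀ e, use H (off K S) e = w e := by
  classical
  have hK1 : 2 ≤ K 1 := hK 1 le_rfl
  have hK1q : (0 : ℚ) < K 1 := by
    have : (2 : ℚ) ≤ K 1 := by exact_mod_cast hK1
    linarith
  -- first block
  set κ : E → ℕ := fun e => if b e = 0 then 0 else K 1 with hκ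
  have hκle : ∀ e q, q < κ e → q < K 1 ∧ 1 ≤ b e := by
    intro e q hq
    simp only [hκ] at hq
    split_ifs at hq with h
    · omega
    · exact ⟨hq, by omega⟩
  have hu0 : ∀ e, b e = 0 → u 1 e = 0 := by
    intro e he
    have h1 := hwM e
    rw [he, off_zero] at h1
    have h2 := (Finset.single_le_sum (f := fun l => u l e) (fun _ _ => Nat.zero_le _)
      (Finset.mem_Icc.2 ⟨le_rfl, hS⟩)).trans (hutot e)
    omega
  obtain ⟨B1, hB1, hB2, hB3⟩ := pack s t κ (u 1) (fun e => (u 1 e : ℚ) / K 1)
    (fun e => div_nonneg (Nat.cast_nonneg _) hK1q.le)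
    (by
      intro e q hq
      rw [div_mul_eq_mul_div, div_le_iff₀ hK1q]
      have : (q : ℚ) ≤ K 1 := by exact_mod_cast (hκle e q hq).1.le
      exact mul_le_mul_of_nonneg_left this (Nat.cast_nonneg _))
    (by
      intro e
      rw [div_le_iff₀ hK1q]
      have : ((2 * u 1 e : ℕ) : ℚ) ≤ K 1 := by exact_mod_cast hu1 e
      push_cast at this
      linarith)
    (by
      rintro q hq X ⟨f, hf, hf'⟩
      have hqK : q < K 1 := (hκle f q (mem_lvl.1 hf)).1
      have h1 := hcut 1 le_rfl hS X f (hκle f q (mem_lvl.1 hf)).2 hf'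
      rw [← Finset.sum_div, le_div_iff₀ hK1q]
      have h2 : ∑ e ∈ (lvl κ q).filter (fun e => ¬ (s e ∈ X ↔ t e ∈ X)), (u 1 e : ℚ) =
          ∑ e ∈ Finset.univ.filter (fun e => ¬ (s e ∈ X ↔ t e ∈ X)), (u 1 e : ℚ) := by
        refine Finset.sum_subset (Finset.filter_subset_filter _ (Finset.subset_univ _)) ?_
        intro e he he'
        rw [Finset.mem_filter] at he he'
        have h4 : b e = 0 := by
          by_contra h5
          refine he' ⟨mem_lvl.2 ?_, he.2⟩
          simp only [hκ]
          rw [if_neg h5]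
          exact hqK
        rw [hu0 e h4, Nat.cast_zero]
      rw [h2]
      have h3 : ((4 * K 1 : ℕ) : ℚ) ≤
          ((∑ e ∈ Finset.univ.filter (fun e => ¬ (s e ∈ X ↔ t e ∈ X)), u 1 e : ℕ) : ℚ) := by
        exact_mod_cast h1
      push_cast at h3
      linarith)
  -- other blocks
  have hF : ∀ l, ∃ B : ℕ → Finset E, 2 ≤ l → l ≤ S →
      (∀ i, 1 ≤ i → i ≤ K l → ∀ f, l ≤ b f → bd s t f ∈ sp s t (B i)) ∧
      ∀ e, use B (K l) e ≤ u l e := by
    intro l
    by_cases hl : 2 ≤ l ∧ l ≤ S
    · obtain ⟨B, h1, h2⟩ := block_forests s t (u l) (K l) (hK l (by omega)) (fun f => l ≤ b f)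
        (fun X => Finset.even_sum _ (fun e _ => huev l hl.1 e)) (fun X f hf hf' => hcut l (by omega) hl.2 X f hf hf')
      exact ⟨B, fun _ _ => ⟨h1, h2⟩⟩
    · exact ⟨fun _ => ∅, fun h1 h2 => absurd ⟨h1, h2⟩ hl⟩
  choose F0 hF0 using hF
  set F : ℕ → ℕ → Finset E := fun l i => if l = 1 then (if i ≤ 1 then ∅ else B1 (i - 1)) else F0 l i
    with hFdef
  have hF1 : ∀ i, F 1 (i + 1 + 1) = B1 (i + 1) := by
    intro i
    simp only [hFdef, if_true]
    rw [if_neg (by omega)]
    rfl
  have huseF1 : ∀ i e, use (F 1) (i + 1) e = use B1 i e := by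
    intro i e
    induction i with
    | zero =>
      rw [use_succ, use_zero, use_zero]
      simp [hFdef]
    | succ i ih =>
      rw [use_succ, ih, hF1, use_succ]
  have huseF1' : ∀ e, use (F 1) (K 1) e ≤ u 1 e := by
    intro e
    obtain ⟨k, hk⟩ : ∃ k, K 1 = k + 1 := ⟨K 1 - 1, by omega⟩
    rw [hk, huseF1]
    exact (hB3 e k).2
  have huseF1d : ∀ e i, 2 * use (F 1) i e ≤ i := by
    intro e i
    cases i with
    | zero => rw [use_zero]
    | succ i => rw [huseF1]; exact (hB3 e i).1
  have hF2 : ∀ l, 2 ≤ l → F l = F0 l := by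
    intro l hl
    funext i
    simp only [hFdef]
    rw [if_neg (by omega)]
  have huseF : ∀ l, 1 ≤ l → l ≤ S → ∀ e, use (F l) (K l) e ≤ u l e := by
    intro l hl hlS e
    rcases Nat.eq_or_lt_of_le hl with h | h
    · rw [← h]; exact huseF1' e
    · rw [hF2 l h]; exact (hF0 l h hlS).2 e
  set N := off K S with hN
  set B : ℕ → Finset E := cat K F S with hB
  set Al : ℕ → Finset E := fun j => Finset.univ.filter (fun f => j ≤ off K (b f)) ∪ B j with hAl
  have hbN : ∀ e, off K (b e) ≤ N := fun e => off_mono K (hb e)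
  have hBF : ∀ n i, n + 1 ≤ S → 1 ≤ i → i ≤ K (n + 1) → B (off K n + i) = F (n + 1) i :=
    fun n i h1 h2 h3 => cat_block K F n S i h1 h2 h3
  have huseB : ∀ n i e, n + 1 ≤ S → i ≤ K (n + 1) → use B (off K n + i) e =
      ∑ l ∈ Finset.Icc 1 n, use (F l) (K l) e + use (F (n + 1)) i e :=
    fun n i e h1 h2 => use_cat K F S e n i h1 h2
  have huseBN : ∀ j, j ≤ N → ∀ e, use B j e ≤ w e := by
    intro j hj e
    refine (use_mono B hj e).trans ?_
    obtain ⟨n, hn⟩ : ∃ n, S = n + 1 := ⟨S - 1, by omega⟩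
    have h1 : N = off K n + K (n + 1) := by rw [hN, hn, off_succ]
    rw [h1, huseB n _ e (by omega) le_rfl]
    refine le_trans ?_ (hutot e)
    have h : Finset.Icc 1 S = insert (n + 1) (Finset.Icc 1 n) := by
      ext l
      simp only [Finset.mem_insert, Finset.mem_Icc]
      omega
    rw [h, Finset.sum_insert (by simp), add_comm]
    refine add_le_add (huseF (n + 1) (by omega) (by omega) e)
      (Finset.sum_le_sum (fun l hl => ?_))
    rw [Finset.mem_Icc] at hl
    exact huseF l hl.1 (by omega) e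
  have huseAl : ∀ e j, use Al j e + use B (min j (off K (b e))) e =
      min j (off K (b e)) + use B j e := by
    intro e j
    induction j with
    | zero => rw [use_zero, Nat.zero_min, use_zero]
    | succ j ih =>
      rw [use_succ]
      by_cases h : j + 1 ≤ off K (b e)
      · have h1 : e ∈ Al (j + 1) := by
          rw [hAl, Finset.mem_union, Finset.mem_filter]
          exact Or.inl ⟨Finset.mem_univ _, h⟩
        rw [min_eq_left (by omega : j ≤ off K (b e))] at ih
        rw [if_pos h1, min_eq_left h]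
        omega
      · have h1 : (e ∈ Al (j + 1)) ↔ e ∈ B (j + 1) := by
          rw [hAl, Finset.mem_union, Finset.mem_filter]
          exact ⟨fun h' => h'.resolve_left (fun h'' => h h''.2), Or.inr⟩
        rw [min_eq_right (by omega : off K (b e) ≤ j)] at ih
        rw [min_eq_right (by omega : off K (b e) ≤ j + 1), use_succ B]
        by_cases h2 : e ∈ B (j + 1)
        · rw [if_pos h2, if_pos (h1.2 h2)]; omega
        · rw [if_neg h2, if_neg (fun h' => h2 (h1.1 h'))]; omega
  have hdB : ∀ e j, j ≤ off K (b e) → 2 * use B j e ≤ j := by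
    intro e j hj
    rcases Nat.eq_zero_or_pos j with h0 | h0
    · rw [h0, use_zero]
    · obtain ⟨n, i, h1, h2, h3, h4⟩ := exists_block K (b e) j h0 hj
      rw [h4, huseB n i e (by have := hb e; omega) h3]
      rcases Nat.eq_zero_or_pos n with hn | hn
      · subst hn
        have h5 := huseF1d e i
        simp only [show Finset.Icc 1 0 = (∅ : Finset ℕ) from rfl, Finset.sum_empty, zero_add]
        omega
      · have h5 := hdens e (n + 1) (by omega) h1
        have h6 : ∑ l ∈ Finset.Icc 1 n, use (F l) (K l) e + use (F (n + 1)) i e ≤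
            ∑ i ∈ Finset.Icc 1 (n + 1), u i e := by
          have h : Finset.Icc 1 (n + 1) = insert (n + 1) (Finset.Icc 1 n) := by
            ext l
            simp only [Finset.mem_insert, Finset.mem_Icc]
            omega
          rw [h, Finset.sum_insert (by simp), add_comm]
          refine add_le_add ?_ (Finset.sum_le_sum (fun l hl => ?_))
          · exact (use_mono _ h3 e).trans (huseF (n + 1) (by omega) (by have := hb e; omega) e)
          · rw [Finset.mem_Icc] at hl
            exact huseF l hl.1 (by have := hb e; omega) e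
        rw [show n + 1 - 1 = n by omega] at h5
        omega
  refine game2 s t N Al B (fun _ => 0) (fun j => Finset.subset_union_right) ?_ ?_ ?_
    (fun j _ _ => Submodule.zero_mem _) N w le_rfl ?_ ?_ ?_
  · have := hBF 0 1 (by omega) le_rfl (by rw [zero_add]; omega)
    rw [off_zero, zero_add] at this
    rw [this]
    simp [hFdef]
  · intro j hj hjN
    obtain ⟨n, i, h1, h2, h3, h4⟩ := exists_block K S j (by omega) hjN
    have h5 : B j = F (n + 1) i := by rw [h4]; exact hBF n i h1 h2 h3
    unfold sp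
    rw [Submodule.span_le]
    rintro y ⟨f, hf, rfl⟩
    rw [Finset.mem_coe, hAl, Finset.mem_union, Finset.mem_filter] at hf
    rw [SetLike.mem_coe]
    rcases hf with hf | hf
    · have h6 : n + 1 ≤ b f := by
        by_contra h7
        have : off K (b f) ≤ off K n := off_mono K (by omega)
        have := hf.2
        omega
      rw [h5]
      rcases Nat.eq_zero_or_pos n with hn | hn
      · subst hn
        rw [off_zero, zero_add] at h4
        obtain ⟨i', hi'⟩ : ∃ i', i = i' + 1 + 1 := ⟨i - 2, by omega⟩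
        rw [hi', zero_add, hF1]
        have h8 := hB2 (i' + 1) (by omega)
        change bd s t f ∈ sp s t (B1 (i' + 1))
        rw [h8]
        refine Submodule.subset_span ⟨f, ?_, rfl⟩
        rw [Finset.mem_coe, mem_lvl]
        rw [zero_add] at h3
        simp only [hκ]
        rw [if_neg (by omega)]
        omega
      · rw [hF2 (n + 1) (by omega)]
        exact (hF0 (n + 1) (by omega) h1).1 i h2 h3 f h6
    · exact Submodule.subset_span ⟨f, by exact_mod_cast hf, rfl⟩
  · intro e j hj
    have h1 := huseAl e j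
    have h2 := huseBN j hj e
    rcases le_total j (off K (b e)) with h | h
    · rw [min_eq_left h] at h1
      have := hdB e j h
      omega
    · rw [min_eq_right h] at h1
      have h3 := huseBN (off K (b e)) (hbN e) e
      have h4 := hwM e
      omega
  · intro e
    exact huseBN N le_rfl e
  · intro e
    have h1 := huseAl e N
    rw [min_eq_right (hbN e)] at h1
    have h3 := huseBN (off K (b e)) (hbN e) e
    have h4 := hwM e
    omega
  · rw [bd_weight_zero s t w heven, Finset.sum_const_zero]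

end Pool.Agent.H46.Faith
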