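import Mathlib
import Pool.Agent.H46.Faith.Main

set_option autoImplicit false

/-! From an indexed family of even subgraphs to a list. -/

namespace Pool.Agent.H46.Faith

open Module

set_option linter.unusedSectionVars false

variable {V E : Type} [Fintype V] [DecidableEq V] [Fintype E] [DecidableEq E]

theorem list_form (s t : E → V) (w : E → ℕ) (N : ℕ) (H : ℕ → Finset E)
    (h1 : ∀ i, 1 ≤ i → i ≤ N → ∑ e ∈ H i, bd s t e = 0) (h2 : ∀ e, use H N e = w e) :
    ∃ L : List (Finset E), L.length = N ∧
      (∀ S ∈ L, ∀ v : V,
        Even ((S.filter (fun e => s e = v)).card + (S.filter (fun e => t e = v)).card)) ∧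
      ∀ e : E, (L.filter (fun S => decide (e ∈ S))).length = w e := by
  refine ⟨(List.range N).map (fun i => H (i + 1)), by simp, ?_, ?_⟩
  · intro S hS v
    rw [List.mem_map] at hS
    obtain ⟨i, hi, rfl⟩ := hS
    rw [List.mem_range] at hi
    have h3 := congrFun (h1 (i + 1) (by omega) (by omega)) v
    rw [bd_sum_apply, Pi.zero_apply, ZMod.natCast_eq_zero_iff_even] at h3
    exact h3
  · intro e
    rw [← h2 e, List.filter_map, List.length_map]
    unfold use
    have h4 : ((Finset.Icc 1 N).filter (fun q' => e ∈ H q')).card =
        ((Finset.range N).filter (fun i => e ∈ H (i + 1))).card := by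
      symm
      refine Finset.card_bij (fun i _ => i + 1) ?_ ?_ ?_
      · intro i hi
        rw [Finset.mem_filter, Finset.mem_range] at hi
        rw [Finset.mem_filter, Finset.mem_Icc]
        exact ⟨⟨by omega, by omega⟩, hi.2⟩
      · intro i _ j _ hij
        omega
      · intro i hi
        rw [Finset.mem_filter, Finset.mem_Icc] at hi
        refine ⟨i - 1, ?_, by omega⟩
        rw [Finset.mem_filter, Finset.mem_range, show i - 1 + 1 = i by omega]
        exact ⟨by omega, hi.2⟩
    rw [h4]
    have h5 : ∀ n, (List.filter ((fun S => decide (e ∈ S)) ∘ fun i => H (i + 1)) (List.range n)).length =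
        ((Finset.range n).filter (fun i => e ∈ H (i + 1))).card := by
      intro n
      induction n with
      | zero => simp
      | succ n ih =>
        rw [List.range_succ, List.filter_append, List.length_append, ih,
          Finset.range_add_one, Finset.filter_insert]
        by_cases hmem : e ∈ H (n + 1)
        · rw [if_pos hmem, Finset.card_insert_of_notMem (by simp)]
          simp [hmem]
        · rw [if_neg hmem]
          simp [hmem]
    exact h5 N

end Pool.Agent.H46.Faith
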