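import Mathlib
import Pool.Agent.H46.Faith.Split
import Pool.Agent.H46.Faith.BlockMain
import Pool.Agent.H46.Faith.ListForm

set_option autoImplicit false

/-! The local theorem: every cut is large compared with each of its edges. -/

namespace Pool.Agent.H46.Faith

open Module

set_option linter.unusedSectionVars false

variable {V E : Type} [Fintype V] [DecidableEq V] [Fintype E] [DecidableEq E]

lemma off_KK (T n : ℕ) : off (KK T) n + 64 * T = KK T (n + 1) := by
  induction n with
  | zero => rw [off_zero]; unfold KK; ring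
  | succ n ih =>
    rw [off_succ]
    have h1 : KK T (n + 1 + 1) = 2 * KK T (n + 1) := by unfold KK; ring
    rw [h1]
    omega

lemma KK_succ (T l : ℕ) : KK T (l + 1) = 2 * KK T l := by unfold KK; ring

lemma off_KK_ge (T n : ℕ) (hT : 1 ≤ T) : n ≤ off (KK T) n := by
  induction n with
  | zero => exact Nat.zero_le _
  | succ n ih =>
    rw [off_succ]
    have := KK_pos T (n + 1)
    omega

lemma exists_off (T x : ℕ) (hT : 1 ≤ T) : ∃ n, 2 * x ≤ off (KK T) n :=
  ⟨2 * x, off_KK_ge T _ hT⟩

/-- the number of blocks available to an edge of weight `x` -/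
noncomputable def lev2 (T : ℕ) (x : ℕ) : ℕ := sInf {n | 2 * x ≤ off (KK T) n}

lemma lev2_spec (T x : ℕ) (hT : 1 ≤ T) : 2 * x ≤ off (KK T) (lev2 T x) :=
  Nat.sInf_mem (exists_off T x hT)

lemma lev2_le (T x n : ℕ) (h : 2 * x ≤ off (KK T) n) : lev2 T x ≤ n := Nat.sInf_le h

lemma lt_of_lt_lev2 (T x n : ℕ) (h : n < lev2 T x) : off (KK T) n < 2 * x := by
  by_contra h1
  exact absurd (lev2_le T x n (by omega)) (by omega)

lemma lev2_mono (T x y : ℕ) (hT : 1 ≤ T) (h : x ≤ y) : lev2 T x ≤ lev2 T y :=
  lev2_le T x _ (by have := lev2_spec T y hT; omega)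

/-- window -/
lemma lev2_window (T x y : ℕ) (hT : 1 ≤ T) (h : x ≤ 2 ^ T * y) : lev2 T x ≤ lev2 T y + T := by
  refine lev2_le T x _ ?_
  have h1 := lev2_spec T y hT
  have h2 := off_KK T (lev2 T y)
  have h3 := off_KK T (lev2 T y + T)
  have h4 : KK T (lev2 T y + T + 1) = 2 ^ T * KK T (lev2 T y + 1) := by unfold KK; ring
  rw [h4] at h3
  have h5 : 2 ^ T * (2 * y) ≤ 2 ^ T * off (KK T) (lev2 T y) := Nat.mul_le_mul_left _ h1
  have h6 : 2 ^ T * KK T (lev2 T y + 1) = 2 ^ T * off (KK T) (lev2 T y) + 2 ^ T * (64 * T) := by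
    rw [← h2]; ring
  have h7 : 64 * T ≤ 2 ^ T * (64 * T) := Nat.le_mul_of_pos_left _ (by positivity)
  have h8 : 2 * x ≤ 2 ^ T * (2 * y) := by
    calc 2 * x ≤ 2 * (2 ^ T * y) := Nat.mul_le_mul_left _ h
      _ = 2 ^ T * (2 * y) := by ring
  omega

lemma lev2_light (T x : ℕ) (hT : 1 ≤ T) (h : x ≤ 2 ^ T * (16 * T)) : lev2 T x ≤ T := by
  refine lev2_le T x _ ?_
  have h3 := off_KK T T
  have h4 : KK T (T + 1) = 4 * (2 ^ T * (16 * T)) := by unfold KK; ring
  rw [h4] at h3
  have h5 : 2 * (16 * T) ≤ 2 ^ T * (16 * T) := by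
    refine Nat.mul_le_mul_right _ ?_
    calc 2 = 2 ^ 1 := rfl
      _ ≤ 2 ^ T := Nat.pow_le_pow_right (by norm_num) hT
  omega

/-- shares of a heavy edge -/
noncomputable def hsh (T x l : ℕ) : ℕ :=
  if l ≤ lev2 T x + T then 2 * (min x (KK T l) / (16 * T)) else 0

lemma hsh_even (T x l : ℕ) : Even (hsh T x l) := by
  unfold hsh
  split_ifs
  · exact even_two_mul _
  · exact ⟨0, rfl⟩

lemma hsh_le (T x l : ℕ) (hT : 1 ≤ T) : hsh T x l ≤ 2 ^ l * 4 := by
  unfold hsh
  split_ifs
  · have h1 : min x (KK T l) / (16 * T) ≤ KK T l / (16 * T) := Nat.div_le_div_right (min_le_right _ _)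
    have h2 : KK T l / (16 * T) = 2 ^ l * 2 := by
      unfold KK
      rw [show 2 ^ l * (32 * T) = (2 ^ l * 2) * (16 * T) by ring]
      exact Nat.mul_div_cancel _ (by omega)
    omega
  · exact Nat.zero_le _

lemma hsh_ge (T x l : ℕ) (hT : 1 ≤ T) (hx : 16 * T ≤ x) (hl : l ≤ lev2 T x + T) :
    min x (KK T l) ≤ 16 * T * hsh T x l := by
  unfold hsh
  rw [if_pos hl]
  have h1 : 16 * T ≤ min x (KK T l) := le_min hx (by have := KK_pos T l; omega)
  set z := min x (KK T l) with hz
  have h2 := Nat.div_add_mod z (16 * T)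
  have h3 := Nat.mod_lt z (show 0 < 16 * T by omega)
  have h4 : 1 ≤ z / (16 * T) := (Nat.one_le_div_iff (by omega)).2 h1
  have h5 : 16 * T * 1 ≤ 16 * T * (z / (16 * T)) := Nat.mul_le_mul_left _ h4
  have h6 : 16 * T * (2 * (z / (16 * T))) = 2 * (16 * T * (z / (16 * T))) := by ring
  rw [h6]
  omega

lemma sum_two_pow (n : ℕ) : ∑ l ∈ Finset.Icc 1 n, 2 ^ l * 4 + 8 = 2 ^ n * 8 := by
  induction n with
  | zero => simp
  | succ n ih =>
    have h : Finset.Icc 1 (n + 1) = insert (n + 1) (Finset.Icc 1 n) := by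
      ext l
      simp only [Finset.mem_insert, Finset.mem_Icc]
      omega
    rw [h, Finset.sum_insert (by simp)]
    rw [pow_succ]
    omega

lemma hsh_prefix (T x l : ℕ) (hT : 1 ≤ T) : ∑ i ∈ Finset.Icc 1 l, hsh T x i + 8 ≤ 2 ^ l * 8 := by
  rw [← sum_two_pow l]
  exact Nat.add_le_add_right (Finset.sum_le_sum (fun i _ => hsh_le T x i hT)) _

lemma hsh_total (T x S : ℕ) (hT : 1 ≤ T) (hx : 16 * T ≤ x) :
    ∑ i ∈ Finset.Icc 1 S, hsh T x i ≤ x := by
  classical
  set b := lev2 T x with hb
  have hb1 : 1 ≤ b := by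
    by_contra h
    have h1 := lev2_spec T x hT
    rw [← hb, show b = 0 by omega, off_zero] at h1
    omega
  -- prefix
  have h1 := lt_of_lt_lev2 T x (b - 1) (by omega)
  have h2 := off_KK T (b - 1)
  rw [show b - 1 + 1 = b by omega] at h2
  have h3 := hsh_prefix T x (b - 1) hT
  have h4 : KK T b = 2 ^ (b - 1) * (64 * T) := by
    unfold KK
    obtain ⟨c, hc⟩ : ∃ c, b = c + 1 := ⟨b - 1, by omega⟩
    rw [hc, Nat.add_sub_cancel]
    ring
  -- tail
  have h5 : ∑ i ∈ (Finset.Icc 1 S).filter (fun i => ¬ i ≤ b - 1), hsh T x i ≤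
      (T + 1) * (2 * (x / (16 * T))) := by
    have h6 : ∑ i ∈ (Finset.Icc 1 S).filter (fun i => ¬ i ≤ b - 1), hsh T x i ≤
        ∑ i ∈ Finset.Icc b (b + T), hsh T x i := by
      refine Finset.sum_le_sum_of_ne_zero ?_
      intro i hi hi'
      rw [Finset.mem_filter] at hi
      rw [Finset.mem_Icc]
      refine ⟨by omega, ?_⟩
      by_contra h
      apply hi'
      unfold hsh
      rw [if_neg h]
    refine h6.trans ?_
    have h7 : ∀ i ∈ Finset.Icc b (b + T), hsh T x i ≤ 2 * (x / (16 * T)) := by
      intro i _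
      unfold hsh
      split_ifs
      · exact Nat.mul_le_mul_left _ (Nat.div_le_div_right (min_le_left _ _))
      · exact Nat.zero_le _
    refine (Finset.sum_le_card_nsmul _ _ _ h7).trans ?_
    rw [Nat.card_Icc, smul_eq_mul, show b + T + 1 - b = T + 1 by omega]
  have h6 : ∑ i ∈ (Finset.Icc 1 S).filter (fun i => i ≤ b - 1), hsh T x i ≤
      ∑ i ∈ Finset.Icc 1 (b - 1), hsh T x i := by
    refine Finset.sum_le_sum_of_subset ?_
    intro i hi
    rw [Finset.mem_filter, Finset.mem_Icc] at hi
    rw [Finset.mem_Icc]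
    omega
  rw [← Finset.sum_filter_add_sum_filter_not (Finset.Icc 1 S) (fun i => i ≤ b - 1)]
  -- 16 T * (x / 16T) ≤ x
  have h7 : 16 * T * (x / (16 * T)) ≤ x := Nat.mul_div_le x (16 * T)
  have h8 : (T + 1) * (2 * (x / (16 * T))) * 4 ≤ x := by
    calc (T + 1) * (2 * (x / (16 * T))) * 4 ≤ (T + T) * (2 * (x / (16 * T))) * 4 := by
          refine Nat.mul_le_mul_right _ (Nat.mul_le_mul_right _ (by omega))
      _ = 16 * T * (x / (16 * T)) := by ring
      _ ≤ x := h7
  -- prefix ≤ x / 4
  have h9 : (∑ i ∈ Finset.Icc 1 (b - 1), hsh T x i) * 4 ≤ x := by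
    have h10 : 2 ^ (b - 1) * 64 ≤ 2 ^ (b - 1) * (64 * T) :=
      Nat.mul_le_mul_left _ (by omega)
    have h11 : (2 ^ (b - 1) * 64 - 64) * T ≤ 2 ^ (b - 1) * (64 * T) - 64 * T := by
      rw [Nat.sub_mul]
      have : 2 ^ (b - 1) * 64 * T = 2 ^ (b - 1) * (64 * T) := by ring
      omega
    have h12 : 2 ^ (b - 1) * 64 - 64 ≤ (2 ^ (b - 1) * 64 - 64) * T :=
      Nat.le_mul_of_pos_right _ (by omega)
    omega
  omega

open Classical in
/-- The local theorem. -/
theorem local_main (s t : E → V) (w : E → ℕ) (T Λ : ℕ) (hT : 1 ≤ T) (hTΛ : T ≤ Λ)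
    (heven : ∀ X : Finset V, Even (∑ e ∈ dl s t X, w e))
    (hcut : ∀ X : Finset V, ∀ f ∈ dl s t X,
      512 * T * w f ≤ ∑ e ∈ (dl s t X).filter (fun e => w f ≤ 2 ^ T * w e), w e)
    (hcut2 : ∀ X : Finset V, ∀ f ∈ dl s t X, 0 < w f → w f < 16 * T →
      Even (w f) ∧ Fintype.card E ≤ 2 ^ Λ ∧ 1024 * T * Λ ≤ ∑ e ∈ dl s t X, w e) :
    ∃ (N : ℕ) (H : ℕ → Finset E), (∀ i, 1 ≤ i → i ≤ N → ∑ e ∈ H i, bd s t e = 0) ∧
      ∀ e, use H N e = w e := by
  classical
  -- the light shares
  have hsplit : ∃ c : ℕ → E → ℕ, (∀ l e, 1 ≤ l → l ≤ T ∨ c l e = 0) ∧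
      (∀ e, 2 * ∑ l ∈ Finset.Icc 1 T, c l e ≤ w e) ∧
      ∀ l, 1 ≤ l → l ≤ T → ∀ X : Finset V,
        (∃ f ∈ dl s t X, 0 < w f ∧ w f < 16 * T) →
        ∑ e ∈ dl s t X, w e ≤ 2 * ∑ e ∈ (dl s t X).filter (fun e => w e < 16 * T), w e →
        8 * T * KK T l ≤ ∑ e ∈ (dl s t X).filter (fun e => w e < 16 * T), w e →
        2 * KK T l ≤ ∑ e ∈ (dl s t X).filter (fun e => w e < 16 * T), c l e := by
    by_cases hex : ∃ X : Finset V, ∃ f ∈ dl s t X, 0 < w f ∧ w f < 16 * T
    · obtain ⟨X0, f0, hf0, h1, h2⟩ := hex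
      obtain ⟨c, hc1, hc2, hc3⟩ := split_light s t w T Λ hT hTΛ (hcut2 X0 f0 hf0 h1 h2).2.1
        (fun X e he he' => by
          rcases Nat.eq_zero_or_pos (w e) with h0 | h0
          · rw [h0]; exact ⟨0, rfl⟩
          · exact (hcut2 X e he h0 he').1)
        heven (fun X f hf h1 h2 => (hcut2 X f hf h1 h2).2.2)
      exact ⟨c, hc1, hc2, fun l hl hlT X _ h3 h4 => hc3 l hl hlT X h3 h4⟩
    · refine ⟨fun _ _ => 0, fun _ _ _ => Or.inr rfl, fun e => by simp, ?_⟩
      intro l _ _ X h
      exact absurd ⟨X, h⟩ hex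
  obtain ⟨c, hc1, hc2, hc3⟩ := hsplit
  set b : E → ℕ := fun e => lev2 T (w e) with hb
  set S : ℕ := ∑ e, b e + 1 with hS
  set u : ℕ → E → ℕ := fun l e => if 16 * T ≤ w e then hsh T (w e) l else 2 * c l e with hu
  have hbS : ∀ e, b e ≤ S := by
    intro e
    have := Finset.single_le_sum (f := b) (fun _ _ => Nat.zero_le _) (Finset.mem_univ e)
    omega
  have hfilt : ∀ X : Finset V, Finset.univ.filter
      (fun e => decide (s e ∈ X) ≠ decide (t e ∈ X)) = dl s t X := by
    intro X
    ext e
    rw [mem_dl, Finset.mem_filter]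
    simp only [Finset.mem_univ, true_and, ne_eq, decide_eq_decide]
  have key := block_main s t w (KK T) S u b
    (fun l _ => by have := KK_pos T l; omega) (by omega) hbS
    (fun e => lev2_spec T (w e) hT)
    (by
      intro e
      simp only [hu]
      by_cases h : 16 * T ≤ w e
      · simp only [h, if_true]
        exact hsh_total T (w e) S hT h
      · simp only [h, if_false]
        rw [← Finset.mul_sum]
        refine le_trans (Nat.mul_le_mul_left _ ?_) (hc2 e)
        refine Finset.sum_le_sum_of_ne_zero ?_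
        intro l hl hl'
        rw [Finset.mem_Icc] at hl ⊢
        exact ⟨hl.1, (hc1 l e hl.1).resolve_right hl'⟩)
    (by
      intro l _ e
      simp only [hu]
      split_ifs
      · exact hsh_even _ _ _
      · exact even_two_mul _)
    (by
      intro e
      simp only [hu]
      have hK : KK T 1 = 64 * T := by unfold KK; ring
      rw [hK]
      split_ifs with h
      · have := hsh_le T (w e) 1 hT
        omega
      · have h1 := hc2 e
        have h2 : c 1 e ≤ ∑ l ∈ Finset.Icc 1 T, c l e :=
          Finset.single_le_sum (f := fun l => c l e) (fun _ _ => Nat.zero_le _)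
            (Finset.mem_Icc.2 ⟨le_rfl, hT⟩)
        omega)
    (by
      intro e l hl hl'
      have h1 : 16 * T ≤ w e := by
        have h2 := lt_of_lt_lev2 T (w e) 1 (by simp only [hb] at hl'; omega)
        rw [off_succ, off_zero, zero_add, zero_add] at h2
        have hK : KK T 1 = 64 * T := by unfold KK; ring
        omega
      simp only [hu, h1, if_true]
      have h3 := hsh_prefix T (w e) l hT
      have h4 := off_KK T (l - 1)
      rw [show l - 1 + 1 = l by omega] at h4
      obtain ⟨l', rfl⟩ : ∃ l', l = l' + 2 := ⟨l - 2, by omega⟩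
      have h5 : KK T (l' + 2) = 2 ^ (l' + 2) * 16 * T + 2 ^ (l' + 2) * 16 * T := by
        unfold KK; ring
      have h6 : 2 ^ (l' + 2) * 16 ≤ 2 ^ (l' + 2) * 16 * T := Nat.le_mul_of_pos_right _ (by omega)
      have h7 : 64 * T ≤ 2 ^ (l' + 2) * 16 * T := by
        refine Nat.mul_le_mul_right _ ?_
        have : 2 ^ (l' + 2) = 4 * 2 ^ l' := by ring
        have : 1 ≤ 2 ^ l' := Nat.one_le_two_pow
        omega
      omega)
    (by
      intro l hl hlS X f hlf hf
      change 4 * KK T l ≤ ∑ e ∈ dl s t X, u l e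
      have hfX : f ∈ dl s t X := mem_dl.2 hf
      obtain ⟨F, hF, hFmax⟩ := Finset.exists_max_image (dl s t X) w ⟨f, hfX⟩
      have hbF : l ≤ b F := hlf.trans (lev2_mono T _ _ hT (hFmax f hfX))
      have h1 := lt_of_lt_lev2 T (w F) (l - 1) (by simp only [hb] at hbF; omega)
      have h2 := off_KK T (l - 1)
      rw [show l - 1 + 1 = l by omega] at h2
      have hFpos : 0 < w F := by omega
      have hKF : 2 ≤ l → KK T l ≤ 4 * w F := by
        intro hl2
        obtain ⟨l', rfl⟩ : ∃ l', l = l' + 2 := ⟨l - 2, by omega⟩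
        have h3 : 128 * T ≤ KK T (l' + 2) := by
          rw [KK_succ, KK_succ]
          have := KK_pos T l'
          omega
        omega
      have hwin := hcut X F hF
      rw [← Finset.sum_filter_add_sum_filter_not ((dl s t X).filter (fun e => w F ≤ 2 ^ T * w e))
        (fun e => 16 * T ≤ w e)] at hwin
      set Hs := ((dl s t X).filter (fun e => w F ≤ 2 ^ T * w e)).filter (fun e => 16 * T ≤ w e)
        with hHs
      set Ls := ((dl s t X).filter (fun e => w F ≤ 2 ^ T * w e)).filter (fun e => ¬ 16 * T ≤ w e)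
        with hLs
      by_cases hcase : 256 * T * w F ≤ ∑ e ∈ Hs, w e
      · -- heavy
        have hsumpos : 0 < ∑ e ∈ Hs, w e := lt_of_lt_of_le (by positivity) hcase
        obtain ⟨e0, he0, _⟩ := Finset.exists_ne_zero_of_sum_ne_zero (by omega : ∑ e ∈ Hs, w e ≠ 0)
        have he0' := Finset.mem_filter.1 he0
        have he0'' := Finset.mem_filter.1 he0'.1
        have hFh : 16 * T ≤ w F := he0'.2.trans (hFmax e0 he0''.1)
        have hKF' : KK T l ≤ 4 * w F := by
          rcases Nat.eq_or_lt_of_le hl with h | h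
          · rw [← h]
            have hK : KK T 1 = 64 * T := by unfold KK; ring
            omega
          · exact hKF h
        have hsub : Hs ⊆ dl s t X := (Finset.filter_subset _ _).trans (Finset.filter_subset _ _)
        have h3 : ∑ e ∈ Hs, min (w e) (KK T l) ≤ 16 * T * ∑ e ∈ dl s t X, u l e := by
          calc ∑ e ∈ Hs, min (w e) (KK T l) ≤ ∑ e ∈ Hs, 16 * T * u l e := by
                refine Finset.sum_le_sum (fun e he => ?_)
                have he' := Finset.mem_filter.1 he
                have he'' := Finset.mem_filter.1 he'.1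
                simp only [hu]
                rw [if_pos he'.2]
                refine hsh_ge T (w e) l hT he'.2 ?_
                have := lev2_window T (w F) (w e) hT he''.2
                simp only [hb] at hbF
                omega
            _ = 16 * T * ∑ e ∈ Hs, u l e := by rw [Finset.mul_sum]
            _ ≤ _ := Nat.mul_le_mul_left _ (Finset.sum_le_sum_of_subset hsub)
        have h4 : 64 * T * KK T l ≤ ∑ e ∈ Hs, min (w e) (KK T l) := by
          rcases Nat.le_total (w F) (KK T l) with h | h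
          · have h5 : ∑ e ∈ Hs, min (w e) (KK T l) = ∑ e ∈ Hs, w e := by
              refine Finset.sum_congr rfl (fun e he => ?_)
              exact min_eq_left ((hFmax e (hsub he)).trans h)
            rw [h5]
            calc 64 * T * KK T l ≤ 64 * T * (4 * w F) := Nat.mul_le_mul_left _ hKF'
              _ = 256 * T * w F := by ring
              _ ≤ _ := hcase
          · have h5 : ∀ e ∈ Hs, KK T l * w e ≤ w F * min (w e) (KK T l) := by
              intro e he
              rcases Nat.le_total (w e) (KK T l) with h6 | h6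
              · rw [min_eq_left h6]
                exact Nat.mul_le_mul_right _ h
              · rw [min_eq_right h6, mul_comm]
                exact Nat.mul_le_mul_right _ (hFmax e (hsub he))
            have h6 := Finset.sum_le_sum h5
            rw [← Finset.mul_sum, ← Finset.mul_sum] at h6
            have h7 : KK T l * (256 * T * w F) ≤ w F * ∑ e ∈ Hs, min (w e) (KK T l) :=
              (Nat.mul_le_mul_left _ hcase).trans h6
            have h8 : w F * (256 * T * KK T l) ≤ w F * ∑ e ∈ Hs, min (w e) (KK T l) := by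
              calc w F * (256 * T * KK T l) = KK T l * (256 * T * w F) := by ring
                _ ≤ _ := h7
            have h9 := Nat.le_of_mul_le_mul_left h8 hFpos
            refine le_trans ?_ h9
            exact Nat.mul_le_mul_right _ (Nat.mul_le_mul_right _ (by norm_num))
        have h5 : 16 * T * (4 * KK T l) ≤ 16 * T * ∑ e ∈ dl s t X, u l e := by
          calc 16 * T * (4 * KK T l) = 64 * T * KK T l := by ring
            _ ≤ _ := h4
            _ ≤ _ := h3
        exact Nat.le_of_mul_le_mul_left h5 (by positivity)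
      · -- light
        have hTw : 512 * T * w F = 256 * T * w F + 256 * T * w F := by ring
        have hL : 256 * T * w F < ∑ e ∈ Ls, w e := by omega
        obtain ⟨e0, he0, he0n⟩ := Finset.exists_ne_zero_of_sum_ne_zero (by omega : ∑ e ∈ Ls, w e ≠ 0)
        have he0' := Finset.mem_filter.1 he0
        have he0'' := Finset.mem_filter.1 he0'.1
        have hFsm : w F ≤ 2 ^ T * (16 * T) :=
          he0''.2.trans (Nat.mul_le_mul_left _ (by omega))
        have hlT : l ≤ T := hbF.trans (lev2_light T (w F) hT hFsm)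
        have hlight : ∃ f ∈ dl s t X, 0 < w f ∧ w f < 16 * T :=
          ⟨e0, he0''.1, Nat.pos_of_ne_zero he0n, by omega⟩
        set ell := ∑ e ∈ (dl s t X).filter (fun e => w e < 16 * T), w e with hell
        have hLell : ∑ e ∈ Ls, w e ≤ ell := by
          refine Finset.sum_le_sum_of_subset ?_
          intro e he
          have he' := Finset.mem_filter.1 he
          have he'' := Finset.mem_filter.1 he'.1
          exact Finset.mem_filter.2 ⟨he''.1, by omega⟩
        have hHell : ∑ e ∈ (dl s t X).filter (fun e => ¬ w e < 16 * T), w e ≤ ∑ e ∈ Hs, w e := by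
          refine Finset.sum_le_sum_of_subset ?_
          intro e he
          have he' := Finset.mem_filter.1 he
          refine Finset.mem_filter.2 ⟨Finset.mem_filter.2 ⟨he'.1, ?_⟩, by omega⟩
          exact hFsm.trans (Nat.mul_le_mul_left _ (by omega))
        have htot := Finset.sum_filter_add_sum_filter_not (dl s t X) (fun e => w e < 16 * T) w
        have h3 : ∑ e ∈ dl s t X, w e ≤ 2 * ell := by omega
        have h4 : 8 * T * KK T l ≤ ell := by
          rcases Nat.eq_or_lt_of_le hl with h | h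
          · rw [← h]
            have hK : KK T 1 = 64 * T := by unfold KK; ring
            rw [hK]
            obtain ⟨f1, hf1, hf1p, hf1l⟩ := hlight
            have h5 := (hcut2 X f1 hf1 hf1p hf1l).2.2
            have h6 : 1024 * T * T ≤ 1024 * T * Λ := Nat.mul_le_mul_left _ hTΛ
            have h7 : 8 * T * (64 * T) * 2 = 1024 * T * T := by ring
            omega
          · have h5 := hKF h
            calc 8 * T * KK T l ≤ 8 * T * (4 * w F) := Nat.mul_le_mul_left _ h5
              _ = 32 * T * w F := by ring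
              _ ≤ 256 * T * w F := Nat.mul_le_mul_right _ (Nat.mul_le_mul_right _ (by norm_num))
              _ ≤ ell := by omega
        have h5 := hc3 l hl hlT X hlight h3 h4
        calc 4 * KK T l = 2 * (2 * KK T l) := by ring
          _ ≤ 2 * ∑ e ∈ (dl s t X).filter (fun e => w e < 16 * T), c l e :=
            Nat.mul_le_mul_left _ h5
          _ = ∑ e ∈ (dl s t X).filter (fun e => w e < 16 * T), u l e := by
              rw [Finset.mul_sum]
              refine Finset.sum_congr rfl (fun e he => ?_)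
              have he' := (Finset.mem_filter.1 he).2
              simp only [hu]
              rw [if_neg (by omega)]
          _ ≤ _ := Finset.sum_le_sum_of_subset (Finset.filter_subset _ _))
    (by
      intro X
      rw [hfilt]
      exact heven X)
  obtain ⟨H, h1, h2⟩ := key
  exact ⟨_, H, h1, h2⟩

end Pool.Agent.H46.Faith
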